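import Pool.Agent.Helper867_Rae.Defs

set_option autoImplicit false

/-! Exact statements of the lemmas (see the paper proof, papers.id = 54). -/

namespace Pool.Agent.Helper867_Rae

open Pool.Agent.TH62.PL

/-! ### section 1 -/

/-- Z1: commuting subgroups permuted by `P` without fixed point. `π` is the action of `P` on the
index set `ι`, written as a function `X → ι → ι`. -/
def S_Z1 : Prop :=
  ∀ (p l c0 : ℕ) [Fact p.Prime], Bd p l c0 →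
  ∀ (X : Type) [Group X] [Finite X], Group.IsSolvable X →
  ∀ (P : Subgroup X), UQ p P → Nat.card P ≤ p ^ (l + 1) →
  ∀ (ι : Type) [Finite ι] [MulAction P ι] (M : ι → Subgroup X),
    (∀ i : ι, ∃ x : P, x • i ≠ i) →
    (∀ (x : P) (i : ι) (y : X), y ∈ M i ↔ (x : X) * y * (x : X)⁻¹ ∈ M (x • i)) →
    (∀ i j, i ≠ j → ∀ x ∈ M i, ∀ y ∈ M j, x * y = y * x) →
    LM p c0 (⊥ : Subgroup (⨆ i, M i : Subgroup X))

/-- Lemma Z -/
def S_Z : Prop :=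
  ∀ (p l c0 : ℕ) [Fact p.Prime], Bd p l c0 →
  ∀ (X : Type) [Group X] [Finite X], Group.IsSolvable X →
  ∀ (P N R : Subgroup X), UQ p P → Nat.card P ≤ p ^ (l + 1) → N.Normal → R ≤ P → R ≠ ⊥ →
    LM p (p ^ (l + 1) * (c0 + 1)) ((⁅N, R⁆ : Subgroup X).subgroupOf N)

/-! ### section 2 -/

/-- Lemma C -/
def S_C : Prop :=
  ∀ (c : ℕ) (Y J : Type) [Group Y] [Finite Y] [Finite J] [MulAction Y J],
    Group.IsSolvable Y → MulAction.IsPretransitive Y J → 1 < Nat.card J →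
    (∃ D : Set Y, Subgroup.closure D = ⊤ ∧ (∀ y ∈ D, ∀ g : Y, g * y * g⁻¹ ∈ D) ∧
      ∀ y ∈ D, Set.ncard {j : J | y • j ≠ j} ≤ c) →
    Nat.card J ≤ 2 * c

/-- Lemma B0, faithful irreducible action on a finite abelian group. For an abelian normal `A` the
group decomposes into fixed point spaces. -/
def S_B0 : Prop :=
  ∀ c : ℕ, ∃ β : ℕ, ∀ (Y F : Type) [Group Y] [Finite Y] [AddCommGroup F] [Finite F]
    [DistribMulAction Y F], Group.IsSolvable Y →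
    (∀ y : Y, (∀ v : F, y • v = v) → y = 1) →
    (∀ W : AddSubgroup F, (∀ (y : Y), ∀ w ∈ W, y • w ∈ W) → W = ⊥ ∨ W = ⊤) →
    Subgroup.closure {y : Y | ∃ C : AddSubgroup F, (∀ v ∈ C, y • v = v) ∧ C.index ≤ c} = ⊤ →
    Nontrivial Y → Nat.card F ≤ β

/-- Lemma B, module form -/
def S_Bm : Prop :=
  ∀ (p c : ℕ) [Fact p.Prime], ∃ b : ℕ, ∀ (r : ℕ) (Y F : Type) [Group Y] [Finite Y]
    [AddCommGroup F] [Finite F] [DistribMulAction Y F], r.Prime → Group.IsSolvable Y →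
    (∀ v : F, r • v = 0) →
    Subgroup.closure {y : Y | ∃ C : AddSubgroup F, (∀ v ∈ C, y • v = v) ∧ C.index ≤ c} = ⊤ →
    ∀ W : Subgroup Y, (∀ y : Y, (∀ v : F, y • v = v) → y ∈ W) → LM p b W

/-- Lemma B, section form -/
def S_B : Prop :=
  ∀ (p c : ℕ) [Fact p.Prime], ∃ b : ℕ, ∀ (X : Type) [Group X] [Finite X], Group.IsSolvable X →
  ∀ (r : ℕ) (H M N : Subgroup X), r.Prime → N ≤ M → Inv H M → Inv H N →
    (∀ x ∈ M, ∀ y ∈ M, x * y * x⁻¹ * y⁻¹ ∈ N) → (∀ x ∈ M, x ^ r ∈ N) →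
    ∀ Y : Subgroup X, Y = Subgroup.closure {y : X | y ∈ H ∧ Sm M N y c} →
    ∀ W : Subgroup Y, (∀ y : Y, (∀ m ∈ M, (y : X) * m * (y : X)⁻¹ * m⁻¹ ∈ N) → y ∈ W) →
      LM p b W

/-! ### section 3 -/

/-- (C1) -/
def S_C1 : Prop :=
  ∀ (p l c0 : ℕ) [Fact p.Prime], Bd p l c0 → ∃ d : ℕ,
  ∀ (X : Type) [Group X] [Finite X], Group.IsSolvable X →
  ∀ (P K : Subgroup X), UQ p P → Nat.card P ≤ p ^ (l + 1) →
    (∀ g : X, ∃ x ∈ P, x ≠ 1 ∧ g⁻¹ * x * g ∈ K) → LM p d K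

/-! ### section 4 -/

/-- (D1): `n² ≤ (|P| - 1) dim End_P(W)`; the group is `P` itself -/
def S_D1 : Prop :=
  ∀ (p q : ℕ) [Fact p.Prime] [Fact q.Prime] (k P W : Type) [Field k] [CharP k q] [Group P]
    [Finite P] [AddCommGroup W] [Module k W] [FiniteDimensional k W]
    (ρ : P →* Module.End k W) (E : Submodule k (Module.End k W)), p ≠ q → IsPGroup p P →
    (∀ v : W, (∀ x : P, ρ x v = v) → v = 0) →
    (∀ φ : Module.End k W, φ ∈ E ↔ ∀ x : P, ρ x * φ = φ * ρ x) →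
    (Module.finrank k W) ^ 2 ≤ (Nat.card P - 1) * Module.finrank k E

/-- Lemma D -/
def S_D : Prop :=
  ∀ (p q : ℕ) [Fact p.Prime] [Fact q.Prime] (k G W : Type) [Field k] [CharP k q] [Group G]
    [Finite G] [AddCommGroup W] [Module k W] [FiniteDimensional k W] [Nontrivial W]
    (ρ : G →* Module.End k W) (P E E0 : Subgroup G), p ≠ q → IsPGroup p P →
    (∀ v : W, (∀ x ∈ P, ρ x v = v) → v = 0) → Inv P E → ((Nat.card E : ℕ) : k) ≠ 0 →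
    (∀ e : G, e ∈ E0 ↔ e ∈ E ∧ ∃ a : k, ρ e = a • (1 : Module.End k W)) →
    (∀ e ∈ E, ∀ f ∈ E, e * f * e⁻¹ * f⁻¹ ∈ E0) →
    (∀ e ∈ E, (∀ f ∈ E, ρ (e * f) = ρ (f * e)) → e ∈ E0) →
    ∃ x ∈ P, x ≠ 1 ∧ Sm E E0 x ((Nat.card P) ^ 2)

/-! ### section 5 -/

/-- (5a) -/
def S_C2a : Prop :=
  ∀ (p l d q : ℕ) [Fact p.Prime] [Fact q.Prime],
  (∀ (X : Type) [Group X] [Finite X], Group.IsSolvable X →
    ∀ (P K : Subgroup X), UQ p P → Nat.card P ≤ p ^ (l + 1) →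
    (∀ g : X, ∃ x ∈ P, x ≠ 1 ∧ g⁻¹ * x * g ∈ K) → LM p d K) →
  ∀ (k X V : Type) [Field k] [IsAlgClosed k] [CharP k q] [Group X] [Finite X] [AddCommGroup V]
    [Module k V] [FiniteDimensional k V] (ρ : X →* Module.End k V) (P A : Subgroup X), p ≠ q →
    Group.IsSolvable X → Function.Injective ρ →
    (∀ N : Subgroup X, N.Normal → IsPGroup q N → N = ⊥) → UQ p P → Nat.card P ≤ p ^ (l + 1) →
    (∀ v : V, (∀ x ∈ P, ρ x v = v) → v = 0) → A.Normal → (∀ a ∈ A, ∀ b ∈ A, a * b = b * a) →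
    LM p d (Subgroup.centralizer (A : Set X))

/-- (C2) -/
def S_C2 : Prop :=
  ∀ (p l c0 : ℕ) [Fact p.Prime], Bd p l c0 → ∃ d : ℕ,
  ∀ (q : ℕ) [Fact q.Prime] (k X V : Type) [Field k] [IsAlgClosed k] [CharP k q] [Group X]
    [Finite X] [AddCommGroup V] [Module k V] [FiniteDimensional k V]
    (ρ : X →* Module.End k V) (P : Subgroup X), p ≠ q →
    Group.IsSolvable X → Function.Injective ρ →
    (∀ N : Subgroup X, N.Normal → IsPGroup q N → N = ⊥) → UQ p P → Nat.card P ≤ p ^ (l + 1) →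
    (∀ v : V, (∀ x ∈ P, ρ x v = v) → v = 0) → LM p d (⊥ : Subgroup X)

/-! ### section 6 -/

/-- choice of the chief factor `L₁/L₂` -/
def S_R : Prop :=
  ∀ (p : ℕ) [Fact p.Prime] (X : Type) [Group X] [Finite X], Group.IsSolvable X →
  ∀ (S D : Subgroup X), IsPGroup p S → ¬ p ∣ S.index → D.Normal → ¬ FL {p} 0 ((⊥ : Subgroup D)) →
  ∃ (q : ℕ) (L₁ L₂ : Subgroup X), q.Prime ∧ q ≠ p ∧ L₁.Normal ∧ L₂.Normal ∧ L₂ ≤ L₁ ∧ L₂ ≠ L₁ ∧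
    (∀ Y : Subgroup X, Y.Normal → L₂ ≤ Y → Y ≤ L₁ → Y = L₁ ∨ Y = L₂) ∧
    (∀ x ∈ L₁, ∀ y ∈ L₁, x * y * x⁻¹ * y⁻¹ ∈ L₂) ∧ (∀ x ∈ L₁, x ^ q ∈ L₂) ∧
    (∃ d ∈ D, ∃ v ∈ L₁, d * v * d⁻¹ * v⁻¹ ∉ L₂) ∧
    (∀ v ∈ L₁, (∀ s ∈ S, s * v * s⁻¹ * v⁻¹ ∈ L₂) → v ∈ L₂)

/-- the action on a chief factor without fixed vector; hypothesis: the bound `d` of (C2) -/
def S_V : Prop :=
  ∀ (p l d : ℕ) [Fact p.Prime],
  (∀ (q : ℕ) [Fact q.Prime] (k X V : Type) [Field k] [IsAlgClosed k] [CharP k q] [Group X]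
    [Finite X] [AddCommGroup V] [Module k V] [FiniteDimensional k V]
    (ρ : X →* Module.End k V) (P : Subgroup X), p ≠ q →
    Group.IsSolvable X → Function.Injective ρ →
    (∀ N : Subgroup X, N.Normal → IsPGroup q N → N = ⊥) → UQ p P → Nat.card P ≤ p ^ (l + 1) →
    (∀ v : V, (∀ x ∈ P, ρ x v = v) → v = 0) → LM p d (⊥ : Subgroup X)) →
  ∀ (X : Type) [Group X] [Finite X], Group.IsSolvable X →
  ∀ (q : ℕ) (P L₁ L₂ W : Subgroup X), UQ p P → Nat.card P ≤ p ^ (l + 1) → q.Prime → q ≠ p →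
    L₁.Normal → L₂.Normal → L₂ ≤ L₁ → L₂ ≠ L₁ →
    (∀ Y : Subgroup X, Y.Normal → L₂ ≤ Y → Y ≤ L₁ → Y = L₁ ∨ Y = L₂) →
    (∀ x ∈ L₁, ∀ y ∈ L₁, x * y * x⁻¹ * y⁻¹ ∈ L₂) → (∀ x ∈ L₁, x ^ q ∈ L₂) →
    (∀ v ∈ L₁, (∀ s ∈ P, s * v * s⁻¹ * v⁻¹ ∈ L₂) → v ∈ L₂) →
    (∀ x : X, (∀ v ∈ L₁, x * v * x⁻¹ * v⁻¹ ∈ L₂) → x ∈ W) → LM p d W

/-! ### section 7 -/

/-- (M) -/
def S_M : Prop :=
  ∀ (p : ℕ) [Fact p.Prime] (Z : Type) [Group Z] [Finite Z] (n0 : ℕ),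
    Len {p} n0 (⊥ : Subgroup Z) → ∀ S : Subgroup Z, IsPGroup p S → ¬ p ∣ S.index →
    ∃ Y : Subgroup Z, S ≤ Y ∧ Group.IsSolvable Y ∧
      ∀ n, FL {p} n (⊥ : Subgroup Y) → FL {p} n (⊥ : Subgroup Z)

/-- Theorem F for `p`-soluble groups -/
def S_F : Prop :=
  ∀ (p l : ℕ) [Fact p.Prime], ∃ c : ℕ, ∀ (X : Type) [Group X] [Finite X],
    (∃ n, Len {p} n (⊥ : Subgroup X)) → ∀ P : Subgroup X, UQ p P → Nat.card P ≤ p ^ l →
      Len {p} c (⊥ : Subgroup X)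

end Pool.Agent.Helper867_Rae
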