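import Pool.Agent.Helper867_Rae.Base

set_option autoImplicit false

/-! More basic properties of `LM` and `UQ`. -/

namespace Pool.Agent.Helper867_Rae

open Pool.Agent.TH62.PL

lemma PN_compl {p : ℕ} (hp : p.Prime) {m : ℕ} (hm : m ≠ 0) (h : ¬ p ∣ m) : PN {p}ᶜ m :=
  ⟨hm, fun q _ hqm hqp => h (by rwa [Set.mem_singleton_iff.1 hqp] at hqm)⟩

section abelian
variable {p : ℕ} [hp : Fact p.Prime]

lemma Len_one_comm (Q : Type) [CommGroup Q] [Finite Q] : Len {p} 1 (⊥ : Subgroup Q) := by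
  let A : Subgroup Q :=
    { carrier := {x | ∃ m, PN {p}ᶜ m ∧ x ^ m = 1}
      one_mem' := ⟨1, PN.one _, one_pow _⟩
      mul_mem' := by
        rintro x y ⟨m, hm, hm'⟩ ⟨n, hn, hn'⟩
        refine ⟨m * n, hm.mul hn, ?_⟩
        rw [mul_pow, pow_mul, hm', one_pow, mul_comm m n, pow_mul, hn', one_pow, one_mul]
      inv_mem' := by
        rintro x ⟨m, hm, hm'⟩
        exact ⟨m, hm, by rw [inv_pow, hm', inv_one]⟩ }
  refine ⟨A, ⊤, inferInstance, inferInstance, bot_le, le_top, ?_, ?_, PF.refl ⊤⟩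
  · rintro x ⟨m, hm, hm'⟩
    exact ⟨m, hm, by rw [hm']; exact Subgroup.mem_bot.2 rfl⟩
  · intro x _
    have h0 : orderOf x ≠ 0 := (orderOf_pos x).ne'
    refine ⟨p ^ (orderOf x).factorization p, PN.prime_pow hp.out _, ordCompl[p] (orderOf x),
      PN_compl hp.out (Nat.ordCompl_pos p h0).ne' (Nat.not_dvd_ordCompl hp.out h0), ?_⟩
    rw [← pow_mul, Nat.ordProj_mul_ordCompl_eq_self, pow_orderOf_eq_one]

/-- (L7) -/
lemma LM.of_comm {G : Type} [Group G] [Finite G] {N : Subgroup G}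
    (h : ∀ x y : G, x * y * x⁻¹ * y⁻¹ ∈ N) : LM p 1 N := by
  have hle : commutator G ≤ N := by
    rw [commutator_def, Subgroup.commutator_le]
    intro x _ y _
    exact h x y
  have h1 : Len {p} 1 (⊥ : Subgroup (Abelianization G)) := Len_one_comm _
  have h2 := h1.comap (Abelianization.of : G →* Abelianization G)
  rw [MonoidHom.comap_bot, Abelianization.ker_of] at h2
  exact ⟨commutator G, inferInstance, hle, h2⟩

lemma LM.of_p {G : Type} [Group G] {N : Subgroup G} (hN : N.Normal) (h : PF {p} N ⊤) :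
    LM p 1 N :=
  ⟨N, hN, le_rfl, N, ⊤, hN, inferInstance, le_rfl, le_top, PF.refl N, h, PF.refl ⊤⟩

lemma LM.of_p' {G : Type} [Group G] {N : Subgroup G} (hN : N.Normal) (h : PF {p}ᶜ N ⊤) (n : ℕ) :
    LM p n N :=
  LM.mono_n (p := p) (n := 0) ⟨N, hN, le_rfl, h⟩ (Nat.zero_le n)

lemma PF_of_isPGroup {G : Type} [Group G] {H : Subgroup G} (h : IsPGroup p H) : PF {p} ⊥ H := by
  intro x hx
  obtain ⟨k, hk⟩ := h ⟨x, hx⟩
  refine ⟨p ^ k, PN.prime_pow hp.out k, ?_⟩
  have := congrArg Subtype.val hk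
  simpa using this

lemma isPGroup_of_PF {G : Type} [Group G] {H : Subgroup G} (h : PF {p} ⊥ H) : IsPGroup p H := by
  rintro ⟨x, hx⟩
  obtain ⟨m, hm, hm'⟩ := h x hx
  obtain ⟨k, rfl⟩ := hm.eq_prime_pow
  exact ⟨k, Subtype.ext (by simpa using hm')⟩

/-- (L8) -/
lemma LM.of_commuting {G : Type} [Group G] {n : ℕ} {ι : Type} [Finite ι] {M : ι → Subgroup G}
    (hc : ∀ i j, i ≠ j → ∀ x ∈ M i, ∀ y ∈ M j, x * y = y * x)
    (h : ∀ i, LM p n (⊥ : Subgroup (M i))) : LM p n (⊥ : Subgroup (⨆ i, M i : Subgroup G)) := by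
  classical
  have := Fintype.ofFinite ι
  have hc' : Pairwise fun i j : ι => ∀ x y : G, x ∈ M i → y ∈ M j → Commute x y :=
    fun i j hij x y hx hy => hc i j hij x hx y hy
  let f := Subgroup.noncommPiCoprod hc'
  have hr : f.range = ⨆ i, M i := Subgroup.noncommPiCoprod_range
  have h1 : LM p n (⊥ : Subgroup (∀ i, M i)) := by
    have h2 : LM p n (⨅ i, (⊥ : Subgroup (M i)).comap (Pi.evalMonoidHom (fun i => M i) i)) :=
      LM.iInf fun i => (h i).comap _
    refine h2.mono ?_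
    intro x hx
    rw [Subgroup.mem_iInf] at hx
    rw [Subgroup.mem_bot]
    funext i
    exact Subgroup.mem_bot.1 (hx i)
  have h3 := h1.map f.rangeRestrict f.rangeRestrict_surjective
  rw [Subgroup.map_bot] at h3
  rw [← hr]
  exact h3

/-- (L9) -/
lemma LM.of_solvable (n : ℕ) : ∀ (G : Type) [Group G] [Finite G], Group.IsSolvable G →
    Nat.card G ≤ n → LM p n (⊥ : Subgroup G) := by
  induction n with
  | zero => intro G _ _ _ h; have := Nat.card_pos (α := G); omega
  | succ n ih =>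
    intro G _ _ hG hn
    rcases subsingleton_or_nontrivial G with hs | hnt
    · refine (LM.top (p := p) (n + 1)).mono ?_
      intro x _
      rw [Subgroup.mem_bot]; exact Subsingleton.elim _ _
    · have hlt : commutator G < ⊤ := Group.IsSolvable.commutator_lt_top_of_nontrivial G
      have hcard : Nat.card (commutator G) < Nat.card G := by
        have h1 : (commutator G).index ≠ 1 := by
          rw [Ne, Subgroup.index_eq_one]; exact hlt.ne
        have h2 := (commutator G).card_mul_index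
        have h3 : (commutator G).index ≠ 0 := Subgroup.index_ne_zero_of_finite
        have h4 : 2 ≤ (commutator G).index := by omega
        have h5 : 0 < Nat.card (commutator G) := Nat.card_pos
        nlinarith
      have h1 : LM p n (⊥ : Subgroup (commutator G)) := by
        refine ih _ ?_ (by omega)
        infer_instance
      have h2 : LM p 1 (commutator G) := LM.of_comm fun x y =>
        Subgroup.commutator_mem_commutator (Subgroup.mem_top x) (Subgroup.mem_top y)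
      have h3 : LM p (n + 1) ((⊥ : Subgroup G) ⊓ commutator G) := by
        refine LM.ext inferInstance ?_ h2
        rw [Subgroup.bot_subgroupOf]
        exact h1
      rwa [bot_inf_eq] at h3

end abelian

section UQ
variable {G : Type} [Group G] {p : ℕ}

lemma UQ.pg {P : Subgroup G} (h : UQ p P) : IsPGroup p P := h.1

/-- the Sylow subgroup -/
lemma UQ.sylow [Fact p.Prime] [Finite G] {P : Subgroup G} (h : UQ p P) :
    ∃ S : Sylow p G, P ≤ S ∧ ∀ T : Subgroup G, IsPGroup p T → P ≤ T → T ≤ (S : Subgroup G) := by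
  obtain ⟨h1, S, h2, h3⟩ := h
  obtain ⟨Q, hQ⟩ := h2.exists_le_sylow
  exact ⟨Q, (h3 P h1 le_rfl).trans hQ, fun T hT hPT => (h3 T hT hPT).trans hQ⟩

/-- (U1) -/
lemma UQ.subgroupOf {P Y : Subgroup G} (h : UQ p P) (hY : P ≤ Y) : UQ p (P.subgroupOf Y) := by
  obtain ⟨h1, S, h2, h3⟩ := h
  refine ⟨h1.comap_subtype, S.subgroupOf Y, h2.comap_subtype, fun T hT hPT => ?_⟩
  have h4 : T.map Y.subtype ≤ S := by
    refine h3 _ (hT.map _) ?_
    intro x hx
    exact ⟨⟨x, hY hx⟩, hPT hx, rfl⟩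
  intro x hx
  exact h4 ⟨x, hx, rfl⟩

/-- (U4) -/
lemma UQ.mono {P P' : Subgroup G} (h : UQ p P) (hP : P ≤ P') (hP' : IsPGroup p P') :
    UQ p P' := by
  obtain ⟨h1, S, h2, h3⟩ := h
  exact ⟨hP', S, h2, fun T hT hPT => h3 T hT (hP.trans hPT)⟩

/-- (U2) -/
lemma UQ.map [hp : Fact p.Prime] [Finite G] {H : Type} [Group H] {P : Subgroup G} (h : UQ p P)
    (f : G →* H) (hf : Function.Surjective f) : UQ p (P.map f) := by
  obtain ⟨h1, S, h2, h3⟩ := h
  have hfin : Finite H := Finite.of_surjective f hf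
  refine ⟨h1.map f, S.map f, h2.map f, fun T hT hPT => ?_⟩
  -- a Sylow subgroup of the preimage, containing `P`
  set Y := T.comap f with hY
  have hPY : P ≤ Y := Subgroup.map_le_iff_le_comap.1 hPT
  have h4 : IsPGroup p (P.subgroupOf Y) := h1.comap_subtype
  obtain ⟨Q, hQ⟩ := h4.exists_le_sylow
  set Q' := (Q : Subgroup Y).map Y.subtype with hQ'
  have hQS : Q' ≤ S := by
    refine h3 _ (Q.2.map _) ?_
    intro x hx
    exact ⟨⟨x, hPY hx⟩, hQ hx, rfl⟩
  -- `Q'` covers `T`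
  let g : Y →* T := f.subgroupComap T
  have hg : Function.Surjective g := by
    rintro ⟨t, ht⟩
    obtain ⟨x, rfl⟩ := hf t
    exact ⟨⟨x, ht⟩, rfl⟩
  have h5 : ((Q : Subgroup Y).map g).index ∣ (Q : Subgroup Y).index :=
    Subgroup.index_map_dvd _ hg
  have h6 : ((Q : Subgroup Y).map g).index = 1 := by
    by_contra hne
    obtain ⟨n, hn⟩ := (hT.index ((Q : Subgroup Y).map g))
    have hn0 : n ≠ 0 := by
      rintro rfl
      exact hne (by rw [hn, pow_zero])
    have h7 : p ∣ (Q : Subgroup Y).index := (dvd_pow_self p hn0).trans (hn ▸ h5)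
    exact Sylow.not_dvd_index Q h7
  rw [Subgroup.index_eq_one] at h6
  intro t ht
  have h8 : (⟨t, ht⟩ : T) ∈ (Q : Subgroup Y).map g := by rw [h6]; trivial
  obtain ⟨y, hy, hy'⟩ := h8
  refine ⟨y, hQS ⟨y, hy, rfl⟩, ?_⟩
  exact congrArg Subtype.val hy'

/-- (U3) -/
lemma UQ.conj {P : Subgroup G} (h : UQ p P) (g : G) :
    UQ p (P.map (MulAut.conj g).toMonoidHom) := by
  obtain ⟨h1, S, h2, h3⟩ := h
  refine ⟨h1.map _, S.map (MulAut.conj g).toMonoidHom, h2.map _, fun T hT hPT => ?_⟩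
  have h4 : T.map (MulAut.conj g⁻¹).toMonoidHom ≤ S := by
    refine h3 _ (hT.map _) ?_
    intro x hx
    refine ⟨g * x * g⁻¹, hPT ⟨x, hx, by simp⟩, by simp [mul_assoc]⟩
  intro x hx
  exact ⟨g⁻¹ * x * g, h4 ⟨x, hx, by simp⟩, by simp [mul_assoc]⟩

/-- (U5) -/
lemma UQ.commute {P L S : Subgroup G} (hS : IsPGroup p S)
    (hmax : ∀ T : Subgroup G, IsPGroup p T → P ≤ T → T ≤ S)
    (hPS : P ≤ S) (hL : L.Normal) (hSL : S ⊓ L = ⊥) {u : G} (hu : u ∈ L)
    (hP : ∀ x ∈ P, u * x = x * u) : ∀ s ∈ S, u * s = s * u := by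
  have h1 : S.map (MulAut.conj u).toMonoidHom ≤ S := by
    refine hmax _ (hS.map _) ?_
    intro x hx
    refine ⟨x, hPS hx, ?_⟩
    change u * x * u⁻¹ = x
    rw [hP x hx]; group
  intro s hs
  have h2 : u * s * u⁻¹ ∈ S := h1 ⟨s, hs, rfl⟩
  have h3 : u * s * u⁻¹ * s⁻¹ ∈ S ⊓ L := by
    refine ⟨S.mul_mem h2 (S.inv_mem hs), ?_⟩
    have : u * s * u⁻¹ * s⁻¹ = u * (s * u⁻¹ * s⁻¹) := by group
    rw [this]
    exact L.mul_mem hu (hL.conj_mem _ (L.inv_mem hu) s)
  rw [hSL, Subgroup.mem_bot] at h3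
  have h4 : u * s = s * u := by
    have h5 : u * s = (u * s * u⁻¹ * s⁻¹) * (s * u) := by group
    rw [h5, h3, one_mul]
  exact h4

end UQ

/-- a nontrivial normal subgroup of a finite `p`-group meets the centre nontrivially -/
theorem meet_center {p : ℕ} [Fact p.Prime] {P : Type*} [Group P] [Finite P] (hP : IsPGroup p P)
    (M : Subgroup P) [hM : M.Normal] (hne : M ≠ ⊥) : ∃ x ∈ M, x ≠ 1 ∧ ∀ g : P, g * x = x * g := by
  let _ : MulAction P M := MulAction.compHom M (MulAut.conjNormal : P →* MulAut M)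
  have hp : p ∣ Nat.card M := by
    have h1 : Nontrivial M := (Subgroup.nontrivial_iff_ne_bot M).2 hne
    obtain ⟨n, hn, h2⟩ := (hP.to_subgroup M).nontrivial_iff_card.1 h1
    rw [h2]
    exact dvd_pow_self p hn.ne'
  have h1 : (1 : M) ∈ MulAction.fixedPoints P M := by
    intro g
    exact map_one (MulAut.conjNormal g : MulAut M)
  obtain ⟨b, hb, hb'⟩ := hP.exists_fixed_point_of_prime_dvd_card_of_fixed_point M hp h1
  refine ⟨b, b.2, ?_, ?_⟩
  · intro h
    exact hb' (Subtype.ext h.symm)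
  · intro g
    have h2 : (MulAut.conjNormal g b : M) = b := hb g
    have h3 : (g * (b : P) * g⁻¹) = b := by
      rw [← MulAut.conjNormal_apply, h2]
    calc g * (b : P) = (g * (b : P) * g⁻¹) * g := by group
      _ = b * g := by rw [h3]

/-- a proper image of a `p`-group of order `≤ p ^ (l+1)` has order `≤ p ^ l` -/
lemma card_map_le {p l : ℕ} [hp : Fact p.Prime] {X H : Type} [Group X] [Finite X] [Group H]
    {P : Subgroup X} (hP : IsPGroup p P) (hcard : Nat.card P ≤ p ^ (l + 1)) (f : X →* H)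
    {z : X} (hz : z ∈ P) (hz1 : z ≠ 1) (hfz : f z = 1) : Nat.card (P.map f) ≤ p ^ l := by
  have hsur := f.subgroupMap_surjective P
  have hfin : Finite (P.map f) := Finite.of_surjective _ hsur
  have hle : Nat.card (P.map f) ≤ Nat.card P := Nat.card_le_card_of_surjective _ hsur
  have hne : Nat.card (P.map f) ≠ Nat.card P := by
    intro he
    have hinj : Function.Injective (f.subgroupMap P) := by
      have h1 : Function.Bijective (f.subgroupMap P) :=
        (Nat.bijective_iff_surjective_and_card _).2 ⟨hsur, he.symm⟩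
      exact h1.1
    have h2 : (f.subgroupMap P) ⟨z, hz⟩ = (f.subgroupMap P) 1 := by
      apply Subtype.ext
      simpa using hfz
    exact hz1 (congrArg Subtype.val (hinj h2))
  obtain ⟨n, hn⟩ := hP.exists_card_eq
  obtain ⟨m, hm⟩ := (hP.map f).exists_card_eq
  have hlt := lt_of_le_of_ne hle hne
  rw [hn, hm] at hlt
  have hmn : m < n := (Nat.pow_lt_pow_iff_right hp.out.one_lt).1 hlt
  rw [hn] at hcard
  have hnl : n ≤ l + 1 := (Nat.pow_le_pow_iff_right hp.out.one_lt).1 hcard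
  rw [hm]
  exact Nat.pow_le_pow_right hp.out.pos (by omega)

/-- solvable finite group, `N` normal proper: a larger normal subgroup with elementary abelian
quotient -/
lemma exists_chief {X : Type} [Group X] [Finite X] (hX : Group.IsSolvable X) (N : Subgroup X)
    (hN : N.Normal) (hne : N ≠ ⊤) :
    ∃ (r : ℕ) (N' : Subgroup X), r.Prime ∧ N'.Normal ∧ N ≤ N' ∧ N ≠ N' ∧
      (∀ x ∈ N', ∀ y ∈ N', x * y * x⁻¹ * y⁻¹ ∈ N) ∧ (∀ x ∈ N', x ^ r ∈ N) := by
  classical
  have hnt : Nontrivial (X ⧸ N) := QuotientGroup.nontrivial_iff.2 hne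
  obtain ⟨M, hM⟩ := Set.Finite.exists_minimal
    (Set.toFinite {M : Subgroup (X ⧸ N) | M.Normal ∧ M ≠ ⊥}) ⟨⊤, inferInstance, top_ne_bot⟩
  have hMn := hM.1.1
  have hab : ⁅M, M⁆ = ⊥ := by
    by_contra hcon
    have h1 : ⁅M, M⁆ < M := Group.IsSolvable.commutator_lt_of_ne_bot hM.1.2
    exact absurd (hM.2 ⟨inferInstance, hcon⟩ h1.le) (not_le_of_gt h1)
  have hcomm : ∀ x ∈ M, ∀ y ∈ M, x * y = y * x := by
    intro x hx y hy
    have h1 := Subgroup.commutator_mem_commutator hx hy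
    rw [hab, Subgroup.mem_bot, commutatorElement_def] at h1
    have h2 : x * y = (x * y * x⁻¹ * y⁻¹) * (y * x) := by group
    rw [h2, h1, one_mul]
  have hcard : Nat.card M ≠ 1 := fun h => hM.1.2 (Subgroup.card_eq_one.1 h)
  obtain ⟨r, hr, hrM⟩ := Nat.exists_prime_and_dvd hcard
  have := Fact.mk hr
  obtain ⟨x, hx⟩ := exists_prime_orderOf_dvd_card' r hrM
  let R : Subgroup (X ⧸ N) :=
    { carrier := {y | y ∈ M ∧ y ^ r = 1}
      one_mem' := ⟨M.one_mem, one_pow _⟩
      mul_mem' := by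
        rintro a b ⟨ha, ha'⟩ ⟨hb, hb'⟩
        refine ⟨M.mul_mem ha hb, ?_⟩
        have hc : Commute a b := hcomm a ha b hb
        rw [hc.mul_pow, ha', hb', one_mul]
      inv_mem' := by
        rintro a ⟨ha, ha'⟩
        exact ⟨M.inv_mem ha, by rw [inv_pow, ha', inv_one]⟩ }
  have hRn : R.Normal := ⟨by
    rintro a ⟨ha, ha'⟩ g
    exact ⟨hMn.conj_mem a ha g, by rw [conj_pow, ha', mul_one, mul_inv_cancel]⟩⟩
  refine ⟨r, R.comap (QuotientGroup.mk' N), hr, hRn.comap _, ?_, ?_, ?_, ?_⟩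
  · intro y hy
    have : (QuotientGroup.mk' N) y = 1 := (QuotientGroup.eq_one_iff y).2 hy
    rw [Subgroup.mem_comap, this]; exact R.one_mem
  · intro he
    obtain ⟨y, hy⟩ := QuotientGroup.mk'_surjective N (x : X ⧸ N)
    have h1 : y ∈ R.comap (QuotientGroup.mk' N) := by
      rw [Subgroup.mem_comap, hy]
      refine ⟨x.2, ?_⟩
      have h2 : x ^ r = 1 := by rw [← hx]; exact pow_orderOf_eq_one x
      have h3 := congrArg Subtype.val h2
      simpa using h3
    rw [← he] at h1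
    have h2 : (x : X ⧸ N) = 1 := by rw [← hy]; exact (QuotientGroup.eq_one_iff y).2 h1
    have h3 : x = 1 := Subtype.ext h2
    rw [h3, orderOf_one] at hx
    exact hr.one_lt.ne hx
  · intro a ha b hb
    rw [← QuotientGroup.eq_one_iff]
    have h1 := hcomm _ ha.1 _ hb.1
    change (QuotientGroup.mk' N) (a * b * a⁻¹ * b⁻¹) = 1
    rw [map_mul, map_mul, map_mul, map_inv, map_inv, h1]; group
  · intro a ha
    rw [← QuotientGroup.eq_one_iff]
    have h1 := ha.2
    change (QuotientGroup.mk' N) (a ^ r) = 1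
    rw [map_pow]; exact h1

end Pool.Agent.Helper867_Rae
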