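import Pool.Agent.Helper867_Rae.Base2
import Pool.Agent.Helper867_Rae.Stmts

set_option autoImplicit false

/-! The inductive step of Theorem F and the reduction to soluble groups. -/

namespace Pool.Agent.Helper867_Rae

open Pool.Agent.TH62.PL

/-- the elements acting trivially on the section `M / N` -/
def CS {G : Type} [Group G] (M N : Subgroup G) (hM : M.Normal) (hNM : N ≤ M) : Subgroup G where
  carrier := {x | ∀ m ∈ M, x * m * x⁻¹ * m⁻¹ ∈ N}
  one_mem' := by intro m _; simp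
  mul_mem' := by
    intro x y hx hy m hm
    have h1 : y * m * y⁻¹ * m⁻¹ ∈ N := hy m hm
    have h2 := hx _ (hNM h1)
    have h3 := hx m hm
    have e : x * y * m * (x * y)⁻¹ * m⁻¹ =
        (x * (y * m * y⁻¹ * m⁻¹) * x⁻¹ * (y * m * y⁻¹ * m⁻¹)⁻¹) * (y * m * y⁻¹ * m⁻¹) *
          (x * m * x⁻¹ * m⁻¹) := by group
    rw [e]
    exact N.mul_mem (N.mul_mem h2 h1) h3
  inv_mem' := by
    intro x hx m hm
    have h1 : x⁻¹ * m * x ∈ M := by
      have := hM.conj_mem m hm x⁻¹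
      rwa [inv_inv] at this
    have h2 := N.inv_mem (hx _ h1)
    have e : x⁻¹ * m * x⁻¹⁻¹ * m⁻¹ = (x * (x⁻¹ * m * x) * x⁻¹ * (x⁻¹ * m * x)⁻¹)⁻¹ := by group
    rw [e]; exact h2

lemma exists_min (p d : ℕ) (X : Type) [Group X] [Finite X] :
    ∃ D : Subgroup X, D.Normal ∧ Len {p} d D ∧
      ∀ N : Subgroup X, LM p d N → D ≤ N := by
  classical
  refine ⟨⨅ N : {N : Subgroup X // N.Normal ∧ Len {p} d N}, N.1, ?_, ?_, ?_⟩
  · exact Subgroup.normal_iInf_normal fun N => N.2.1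
  · have : Finite {N : Subgroup X // N.Normal ∧ Len {p} d N} := inferInstance
    exact Len.iInf fun N => N.2.2
  · rintro N ⟨A, hA, hAN, hA'⟩
    exact (iInf_le (fun N : {N : Subgroup X // N.Normal ∧ Len {p} d N} => N.1) ⟨A, hA, hA'⟩).trans
      hAN

theorem step (h2 : S_C2) (hR : S_R) (hV : S_V) (p l c0 : ℕ) [hp : Fact p.Prime]
    (h0 : Bd p l c0) : ∃ c, Bd p (l + 1) c := by
  obtain ⟨d, hd⟩ := h2 p l c0 h0
  refine ⟨1 + d, ?_⟩
  intro X _ _ hX P hP hcard
  obtain ⟨D, hD, hDlen, hDmin⟩ := exists_min p d X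
  by_cases hcl : FL {p} 0 ((⊥ : Subgroup D))
  · have h3 : LM p 1 (⊥ : Subgroup D) := LM.of_Len inferInstance (hcl.toLen inferInstance)
    have h4 : LM p (1 + d) ((⊥ : Subgroup X) ⊓ D) := by
      refine LM.ext hD ?_ (LM.of_Len hD hDlen)
      rw [Subgroup.bot_subgroupOf]
      exact h3
    rwa [bot_inf_eq] at h4
  · exfalso
    obtain ⟨S, hPS, hmax⟩ := hP.sylow
    obtain ⟨q, L₁, L₂, hq, hqp, hL₁, hL₂, hle, hne, hchief, hab, hpow, ⟨x, hxD, v, hv, hxv⟩, hfix⟩ :=
      hR p X hX (S : Subgroup X) D S.2 (Sylow.not_dvd_index S) hD hcl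
    have h5 := hV p l d (fun q _ k X V _ _ _ _ _ _ _ _ ρ P a b c e f g h =>
      hd q k X V ρ P a b c e f g h) X hX q P L₁ L₂ (CS L₁ L₂ hL₁ hle) hP hcard hq hqp hL₁ hL₂ hle
      hne hchief hab hpow ?_ (fun x hx => hx)
    · exact hxv (hDmin _ h5 hxD v hv)
    · -- fixed points of `P`
      intro v hv hvP
      apply hfix v hv
      intro s hs
      -- work modulo `L₂`
      have hmk : Function.Surjective (QuotientGroup.mk' L₂) := QuotientGroup.mk'_surjective L₂
      have hU := hP.map (QuotientGroup.mk' L₂) hmk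
      obtain ⟨T, hPT, hTmax⟩ := hU.sylow
      have hL1n : (L₁.map (QuotientGroup.mk' L₂)).Normal := hL₁.map _ hmk
      have hST : (S : Subgroup X).map (QuotientGroup.mk' L₂) ≤ T :=
        hTmax _ (S.2.map _) (Subgroup.map_mono hPS)
      have hqq : Fact q.Prime := ⟨hq⟩
      have hdisj : (T : Subgroup (X ⧸ L₂)) ⊓ L₁.map (QuotientGroup.mk' L₂) = ⊥ := by
        have hq1 : IsPGroup q (L₁.map (QuotientGroup.mk' L₂)) := by
          rintro ⟨_, y, hy, rfl⟩
          refine ⟨1, ?_⟩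
          apply Subtype.ext
          have := (QuotientGroup.eq_one_iff (y ^ q)).2 (hpow y hy)
          simpa using this
        have := IsPGroup.disjoint_of_ne p q hqp.symm _ _ T.2 hq1
        exact disjoint_iff.1 this
      have h6 := UQ.commute (p := p) T.2 hTmax hPT hL1n hdisj
        (u := QuotientGroup.mk' L₂ v) ⟨v, hv, rfl⟩ (by
          rintro _ ⟨y, hy, rfl⟩
          have h7 := (QuotientGroup.eq_one_iff (N := L₂) (y * v * y⁻¹ * v⁻¹)).2 (hvP y hy)
          have h8 : (QuotientGroup.mk' L₂) (y * v * y⁻¹ * v⁻¹) = 1 := h7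
          rw [map_mul, map_mul, map_mul, map_inv, map_inv] at h8
          have h9 : (QuotientGroup.mk' L₂) y * (QuotientGroup.mk' L₂) v =
              ((QuotientGroup.mk' L₂) y * (QuotientGroup.mk' L₂) v * ((QuotientGroup.mk' L₂) y)⁻¹ *
                ((QuotientGroup.mk' L₂) v)⁻¹) * ((QuotientGroup.mk' L₂) v *
                (QuotientGroup.mk' L₂) y) := by group
          rw [h9, h8, one_mul])
      have h7 := h6 _ (hST ⟨s, hs, rfl⟩)
      rw [← QuotientGroup.eq_one_iff]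
      change (QuotientGroup.mk' L₂) (s * v * s⁻¹ * v⁻¹) = 1
      rw [map_mul, map_mul, map_mul, map_inv, map_inv, ← h7]; group

theorem bd_zero (p : ℕ) [hp : Fact p.Prime] : Bd p 0 1 := by
  intro X _ _ hX P hP hcard
  have hP1 : P = ⊥ := by
    rw [pow_zero] at hcard
    have : Nat.card P = 1 := le_antisymm hcard Nat.card_pos
    exact Subgroup.card_eq_one.1 this
  obtain ⟨S, hPS, hmax⟩ := hP.sylow
  have hn : (S : Subgroup X).Normal := by
    refine ⟨fun x hx g => ?_⟩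
    have h1 : (S : Subgroup X).map (MulAut.conj g).toMonoidHom ≤ S :=
      hmax _ (S.2.map _) (by rw [hP1]; exact bot_le)
    exact h1 ⟨x, hx, rfl⟩
  rw [LM_bot_iff]
  refine Len.step inferInstance hn bot_le (PF_of_isPGroup S.2) ?_
  change PF {p}ᶜ (S : Subgroup X) ⊤
  rw [PF.iff_relIndex (Inv.of_normal _ hn), Subgroup.relIndex_top_right]
  exact PN_compl hp.out Subgroup.index_ne_zero_of_finite (Sylow.not_dvd_index S)

theorem bd_all (h2 : S_C2) (hR : S_R) (hV : S_V) (p : ℕ) [hp : Fact p.Prime] (l : ℕ) :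
    ∃ c, Bd p l c := by
  induction l with
  | zero => exact ⟨1, bd_zero p⟩
  | succ l ih =>
    obtain ⟨c0, h0⟩ := ih
    exact step h2 hR hV p l c0 h0

theorem thmF (h2 : S_C2) (hR : S_R) (hV : S_V) (hM : S_M) : S_F := by
  intro p l hp
  obtain ⟨c, hc⟩ := bd_all h2 hR hV p l
  refine ⟨c + 1, ?_⟩
  rintro X _ _ ⟨n0, hn0⟩ P hP hcard
  obtain ⟨S, hPS, hmax⟩ := hP.sylow
  obtain ⟨Y, hSY, hY, hYn⟩ := hM p X n0 hn0 (S : Subgroup X) S.2 (Sylow.not_dvd_index S)
  have h1 : UQ p (P.subgroupOf Y) := hP.subgroupOf (hPS.trans hSY)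
  have h2' : Nat.card (P.subgroupOf Y) ≤ p ^ l := by
    have : Nat.card (P.subgroupOf Y) = Nat.card P :=
      Nat.card_congr (Subgroup.subgroupOfEquivOfLe (hPS.trans hSY)).toEquiv
    rw [this]; exact hcard
  have h3 := hc Y hY _ h1 h2'
  rw [LM_bot_iff] at h3
  exact (hYn c (h3.toFL inferInstance)).toLen inferInstance

end Pool.Agent.Helper867_Rae
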