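/- JOB for MP_ecbc8a_al (owner helper867), name RAE B section form.
All modules used here are on origin/main (they compile; Base/Base2 are proved toolkits):
  cd /workdir/pool/outputs/live && git fetch -q && git archive origin/main Pool/Agent/Helper867_Rae Pool/Agent/TH62 Pool/Agent/TH84 Pool/Agent/TH777 Pool/Agent/TH365 Pool/Agent/TH350 Pool/Agent/Helper407 | tar x -C /workdir/pool
  cd /workdir/pool && lake build Pool.Agent.Helper867_Rae.Base2 Pool.Agent.Helper867_Rae.Stmts3 Pool.Agent.Helper867_Rae.Stmts2
Definitions: Helper867_Rae/Defs.lean (LM, UQ, Sm, Bd, LF, UQi, HUQ), TH62/PL/Defs.lean (PN, PF, Len, FL, Inv). The exact statement S_xxx is in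
Helper867_Rae/Stmts.lean, Stmts2.lean or Stmts3.lean: read it first. Toolkit: Base.lean, Base2.lean (LM.mono, mono_n, comap, map, inf, iInf, normalCore,
conj, absorb, sub, subgroupOf, LM.ext (L6), LM.of_comm (L7), LM.of_commuting, LM.of_solvable, UQ.sylow, UQ.subgroupOf, UQ.map, UQ.conj, UQ.commute,
exists_chief, meet_center, card_map_le, PF_of_isPGroup, isPGroup_of_PF, PN_compl), TH62/PL/Basic.lean, TH62/PL/Hall.lean. Whole paper proof: papers.id = 54.
Keep the target statement unchanged; return one file with a namespace of your own choice is fine, e.g. the one below. No sorry, standard axioms only.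

PROOF:
Translation. F := Additive (M / N.subgroupOf M) (abelian because [M,M] <= N; N normal in M), killed by r. Y <= H (closure of elements of H) normalises M and N, acts on F by conjugation (DistribMulAction). An element y with Sm M N y c: the subgroup C <= M of index <= c with [y,m] in N for m in C gives the image of C in F, fixed by y, of index <= c. The set {y : Y | ...} of S_Bm contains the generators of Y, so its closure is top. Conclusion is immediate.
-/
import Pool.Agent.Helper867_Rae.Base2
import Pool.Agent.Helper867_Rae.Stmts3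

set_option autoImplicit false

namespace Pool.Agent.Helper867_Rae.JobB

open Pool.Agent.TH62.PL Pool.Agent.Helper867_Rae


section
variable {X : Type} [Group X] (M N Y : Subgroup X)

/-- conjugation by an element of `Y` on `M` -/
def cj (hYM : ∀ y ∈ Y, ∀ m ∈ M, y * m * y⁻¹ ∈ M) (y : Y) : M →* M where
  toFun m := ⟨(y : X) * m * (y : X)⁻¹, hYM y y.2 m m.2⟩
  map_one' := by ext; simp
  map_mul' a b := by ext; simp [mul_assoc]

lemma cj_le (hYM : ∀ y ∈ Y, ∀ m ∈ M, y * m * y⁻¹ ∈ M) (hYN : ∀ y ∈ Y, ∀ m ∈ N, y * m * y⁻¹ ∈ N)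
    (y : Y) : N.subgroupOf M ≤ (N.subgroupOf M).comap (cj M Y hYM y) := by
  intro m hm
  rw [Subgroup.mem_comap, Subgroup.mem_subgroupOf]
  exact hYN y y.2 m (Subgroup.mem_subgroupOf.1 hm)

lemma nrm (hc : ∀ x ∈ M, ∀ y ∈ M, x * y * x⁻¹ * y⁻¹ ∈ N) : (N.subgroupOf M).Normal := by
  constructor
  intro n hn g
  rw [Subgroup.mem_subgroupOf] at hn ⊢
  have h1 := hc g g.2 n n.2
  have h2 := N.mul_mem h1 hn
  simpa [mul_assoc] using h2

/-- the section as a commutative group -/
@[reducible] def grp (hc : ∀ x ∈ M, ∀ y ∈ M, x * y * x⁻¹ * y⁻¹ ∈ N) : 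
    haveI := nrm M N hc; CommGroup (M ⧸ N.subgroupOf M) :=
  haveI := nrm M N hc
  { (inferInstance : Group (M ⧸ N.subgroupOf M)) with
    mul_comm := by
      intro a b
      induction a using QuotientGroup.induction_on with
      | H a =>
      induction b using QuotientGroup.induction_on with
      | H b =>
      show ((a * b : M) : M ⧸ N.subgroupOf M) = ((b * a : M) : M ⧸ N.subgroupOf M)
      rw [eq_comm, QuotientGroup.eq, Subgroup.mem_subgroupOf]
      have h1 := hc _ (M.inv_mem a.2) _ (M.inv_mem b.2)
      simpa [mul_assoc] using h1 }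
end

theorem target : S_Bm → S_B := by
  intro hBm p c _
  obtain ⟨b, hb⟩ := hBm p c
  refine ⟨b, ?_⟩
  intro X _ _ hX r H M N hr hNM hHM hHN hc hpow Y hY W hW
  have hYH : Y ≤ H := by
    rw [hY, Subgroup.closure_le]
    exact fun y hy => hy.1
  have hYM : ∀ y ∈ Y, ∀ m ∈ M, y * m * y⁻¹ ∈ M := fun y hy m hm => hHM y (hYH hy) m hm
  have hYN : ∀ y ∈ Y, ∀ m ∈ N, y * m * y⁻¹ ∈ N := fun y hy m hm => hHN y (hYH hy) m hm
  haveI := nrm M N hc
  letI i0 : CommGroup (M ⧸ N.subgroupOf M) := grp M N hc
  let act : Y → (M ⧸ N.subgroupOf M) →* (M ⧸ N.subgroupOf M) := fun y =>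
    QuotientGroup.map (N.subgroupOf M) (N.subgroupOf M) (cj M Y hYM y) (cj_le M N Y hYM hYN y)
  have hact : ∀ (y : Y) (m : M), act y (m : M ⧸ N.subgroupOf M) = ((cj M Y hYM y m : M) : M ⧸ N.subgroupOf M) :=
    fun y m => rfl
  letI i1 : DistribMulAction Y (Additive (M ⧸ N.subgroupOf M)) :=
    { smul := fun y v => Additive.ofMul (act y v.toMul)
      one_smul := by
        intro v
        show Additive.ofMul (act 1 v.toMul) = v
        obtain ⟨m, hm⟩ := QuotientGroup.mk_surjective (Additive.toMul v)
        have e : cj M Y hYM 1 m = m := by ext; simp [cj]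
        rw [← hm, hact, e, hm]
        rfl
      mul_smul := by
        intro x y v
        show Additive.ofMul (act (x * y) v.toMul) = Additive.ofMul (act x (act y v.toMul))
        obtain ⟨m, hm⟩ := QuotientGroup.mk_surjective (Additive.toMul v)
        rw [← hm, hact, hact, hact]
        congr 2
        ext
        simp [cj, mul_assoc]
      smul_zero := by
        intro y
        show Additive.ofMul (act y 1) = 0
        rw [map_one]; rfl
      smul_add := by
        intro y v w
        show Additive.ofMul (act y (v.toMul * w.toMul)) = _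
        rw [map_mul]; rfl }
  have hsm : ∀ (y : Y) (m : M), y • (Additive.ofMul (m : M ⧸ N.subgroupOf M)) =
      Additive.ofMul ((cj M Y hYM y m : M) : M ⧸ N.subgroupOf M) := fun y m => rfl
  have hYs : Group.IsSolvable Y := by
    haveI := hX
    infer_instance
  -- fixed elements
  have hfix : ∀ (y : Y) (m : M), (y : X) * m * (y : X)⁻¹ * (m : X)⁻¹ ∈ N ↔
      y • (Additive.ofMul (m : M ⧸ N.subgroupOf M)) = Additive.ofMul (m : M ⧸ N.subgroupOf M) := by
    intro y m
    rw [hsm]
    constructor
    · intro h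
      congr 1
      rw [QuotientGroup.eq_iff_div_mem, Subgroup.mem_subgroupOf]
      simpa [cj, div_eq_mul_inv] using h
    · intro h
      have h2 : ((cj M Y hYM y m : M) : M ⧸ N.subgroupOf M) = (m : M ⧸ N.subgroupOf M) :=
        Additive.ofMul.injective h
      rw [QuotientGroup.eq_iff_div_mem, Subgroup.mem_subgroupOf] at h2
      simpa [cj, div_eq_mul_inv] using h2
  refine hb r Y (Additive (M ⧸ N.subgroupOf M)) hr hYs ?_ ?_ W ?_
  · intro v
    obtain ⟨m, hm⟩ := QuotientGroup.mk_surjective (Additive.toMul v)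
    have e : v = Additive.ofMul (m : M ⧸ N.subgroupOf M) := by rw [hm]; rfl
    rw [e, ← ofMul_pow]
    have : ((m : M ⧸ N.subgroupOf M)) ^ r = 1 := by
      rw [← QuotientGroup.mk_pow, QuotientGroup.eq_one_iff, Subgroup.mem_subgroupOf]
      exact hpow m m.2
    rw [this]; rfl
  · subst hY
    rw [eq_top_iff, ← Subgroup.closure_closure_coe_preimage (k := {y : X | y ∈ H ∧ Sm M N y c})]
    apply Subgroup.closure_mono
    rintro y ⟨-, C, hC1, hC2, hC3⟩
    refine ⟨Subgroup.toAddSubgroup ((C.subgroupOf M).map (QuotientGroup.mk' (N.subgroupOf M))), ?_, ?_⟩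
    · intro v hv
      obtain ⟨m, hm, hmv⟩ := hv
      have e : v = Additive.ofMul (m : M ⧸ N.subgroupOf M) := by
        have : Additive.toMul v = (m : M ⧸ N.subgroupOf M) := hmv.symm
        rw [← this]; rfl
      rw [e, ← hfix]
      exact hC2 m (Subgroup.mem_subgroupOf.1 hm)
    · rw [Subgroup.index_toAddSubgroup]
      refine (Nat.le_of_dvd ?_ (Subgroup.index_map_dvd (C.subgroupOf M)
        (QuotientGroup.mk'_surjective (N.subgroupOf M)))).trans hC3
      exact Nat.pos_of_ne_zero Subgroup.index_ne_zero_of_finite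
  · intro y hy
    apply hW
    intro m hm
    exact (hfix y ⟨m, hm⟩).2 (hy _)

end Pool.Agent.Helper867_Rae.JobB
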