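import Pool.Agent.Helper867_Rae.Stmts

set_option autoImplicit false

/-! More exact statements for section 5. -/

namespace Pool.Agent.Helper867_Rae

open Pool.Agent.TH62.PL

/-- the conclusion of (C1) with the bound `d` -/
def C1B (p l d : ℕ) : Prop :=
  ∀ (X : Type) [Group X] [Finite X], Group.IsSolvable X →
    ∀ (P K : Subgroup X), UQ p P → Nat.card P ≤ p ^ (l + 1) →
    (∀ g : X, ∃ x ∈ P, x ≠ 1 ∧ g⁻¹ * x * g ∈ K) → LM p d K

/-- the conclusion of Lemma B (section form) for `c` with the bound `b` -/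
def BB (p c b : ℕ) : Prop :=
  ∀ (X : Type) [Group X] [Finite X], Group.IsSolvable X →
  ∀ (r : ℕ) (H M N : Subgroup X), r.Prime → N ≤ M → Inv H M → Inv H N →
    (∀ x ∈ M, ∀ y ∈ M, x * y * x⁻¹ * y⁻¹ ∈ N) → (∀ x ∈ M, x ^ r ∈ N) →
    ∀ Y : Subgroup X, Y = Subgroup.closure {y : X | y ∈ H ∧ Sm M N y c} →
    ∀ W : Subgroup Y, (∀ y : Y, (∀ m ∈ M, (y : X) * m * (y : X)⁻¹ * m⁻¹ ∈ N) → y ∈ W) →
      LM p b W

/-- the hypotheses of (C2) on a representation `ρ : X → End V` and `P ≤ X` -/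
structure Ctx (p l q : ℕ) {k X V : Type} [Field k] [Group X] [AddCommGroup V] [Module k V]
    (ρ : X →* Module.End k V) (P : Subgroup X) : Prop where
  pq : p ≠ q
  sol : Group.IsSolvable X
  inj : Function.Injective ρ
  oq : ∀ N : Subgroup X, N.Normal → IsPGroup q N → N = ⊥
  uq : UQ p P
  card : Nat.card P ≤ p ^ (l + 1)
  fix : ∀ v : V, (∀ x ∈ P, ρ x v = v) → v = 0

/-- (5c), first half: a subspace `W`, given by an idempotent operator `e` with image `W`, such that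
the elements `e ∈ E` act on `W`, those acting as scalars form a proper subgroup `E₀`, and for every
`g` the group `g⁻¹ P g` has a nontrivial element stabilising `W` with small action on `E / E₀`.
`H` is the stabiliser of `W`. -/
def S_C2w : Prop :=
  ∀ (p l q : ℕ) [Fact p.Prime] [Fact q.Prime] (k X V : Type) [Field k] [IsAlgClosed k]
    [CharP k q] [Group X] [Finite X] [AddCommGroup V] [Module k V] [FiniteDimensional k V]
    (ρ : X →* Module.End k V) (P : Subgroup X), Ctx p l q ρ P →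
  ∀ (r : ℕ) (E Z : Subgroup X), r.Prime → E.Normal → Z.Normal → Z ≤ E → Z ≠ E →
    (∀ e : X, e ∈ Z ↔ e ∈ E ∧ ∀ f ∈ E, e * f = f * e) →
    (∀ e ∈ E, ∀ f ∈ E, e * f * e⁻¹ * f⁻¹ ∈ Z) → (∀ e ∈ E, e ^ r ∈ Z) →
    ∃ H E₀ : Subgroup X, Z ≤ E₀ ∧ E₀ ≤ E ∧ E₀ ≠ E ∧ Inv H E₀ ∧
      ∀ g : X, ∃ x ∈ P, x ≠ 1 ∧ g⁻¹ * x * g ∈ H ∧ Sm E E₀ (g⁻¹ * x * g) (p ^ (2 * l + 2))

/-- (5c): the bound for `C_X(E/Z)` -/
def S_C2c : Prop :=
  ∀ (p l q d b : ℕ) [Fact p.Prime] [Fact q.Prime], C1B p l d → BB p (p ^ (2 * l + 2)) b →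
  ∀ (k X V : Type) [Field k] [IsAlgClosed k]
    [CharP k q] [Group X] [Finite X] [AddCommGroup V] [Module k V] [FiniteDimensional k V]
    (ρ : X →* Module.End k V) (P : Subgroup X), Ctx p l q ρ P →
  ∀ (r : ℕ) (E Z : Subgroup X), r.Prime → E.Normal → Z.Normal → Z ≤ E → Z ≠ E →
    (∀ e : X, e ∈ Z ↔ e ∈ E ∧ ∀ f ∈ E, e * f = f * e) →
    (∀ e ∈ E, ∀ f ∈ E, e * f * e⁻¹ * f⁻¹ ∈ Z) → (∀ e ∈ E, e ^ r ∈ Z) →
    (∀ Y : Subgroup X, Y.Normal → Y ≤ E → Y = E ∨ Y ≤ Z) →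
    ∀ W : Subgroup X, (∀ x : X, (∀ e ∈ E, x * e * x⁻¹ * e⁻¹ ∈ Z) → x ∈ W) → LM p (b + d) W

/-- (5a) in terms of `Ctx` -/
def S_C2a' : Prop :=
  ∀ (p l q d : ℕ) [Fact p.Prime] [Fact q.Prime], C1B p l d →
  ∀ (k X V : Type) [Field k] [IsAlgClosed k]
    [CharP k q] [Group X] [Finite X] [AddCommGroup V] [Module k V] [FiniteDimensional k V]
    (ρ : X →* Module.End k V) (P : Subgroup X), Ctx p l q ρ P →
  ∀ A : Subgroup X, A.Normal → (∀ a ∈ A, ∀ b ∈ A, a * b = b * a) →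
    LM p d (Subgroup.centralizer (A : Set X))

end Pool.Agent.Helper867_Rae
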