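import Pool.Agent.Helper867_Rae.Base2
import Pool.Agent.Helper867_Rae.Stmts3

set_option autoImplicit false

namespace Pool.Agent.Helper867_Rae.JobBm

open Pool.Agent.TH62.PL Pool.Agent.Helper867_Rae

/-- the conclusion of B0 for `c` with bound `β` -/
def B0P (c β : ℕ) : Prop :=
  ∀ (Y F : Type) [Group Y] [Finite Y] [AddCommGroup F] [Finite F]
    [DistribMulAction Y F], Group.IsSolvable Y →
    (∀ y : Y, (∀ v : F, y • v = v) → y = 1) →
    (∀ W : AddSubgroup F, (∀ (y : Y), ∀ w ∈ W, y • w ∈ W) → W = ⊥ ∨ W = ⊤) →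
    Subgroup.closure {y : Y | ∃ C : AddSubgroup F, (∀ v ∈ C, y • v = v) ∧ C.index ≤ c} = ⊤ →
    Nontrivial Y → Nat.card F ≤ β

/-- the set of elements with small action -/
def Sml {Y F : Type} [Group Y] [AddCommGroup F] (ρ : Y →* AddMonoid.End F) (c : ℕ) : Set Y :=
  {y : Y | ∃ C : AddSubgroup F, (∀ v ∈ C, ρ y v = v) ∧ C.index ≤ c}

/-- the quotient by the kernel acts -/
def kl {Y F : Type} [Group Y] [AddCommGroup F] (ρ : Y →* AddMonoid.End F) :
    Y ⧸ ρ.ker →* AddMonoid.End F :=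
  QuotientGroup.lift ρ.ker ρ (fun _ hx => hx)

/-- the action of the quotient -/
@[reducible]
def qact {Y F : Type} [Group Y] [AddCommGroup F] (ρ : Y →* AddMonoid.End F) :
    DistribMulAction (Y ⧸ ρ.ker) F :=
  DistribMulAction.compHom F (kl ρ)

theorem qfaith {Y F : Type} [Group Y] [AddCommGroup F] (ρ : Y →* AddMonoid.End F)
    (q : Y ⧸ ρ.ker) (hq : ∀ v : F, kl ρ q v = v) : q = 1 := by
  obtain ⟨y, rfl⟩ := QuotientGroup.mk_surjective q
  rw [QuotientGroup.eq_one_iff, MonoidHom.mem_ker]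
  refine AddMonoidHom.ext fun v => ?_
  exact hq v

/-- irreducible case -/
theorem irr {c β : ℕ} (h : B0P c β) {Y F : Type} [Group Y] [Finite Y] [AddCommGroup F] [Finite F]
    (hY : Group.IsSolvable Y) (ρ : Y →* AddMonoid.End F)
    (hirr : ∀ W : AddSubgroup F, (∀ (y : Y), ∀ w ∈ W, ρ y w ∈ W) → W = ⊥ ∨ W = ⊤)
    (hgen : Subgroup.closure (Sml ρ c) = ⊤) (hnt : ρ.ker ≠ ⊤) : Nat.card F ≤ β := by
  let _ : DistribMulAction (Y ⧸ ρ.ker) F := qact ρ
  have hsol : Group.IsSolvable (Y ⧸ ρ.ker) := inferInstance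
  refine h (Y ⧸ ρ.ker) F hsol ?_ ?_ ?_ (QuotientGroup.nontrivial_iff.2 hnt)
  · intro q hq
    exact qfaith ρ q hq
  · intro W hW
    exact hirr W (fun y w hw => hW (y : Y ⧸ ρ.ker) w hw)
  · rw [eq_top_iff]
    have h1 : (Subgroup.closure (Sml ρ c)).map (QuotientGroup.mk' ρ.ker) = ⊤ := by
      rw [hgen]
      exact Subgroup.map_top_of_surjective _ (QuotientGroup.mk'_surjective ρ.ker)
    rw [← h1, MonoidHom.map_closure]
    apply Subgroup.closure_mono
    rintro _ ⟨y, ⟨C, hC, hC'⟩, rfl⟩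
    exact ⟨C, fun v hv => hC v hv, hC'⟩

/-- bound for the kernel -/
theorem ker_LM {p : ℕ} [Fact p.Prime] {β : ℕ} {Y F : Type} [Group Y] [Finite Y] [AddCommGroup F]
    [Finite F] (hY : Group.IsSolvable Y) (ρ : Y →* AddMonoid.End F)
    (hβ : ρ.ker ≠ ⊤ → Nat.card F ≤ β) : LM p (Nat.factorial β) ρ.ker := by
  by_cases hk : ρ.ker = ⊤
  · rw [hk]; exact LM.top _
  · have hb := hβ hk
    have hcard : Nat.card (Y ⧸ ρ.ker) ≤ Nat.factorial β := by
      let _ : DistribMulAction (Y ⧸ ρ.ker) F := qact ρ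
      have hinj : Function.Injective (MulAction.toPermHom (Y ⧸ ρ.ker) F) := by
        rw [injective_iff_map_eq_one]
        intro q hq
        apply qfaith ρ q
        intro v
        exact congrArg (fun e : Equiv.Perm F => e v) hq
      have h1 := Nat.card_le_card_of_injective _ hinj
      rw [Nat.card_perm] at h1
      exact h1.trans (Nat.factorial_le hb)
    have hsol : Group.IsSolvable (Y ⧸ ρ.ker) := inferInstance
    have h2 := (LM.of_solvable (p := p) _ (Y ⧸ ρ.ker) hsol hcard).comap (QuotientGroup.mk' ρ.ker)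
    rw [MonoidHom.comap_bot, QuotientGroup.ker_mk'] at h2
    exact h2

/-- restriction to an invariant subgroup -/
def res {Y F : Type} [Group Y] [AddCommGroup F] (ρ : Y →* AddMonoid.End F) (F1 : AddSubgroup F)
    (h : ∀ y, ∀ v ∈ F1, ρ y v ∈ F1) : Y →* AddMonoid.End F1 where
  toFun y :=
    { toFun := fun v => ⟨ρ y v, h y v v.2⟩
      map_zero' := Subtype.ext (by simp)
      map_add' := fun v w => Subtype.ext (by simp) }
  map_one' := by
    refine AddMonoidHom.ext fun v => Subtype.ext ?_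
    change ρ 1 (v : F) = v
    rw [map_one]; rfl
  map_mul' y z := by
    refine AddMonoidHom.ext fun v => Subtype.ext ?_
    change ρ (y * z) (v : F) = ρ y (ρ z v)
    rw [map_mul]; rfl

/-- the quotient by an invariant subgroup -/
def quo {Y F : Type} [Group Y] [AddCommGroup F] (ρ : Y →* AddMonoid.End F) (F1 : AddSubgroup F)
    (h : ∀ y, ∀ v ∈ F1, ρ y v ∈ F1) : Y →* AddMonoid.End (F ⧸ F1) where
  toFun y := QuotientAddGroup.map F1 F1 (ρ y : F →+ F) (fun v hv => h y v hv)
  map_one' := by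
    refine AddMonoidHom.ext fun v => ?_
    obtain ⟨v, rfl⟩ := QuotientAddGroup.mk_surjective v
    change ((ρ 1 v : F) : F ⧸ F1) = (v : F ⧸ F1)
    rw [map_one]; rfl
  map_mul' y z := by
    refine AddMonoidHom.ext fun v => ?_
    obtain ⟨v, rfl⟩ := QuotientAddGroup.mk_surjective v
    change ((ρ (y * z) v : F) : F ⧸ F1) = ((ρ y (ρ z v) : F) : F ⧸ F1)
    rw [map_mul]; rfl

theorem claim (p : ℕ) [Fact p.Prime] {c β : ℕ} (h : B0P c β) (r : ℕ)
    {Y : Type} [Group Y] [Finite Y] (hY : Group.IsSolvable Y) : ∀ (n : ℕ) (F : Type)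
    [AddCommGroup F] [Finite F] (ρ : Y →* AddMonoid.End F), Nat.card F ≤ n →
    (∀ v : F, r • v = 0) → Subgroup.closure (Sml ρ c) = ⊤ →
    ∃ U : Subgroup Y, U.Normal ∧ LM p (Nat.factorial β) U ∧
      ∀ u ∈ U, ∃ k, ∀ v, ρ (u ^ (r ^ k)) v = v := by
  intro n
  induction n with
  | zero =>
    intro F _ _ ρ hn _ _
    have := Nat.card_pos (α := F)
    omega
  | succ n ih =>
    intro F _ _ ρ hn hr hgen
    rcases subsingleton_or_nontrivial F with hs | hnt
    · exact ⟨⊤, inferInstance, LM.top _, fun u _ => ⟨0, fun v => Subsingleton.elim _ _⟩⟩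
    · obtain ⟨F1, hF1⟩ := Set.Finite.exists_minimal
        (Set.toFinite {M : AddSubgroup F | (∀ y, ∀ v ∈ M, ρ y v ∈ M) ∧ M ≠ ⊥})
        ⟨⊤, fun _ _ _ => trivial, top_ne_bot⟩
      have hinv := hF1.1.1
      -- the quotient
      have hcard : Nat.card (F ⧸ F1) ≤ n := by
        have h1 := F1.card_mul_index
        have h2 : Nat.card F1 ≠ 1 := fun h => hF1.1.2 (AddSubgroup.card_eq_one.1 h)
        have h3 : 0 < Nat.card F1 := Nat.card_pos
        have h4 : 0 < F1.index := Nat.pos_of_ne_zero AddSubgroup.index_ne_zero_of_finite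
        rw [← AddSubgroup.index_eq_card]
        nlinarith [show 2 ≤ Nat.card F1 by omega]
      have hgen2 : Subgroup.closure (Sml (quo ρ F1 hinv) c) = ⊤ := by
        rw [eq_top_iff, ← hgen]
        apply Subgroup.closure_mono
        rintro y ⟨C, hC, hC'⟩
        refine ⟨C.map (QuotientAddGroup.mk' F1), ?_, ?_⟩
        · rintro _ ⟨v, hv, rfl⟩
          change QuotientAddGroup.mk' F1 (ρ y v) = _
          rw [hC v hv]
        · refine le_trans (Nat.le_of_dvd ?_
            (AddSubgroup.index_map_dvd C (QuotientAddGroup.mk'_surjective F1))) hC'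
          exact Nat.pos_of_ne_zero AddSubgroup.index_ne_zero_of_finite
      have hr2 : ∀ v : F ⧸ F1, r • v = 0 := by
        intro v
        obtain ⟨v, rfl⟩ := QuotientAddGroup.mk_surjective v
        rw [← QuotientAddGroup.mk_nsmul, hr, QuotientAddGroup.mk_zero]
      obtain ⟨U', hU', hLU, hU⟩ := ih (F ⧸ F1) (quo ρ F1 hinv) hcard hr2 hgen2
      -- the subgroup
      have hgen1 : Subgroup.closure (Sml (res ρ F1 hinv) c) = ⊤ := by
        rw [eq_top_iff, ← hgen]
        apply Subgroup.closure_mono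
        rintro y ⟨C, hC, hC'⟩
        refine ⟨C.addSubgroupOf F1, ?_, ?_⟩
        · intro v hv
          exact Subtype.ext (hC v hv)
        · refine le_trans (Nat.le_of_dvd ?_ (AddSubgroup.relIndex_dvd_index_of_normal C F1)) hC'
          exact Nat.pos_of_ne_zero AddSubgroup.index_ne_zero_of_finite
      have hirr : ∀ W : AddSubgroup F1, (∀ (y : Y), ∀ w ∈ W, res ρ F1 hinv y w ∈ W) →
          W = ⊥ ∨ W = ⊤ := by
        intro W hW
        by_cases hb : W = ⊥
        · exact Or.inl hb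
        · right
          have h1 : W.map F1.subtype ∈
              {M : AddSubgroup F | (∀ y, ∀ v ∈ M, ρ y v ∈ M) ∧ M ≠ ⊥} := by
            refine ⟨?_, ?_⟩
            · rintro y _ ⟨w, hw, rfl⟩
              exact ⟨res ρ F1 hinv y w, hW y w hw, rfl⟩
            · intro h2
              apply hb
              rw [eq_bot_iff]
              intro w hw
              have h3 : (w : F) ∈ W.map F1.subtype := ⟨w, hw, rfl⟩
              rw [h2] at h3
              exact Subtype.ext h3
          have h2 := hF1.2 h1 (by rintro _ ⟨w, hw, rfl⟩; exact w.2)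
          rw [eq_top_iff]
          rintro ⟨w, hw⟩ _
          obtain ⟨w', hw', he⟩ := h2 hw
          have : w' = ⟨w, hw⟩ := Subtype.ext he
          rwa [this] at hw'
      have hK := ker_LM (p := p) hY (res ρ F1 hinv) (irr h hY _ hirr hgen1)
      refine ⟨U' ⊓ (res ρ F1 hinv).ker, Subgroup.normal_inf_normal _ _, hLU.inf hK, ?_⟩
      rintro u ⟨hu1, hu2⟩
      obtain ⟨k, hk⟩ := hU u hu1
      refine ⟨k + 1, ?_⟩
      intro v
      set w := u ^ (r ^ k) with hw
      have hwK : w ∈ (res ρ F1 hinv).ker := Subgroup.pow_mem _ hu2 _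
      have hw1 : ∀ x ∈ F1, ρ w x = x := by
        intro x hx
        have h1 := DFunLike.congr_fun (MonoidHom.mem_ker.1 hwK) (⟨x, hx⟩ : F1)
        exact congrArg Subtype.val h1
      have hw2 : ρ w v - v ∈ F1 := by
        have h1 := hk (v : F ⧸ F1)
        have h2 : ((ρ w v : F) : F ⧸ F1) = (v : F ⧸ F1) := h1
        rw [← QuotientAddGroup.eq_zero_iff, QuotientAddGroup.mk_sub, h2, sub_self]
      have hj : ∀ j : ℕ, ρ (w ^ j) v = v + j • (ρ w v - v) := by
        intro j
        induction j with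
        | zero => simp
        | succ j ihj =>
          have e : ρ (w ^ (j + 1)) v = ρ w (ρ (w ^ j) v) := by
            rw [pow_succ', map_mul]; rfl
          rw [e, ihj, map_add, map_nsmul, hw1 _ hw2, succ_nsmul]
          abel
      rw [pow_succ, pow_mul, ← hw, hj r, hr, add_zero]

theorem target : S_B0 → S_Bm := by
  intro h p c _
  obtain ⟨β, hβ⟩ := h c
  refine ⟨1 + Nat.factorial β, ?_⟩
  intro r Y F _ _ _ _ _ hr hY hrF hgen W hW
  let ρ : Y →* AddMonoid.End F := DistribMulAction.toAddMonoidEnd Y F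
  obtain ⟨U, hU, hLU, hU'⟩ := claim p hβ r hY (Nat.card F) F ρ le_rfl hrF hgen
  have hKW : ρ.ker ≤ W := by
    intro y hy
    apply hW
    intro v
    exact DFunLike.congr_fun (MonoidHom.mem_ker.1 hy) v
  have hpow : ∀ u ∈ U, ∃ k, u ^ (r ^ k) ∈ ρ.ker := by
    intro u hu
    obtain ⟨k, hk⟩ := hU' u hu
    refine ⟨k, ?_⟩
    rw [MonoidHom.mem_ker]
    ext v
    exact hk v
  have h1 : LM p 1 (ρ.ker.subgroupOf U) := by
    have hp : p.Prime := Fact.out
    by_cases hrp : r = p
    · subst hrp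
      refine LM.of_p inferInstance ?_
      rintro ⟨u, hu⟩ _
      obtain ⟨k, hk⟩ := hpow u hu
      exact ⟨r ^ k, PN.prime_pow hp k, hk⟩
    · refine LM.of_p' inferInstance ?_ 1
      rintro ⟨u, hu⟩ _
      obtain ⟨k, hk⟩ := hpow u hu
      refine ⟨r ^ k, PN_compl hp (pow_ne_zero _ hr.ne_zero) ?_, hk⟩
      intro hd
      exact hrp ((Nat.prime_dvd_prime_iff_eq hp hr).1 (hp.dvd_of_dvd_pow hd)).symm
  exact (LM.ext hU h1 hLU).mono (inf_le_left.trans hKW)

end Pool.Agent.Helper867_Rae.JobBm
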