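import Pool.Agent.Helper867_Rae.Base2
import Pool.Agent.Helper867_Rae.Stmts3

set_option autoImplicit false

namespace Pool.Agent.Helper867_Rae.JobC2

open Pool.Agent.TH62.PL Pool.Agent.Helper867_Rae

/-- the elements acting trivially on the section `M / N` -/
def CS' {G : Type} [Group G] (M N : Subgroup G) (hM : M.Normal) (hNM : N ≤ M) : Subgroup G where
  carrier := {x | ∀ m ∈ M, x * m * x⁻¹ * m⁻¹ ∈ N}
  one_mem' := by intro m _; simp
  mul_mem' := by
    intro x y hx hy m hm
    have h1 : y * m * y⁻¹ * m⁻¹ ∈ N := hy m hm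
    have h2 := hx _ (hNM h1)
    have h3 := hx m hm
    have e : x * y * m * (x * y)⁻¹ * m⁻¹ =
        (x * (y * m * y⁻¹ * m⁻¹) * x⁻¹ * (y * m * y⁻¹ * m⁻¹)⁻¹) * (y * m * y⁻¹ * m⁻¹) *
          (x * m * x⁻¹ * m⁻¹) := by group
    rw [e]
    exact N.mul_mem (N.mul_mem h2 h1) h3
  inv_mem' := by
    intro x hx m hm
    have h1 : x⁻¹ * m * x ∈ M := by
      have := hM.conj_mem m hm x⁻¹
      rwa [inv_inv] at this
    have h2 := N.inv_mem (hx _ h1)
    have e : x⁻¹ * m * x⁻¹⁻¹ * m⁻¹ = (x * (x⁻¹ * m * x) * x⁻¹ * (x⁻¹ * m * x)⁻¹)⁻¹ := by group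
    rw [e]; exact h2

/-- in a normal nontrivial soluble finite `E` whose proper `X`-normal subgroups lie in `Z₀`:
commutators and `r`-th powers lie in `Z₀` for some prime `r` -/
lemma sec {X : Type} [Group X] [Finite X] (hX : Group.IsSolvable X) {E Z₀ : Subgroup X}
    (hE : E.Normal) (hE0 : E ≠ ⊥) (hmin : ∀ Y : Subgroup X, Y.Normal → Y ≤ E → Y = E ∨ Y ≤ Z₀) :
    ∃ r : ℕ, r.Prime ∧ (∀ e ∈ E, ∀ f ∈ E, e * f * e⁻¹ * f⁻¹ ∈ Z₀) ∧ ∀ e ∈ E, e ^ r ∈ Z₀ := by
  classical
  have hlt : ⁅E, E⁆ < E := Group.IsSolvable.commutator_lt_of_ne_bot hE0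
  have hne : commutator E ≠ ⊤ := by
    intro h
    have h1 : (commutator E).map E.subtype = ⁅E, E⁆ := by
      rw [commutator_def, Subgroup.map_commutator, ← MonoidHom.range_eq_map, Subgroup.range_subtype]
    rw [h, ← MonoidHom.range_eq_map, Subgroup.range_subtype] at h1
    exact hlt.ne h1.symm
  have hcard : Nat.card (Abelianization E) ≠ 1 := by
    intro h
    apply hne
    rw [← Subgroup.index_eq_one]
    exact h
  obtain ⟨r, hr, hrd⟩ := Nat.exists_prime_and_dvd hcard
  have : Fact r.Prime := ⟨hr⟩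
  let pw : Abelianization E →* Abelianization E := powMonoidHom r
  let Y₀ : Subgroup E := pw.range.comap Abelianization.of
  have hchar : Y₀.Characteristic := by
    refine Subgroup.characteristic_iff_le_comap.2 ?_
    rintro φ x ⟨a, ha⟩
    refine ⟨Abelianization.map φ.toMonoidHom a, ?_⟩
    change (Abelianization.map φ.toMonoidHom a) ^ r = Abelianization.of (φ x)
    have ha' : a ^ r = Abelianization.of x := ha
    rw [← map_pow, ha']
    rfl
  have hn : (Y₀.map E.subtype).Normal := ConjAct.normal_of_characteristic_of_normal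
  have hle : Y₀.map E.subtype ≤ E := by
    rintro _ ⟨x, _, rfl⟩; exact x.2
  have hZ : Y₀.map E.subtype ≤ Z₀ := by
    rcases hmin _ hn hle with h | h
    · exfalso
      have htop : Y₀ = ⊤ := by
        rw [eq_top_iff]
        intro x _
        have hx : (x : X) ∈ Y₀.map E.subtype := by rw [h]; exact x.2
        obtain ⟨y, hy, hyx⟩ := hx
        have : y = x := Subtype.ext hyx
        rwa [← this]
      have hsurj : Function.Surjective pw := by
        intro a
        obtain ⟨x, rfl⟩ := QuotientGroup.mk_surjective a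
        have hx : x ∈ Y₀ := by rw [htop]; trivial
        obtain ⟨b, hb⟩ := hx
        exact ⟨b, hb⟩
      have hinj : Function.Injective pw := Finite.injective_iff_surjective.2 hsurj
      obtain ⟨a, ha⟩ := exists_prime_orderOf_dvd_card' (G := Abelianization E) r hrd
      have h1 : pw a = pw 1 := by
        change a ^ r = 1 ^ r
        rw [one_pow, ← ha, pow_orderOf_eq_one]
      have h2 : a = 1 := hinj h1
      rw [h2, orderOf_one] at ha
      exact hr.one_lt.ne ha
    · exact h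
  refine ⟨r, hr, fun e he f hf => ?_, fun e he => ?_⟩
  · refine hZ ⟨⟨e, he⟩ * ⟨f, hf⟩ * ⟨e, he⟩⁻¹ * ⟨f, hf⟩⁻¹, ?_, rfl⟩
    refine ⟨1, ?_⟩
    change (1 : Abelianization E) ^ r = Abelianization.of _
    rw [one_pow, map_mul, map_mul, map_mul, map_inv, map_inv]
    rw [mul_comm (Abelianization.of (⟨e, he⟩ : E)) (Abelianization.of (⟨f, hf⟩ : E))]
    group
  · exact hZ ⟨⟨e, he⟩ ^ r, ⟨Abelianization.of (⟨e, he⟩ : E), (map_pow _ _ _).symm⟩, rfl⟩

theorem target : S_C2a' → S_C2c → S_C1 → S_B → S_C2 := by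
  intro hA hC hC1 hB p l c0 _ hBd
  obtain ⟨d1, hd1⟩ := hC1 p l c0 hBd
  obtain ⟨b, hb⟩ := hB p (p ^ (2 * l + 2))
  refine ⟨1 + (1 + (b + d1)), ?_⟩
  intro q _ k X V _ _ _ _ _ _ _ _ ρ P hpq hsol hinj hoq huq hcard hfix
  have ctx : Ctx p l q ρ P := ⟨hpq, hsol, hinj, hoq, huq, hcard, hfix⟩
  classical
  -- the subgroup `N`
  have hfin : Set.Finite {N : Subgroup X | N.Normal ∧
      LM p (1 + (b + d1)) (Subgroup.centralizer (N : Set X))} := Set.toFinite _
  obtain ⟨N, hN⟩ := hfin.exists_maximal ⟨⊥, by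
    refine ⟨inferInstance, (LM.top (p := p) _).mono ?_⟩
    intro x _
    rw [Subgroup.mem_centralizer_iff]
    intro y hy
    rw [Subgroup.coe_bot, Set.mem_singleton_iff] at hy
    rw [hy, one_mul, mul_one]⟩
  obtain ⟨hNn, hNC⟩ := hN.prop
  set C := Subgroup.centralizer (N : Set X) with hCdef
  have hCn : C.Normal := inferInstance
  by_cases hCN : C ≤ N
  · -- `C` is abelian
    have h1 : LM p 1 ((⊥ : Subgroup X).subgroupOf C) := by
      refine LM.of_comm ?_
      rintro ⟨x, hx⟩ ⟨y, hy⟩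
      rw [Subgroup.mem_subgroupOf, Subgroup.mem_bot]
      have h2 : y * x = x * y := Subgroup.mem_centralizer_iff.1 hx y (hCN hy)
      change x * y * x⁻¹ * y⁻¹ = 1
      rw [← h2]; group
    have h3 := LM.ext hCn h1 hNC
    rwa [bot_inf_eq] at h3
  · exfalso
    -- the subgroup `E`
    have hfin2 : Set.Finite {E : Subgroup X | E.Normal ∧ E ≤ C ∧ ¬ E ≤ N} := Set.toFinite _
    obtain ⟨E, hE⟩ := hfin2.exists_minimal ⟨C, hCn, le_rfl, hCN⟩
    obtain ⟨hEn, hEC, hEN⟩ := hE.prop
    have hE0 : E ≠ ⊥ := by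
      rintro rfl; exact hEN bot_le
    have hcent : ∀ z ∈ E ⊓ N, ∀ e ∈ E, z * e = e * z := fun z hz e he =>
      Subgroup.mem_centralizer_iff.1 (hEC he) z hz.2
    have hmin : ∀ Y : Subgroup X, Y.Normal → Y ≤ E → Y = E ∨ Y ≤ E ⊓ N := by
      intro Y hY hYE
      by_cases hYN : Y ≤ N
      · exact Or.inr (le_inf hYE hYN)
      · left
        exact le_antisymm hYE (hE.le_of_le ⟨hY, hYE.trans hEC, hYN⟩ hYE)
    obtain ⟨r, hr, hcomm, hpow⟩ := sec hsol hEn hE0 hmin
    -- the claim
    have key : LM p (1 + (b + d1)) (Subgroup.centralizer (E : Set X)) := by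
      by_cases hab : ∀ x ∈ E, ∀ y ∈ E, x * y = y * x
      · exact (hA p l q d1 hd1 k X V ρ P ctx E hEn hab).mono_n (by omega)
      · set Z : Subgroup X := E ⊓ Subgroup.centralizer (E : Set X) with hZdef
        have hZn : Z.Normal := Subgroup.normal_inf_normal _ _
        have hZE : Z ≤ E := inf_le_left
        have hZ1 : ∀ e : X, e ∈ Z ↔ e ∈ E ∧ ∀ f ∈ E, e * f = f * e := by
          intro e
          rw [hZdef, Subgroup.mem_inf, Subgroup.mem_centralizer_iff]
          constructor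
          · rintro ⟨h1, h2⟩
            exact ⟨h1, fun f hf => (h2 f hf).symm⟩
          · rintro ⟨h1, h2⟩
            exact ⟨h1, fun f hf => (h2 f hf).symm⟩
        have hZne : Z ≠ E := by
          intro h
          apply hab
          intro x hx y hy
          have hx' : x ∈ Z := by rw [h]; exact hx
          exact ((hZ1 x).1 hx').2 y hy
        have hZ0 : E ⊓ N ≤ Z := fun z hz => (hZ1 z).2 ⟨hz.1, fun f hf => hcent z hz f hf⟩
        have hmin' : ∀ Y : Subgroup X, Y.Normal → Y ≤ E → Y = E ∨ Y ≤ Z := fun Y hY hYE =>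
          (hmin Y hY hYE).imp_right fun h => h.trans hZ0
        have h1 : LM p d1 (Subgroup.centralizer (Z : Set X)) :=
          hA p l q d1 hd1 k X V ρ P ctx Z hZn fun x hx y hy => ((hZ1 x).1 hx).2 y (hZE hy)
        have h2 : LM p (b + d1) (CS' E Z hEn hZE) :=
          hC p l q d1 b hd1 hb k X V ρ P ctx r E Z hr hEn hZn hZE hZne hZ1
            (fun e he f hf => hZ0 (hcomm e he f hf)) (fun e he => hZ0 (hpow e he)) hmin'
            (CS' E Z hEn hZE) (fun x hx => hx)
        obtain ⟨A, hAn, hAM, hA'⟩ := h2.inf (h1.mono_n (m := b + d1) (by omega))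
        have h3 : LM p 1 ((Subgroup.centralizer (E : Set X)).subgroupOf A) := by
          refine LM.of_comm ?_
          rintro ⟨x, hx⟩ ⟨y, hy⟩
          rw [Subgroup.mem_subgroupOf, Subgroup.mem_centralizer_iff]
          -- the two products act in the same way
          have hact : ∀ x ∈ A, ∀ y ∈ A, ∀ e ∈ E,
              x * y * e * (x * y)⁻¹ = (x * e * x⁻¹ * e⁻¹) * (y * e * y⁻¹ * e⁻¹) * e := by
            intro x hx y hy e he
            have h4 : y * e * y⁻¹ * e⁻¹ ∈ Z := (hAM hy).1 e he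
            have h5 : (y * e * y⁻¹ * e⁻¹) * x = x * (y * e * y⁻¹ * e⁻¹) :=
              Subgroup.mem_centralizer_iff.1 (hAM hx).2 _ h4
            have h6 : x * e * x⁻¹ * e⁻¹ ∈ Z := (hAM hx).1 e he
            have h7 : (x * e * x⁻¹ * e⁻¹) * (y * e * y⁻¹ * e⁻¹) =
                (y * e * y⁻¹ * e⁻¹) * (x * e * x⁻¹ * e⁻¹) := ((hZ1 _).1 h6).2 _ (hZE h4)
            calc x * y * e * (x * y)⁻¹ = (x * (y * e * y⁻¹ * e⁻¹)) * e * x⁻¹ := by group
              _ = ((y * e * y⁻¹ * e⁻¹) * x) * e * x⁻¹ := by rw [h5]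
              _ = (y * e * y⁻¹ * e⁻¹) * (x * e * x⁻¹ * e⁻¹) * e := by group
              _ = _ := by rw [← h7]
          have hact2 : ∀ e ∈ E, x * y * e * (x * y)⁻¹ = y * x * e * (y * x)⁻¹ := by
            intro e he
            have h6 : x * e * x⁻¹ * e⁻¹ ∈ Z := (hAM hx).1 e he
            have h4 : y * e * y⁻¹ * e⁻¹ ∈ Z := (hAM hy).1 e he
            have h7 : (x * e * x⁻¹ * e⁻¹) * (y * e * y⁻¹ * e⁻¹) =
                (y * e * y⁻¹ * e⁻¹) * (x * e * x⁻¹ * e⁻¹) := ((hZ1 _).1 h6).2 _ (hZE h4)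
            rw [hact x hx y hy e he, hact y hy x hx e he, h7]
          intro e he
          change e * (x * y * x⁻¹ * y⁻¹) = x * y * x⁻¹ * y⁻¹ * e
          have h8 : (y * x)⁻¹ * e * (y * x) ∈ E := by
            have := hEn.conj_mem e he (y * x)⁻¹
            rwa [inv_inv] at this
          have h9 := hact2 _ h8
          have h10 : y * x * ((y * x)⁻¹ * e * (y * x)) * (y * x)⁻¹ = e := by group
          rw [h10] at h9
          have h11 : e * (x * y * x⁻¹ * y⁻¹) =
              (x * y * ((y * x)⁻¹ * e * (y * x)) * (x * y)⁻¹) * (x * y * x⁻¹ * y⁻¹) := by rw [h9]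
          rw [h11]; group
        have h4 := LM.ext hAn h3 (LM.of_Len hAn hA')
        exact h4.mono inf_le_left
    -- contradiction to the maximality of `N`
    have hsup : (N ⊔ E).Normal := Subgroup.sup_normal N E
    have h5 : LM p (1 + (b + d1)) (Subgroup.centralizer ((N ⊔ E : Subgroup X) : Set X)) := by
      refine (hNC.inf key).mono ?_
      rintro x ⟨hx1, hx2⟩
      have h6 : N ⊔ E ≤ Subgroup.centralizer {x} := by
        refine sup_le ?_ ?_
        · intro y hy
          rw [Subgroup.mem_centralizer_singleton_iff]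
          exact Subgroup.mem_centralizer_iff.1 hx1 y hy
        · intro y hy
          rw [Subgroup.mem_centralizer_singleton_iff]
          exact Subgroup.mem_centralizer_iff.1 hx2 y hy
      rw [Subgroup.mem_centralizer_iff]
      intro y hy
      exact Subgroup.mem_centralizer_singleton_iff.1 (h6 hy)
    have h7 : N ⊔ E ≤ N := hN.le_of_ge ⟨hsup, h5⟩ le_sup_left
    exact hEN (le_sup_right.trans h7)

end Pool.Agent.Helper867_Rae.JobC2
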