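import Pool.Agent.Helper867_Rae.Base2
import Pool.Agent.Helper867_Rae.Stmts3
import Pool.Agent.TH84.J727

set_option autoImplicit false

namespace Pool.Agent.Helper867_Rae.JobC2a

open Pool.Agent.TH62.PL Pool.Agent.Helper867_Rae

/-- the `q`-elements of an abelian subgroup -/
def qpart {X : Type} [Group X] (q : ℕ) (A : Subgroup X)
    (hab : ∀ a ∈ A, ∀ b ∈ A, a * b = b * a) : Subgroup X where
  carrier := {a | a ∈ A ∧ ∃ n, a ^ (q ^ n) = 1}
  mul_mem' := by
    rintro a b ⟨ha, n, hn⟩ ⟨hb, m, hm⟩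
    refine ⟨A.mul_mem ha hb, n + m, ?_⟩
    have hc : Commute a b := hab a ha b hb
    rw [hc.mul_pow, pow_add, pow_mul, hn, one_pow, one_mul, mul_comm (q ^ n), pow_mul, hm, one_pow]
  one_mem' := ⟨A.one_mem, 0, by simp⟩
  inv_mem' := by
    rintro a ⟨ha, n, hn⟩
    exact ⟨A.inv_mem ha, n, by rw [inv_pow, hn, inv_one]⟩

lemma not_dvd {X : Type} [Group X] [Finite X] (q : ℕ) [hq : Fact q.Prime] (A : Subgroup X)
    (hab : ∀ a ∈ A, ∀ b ∈ A, a * b = b * a) (hA : A.Normal)
    (h : ∀ N : Subgroup X, N.Normal → IsPGroup q N → N = ⊥) : ¬ q ∣ Nat.card A := by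
  intro hd
  obtain ⟨x, hx⟩ := exists_prime_orderOf_dvd_card' (G := A) q hd
  have hN : (qpart q A hab).Normal := by
    refine ⟨?_⟩
    rintro a ⟨ha, n, hn⟩ g
    refine ⟨hA.conj_mem a ha g, n, ?_⟩
    rw [conj_pow, hn, mul_one, mul_inv_cancel]
  have hP : IsPGroup q (qpart q A hab) := by
    rintro ⟨a, ha, n, hn⟩
    exact ⟨n, Subtype.ext hn⟩
  have hbot := h _ hN hP
  have hxm : (x : X) ∈ qpart q A hab := by
    refine ⟨x.2, 1, ?_⟩
    rw [pow_one, ← hx]
    exact_mod_cast congrArg Subtype.val (pow_orderOf_eq_one x)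
  rw [hbot, Subgroup.mem_bot] at hxm
  have hx1 : x = 1 := Subtype.ext hxm
  rw [hx1, orderOf_one] at hx
  exact hq.out.one_lt.ne hx

theorem target : S_C2a' := by
  classical
  intro p l q d _ _ hC k X V _ _ _ _ _ _ _ _ ρ P ctx A hA hab
  have hcard : ((Nat.card A : ℕ) : k) ≠ 0 := by
    intro h0
    rw [CharP.cast_eq_zero_iff k q] at h0
    exact not_dvd q A hab hA ctx.oq h0
  obtain ⟨Ω, _, _, e, χ, he, hχ, hmul, hne, hact, -⟩ :=
    Pool.Agent.TH84.J727.charDec k X V ρ A hA hab hcard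
  have hinvr : ∀ g : X, ρ g⁻¹ * ρ g = 1 := fun g => by rw [← map_mul, inv_mul_cancel, map_one]
  have claim : ∀ w : {w : Ω // e w ≠ 0}, LM p d (MulAction.stabilizer X w.1) := by
    rintro ⟨w, hw⟩
    apply hC X ctx.sol P _ ctx.uq ctx.card
    intro g
    by_contra hcon
    push Not at hcon
    have hw' : e (g • w) ≠ 0 := by
      intro h0
      apply hw
      have h1 := he.equi g w
      rw [h0, zero_mul] at h1
      calc e w = (ρ g⁻¹ * ρ g) * e w := by rw [hinvr, one_mul]
        _ = ρ g⁻¹ * (ρ g * e w) := mul_assoc _ _ _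
        _ = 0 := by rw [h1, mul_zero]
    have hfree : ∀ x ∈ P, x ≠ 1 → x • (g • w) ≠ g • w := by
      intro x hx hx1 h0
      apply hcon x hx hx1
      rw [MulAction.mem_stabilizer_iff, mul_smul, mul_smul, h0, inv_smul_smul]
    obtain ⟨u, hu⟩ : ∃ u, e (g • w) u ≠ 0 := by
      by_contra hc
      push Not at hc
      exact hw' (LinearMap.ext hc)
    have : Fintype P := Fintype.ofFinite P
    have hfix : ∀ y ∈ P, ρ y (∑ x : P, ρ x (e (g • w) u)) = ∑ x : P, ρ x (e (g • w) u) := by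
      intro y hy
      rw [map_sum]
      have h1 : ∀ x : P, ρ y (ρ (x : X) (e (g • w) u)) =
          ρ (((⟨y, hy⟩ * x : P) : X)) (e (g • w) u) := by
        intro x
        rw [Subgroup.coe_mul, map_mul]
        rfl
      rw [Finset.sum_congr rfl fun x _ => h1 x]
      exact Fintype.sum_equiv (Equiv.mulLeft (⟨y, hy⟩ : P)) _ _ fun x => rfl
    have hs := ctx.fix _ hfix
    have h2 : e (g • w) (∑ x : P, ρ x (e (g • w) u)) = e (g • w) u := by
      rw [map_sum, Finset.sum_eq_single (1 : P)]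
      · rw [Subgroup.coe_one, map_one]
        exact congrArg (fun f : Module.End k V => f u) (he.idem (g • w))
      · intro x _ hx1
        have h3 : e (g • w) * (ρ (x : X) * e (g • w)) = 0 := by
          rw [he.equi, ← mul_assoc, he.orth _ _ (fun h => hfree x x.2 (fun h' => hx1 (Subtype.ext h'))
            h.symm), zero_mul]
        exact congrArg (fun f : Module.End k V => f u) h3
      · intro h
        exact absurd (Finset.mem_univ _) h
    rw [hs, map_zero] at h2
    exact hu h2.symm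
  have hM : LM p d (⨅ w : {w : Ω // e w ≠ 0}, MulAction.stabilizer X w.1) := LM.iInf claim
  refine hM.mono ?_
  intro x hx
  rw [Subgroup.mem_centralizer_iff]
  intro a ha
  have hstab : ∀ w, e w ≠ 0 → x • w = w := by
    intro w hw
    have := (Subgroup.mem_iInf.1 hx) ⟨w, hw⟩
    exact this
  have hxa : x * a * x⁻¹ ∈ A := hA.conj_mem a ha x
  have h1 : ρ (x * a * x⁻¹) * ∑ w, e w = ρ a * ∑ w, e w := by
    rw [Finset.mul_sum, Finset.mul_sum]
    refine Finset.sum_congr rfl fun w _ => ?_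
    by_cases hw : e w = 0
    · rw [hw, mul_zero, mul_zero]
    · have h2 := hact x w a ha
      rw [hstab w hw] at h2
      rw [hχ w _ hxa, hχ w a ha, h2]
  rw [he.sum, mul_one, mul_one] at h1
  have h2 := ctx.inj h1
  calc a * x = (x * a * x⁻¹) * x := by rw [h2]
    _ = x * a := by group

end Pool.Agent.Helper867_Rae.JobC2a
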