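import Pool.Agent.Helper867_Rae.Base2
import Pool.Agent.Helper867_Rae.Stmts3

set_option autoImplicit false

namespace Pool.Agent.Helper867_Rae.JobC2c

open Pool.Agent.TH62.PL Pool.Agent.Helper867_Rae

/-- the elements acting trivially on the section `M / N` -/
def CS' {G : Type} [Group G] (M N : Subgroup G) (hM : M.Normal) (hNM : N ≤ M) : Subgroup G where
  carrier := {x | ∀ m ∈ M, x * m * x⁻¹ * m⁻¹ ∈ N}
  one_mem' := by intro m _; simp
  mul_mem' := by
    intro x y hx hy m hm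
    have h1 : y * m * y⁻¹ * m⁻¹ ∈ N := hy m hm
    have h2 := hx _ (hNM h1)
    have h3 := hx m hm
    have e : x * y * m * (x * y)⁻¹ * m⁻¹ =
        (x * (y * m * y⁻¹ * m⁻¹) * x⁻¹ * (y * m * y⁻¹ * m⁻¹)⁻¹) * (y * m * y⁻¹ * m⁻¹) *
          (x * m * x⁻¹ * m⁻¹) := by group
    rw [e]
    exact N.mul_mem (N.mul_mem h2 h1) h3
  inv_mem' := by
    intro x hx m hm
    have h1 : x⁻¹ * m * x ∈ M := by
      have := hM.conj_mem m hm x⁻¹
      rwa [inv_inv] at this
    have h2 := N.inv_mem (hx _ h1)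
    have e : x⁻¹ * m * x⁻¹⁻¹ * m⁻¹ = (x * (x⁻¹ * m * x) * x⁻¹ * (x⁻¹ * m * x)⁻¹)⁻¹ := by group
    rw [e]; exact h2

theorem target : S_C2w → S_C2c := by
  intro hw p l q d b _ _ hC1 hBB k X V _ _ _ _ _ _ _ _ ρ P hctx r E Z hr hE hZ hZE hZne hZdef
    hcomm hpow hmin W hW
  obtain ⟨H, E₀, hZE0, hE0E, hE0ne, hInv, hg⟩ :=
    hw p l q k X V ρ P hctx r E Z hr hE hZ hZE hZne hZdef hcomm hpow
  set K : Subgroup X := Subgroup.closure {y : X | y ∈ H ∧ Sm E E₀ y (p ^ (2 * l + 2))} with hK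
  have hKd : LM p d K := by
    refine hC1 X hctx.sol P K hctx.uq hctx.card ?_
    intro g
    obtain ⟨x, hxP, hx1, hxH, hxS⟩ := hg g
    exact ⟨x, hxP, hx1, Subgroup.subset_closure ⟨hxH, hxS⟩⟩
  set CF : Subgroup X := CS' E E₀ hE hE0E with hCF
  have hBK : LM p b (CF.subgroupOf K) := by
    refine hBB X hctx.sol r H E E₀ hr hE0E (Inv.of_normal H hE) hInv
      (fun x hx y hy => hZE0 (hcomm x hx y hy)) (fun x hx => hZE0 (hpow x hx)) K hK
      (CF.subgroupOf K) ?_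
    intro y hy
    exact hy
  have hcore : LM p (b + d) CF.normalCore := by
    have h1 : LM p b (CF.subgroupOf K.normalCore) := LM.sub (Subgroup.normalCore_le K) hBK
    have h2 : LM p d K.normalCore := hKd.normalCore
    have h3 : LM p (b + d) (CF ⊓ K.normalCore) := LM.ext inferInstance h1 h2
    exact (h3.mono inf_le_left).normalCore
  refine hcore.mono ?_
  intro x hx
  apply hW
  intro e he
  have hE0core : E₀.normalCore ≤ Z := by
    rcases hmin E₀.normalCore inferInstance ((Subgroup.normalCore_le E₀).trans hE0E) with h | h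
    · exact absurd (le_antisymm hE0E (h ▸ Subgroup.normalCore_le E₀)) hE0ne
    · exact h
  apply hE0core
  intro g
  have h1 : g * x * g⁻¹ ∈ CF := hx g
  have h2 : g * e * g⁻¹ ∈ E := hE.conj_mem e he g
  have h3 : (g * x * g⁻¹) * (g * e * g⁻¹) * (g * x * g⁻¹)⁻¹ * (g * e * g⁻¹)⁻¹ ∈ E₀ := h1 _ h2
  have e1 : g * (x * e * x⁻¹ * e⁻¹) * g⁻¹ =
      (g * x * g⁻¹) * (g * e * g⁻¹) * (g * x * g⁻¹)⁻¹ * (g * e * g⁻¹)⁻¹ := by group
  rw [e1]
  exact h3

end Pool.Agent.Helper867_Rae.JobC2c
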