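-- target proved; extra import Pool.Agent.TH84.J727 (charDec); also gives restr, noFix, charDec', card_ne_zero, stage2 lemmas
import Pool.Agent.Helper867_Rae.Base2
import Pool.Agent.Helper867_Rae.Stmts3
import Pool.Agent.TH84.J727

set_option autoImplicit false

namespace Pool.Agent.Helper867_Rae.JobC2w

open Pool.Agent.TH62.PL Pool.Agent.Helper867_Rae

section restr
variable {k G V : Type} [Field k] [Group G] [AddCommGroup V] [Module k V]

/-- restriction of a representation to the image of an operator commuting with the subgroup -/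
def restr (ρ : G →* Module.End k V) (ε : Module.End k V) (S : Subgroup G)
    (h : ∀ g ∈ S, ρ g * ε = ε * ρ g) : S →* Module.End k (LinearMap.range ε) where
  toFun g := (ρ g).restrict (p := LinearMap.range ε) (q := LinearMap.range ε) (by
    rintro _ ⟨v, rfl⟩
    refine ⟨ρ g v, ?_⟩
    have := LinearMap.congr_fun (h g g.2) v
    exact this.symm)
  map_one' := by
    ext v
    simp
  map_mul' a b := by
    ext v
    simp

theorem restr_apply (ρ : G →* Module.End k V) (ε : Module.End k V) (S : Subgroup G)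
    (h : ∀ g ∈ S, ρ g * ε = ε * ρ g) (g : S) (v : LinearMap.range ε) :
    ((restr ρ ε S h g v : LinearMap.range ε) : V) = ρ g v := rfl

end restr

theorem noFix {p q : ℕ} [hp : Fact p.Prime] [hq : Fact q.Prime] {k G V : Type} [Field k]
    [CharP k q] [Group G] [Finite G] [AddCommGroup V] [Module k V] {Ω : Type} [Fintype Ω]
    [MulAction G Ω] (ρ : G →* Module.End k V) (e : Ω → Module.End k V) (he : PS ρ e)
    (hpq : p ≠ q) (Q : Subgroup G) (hQ : IsPGroup p Q)
    (hfix : ∀ v : V, (∀ x ∈ Q, ρ x v = v) → v = 0) (ω : Ω) (v : V) (hv : e ω v = v)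
    (hv2 : ∀ x ∈ Q, x • ω = ω → ρ x v = v) : v = 0 := by
  classical
  have : Fintype Q := Fintype.ofFinite Q
  have h1 : ∑ x : Q, ρ (x : G) v = 0 := by
    apply hfix
    intro y hy
    rw [map_sum]
    refine Fintype.sum_equiv (Equiv.mulLeft (⟨y, hy⟩ : Q)) _ _ fun x => ?_
    simp [map_mul]
  have h2 : ∀ x : Q, e ω (ρ (x : G) v) = if x ∈ MulAction.stabilizer Q ω then v else 0 := by
    intro x
    have h3 : ρ (x : G) v = e ((x : G) • ω) (ρ (x : G) v) := by
      conv_lhs => rw [← hv]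
      exact LinearMap.congr_fun (he.equi (x : G) ω) v
    split_ifs with h
    · have h4 : (x : G) • ω = ω := h
      rw [hv2 x x.2 h4, hv]
    · have h4 : ω ≠ (x : G) • ω := fun h5 => h h5.symm
      rw [h3]
      exact LinearMap.congr_fun (he.orth _ _ h4) _
  have h3 : ((Nat.card (MulAction.stabilizer Q ω) : ℕ) : k) • v = 0 := by
    have h4 := congrArg (e ω) h1
    rw [map_sum, map_zero, Finset.sum_congr rfl fun x _ => h2 x, ← Finset.sum_filter,
      Finset.sum_const] at h4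
    rw [← h4, Nat.cast_smul_eq_nsmul, Nat.card_eq_fintype_card, Fintype.card_subtype]
  obtain ⟨j, hj⟩ := (IsPGroup.iff_card.1 (hQ.to_subgroup (MulAction.stabilizer Q ω)))
  rw [hj] at h3
  have h5 : ((p ^ j : ℕ) : k) ≠ 0 := by
    rw [Ne, CharP.cast_eq_zero_iff k q]
    intro h6
    exact hpq ((Nat.prime_dvd_prime_iff_eq hq.out hp.out).1 (hq.out.dvd_of_dvd_pow h6)).symm
  exact (smul_eq_zero.1 h3).resolve_left h5

theorem charDec' {k G V : Type} [Field k] [IsAlgClosed k] [Group G] [Finite G] [AddCommGroup V]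
    [Module k V] (ρ : G →* Module.End k V) (A : Subgroup G) (hA : A.Normal)
    (hc : ∀ x ∈ A, ∀ y ∈ A, ρ (x * y) = ρ (y * x)) (hcard : ((Nat.card A : ℕ) : k) ≠ 0) :
    ∃ (Ω : Type) (_ : Fintype Ω) (_ : MulAction G Ω) (e : Ω → Module.End k V) (χ : Ω → G → k),
      PS ρ e ∧ (∀ ω, ∀ z ∈ A, ρ z * e ω = χ ω z • e ω) ∧
      (∀ g : G, (∀ a ∈ A, ρ (g * a) = ρ (a * g)) → ∀ ω : Ω, g • ω = ω) := by
  let N : Subgroup G := ρ.ker
  let f : G →* G ⧸ N := QuotientGroup.mk' N
  let ρ' : G ⧸ N →* Module.End k V := QuotientGroup.lift N ρ le_rfl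
  have hρ : ∀ g, ρ' (f g) = ρ g := fun g => rfl
  have hker : ∀ g h : G, ρ g = ρ h → f g = f h := by
    intro g h hgh
    apply QuotientGroup.eq.2
    change g⁻¹ * h ∈ ρ.ker
    rw [MonoidHom.mem_ker, map_mul, ← hgh, ← map_mul, inv_mul_cancel, map_one]
  have hA' : (A.map f).Normal := hA.map f (QuotientGroup.mk'_surjective N)
  obtain ⟨Ω, _, _, e, χ, h1, h2, h3, h4, h5, h6⟩ :=
    Pool.Agent.TH84.J727.charDec k (G ⧸ N) V ρ' (A.map f) hA'
      (by
        rintro _ ⟨x, hx, rfl⟩ _ ⟨y, hy, rfl⟩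
        rw [← map_mul, ← map_mul]
        exact hker _ _ (hc x hx y hy))
      (by
        intro h
        apply hcard
        obtain ⟨c, hcc⟩ := Subgroup.card_map_dvd A f
        rw [hcc, Nat.cast_mul, h, zero_mul])
  let act : MulAction G Ω := MulAction.compHom Ω f
  refine ⟨Ω, inferInstance, act, e, fun ω g => χ ω (f g), ?_, ?_, ?_⟩
  · exact ⟨h1.idem, h1.orth, h1.sum, fun g ω => h1.equi (f g) ω⟩
  · intro ω z hz
    exact h2 ω (f z) ⟨z, hz, rfl⟩
  · intro g hg ω
    change f g • ω = ω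
    apply h6
    rintro _ ⟨a, ha, rfl⟩
    have h7 : f g * f a * (f g)⁻¹ = f a := by
      rw [← map_mul, hker _ _ (hg a ha), map_mul, mul_inv_cancel_right]
    have h8 := h5 (f g) ω (f a) ⟨a, ha, rfl⟩
    rw [h7] at h8
    exact h8

/-- the image of the second subgroup of `Sm` -/
theorem Sm_map {G H : Type} [Group G] [Group H] (f : H →* G) (hf : Function.Injective f)
    {M N : Subgroup H} {y : H} {c : ℕ} (h : Sm M N y c) :
    Sm (M.map f) (N.map f) (f y) c := by
  obtain ⟨C, h1, h2, h3⟩ := h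
  refine ⟨C.map f, Subgroup.map_mono h1, ?_, ?_⟩
  · rintro _ ⟨m, hm, rfl⟩
    exact ⟨_, h2 m hm, by simp⟩
  · rw [Subgroup.relIndex_map_map_of_injective _ _ hf]
    exact h3

/-- a normal class two subgroup has order prime to `q` if `O_q = 1` -/
theorem card_ne_zero {q : ℕ} [hq : Fact q.Prime] {k X : Type} [Field k] [CharP k q] [Group X]
    [Finite X] (oq : ∀ N : Subgroup X, N.Normal → IsPGroup q N → N = ⊥) (E : Subgroup X)
    (hE : E.Normal)
    (hc : ∀ e ∈ E, ∀ f ∈ E, ∀ g ∈ E, (e * f * e⁻¹ * f⁻¹) * g = g * (e * f * e⁻¹ * f⁻¹)) :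
    ((Nat.card E : ℕ) : k) ≠ 0 := by
  have hnil : Group.IsNilpotent E := by
    rw [Subgroup.nilpotent_iff_lowerCentralSeries]
    refine ⟨2, ?_⟩
    rw [eq_bot_iff]
    change ⁅⁅(⊤ : Subgroup E), (⊤ : Subgroup E)⁆, (⊤ : Subgroup E)⁆ ≤ ⊥
    rw [Subgroup.commutator_le]
    intro x hx y _
    rw [Subgroup.mem_bot, commutatorElement_eq_one_iff_mul_comm]
    have h1 : ⁅(⊤ : Subgroup E), (⊤ : Subgroup E)⁆ ≤ Subgroup.center E := by
      rw [Subgroup.commutator_le]
      intro a _ b _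
      rw [Subgroup.mem_center_iff]
      intro c
      apply Subtype.ext
      have := hc a a.2 b b.2 c c.2
      simp only [commutatorElement_def, Subgroup.coe_mul, Subgroup.coe_inv]
      exact this.symm
    exact ((Subgroup.mem_center_iff.1 (h1 hx)) y).symm
  have P : Sylow q E := default
  have htf : Group.IsNilpotent E ↔ ∀ (p : ℕ) (_hp : Fact p.Prime) (P : Sylow p E),
      (P : Subgroup E).Normal := (Group.isNilpotent_of_finite_tfae (G := E)).out 0 3
  have hPn : (P : Subgroup E).Normal := htf.1 hnil q hq P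
  have hPc : (P : Subgroup E).Characteristic := P.characteristic_of_normal hPn
  have := hE
  have h2 : ((P : Subgroup E).map E.subtype).Normal := inferInstance
  have h3 := oq _ h2 (P.isPGroup'.map E.subtype)
  have h4 : (P : Subgroup E) = ⊥ := by
    rw [Subgroup.map_eq_bot_iff_of_injective _ E.subtype_injective] at h3
    exact h3
  have h5 : ¬ q ∣ (P : Subgroup E).index := P.not_dvd_index
  rw [h4, Subgroup.index_bot] at h5
  rwa [Ne, CharP.cast_eq_zero_iff k q]

/-- the elements of `E` that commute with `E` in the representation -/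
def cenE {k G V : Type} [Field k] [Group G] [AddCommGroup V] [Module k V]
    (ρ : G →* Module.End k V) (E : Subgroup G) : Subgroup G where
  carrier := {x | x ∈ E ∧ ∀ f ∈ E, ρ (x * f) = ρ (f * x)}
  one_mem' := ⟨E.one_mem, fun f _ => by rw [one_mul, mul_one]⟩
  mul_mem' := by
    rintro x y ⟨hx, hx2⟩ ⟨hy, hy2⟩
    refine ⟨E.mul_mem hx hy, fun f hf => ?_⟩
    have h1 := hx2 f hf
    have h2 := hy2 f hf
    simp only [map_mul] at *
    calc ρ x * ρ y * ρ f = ρ x * (ρ y * ρ f) := mul_assoc _ _ _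
      _ = ρ x * (ρ f * ρ y) := by rw [h2]
      _ = (ρ x * ρ f) * ρ y := (mul_assoc _ _ _).symm
      _ = ρ f * ρ x * ρ y := by rw [h1]
      _ = ρ f * (ρ x * ρ y) := mul_assoc _ _ _
  inv_mem' := by
    rintro x ⟨hx, hx2⟩
    refine ⟨E.inv_mem hx, fun f hf => ?_⟩
    have h1 := hx2 (x⁻¹ * f * x⁻¹) (E.mul_mem (E.mul_mem (E.inv_mem hx) hf) (E.inv_mem hx))
    have h2 : x * (x⁻¹ * f * x⁻¹) = f * x⁻¹ := by group
    have h3 : x⁻¹ * f * x⁻¹ * x = x⁻¹ * f := by group
    rw [h2, h3] at h1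
    exact h1.symm

theorem mem_cenE {k G V : Type} [Field k] [Group G] [AddCommGroup V] [Module k V]
    {ρ : G →* Module.End k V} {E : Subgroup G} {x : G} :
    x ∈ cenE ρ E ↔ x ∈ E ∧ ∀ f ∈ E, ρ (x * f) = ρ (f * x) := Iff.rfl

theorem cenE_normal {k G V : Type} [Field k] [Group G] [AddCommGroup V] [Module k V]
    {ρ : G →* Module.End k V} {E : Subgroup G} (hE : E.Normal) : (cenE ρ E).Normal := by
  constructor
  rintro x ⟨hx, hx2⟩ g
  refine ⟨hE.conj_mem x hx g, fun f hf => ?_⟩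
  have hf' : g⁻¹ * f * g ∈ E := by
    have := hE.conj_mem f hf g⁻¹
    rwa [inv_inv] at this
  have h1 := hx2 _ hf'
  have h2 : g * x * g⁻¹ * f = g * (x * (g⁻¹ * f * g)) * g⁻¹ := by group
  have h3 : f * (g * x * g⁻¹) = g * (g⁻¹ * f * g * x) * g⁻¹ := by group
  rw [h2, h3, map_mul, map_mul, h1, ← map_mul, ← map_mul]

theorem stage2 (hD : S_D) {p q : ℕ} [hp : Fact p.Prime] [hq : Fact q.Prime] {k G V : Type}
    [Field k] [IsAlgClosed k] [CharP k q] [Group G] [Finite G] [AddCommGroup V] [Module k V]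
    [FiniteDimensional k V] [Nontrivial V] (ρ : G →* Module.End k V) (hpq : p ≠ q)
    (E : Subgroup G) (hE : E.Normal) (hcard : ((Nat.card E : ℕ) : k) ≠ 0)
    (hsc : ∀ e ∈ E, ∀ f ∈ E, ∃ c : k, ρ (e * f * e⁻¹ * f⁻¹) = c • (1 : Module.End k V))
    (hcl : ∀ e ∈ E, ∀ f ∈ E, e * f * e⁻¹ * f⁻¹ ∈ cenE ρ E) :
    ∃ H : Subgroup G, ∀ P : Subgroup G, IsPGroup p P →
      (∀ v : V, (∀ x ∈ P, ρ x v = v) → v = 0) →
      ∃ x ∈ P, x ≠ 1 ∧ x ∈ H ∧ Sm E (cenE ρ E) x ((Nat.card P) ^ 2) := by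
  classical
  have hle : cenE ρ E ≤ E := fun x hx => hx.1
  obtain ⟨Ω, _, _, e, χ, he, hχ, hst⟩ := charDec' ρ (cenE ρ E) (cenE_normal hE)
    (fun x hx y hy => hx.2 y hy.1)
    (by
      intro h
      apply hcard
      obtain ⟨c, hc⟩ := Subgroup.card_dvd_of_le hle
      rw [hc, Nat.cast_mul, h, zero_mul])
  obtain ⟨ω, hω⟩ : ∃ ω, e ω ≠ 0 := by
    by_contra hcon
    push Not at hcon
    have h1 := he.sum
    rw [Finset.sum_eq_zero fun ω _ => hcon ω] at h1
    exact zero_ne_one h1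
  let H : Subgroup G := MulAction.stabilizer G ω
  have hEH : E ≤ H := fun g hg => hst g (fun z hz => (hz.2 g hg).symm) ω
  have hcH : ∀ g ∈ H, ρ g * e ω = e ω * ρ g := by
    intro g hg
    have h1 := he.equi g ω
    rwa [show g • ω = ω from hg] at h1
  let σ : H →* Module.End k (LinearMap.range (e ω)) := restr ρ (e ω) H hcH
  obtain ⟨v0, hv0⟩ : ∃ v, e ω v ≠ 0 := by
    by_contra hcon
    push Not at hcon
    exact hω (LinearMap.ext hcon)
  have hnt : Nontrivial (LinearMap.range (e ω)) :=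
    ⟨⟨⟨e ω v0, ⟨v0, rfl⟩⟩, 0, fun h => hv0 (congrArg Subtype.val h)⟩⟩
  have hidem : ∀ v : LinearMap.range (e ω), e ω (v : V) = v := by
    rintro ⟨_, v, rfl⟩
    exact LinearMap.congr_fun (he.idem ω) v
  -- if the images on the subspace commute then they commute
  have hkey : ∀ a b : H, (a : G) ∈ E → (b : G) ∈ E → σ (a * b) = σ (b * a) →
      ρ ((a : G) * b) = ρ ((b : G) * a) := by
    intro a b ha hb hab
    obtain ⟨c, hc⟩ := hsc a ha b hb
    have h1 : σ (a * b * a⁻¹ * b⁻¹) = 1 := by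
      have h2 : a * b * a⁻¹ * b⁻¹ = (a * b) * (b * a)⁻¹ := by group
      rw [h2, map_mul, hab, ← map_mul, mul_inv_cancel, map_one]
    have h3 : c • (e ω v0) = e ω v0 := by
      have h4 := LinearMap.congr_fun h1 ⟨e ω v0, ⟨v0, rfl⟩⟩
      have h5 := congrArg Subtype.val h4
      rw [restr_apply] at h5
      have h6 := LinearMap.congr_fun hc (e ω v0)
      simp only [Subgroup.coe_mul, Subgroup.coe_inv] at h5
      rw [h6] at h5
      exact h5
    have h4 : c = 1 := by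
      have h5 : (c - 1) • (e ω v0) = 0 := by rw [sub_smul, h3, one_smul, sub_self]
      exact sub_eq_zero.1 ((smul_eq_zero.1 h5).resolve_right hv0)
    rw [h4, one_smul] at hc
    have h5 : (a : G) * b = ((a : G) * b * (a : G)⁻¹ * (b : G)⁻¹) * (b * a) := by group
    rw [h5, map_mul, hc, one_mul]
  refine ⟨H, fun P hP hfix => ?_⟩
  obtain ⟨x, hxP, hx1, hx2⟩ := hD p q k H (LinearMap.range (e ω)) σ (P.subgroupOf H)
    (E.subgroupOf H) ((cenE ρ E).subgroupOf H) hpq
    (hP.comap_of_injective H.subtype H.subtype_injective)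
    (by
      intro v hv
      apply Subtype.ext
      refine noFix ρ e he hpq P hP hfix ω v (hidem v) fun x hx hxω => ?_
      exact congrArg Subtype.val (hv ⟨x, hxω⟩ hx))
    (Inv.of_normal _ (hE.subgroupOf H))
    (by
      intro h
      apply hcard
      have h1 : Nat.card (E.subgroupOf H) = Nat.card E :=
        Nat.card_congr (Subgroup.subgroupOfEquivOfLe hEH).toEquiv
      rw [← h1, h])
    (by
      intro a
      constructor
      · intro ha
        refine ⟨ha.1, χ ω a, ?_⟩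
        ext v
        rw [restr_apply]
        have h1 := LinearMap.congr_fun (hχ ω a ha) v
        have h2 : e ω (v : V) = v := hidem v
        change ρ a (e ω v) = χ ω a • (e ω v) at h1
        rw [h2] at h1
        rw [h1]
        rfl
      · rintro ⟨ha, c, hc⟩
        refine ⟨ha, fun f hf => ?_⟩
        refine hkey a ⟨f, hEH hf⟩ ha hf ?_
        rw [map_mul, map_mul, hc]
        simp)
    (fun a ha b hb => hcl a ha b hb)
    (by
      intro a ha hab
      exact ⟨ha, fun f hf => hkey a ⟨f, hEH hf⟩ ha hf (hab ⟨f, hEH hf⟩ hf)⟩)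
  refine ⟨x, hxP, fun h => hx1 (Subtype.ext h), x.2, ?_⟩
  have h1 := Sm_map H.subtype H.subtype_injective hx2
  rw [Subgroup.subgroupOf_map_subtype, Subgroup.subgroupOf_map_subtype, inf_eq_left.2 hEH,
    inf_eq_left.2 (hle.trans hEH)] at h1
  obtain ⟨C, hC1, hC2, hC3⟩ := h1
  refine ⟨C, hC1, hC2, hC3.trans (Nat.pow_le_pow_left ?_ 2)⟩
  exact Nat.card_le_card_of_injective (fun y : P.subgroupOf H => (⟨(y : H), y.2⟩ : P))
    (fun y z hyz => by
      have h9 : ((y : H) : G) = ((z : H) : G) := congrArg (fun w : P => (w : G)) hyz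
      exact Subtype.ext (Subtype.ext h9))

theorem target : S_D → S_C2w := by
  intro hD p l q _ _ k X V _ _ _ _ _ _ _ _ ρ P ctx r E Z hr hE hZ hZE hne hcen hcomm hpow
  classical
  have hcE : ((Nat.card E : ℕ) : k) ≠ 0 :=
    card_ne_zero ctx.oq E hE (fun e he f hf g hg => ((hcen _).1 (hcomm e he f hf)).2 g hg)
  have hcZ : ((Nat.card Z : ℕ) : k) ≠ 0 := by
    intro h
    apply hcE
    obtain ⟨c, hc⟩ := Subgroup.card_dvd_of_le hZE
    rw [hc, Nat.cast_mul, h, zero_mul]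
  obtain ⟨Ω, _, _, e, χ, he, hχ, hst⟩ := charDec' ρ Z hZ
    (fun x hx y hy => by rw [((hcen x).1 hx).2 y (hZE hy)]) hcZ
  obtain ⟨a, ha, b, hb, hab⟩ : ∃ a ∈ E, ∃ b ∈ E, a * b ≠ b * a := by
    by_contra hcon
    push Not at hcon
    exact hne (le_antisymm hZE fun x hx => (hcen x).2 ⟨hx, fun f hf => hcon x hx f hf⟩)
  have hz0 : a * b * a⁻¹ * b⁻¹ ∈ Z := hcomm a ha b hb
  obtain ⟨ω, hω, hω2⟩ : ∃ ω, e ω ≠ 0 ∧ χ ω (a * b * a⁻¹ * b⁻¹) ≠ 1 := by
    by_contra hcon
    push Not at hcon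
    apply hab
    have h1 : ρ (a * b * a⁻¹ * b⁻¹) = 1 := by
      have h2 : ρ (a * b * a⁻¹ * b⁻¹) = ρ (a * b * a⁻¹ * b⁻¹) * ∑ ω, e ω := by
        rw [he.sum, mul_one]
      rw [h2, ← he.sum, Finset.mul_sum]
      refine Finset.sum_congr rfl fun ω _ => ?_
      rw [hχ ω _ hz0]
      by_cases h : e ω = 0
      · rw [h, smul_zero]
      · rw [hcon ω h, one_smul]
    have h2 : a * b * a⁻¹ * b⁻¹ = 1 := ctx.inj (by rw [h1, map_one])
    rwa [mul_inv_eq_one, mul_inv_eq_iff_eq_mul] at h2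
  let X1 : Subgroup X := MulAction.stabilizer X ω
  have hE1 : E ≤ X1 := fun g hg => hst g (fun z hz => by rw [((hcen z).1 hz).2 g hg]) ω
  have hc1 : ∀ g ∈ X1, ρ g * e ω = e ω * ρ g := by
    intro g hg
    have h1 := he.equi g ω
    rwa [show g • ω = ω from hg] at h1
  let ρ1 : X1 →* Module.End k (LinearMap.range (e ω)) := restr ρ (e ω) X1 hc1
  obtain ⟨v0, hv0⟩ : ∃ v, e ω v ≠ 0 := by
    by_contra hcon
    push Not at hcon
    exact hω (LinearMap.ext hcon)
  have hnt : Nontrivial (LinearMap.range (e ω)) :=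
    ⟨⟨⟨e ω v0, ⟨v0, rfl⟩⟩, 0, fun h => hv0 (congrArg Subtype.val h)⟩⟩
  have hidem : ∀ v : LinearMap.range (e ω), e ω (v : V) = v := by
    rintro ⟨_, v, rfl⟩
    exact LinearMap.congr_fun (he.idem ω) v
  -- the elements of `Z` act as scalars
  have hZs : ∀ z : X1, (z : X) ∈ Z → ρ1 z = χ ω z • (1 : Module.End k _) := by
    intro z hz
    ext v
    rw [restr_apply]
    have h1 := LinearMap.congr_fun (hχ ω z hz) v
    have h2 : e ω (v : V) = v := hidem v
    change ρ z (e ω v) = χ ω z • (e ω v) at h1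
    rw [h2] at h1
    rw [h1]
    rfl
  have hE'n : (E.subgroupOf X1).Normal := hE.subgroupOf X1
  have hcl : ∀ z : X1, (z : X) ∈ Z → z ∈ cenE ρ1 (E.subgroupOf X1) := by
    intro z hz
    refine ⟨hZE hz, fun f hf => ?_⟩
    congr 1
    exact Subtype.ext (((hcen _).1 hz).2 f hf)
  obtain ⟨H, hH⟩ := stage2 hD (p := p) (q := q) ρ1 ctx.pq (E.subgroupOf X1) hE'n
    (by
      intro h
      apply hcE
      have h1 : Nat.card (E.subgroupOf X1) = Nat.card E :=
        Nat.card_congr (Subgroup.subgroupOfEquivOfLe hE1).toEquiv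
      rw [← h1, h])
    (fun s hs t ht => ⟨_, hZs (s * t * s⁻¹ * t⁻¹) (hcomm s hs t ht)⟩)
    (fun s hs t ht => hcl _ (hcomm s hs t ht))
  have hnE : (cenE ρ1 (E.subgroupOf X1)).Normal := cenE_normal hE'n
  refine ⟨H.map X1.subtype, (cenE ρ1 (E.subgroupOf X1)).map X1.subtype, ?_, ?_, ?_, ?_, ?_⟩
  · intro z hz
    exact ⟨⟨z, hE1 (hZE hz)⟩, hcl _ hz, rfl⟩
  · rintro _ ⟨x, hx, rfl⟩
    exact hx.1
  · intro h
    have ha' : a ∈ (cenE ρ1 (E.subgroupOf X1)).map X1.subtype := by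
      rw [h]
      exact ha
    obtain ⟨a', ha1, ha2⟩ := ha'
    have h1 := ha1.2 ⟨b, hE1 hb⟩ hb
    have h2 : ρ1 (a' * ⟨b, hE1 hb⟩ * a'⁻¹ * (⟨b, hE1 hb⟩ : X1)⁻¹) = 1 := by
      have h3 : a' * ⟨b, hE1 hb⟩ * a'⁻¹ * (⟨b, hE1 hb⟩ : X1)⁻¹ =
          (a' * ⟨b, hE1 hb⟩) * ((⟨b, hE1 hb⟩ : X1) * a')⁻¹ := by group
      rw [h3, map_mul, h1, ← map_mul, mul_inv_cancel, map_one]
    have h4 : ((a' * ⟨b, hE1 hb⟩ * a'⁻¹ * (⟨b, hE1 hb⟩ : X1)⁻¹ : X1) : X) =
        a * b * a⁻¹ * b⁻¹ := by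
      rw [← ha2]
      rfl
    rw [hZs _ (by rw [h4]; exact hz0), h4] at h2
    apply hω2
    have h5 := congrArg Subtype.val (LinearMap.congr_fun h2 ⟨e ω v0, ⟨v0, rfl⟩⟩)
    change χ ω (a * b * a⁻¹ * b⁻¹) • (e ω v0) = e ω v0 at h5
    have h6 : (χ ω (a * b * a⁻¹ * b⁻¹) - 1) • (e ω v0) = 0 := by
      rw [sub_smul, h5, one_smul, sub_self]
    exact sub_eq_zero.1 ((smul_eq_zero.1 h6).resolve_right hv0)
  · rintro _ ⟨h, hh, rfl⟩ _ ⟨x, hx, rfl⟩
    exact ⟨h * x * h⁻¹, hnE.conj_mem x hx h, rfl⟩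
  · intro g
    let Q : Subgroup X := P.map (MulAut.conj g⁻¹).toMonoidHom
    have hQp : IsPGroup p Q := ctx.uq.1.map _
    have hQfix : ∀ v : V, (∀ x ∈ Q, ρ x v = v) → v = 0 := by
      intro v hv
      have h1 : ρ g v = 0 := by
        apply ctx.fix
        intro x hx
        have h2 := hv _ ⟨x, hx, rfl⟩
        have h3 : (MulAut.conj g⁻¹).toMonoidHom x = g⁻¹ * x * g := by
          simp
        rw [h3, map_mul, map_mul] at h2
        have h4 := congrArg (ρ g) h2
        have h5 : ρ g ((ρ g⁻¹ * ρ x * ρ g) v) = (ρ g * ρ g⁻¹) (ρ x (ρ g v)) := rfl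
        rw [h5, ← map_mul, mul_inv_cancel, map_one] at h4
        exact h4
      have h2 : ρ g⁻¹ (ρ g v) = v := by
        have h3 : ρ g⁻¹ (ρ g v) = (ρ g⁻¹ * ρ g) v := rfl
        rw [h3, ← map_mul, inv_mul_cancel, map_one]
        rfl
      rw [← h2, h1, map_zero]
    obtain ⟨x, hxQ, hx1, hxH, hxS⟩ := hH (Q.subgroupOf X1)
      (hQp.comap_of_injective X1.subtype X1.subtype_injective)
      (by
        intro v hv
        apply Subtype.ext
        refine noFix ρ e he ctx.pq Q hQp hQfix ω v (hidem v) fun x hx hxω => ?_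
        exact congrArg Subtype.val (hv ⟨x, hxω⟩ hx))
    obtain ⟨y, hy, hyx⟩ := hxQ
    have hyx' : (x : X) = g⁻¹ * y * g := by
      have h3 : (MulAut.conj g⁻¹).toMonoidHom y = g⁻¹ * y * g := by
        simp
      rw [← h3, hyx]
      rfl
    refine ⟨y, hy, ?_, ⟨x, hxH, hyx'⟩, ?_⟩
    · intro h1
      apply hx1
      apply Subtype.ext
      rw [hyx', h1]
      simp
    · rw [← hyx']
      have h1 := Sm_map X1.subtype X1.subtype_injective hxS
      rw [Subgroup.subgroupOf_map_subtype, inf_eq_left.2 hE1] at h1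
      obtain ⟨C, hC1, hC2, hC3⟩ := h1
      refine ⟨C, hC1, hC2, hC3.trans ?_⟩
      have h2 : Nat.card (Q.subgroupOf X1) ≤ Nat.card Q :=
        Nat.card_le_card_of_injective (fun y : Q.subgroupOf X1 => (⟨(y : X1), y.2⟩ : Q))
          (fun y z hyz => by
            have h9 : ((y : X1) : X) = ((z : X1) : X) := congrArg (fun w : Q => (w : X)) hyz
            exact Subtype.ext (Subtype.ext h9))
      have h3 : Nat.card Q ≤ Nat.card P := Nat.le_of_dvd Nat.card_pos (Subgroup.card_map_dvd P _)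
      calc Nat.card (Q.subgroupOf X1) ^ 2 ≤ (p ^ (l + 1)) ^ 2 :=
            Nat.pow_le_pow_left (h2.trans (h3.trans ctx.card)) 2
        _ = p ^ (2 * l + 2) := by rw [← pow_mul]; congr 1; ring

end Pool.Agent.Helper867_Rae.JobC2w
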