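import Pool.Agent.Helper867_Rae.Base2
import Pool.Agent.Helper867_Rae.Stmts3

set_option autoImplicit false
set_option linter.unusedSectionVars false

namespace Pool.Agent.Helper867_Rae.JobD

open Pool.Agent.TH62.PL Pool.Agent.Helper867_Rae

section abs

variable {k E W : Type} [Field k] [Group E] [Fintype E] [AddCommGroup W] [Module k W]
  [Nontrivial W] (r : E →* Module.End k W) (b : E → E → k)

omit [Fintype E] in
theorem smul_inj' {a c : k} (s : E) (h : a • r s = c • r s) : a = c := by
  have h1 : a • (1 : Module.End k W) = c • (1 : Module.End k W) := by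
    have h2 := congrArg (fun z => z * r s⁻¹) h
    simp only [smul_mul_assoc, ← map_mul, mul_inv_cancel, map_one] at h2
    exact h2
  have h3 : (a - c) • (1 : Module.End k W) = 0 := by rw [sub_smul, h1, sub_self]
  rcases smul_eq_zero.1 h3 with h4 | h4
  · exact sub_eq_zero.1 h4
  · exact absurd h4 one_ne_zero

variable (hb : ∀ s t, r s * r t = b s t • (r t * r s))
include hb

theorem b_mul_left (s s' t : E) : b (s * s') t = b s t * b s' t := by
  apply smul_inj' r (t * (s * s'))
  have h1 : r (s * s') * r t = b (s * s') t • (r t * r (s * s')) := hb _ _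
  have h2 : r (s * s') * r t = (b s t * b s' t) • (r t * r (s * s')) := by
    rw [map_mul, mul_assoc, hb s' t, mul_smul_comm, ← mul_assoc, hb s t, smul_mul_assoc,
      smul_smul, mul_assoc, mul_comm (b s' t)]
  rw [map_mul r t, ← h1, h2]

theorem b_mul_right (s t t' : E) : b s (t * t') = b s t * b s t' := by
  apply smul_inj' r ((t * t') * s)
  have h1 : r s * r (t * t') = b s (t * t') • (r (t * t') * r s) := hb _ _
  have h2 : r s * r (t * t') = (b s t * b s t') • (r (t * t') * r s) := by
    rw [map_mul, ← mul_assoc, hb s t, smul_mul_assoc, mul_assoc, hb s t', mul_smul_comm,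
      smul_smul, mul_assoc]
  rw [map_mul r _ s, ← h1, h2]

theorem b_one_left (t : E) : b 1 t = 1 := by
  apply smul_inj' r t
  have h1 := hb 1 t
  simp only [map_one, one_mul, mul_one] at h1
  rw [← h1, one_smul]

theorem b_one_right (t : E) : b t 1 = 1 := by
  apply smul_inj' r t
  have h1 := hb t 1
  simp only [map_one, one_mul, mul_one] at h1
  rw [← h1, one_smul]

theorem b_swap (s t : E) : b s t * b t s = 1 := by
  apply smul_inj' r (s * t)
  rw [one_smul, map_mul]
  conv_rhs => rw [hb s t, hb t s, smul_smul]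

theorem b_inv_right (s t : E) : b s t⁻¹ = b t s := by
  have h1 := b_mul_right r b hb s t t⁻¹
  rw [mul_inv_cancel, b_one_right r b hb] at h1
  have h2 := b_swap r b hb s t
  have h3 : b s t ≠ 0 := left_ne_zero_of_mul_eq_one h2
  apply mul_left_cancel₀ h3
  rw [← h1, h2]

theorem b_inv_left (s t : E) : b s⁻¹ t = b t s := by
  have h1 := b_mul_left r b hb s s⁻¹ t
  rw [mul_inv_cancel, b_one_left r b hb] at h1
  have h2 := b_swap r b hb s t
  have h3 : b s t ≠ 0 := left_ne_zero_of_mul_eq_one h2
  apply mul_left_cancel₀ h3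
  rw [← h1, h2]

variable (N : Subgroup E) (hN : ∀ e ∈ N, ∀ f, r e * r f = r f * r e)

include hN in
theorem b_N_left (s t : E) (hs : s ∈ N) : b s t = 1 := by
  apply smul_inj' r (t * s)
  rw [map_mul, ← hb, one_smul, hN s hs]

include hN in
theorem b_N_right (s t : E) (ht : t ∈ N) : b s t = 1 := by
  apply smul_inj' r (t * s)
  rw [map_mul, ← hb, one_smul, hN t ht]

variable (hnd : ∀ e, (∀ f, r e * r f = r f * r e) → e ∈ N)

include hN hnd in
open Classical in
theorem b_sum_left (t : E) : ∑ s, b s t = if t ∈ N then (Fintype.card E : k) else 0 := by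
  split_ifs with h
  · rw [Finset.sum_congr rfl (fun s _ => b_N_right r b hb N hN s t h)]
    simp
  · set f : E →* k :=
      { toFun := fun s => b s t
        map_one' := b_one_left r b hb t
        map_mul' := fun s s' => b_mul_left r b hb s s' t } with hf
    have hf1 : f ≠ 1 := by
      intro h1
      apply h
      apply hnd
      intro s
      have h2 : b s t = 1 := congrArg (fun g : E →* k => g s) h1
      rw [hb s t, h2, one_smul]
    exact sum_hom_units_eq_zero f hf1

include hN hnd in
open Classical in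
theorem b_sum_right (t : E) : ∑ s, b t s = if t ∈ N then (Fintype.card E : k) else 0 := by
  rw [← b_sum_left r b hb N hN hnd t]
  refine Fintype.sum_equiv (Equiv.inv E) _ _ (fun s => ?_)
  rw [Equiv.inv_apply, b_inv_left r b hb]

/-- the commutant -/
def Cm (r : E →* Module.End k W) : Submodule k (Module.End k W) where
  carrier := {φ | ∀ s, r s * φ = φ * r s}
  add_mem' := fun {x y} hx hy s => by rw [mul_add, add_mul, hx s, hy s]
  zero_mem' := fun s => by rw [mul_zero, zero_mul]
  smul_mem' := fun c x hx s => by rw [mul_smul_comm, smul_mul_assoc, hx s]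

omit [Fintype E] [Nontrivial W] hb in
theorem mem_Cm (r : E →* Module.End k W) (φ : Module.End k W) :
    φ ∈ Cm r ↔ ∀ s, r s * φ = φ * r s := Iff.rfl

/-- the component -/
noncomputable def FF (φ : Module.End k W) (t : E) : Module.End k W :=
  ∑ s, b t s • (r s * φ * r s⁻¹)

theorem FF_conj (φ : Module.End k W) (t s' : E) :
    r s' * FF r b φ t = b s' t • (FF r b φ t * r s') := by
  have h1 : r s' * FF r b φ t * r s'⁻¹ = b s' t • FF r b φ t := by
    unfold FF
    rw [Finset.mul_sum, Finset.sum_mul, Finset.smul_sum]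
    refine Fintype.sum_equiv (Equiv.mulLeft s') _ _ (fun s => ?_)
    rw [Equiv.coe_mulLeft, smul_smul, b_mul_right r b hb, ← mul_assoc, b_swap r b hb, one_mul,
      mul_smul_comm, smul_mul_assoc, mul_inv_rev, map_mul, map_mul]
    simp only [mul_assoc]
  have h2 := congrArg (fun z => z * r s') h1
  simp only [mul_assoc, smul_mul_assoc, ← map_mul, inv_mul_cancel, map_one, mul_one] at h2
  exact h2

theorem FF_mem (φ : Module.End k W) (t : E) : FF r b φ t * r t⁻¹ ∈ Cm r := by
  intro s
  rw [← mul_assoc, FF_conj r b hb, smul_mul_assoc, mul_assoc, hb s t⁻¹, mul_smul_comm, smul_smul,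
    b_inv_right r b hb, b_swap r b hb, one_smul, mul_assoc]

omit [Nontrivial W] hb in
theorem FF_add (φ ψ : Module.End k W) (t : E) : FF r b (φ + ψ) t = FF r b φ t + FF r b ψ t := by
  unfold FF
  rw [← Finset.sum_add_distrib]
  refine Finset.sum_congr rfl (fun s _ => ?_)
  rw [mul_add, add_mul, smul_add]

omit [Nontrivial W] hb in
theorem FF_smul (c : k) (φ : Module.End k W) (t : E) : FF r b (c • φ) t = c • FF r b φ t := by
  unfold FF
  rw [Finset.smul_sum]
  refine Finset.sum_congr rfl (fun s _ => ?_)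
  rw [mul_smul_comm, smul_mul_assoc, smul_comm]

include hN in
theorem FF_N (φ : Module.End k W) (t e : E) (he : e ∈ N) : FF r b φ (t * e) = FF r b φ t := by
  unfold FF
  refine Finset.sum_congr rfl (fun s _ => ?_)
  rw [b_mul_left r b hb, b_N_left r b hb N hN e s he, mul_one]

variable (hsc : ∀ e ∈ N, ∃ a : k, r e = a • (1 : Module.End k W))

include hN hnd hsc in
theorem FF_sum (φ : Module.End k W) :
    ∑ t, FF r b φ t = ((Fintype.card E : k) * (Nat.card N : k)) • φ := by
  classical
  unfold FF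
  rw [Finset.sum_comm]
  have h1 : ∀ s, ∑ t, b t s • (r s * φ * r s⁻¹) =
      if s ∈ N then (Fintype.card E : k) • φ else 0 := by
    intro s
    rw [← Finset.sum_smul, b_sum_left r b hb N hN hnd s]
    split_ifs with h
    · congr 1
      obtain ⟨a, ha⟩ := hsc s h
      rw [ha, smul_mul_assoc, one_mul]
      have h2 : a • (φ * r s⁻¹) = φ * (r s * r s⁻¹) := by
        rw [ha, smul_mul_assoc, one_mul, mul_smul_comm]
      rw [smul_mul_assoc, h2, ← map_mul, mul_inv_cancel, map_one, mul_one]
    · rw [zero_smul]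
  rw [Finset.sum_congr rfl (fun s _ => h1 s), ← Finset.sum_filter, Finset.sum_const]
  have h3 : (Finset.univ.filter (fun s => s ∈ N)).card = Nat.card N := by
    rw [Nat.card_eq_fintype_card, Fintype.card_subtype]
  rw [h3, ← Nat.cast_smul_eq_nsmul k, smul_smul, mul_comm]

theorem b_aut (α : E ≃* E) (u v : Module.End k W) (huv : u * v = 1)
    (hu : ∀ s, u * r s = r (α s) * u) (t s : E) : b (α t) (α s) = b t s := by
  apply smul_inj' r (α s * α t)
  rw [map_mul, ← hb]
  have h1 : r (α t) * r (α s) * u = b t s • (r (α s) * r (α t) * u) := by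
    rw [mul_assoc, ← hu, ← mul_assoc, ← hu, mul_assoc, hb t s, mul_smul_comm, ← mul_assoc, hu,
      mul_assoc, hu, mul_assoc]
  have h2 := congrArg (fun z => z * v) h1
  simp only [mul_assoc, smul_mul_assoc, huv, mul_one] at h2
  exact h2

theorem FF_aut (φ : Module.End k W) (α : E ≃* E) (u v : Module.End k W) (huv : u * v = 1)
    (hu : ∀ s, u * r s = r (α s) * u) (hφ : u * φ = φ * u) (t : E) :
    u * FF r b φ t * v = FF r b φ (α t) := by
  unfold FF
  rw [Finset.mul_sum, Finset.sum_mul]
  refine Fintype.sum_equiv α.toEquiv _ _ (fun s => ?_)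
  rw [MulEquiv.toEquiv_eq_coe, MulEquiv.coe_toEquiv, b_aut r b hb α u v huv hu, mul_smul_comm,
    smul_mul_assoc]
  congr 1
  calc u * (r s * φ * r s⁻¹) * v = (u * r s) * φ * r s⁻¹ * v := by simp only [mul_assoc]
    _ = r (α s) * (u * φ) * r s⁻¹ * v := by rw [hu]; simp only [mul_assoc]
    _ = r (α s) * φ * (u * r s⁻¹) * v := by rw [hφ]; simp only [mul_assoc]
    _ = r (α s) * φ * r (α s⁻¹) * (u * v) := by rw [hu]; simp only [mul_assoc]
    _ = r (α s) * φ * r (α s)⁻¹ := by rw [huv, mul_one, map_inv]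

variable [FiniteDimensional k W] (hE : ((Fintype.card E : ℕ) : k) ≠ 0)

include hN hnd hE in
/-- `|T| dim C ≤ n²` -/
theorem dim1 : Nat.card (E ⧸ N) * Module.finrank k (Cm r) ≤ (Module.finrank k W) ^ 2 := by
  classical
  have : Fintype (E ⧸ N) := Fintype.ofFinite _
  set τ : E ⧸ N → E := fun t => Quotient.out t with hτ
  set Ψ : (E ⧸ N → Cm r) →ₗ[k] Module.End k W :=
    { toFun := fun ψ => ∑ t, (ψ t : Module.End k W) * r (τ t)
      map_add' := fun x y => by
        rw [← Finset.sum_add_distrib]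
        refine Finset.sum_congr rfl (fun t _ => ?_)
        simp [add_mul]
      map_smul' := fun c x => by
        simp only [RingHom.id_apply]
        rw [Finset.smul_sum]
        refine Finset.sum_congr rfl (fun t _ => ?_)
        simp } with hΨ
  have hinj : Function.Injective Ψ := by
    rw [← LinearMap.ker_eq_bot, LinearMap.ker_eq_bot']
    intro ψ hψ
    funext t0
    have h0 : ∑ t, (ψ t : Module.End k W) * r (τ t) = 0 := hψ
    have h1 : ∑ s, b (τ t0) s • (r s * (∑ t, (ψ t : Module.End k W) * r (τ t)) * r s⁻¹) = 0 := by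
      rw [h0]; simp
    have h2 : ∀ s, b (τ t0) s • (r s * (∑ t, (ψ t : Module.End k W) * r (τ t)) * r s⁻¹) =
        ∑ t, b s ((τ t0)⁻¹ * τ t) • ((ψ t : Module.End k W) * r (τ t)) := by
      intro s
      rw [Finset.mul_sum, Finset.sum_mul, Finset.smul_sum]
      refine Finset.sum_congr rfl (fun t _ => ?_)
      have h3 : r s * ((ψ t : Module.End k W) * r (τ t)) * r s⁻¹ =
          b s (τ t) • ((ψ t : Module.End k W) * r (τ t)) := by
        rw [← mul_assoc, (mem_Cm r _).1 (ψ t).2 s, mul_assoc (ψ t : Module.End k W), hb s (τ t),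
          mul_smul_comm, smul_mul_assoc]
        congr 1
        rw [mul_assoc, mul_assoc, ← map_mul r s, mul_inv_cancel, map_one, mul_one]
      rw [h3, smul_smul, b_mul_right r b hb, b_inv_right r b hb]
    rw [Finset.sum_congr rfl (fun s _ => h2 s), Finset.sum_comm] at h1
    simp_rw [← Finset.sum_smul, b_sum_left r b hb N hN hnd] at h1
    rw [Finset.sum_eq_single t0] at h1
    · rw [inv_mul_cancel, if_pos N.one_mem] at h1
      rcases smul_eq_zero.1 h1 with h4 | h4
      · exact absurd h4 hE
      · have h5 := congrArg (fun z => z * r (τ t0)⁻¹) h4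
        simp only [mul_assoc, ← map_mul, mul_inv_cancel, map_one, mul_one, zero_mul] at h5
        exact Subtype.ext h5
    · intro t _ ht
      rw [if_neg, zero_smul]
      intro h6
      apply ht
      have h7 : (QuotientGroup.mk (τ t0) : E ⧸ N) = QuotientGroup.mk (τ t) :=
        QuotientGroup.eq.2 h6
      have h8 : ∀ t : E ⧸ N, (QuotientGroup.mk (τ t) : E ⧸ N) = t := fun t => Quotient.out_eq' t
      rw [h8, h8] at h7
      exact h7.symm
    · intro h; exact absurd (Finset.mem_univ _) h
  have h := LinearMap.finrank_le_finrank_of_injective hinj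
  rw [Module.finrank_pi_fintype, Finset.sum_const, Finset.card_univ, smul_eq_mul,
    Module.finrank_linearMap, ← Nat.card_eq_fintype_card] at h
  rw [pow_two]
  exact h

include hN hnd hsc hE in
/-- `dim End_P ≤ o dim C` -/
theorem dim2 (Ω : Type) [Finite Ω] (rep : Ω → E) (D : Submodule k (Module.End k W))
    (hrep : ∀ t : E, ∃ (ω : Ω) (α : E ≃* E) (u v : Module.End k W), u * v = 1 ∧
      (∀ s, u * r s = r (α s) * u) ∧ (∀ φ ∈ D, u * φ = φ * u) ∧ ∃ e ∈ N, t = α (rep ω) * e) :
    Module.finrank k D ≤ Nat.card Ω * Module.finrank k (Cm r) := by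
  classical
  have : Fintype Ω := Fintype.ofFinite _
  set Φ : D →ₗ[k] (Ω → Cm r) :=
    { toFun := fun φ ω => ⟨FF r b φ (rep ω) * r (rep ω)⁻¹, FF_mem r b hb _ _⟩
      map_add' := fun x y => by
        funext ω
        apply Subtype.ext
        simp [FF_add, add_mul]
      map_smul' := fun c x => by
        funext ω
        apply Subtype.ext
        simp [FF_smul] } with hΦ
  have hinj : Function.Injective Φ := by
    rw [← LinearMap.ker_eq_bot, LinearMap.ker_eq_bot']
    intro φ hφ
    have h0 : ∀ ω, FF r b φ (rep ω) = 0 := by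
      intro ω
      have h1 : FF r b φ (rep ω) * r (rep ω)⁻¹ = 0 := congrArg Subtype.val (congrFun hφ ω)
      have h2 := congrArg (fun z => z * r (rep ω)) h1
      simp only [mul_assoc, ← map_mul, inv_mul_cancel, map_one, mul_one, zero_mul] at h2
      exact h2
    have h3 : ∀ t, FF r b φ t = 0 := by
      intro t
      obtain ⟨ω, α, u, v, huv, hu, hD, e, he, rfl⟩ := hrep t
      rw [FF_N r b hb N hN _ _ _ he, ← FF_aut r b hb φ α u v huv hu (hD φ φ.2), h0, mul_zero,
        zero_mul]
    have h4 := FF_sum r b hb N hN hnd hsc φ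
    rw [Finset.sum_congr rfl (fun t _ => h3 t), Finset.sum_const_zero] at h4
    have h5 : ((Nat.card N : ℕ) : k) ≠ 0 := by
      intro h
      apply hE
      have h6 : Nat.card N ∣ Fintype.card E := by
        rw [← Nat.card_eq_fintype_card]
        exact N.card_subgroup_dvd_card
      obtain ⟨m, hm⟩ := h6
      rw [hm, Nat.cast_mul, h, zero_mul]
    have h7 := (smul_eq_zero.1 h4.symm).resolve_left (mul_ne_zero hE h5)
    exact Subtype.ext h7
  have h := LinearMap.finrank_le_finrank_of_injective hinj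
  rw [Module.finrank_pi_fintype, Finset.sum_const, Finset.card_univ, smul_eq_mul,
    ← Nat.card_eq_fintype_card] at h
  exact h

end abs

theorem num (p T o c n D : ℕ) (f' : ℕ) (hT : 0 < T) (hn : 0 < n) (hp : 0 < p) (h1 : T * c ≤ n ^ 2)
    (h2 : n ^ 2 ≤ (p - 1) * D) (h3 : D ≤ o * c) (h4 : T + f' = o * p) (h5 : p ^ 2 * f' ≤ (p - 1) * T) :
    False := by
  obtain ⟨m, rfl⟩ : ∃ m, p = m + 1 := ⟨p - 1, by omega⟩
  simp only [Nat.add_sub_cancel] at h2 h5
  have h6 : T * n ^ 2 ≤ (m * o) * n ^ 2 := by
    calc T * n ^ 2 ≤ T * (m * D) := Nat.mul_le_mul_left _ h2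
      _ ≤ T * (m * (o * c)) := by gcongr
      _ = (m * o) * (T * c) := by ring
      _ ≤ _ := Nat.mul_le_mul_left _ h1
  have h7 : T ≤ m * o := Nat.le_of_mul_le_mul_right h6 (by positivity)
  have h8 : (m + 1) ^ 3 * T ≤ m * ((m + 1) ^ 2 * T + m * T) := by
    calc (m + 1) ^ 3 * T ≤ (m + 1) ^ 3 * (m * o) := Nat.mul_le_mul_left _ h7
      _ = m * ((m + 1) ^ 2 * (o * (m + 1))) := by ring
      _ = m * ((m + 1) ^ 2 * T + (m + 1) ^ 2 * f') := by rw [← h4]; ring
      _ ≤ _ := by gcongr
  nlinarith [Nat.zero_le m, mul_nonneg (Nat.zero_le m) (Nat.zero_le T)]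

/-- conjugation on an invariant subgroup -/
def cjE {G : Type} [Group G] (P E : Subgroup G) (hPE : Inv P E) (x : P) : E ≃* E where
  toFun e := ⟨x * e * (x : G)⁻¹, hPE x x.2 e e.2⟩
  invFun e := ⟨(x : G)⁻¹ * e * x, by
    have := hPE (x : G)⁻¹ (P.inv_mem x.2) e e.2
    rwa [inv_inv] at this⟩
  left_inv e := by
    apply Subtype.ext
    simp only
    group
  right_inv e := by
    apply Subtype.ext
    simp only
    group
  map_mul' e f := by
    apply Subtype.ext
    simp only [Subgroup.coe_mul]
    group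

theorem target : S_D1 → S_D := by
  classical
  intro hD1 p q _ _ k G W _ _ _ _ _ _ _ _ ρ P E E0 hpq hP hfix hPE hcE hE0 hcomm hnd0
  have : Fintype E := Fintype.ofFinite _
  have : Fintype P := Fintype.ofFinite _
  set r : E →* Module.End k W := ρ.comp E.subtype with hr
  have hrv : ∀ e : E, r e = ρ e := fun _ => rfl
  have hex : ∀ s t : E, ∃ a : k, r s * r t = a • (r t * r s) := by
    intro s t
    obtain ⟨a, ha⟩ := ((hE0 _).1 (hcomm s s.2 t t.2)).2
    refine ⟨a, ?_⟩
    rw [hrv, hrv, ← map_mul, ← map_mul]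
    have h1 : (s : G) * t = (s * t * (s : G)⁻¹ * (t : G)⁻¹) * (t * s) := by group
    rw [h1, map_mul, ha, smul_mul_assoc, one_mul]
  choose b hb using hex
  set N : Subgroup E := E0.subgroupOf E with hNdef
  have hmemN : ∀ e : E, e ∈ N ↔ (e : G) ∈ E0 := fun e => Subgroup.mem_subgroupOf
  have hsc : ∀ e ∈ N, ∃ a : k, r e = a • (1 : Module.End k W) := by
    intro e he
    exact ((hE0 _).1 ((hmemN e).1 he)).2
  have hN : ∀ e ∈ N, ∀ f, r e * r f = r f * r e := by
    intro e he f
    obtain ⟨a, ha⟩ := hsc e he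
    rw [ha, smul_mul_assoc, one_mul, mul_smul_comm, mul_one]
  have hnd : ∀ e, (∀ f, r e * r f = r f * r e) → e ∈ N := by
    intro e he
    rw [hmemN]
    apply hnd0 e e.2
    intro f hf
    have := he ⟨f, hf⟩
    rw [map_mul, map_mul]
    exact this
  have hE : ((Fintype.card E : ℕ) : k) ≠ 0 := by
    rw [← Nat.card_eq_fintype_card]
    exact hcE
  -- E0 is invariant under P and normal in E
  have hPE0 : ∀ x ∈ P, ∀ e ∈ E0, x * e * x⁻¹ ∈ E0 := by
    intro x hx e he
    obtain ⟨h1, a, ha⟩ := (hE0 e).1 he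
    refine (hE0 _).2 ⟨hPE x hx e h1, a, ?_⟩
    rw [map_mul, map_mul, ha, mul_smul_comm, mul_one, smul_mul_assoc, ← map_mul, mul_inv_cancel,
      map_one]
  have hEE0 : ∀ x ∈ E, ∀ e ∈ E0, x * e * x⁻¹ ∈ E0 := by
    intro x hx e he
    obtain ⟨h1, a, ha⟩ := (hE0 e).1 he
    refine (hE0 _).2 ⟨E.mul_mem (E.mul_mem hx h1) (E.inv_mem hx), a, ?_⟩
    rw [map_mul, map_mul, ha, mul_smul_comm, mul_one, smul_mul_assoc, ← map_mul, mul_inv_cancel,
      map_one]
  -- the action on T
  let cj : P → E ≃* E := cjE P E hPE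
  have hcj : ∀ (x : P) (e : E), ((cj x e : E) : G) = x * e * (x : G)⁻¹ := fun _ _ => rfl
  have hcjN : ∀ (x : P) (e f : E), e⁻¹ * f ∈ N → (cj x e)⁻¹ * (cj x f) ∈ N := by
    intro x e f h
    rw [hmemN] at h ⊢
    have h1 := hPE0 x x.2 _ h
    simp only [Subgroup.coe_mul, InvMemClass.coe_inv, hcj] at h1 ⊢
    convert h1 using 1
    group
  let actT : MulAction P (E ⧸ N) :=
    { smul := fun x t => Quotient.map' (s₁ := QuotientGroup.leftRel N) (s₂ := QuotientGroup.leftRel N)
        (cj x) (fun e f h => by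
          rw [QuotientGroup.leftRel_apply] at h ⊢
          exact hcjN x e f h) t
      one_smul := fun t => by
        induction t using QuotientGroup.induction_on with
        | H e =>
          show ((cj 1 e : E) : E ⧸ N) = (e : E ⧸ N)
          congr 1
          apply Subtype.ext
          rw [hcj]
          simp
      mul_smul := fun x y t => by
        induction t using QuotientGroup.induction_on with
        | H e =>
          show ((cj (x * y) e : E) : E ⧸ N) = (cj x (cj y e) : E ⧸ N)
          congr 1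
          apply Subtype.ext
          rw [hcj, hcj, hcj]
          simp only [Subgroup.coe_mul]
          group }
  have hsm : ∀ (x : P) (e : E), x • (e : E ⧸ N) = ((cj x e : E) : E ⧸ N) := fun _ _ => rfl
  have : Fintype (E ⧸ N) := Fintype.ofFinite _
  let Ω := MulAction.orbitRel.Quotient P (E ⧸ N)
  have : Finite Ω := Quotient.finite _
  have : Fintype Ω := Fintype.ofFinite _
  have : ∀ g : P, Fintype (MulAction.fixedBy (E ⧸ N) g) := fun g => Fintype.ofFinite _
  have burn := MulAction.sum_card_fixedBy_eq_card_orbits_mul_card_group P (E ⧸ N)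
  -- the commutant of P
  set D : Submodule k (Module.End k W) :=
    { carrier := {φ | ∀ x : P, ρ x * φ = φ * ρ x}
      add_mem' := fun {x y} hx hy s => by rw [mul_add, add_mul, hx s, hy s]
      zero_mem' := fun s => by rw [mul_zero, zero_mul]
      smul_mem' := fun c x hx s => by rw [mul_smul_comm, smul_mul_assoc, hx s] } with hDdef
  have hDmem : ∀ φ, φ ∈ D ↔ ∀ x : P, ρ x * φ = φ * ρ x := fun _ => Iff.rfl
  have e2 := hD1 p q k P W (ρ.comp P.subtype) D hpq hP
    (fun v hv => hfix v (fun x hx => hv ⟨x, hx⟩)) (fun φ => hDmem φ)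
  have e1 := dim1 r b hb N hN hnd hE
  have e3 := dim2 r b hb N hN hnd hsc hE Ω (fun ω => (ω.out).out) D (by
    intro t
    let ω : Ω := Quotient.mk'' (t : E ⧸ N)
    have h1 : (Quotient.mk'' ω.out : Ω) = ω := Quotient.out_eq' ω
    have h2 : MulAction.orbitRel P (E ⧸ N) (t : E ⧸ N) ω.out := Quotient.exact' h1.symm
    rw [MulAction.orbitRel_apply] at h2
    obtain ⟨x, hx⟩ := h2
    refine ⟨ω, cj x, ρ x, ρ (x : G)⁻¹, ?_, ?_, ?_, ?_⟩
    · rw [← map_mul, mul_inv_cancel, map_one]
    · intro s
      rw [hrv, hrv, ← map_mul, ← map_mul, hcj]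
      congr 1
      group
    · intro φ hφ
      exact (hDmem φ).1 hφ x
    · have h3 : (ω.out : E ⧸ N) = ((ω.out).out : E) := (QuotientGroup.out_eq' _).symm
      have h4 : (((cj x (ω.out).out : E)) : E ⧸ N) = (t : E ⧸ N) := by
        rw [← hsm, ← h3]
        exact hx
      have h5 := QuotientGroup.eq.1 h4
      exact ⟨_, h5, by group⟩)
  have hTpos : 0 < Nat.card (E ⧸ N) := Nat.card_pos
  have hnpos : 0 < Module.finrank k W := Module.finrank_pos
  have hppos : 0 < Nat.card P := Nat.card_pos
  -- the exceptional element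
  obtain ⟨x, hx1, hxT⟩ : ∃ x : P, x ≠ 1 ∧
      Nat.card (E ⧸ N) ≤ Nat.card P ^ 2 * Fintype.card (MulAction.fixedBy (E ⧸ N) x) := by
    by_contra hcon
    push Not at hcon
    have hsplit : Nat.card (E ⧸ N) + ∑ x ∈ Finset.univ.erase (1 : P),
        Fintype.card (MulAction.fixedBy (E ⧸ N) x) = Nat.card Ω * Nat.card P := by
      rw [Nat.card_eq_fintype_card, Nat.card_eq_fintype_card, Nat.card_eq_fintype_card, ← burn,
        ← Finset.add_sum_erase Finset.univ _ (Finset.mem_univ (1 : P))]
      congr 1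
      have : MulAction.fixedBy (E ⧸ N) (1 : P) = Set.univ := by
        ext t
        simp
      rw [← Nat.card_eq_fintype_card, ← Nat.card_eq_fintype_card, this, Nat.card_univ]
    refine num (Nat.card P) (Nat.card (E ⧸ N)) (Nat.card Ω) (Module.finrank k (Cm r))
      (Module.finrank k W) (Module.finrank k D) _ hTpos hnpos hppos e1 e2 e3 hsplit ?_
    rw [Finset.mul_sum]
    calc ∑ x ∈ Finset.univ.erase (1 : P), Nat.card P ^ 2 *
          Fintype.card (MulAction.fixedBy (E ⧸ N) x)
        ≤ ∑ x ∈ Finset.univ.erase (1 : P), Nat.card (E ⧸ N) :=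
          Finset.sum_le_sum (fun x hx => (hcon x (Finset.ne_of_mem_erase hx)).le)
      _ = (Nat.card P - 1) * Nat.card (E ⧸ N) := by
          rw [Finset.sum_const, Finset.card_erase_of_mem (Finset.mem_univ _), Finset.card_univ,
            smul_eq_mul, Nat.card_eq_fintype_card (α := P)]
  refine ⟨x, x.2, fun h => hx1 (Subtype.ext h), ?_⟩
  -- the subgroup
  let C : Subgroup G :=
    { carrier := {m | m ∈ E ∧ (x : G) * m * (x : G)⁻¹ * m⁻¹ ∈ E0}
      mul_mem' := by
        rintro m m' ⟨h1, h2⟩ ⟨h3, h4⟩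
        refine ⟨E.mul_mem h1 h3, ?_⟩
        have h5 := E0.mul_mem h2 (hEE0 m h1 _ h4)
        convert h5 using 1
        group
      one_mem' := ⟨E.one_mem, by simp⟩
      inv_mem' := by
        rintro m ⟨h1, h2⟩
        refine ⟨E.inv_mem h1, ?_⟩
        have h5 := hEE0 m⁻¹ (E.inv_mem h1) _ (E0.inv_mem h2)
        have h6 := hPE (x : G) x.2 _ h1
        have h7 := hEE0 _ (E.inv_mem h6) _ (E0.inv_mem h2)
        convert h7 using 1
        group }
  refine ⟨C, fun m hm => hm.1, fun m hm => hm.2, ?_⟩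
  have hpre : ((C.subgroupOf E : Subgroup E) : Set E) =
      QuotientGroup.mk ⁻¹' (MulAction.fixedBy (E ⧸ N) x) := by
    ext m
    have h1 : m ∈ C.subgroupOf E ↔ (x : G) * m * (x : G)⁻¹ * (m : G)⁻¹ ∈ E0 := by
      rw [Subgroup.mem_subgroupOf]
      exact ⟨fun h => h.2, fun h => ⟨m.2, h⟩⟩
    rw [SetLike.mem_coe, h1, Set.mem_preimage, MulAction.mem_fixedBy, hsm, eq_comm,
      QuotientGroup.eq, hmemN]
    simp only [Subgroup.coe_mul, InvMemClass.coe_inv, hcj]
    constructor
    · intro h
      have h2 := hEE0 _ (E.inv_mem m.2) _ h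
      convert h2 using 1
      group
    · intro h
      have h2 := hEE0 _ m.2 _ h
      convert h2 using 1
      group
  have hcardC : Nat.card (C.subgroupOf E) =
      Nat.card N * Fintype.card (MulAction.fixedBy (E ⧸ N) x) := by
    rw [← Nat.card_eq_fintype_card, ← Nat.card_prod,
      ← Nat.card_congr (QuotientGroup.preimageMkEquivSubgroupProdSet N _), ← hpre]
    rfl
  have hidx := (C.subgroupOf E).card_mul_index
  have hNidx := N.card_eq_card_quotient_mul_card_subgroup
  show (C.subgroupOf E).index ≤ Nat.card P ^ 2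
  rw [hcardC, hNidx] at hidx
  have hNpos : 0 < Nat.card N := Nat.card_pos
  have hfpos : 0 < Fintype.card (MulAction.fixedBy (E ⧸ N) x) := by
    rcases Nat.eq_zero_or_pos (Fintype.card (MulAction.fixedBy (E ⧸ N) x)) with h | h
    · rw [h, mul_zero] at hxT
      omega
    · exact h
  have hfin : (Nat.card N * Fintype.card (MulAction.fixedBy (E ⧸ N) x)) * (C.subgroupOf E).index ≤
      (Nat.card N * Fintype.card (MulAction.fixedBy (E ⧸ N) x)) * Nat.card P ^ 2 := by
    rw [hidx]
    calc Nat.card (E ⧸ N) * Nat.card N ≤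
        (Nat.card P ^ 2 * Fintype.card (MulAction.fixedBy (E ⧸ N) x)) * Nat.card N :=
          Nat.mul_le_mul_right _ hxT
      _ = _ := by ring
  exact Nat.le_of_mul_le_mul_left hfin (by positivity)

end Pool.Agent.Helper867_Rae.JobD
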