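/- JOB for MP_ecbc8a_al (owner helper867), name RAE D1 Hom dimensions.
All modules used here are on origin/main (they compile; Base/Base2 are proved toolkits):
  cd /workdir/pool/outputs/live && git fetch -q && git archive origin/main Pool/Agent/Helper867_Rae Pool/Agent/TH62 Pool/Agent/TH84 Pool/Agent/TH777 Pool/Agent/TH365 Pool/Agent/TH350 Pool/Agent/Helper407 | tar x -C /workdir/pool
  cd /workdir/pool && lake build Pool.Agent.Helper867_Rae.Base2 Pool.Agent.Helper867_Rae.Stmts3 Pool.Agent.Helper867_Rae.Stmts2
Definitions: Helper867_Rae/Defs.lean (LM, UQ, Sm, Bd, LF, UQi, HUQ), TH62/PL/Defs.lean (PN, PF, Len, FL, Inv). The exact statement S_xxx is in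
Helper867_Rae/Stmts.lean, Stmts2.lean or Stmts3.lean: read it first. Toolkit: Base.lean, Base2.lean (LM.mono, mono_n, comap, map, inf, iInf, normalCore,
conj, absorb, sub, subgroupOf, LM.ext (L6), LM.of_comm (L7), LM.of_commuting, LM.of_solvable, UQ.sylow, UQ.subgroupOf, UQ.map, UQ.conj, UQ.commute,
exists_chief, meet_center, card_map_le, PF_of_isPGroup, isPGroup_of_PF, PN_compl), TH62/PL/Basic.lean, TH62/PL/Hall.lean. Whole paper proof: papers.id = 54.
Keep the target statement unchanged; return one file with a namespace of your own choice is fine, e.g. the one below. No sorry, standard axioms only.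

PROOF:
R = k[P] (MonoidAlgebra k P) is semisimple (Maschke, char k = q, P a p-group, p <> q). For finite-dimensional R-modules put h(U,V) = finrank_k Hom_R(U,V).
(i) If f : U -> V is a nonzero R-map then U ~ S x U1, V ~ S x V1 with S = range f (semisimplicity; U1 = ker f). h is additive in both
arguments (LinearMap.coprodEquiv, LinearMap.prodEquiv). By strong induction on dim U + dim V: h(U,V) = h(V,U), and
h(U,U) + h(V,V) >= 2 h(U,V) (both sides change by the same amount when a common summand S is cancelled; if there is no nonzero map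
U -> V nor V -> U the right side is 0).
(ii) Let e = sum_{x in P} x in R (spans a 1-dimensional two-sided ideal), I = R / (R e). h(I,I) = |P| - 1 (Hom_R(R/Re, M) = {m in M : e m = 0}; for M = I all
m satisfy e m = 0 since e r = eps(r) e), dim I = |P| - 1. On W: for w in W the vector e w is fixed by P, hence 0; so h(I,W) = dim W = n.
(iii) Apply (i) to U = (Fin a -> W), V = (Fin n -> I) with a = |P| - 1: a^2 h(W,W) + n^2 a >= 2 a n * n, so a h(W,W) >= n^2 (if a = 0 then P is trivial, every vector is fixed, W = 0, n = 0).
h(W,W) = finrank E. You may use any other route (e.g. Mathlib isotypic theory / Wedderburn and Cauchy-Schwarz; k need not be algebraically closed).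
-/
import Pool.Agent.Helper867_Rae.Base2
import Pool.Agent.Helper867_Rae.Stmts3

set_option autoImplicit false
set_option linter.unusedSectionVars false

namespace Pool.Agent.Helper867_Rae.JobD1

open Pool.Agent.TH62.PL Pool.Agent.Helper867_Rae

section abs

variable (k R : Type) [Field k] [Ring R] [Algebra k R]

/-- dimension of the space of homomorphisms -/
noncomputable def hd (U V : Type) [AddCommGroup U] [Module R U] [AddCommGroup V] [Module k V]
    [Module R V] [IsScalarTower k R V] : ℕ := Module.finrank k (U →ₗ[R] V)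

variable {k R}
variable {U V U' V' U₁ U₂ V₁ V₂ : Type}
  [AddCommGroup U] [Module k U] [Module R U] [IsScalarTower k R U] [Module.Finite k U]
  [AddCommGroup V] [Module k V] [Module R V] [IsScalarTower k R V] [Module.Finite k V]
  [AddCommGroup U'] [Module k U'] [Module R U'] [IsScalarTower k R U'] [Module.Finite k U']
  [AddCommGroup V'] [Module k V'] [Module R V'] [IsScalarTower k R V'] [Module.Finite k V']
  [AddCommGroup U₁] [Module k U₁] [Module R U₁] [IsScalarTower k R U₁] [Module.Finite k U₁]
  [AddCommGroup U₂] [Module k U₂] [Module R U₂] [IsScalarTower k R U₂] [Module.Finite k U₂]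
  [AddCommGroup V₁] [Module k V₁] [Module R V₁] [IsScalarTower k R V₁] [Module.Finite k V₁]
  [AddCommGroup V₂] [Module k V₂] [Module R V₂] [IsScalarTower k R V₂] [Module.Finite k V₂]

omit [IsScalarTower k R U] in
theorem fin_hom [IsScalarTower k R U] : Module.Finite k (U →ₗ[R] V) :=
  Module.Finite.of_injective (LinearMap.restrictScalarsₗ k R U V k)
    (LinearMap.restrictScalars_injective k)

/-- left congruence -/
def congL (e : U ≃ₗ[R] U') : (U →ₗ[R] V) ≃ₗ[k] (U' →ₗ[R] V) where
  toFun f := f ∘ₗ (e.symm : U' →ₗ[R] U)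
  invFun g := g ∘ₗ (e : U →ₗ[R] U')
  map_add' f g := rfl
  map_smul' c f := rfl
  left_inv f := by ext x; simp
  right_inv f := by ext x; simp

/-- right congruence -/
def congR (e : V ≃ₗ[R] V') : (U →ₗ[R] V) ≃ₗ[k] (U →ₗ[R] V') where
  toFun f := (e : V →ₗ[R] V') ∘ₗ f
  invFun g := (e.symm : V' →ₗ[R] V) ∘ₗ g
  map_add' f g := by ext x; simp
  map_smul' c f := by
    ext x
    have : ∀ v : V, e (c • v) = c • e v := fun v => by
      rw [← algebraMap_smul R c v, map_smul, algebraMap_smul]
    simp [this]
  left_inv f := by ext x; simp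
  right_inv f := by ext x; simp

theorem hd_congL (e : U ≃ₗ[R] U') : hd k R U V = hd k R U' V :=
  LinearEquiv.finrank_eq (congL e)

theorem hd_congR (e : V ≃ₗ[R] V') : hd k R U V = hd k R U V' :=
  LinearEquiv.finrank_eq (congR e)

theorem hd_prodL : hd k R (U₁ × U₂) V = hd k R U₁ V + hd k R U₂ V := by
  have := fin_hom (k := k) (R := R) (U := U₁) (V := V)
  have := fin_hom (k := k) (R := R) (U := U₂) (V := V)
  unfold hd
  rw [← Module.finrank_prod]
  exact (LinearEquiv.finrank_eq (LinearMap.coprodEquiv (R := R) k (M := U₁) (M₂ := U₂) (M₃ := V))).symm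

theorem hd_prodR : hd k R U (V₁ × V₂) = hd k R U V₁ + hd k R U V₂ := by
  have := fin_hom (k := k) (R := R) (U := U) (V := V₁)
  have := fin_hom (k := k) (R := R) (U := U) (V := V₂)
  unfold hd
  rw [← Module.finrank_prod]
  exact (LinearEquiv.finrank_eq (LinearMap.prodEquiv (R := R) k (M := U) (M₂ := V₁) (M₃ := V₂))).symm

theorem hd_powL (m : ℕ) : hd k R (Fin m → U) V = m * hd k R U V := by
  have := fin_hom (k := k) (R := R) (U := U) (V := V)
  unfold hd
  have e : (Fin m → (U →ₗ[R] V)) ≃ₗ[k] ((Fin m → U) →ₗ[R] V) :=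
    LinearMap.lsum R (fun _ : Fin m => U) k
  rw [← LinearEquiv.finrank_eq e, Module.finrank_pi_fintype]
  simp

theorem hd_self : hd k R R V = Module.finrank k V :=
  LinearEquiv.finrank_eq (LinearMap.ringLmapEquivSelf R k V)

theorem hd_zero (h : ∀ f : U →ₗ[R] V, f = 0) : hd k R U V = 0 := by
  have : Subsingleton (U →ₗ[R] V) := ⟨fun f g => by rw [h f, h g]⟩
  exact Module.finrank_zero_of_subsingleton

/-- splitting off a common summand -/
theorem split [IsSemisimpleRing R] (f : U →ₗ[R] V) :
    ∃ (V1 : Submodule R V), Nonempty (U ≃ₗ[R] (LinearMap.ker f × LinearMap.range f)) ∧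
      Nonempty (V ≃ₗ[R] (LinearMap.range f × V1)) := by
  obtain ⟨C, hC⟩ := exists_isCompl (LinearMap.ker f)
  obtain ⟨V1, hV1⟩ := exists_isCompl (LinearMap.range f)
  refine ⟨V1, ⟨?_⟩, ⟨(Submodule.prodEquivOfIsCompl _ _ hV1).symm⟩⟩
  have e1 : U ≃ₗ[R] (LinearMap.ker f × C) := (Submodule.prodEquivOfIsCompl _ _ hC).symm
  have e2 : C ≃ₗ[R] LinearMap.range f :=
    (Submodule.quotientEquivOfIsCompl _ _ hC).symm.trans f.quotKerEquivRange
  exact e1.trans (LinearEquiv.prodCongr (LinearEquiv.refl R _) e2)

theorem fin_sub (p : Submodule R U) : Module.Finite k p :=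
  Module.Finite.of_injective (p.subtype.restrictScalars k) (Submodule.injective_subtype p)

theorem step [IsSemisimpleRing R] (N : ℕ)
    (ih : ∀ (U V : Type) [AddCommGroup U] [Module k U] [Module R U] [IsScalarTower k R U]
      [Module.Finite k U] [AddCommGroup V] [Module k V] [Module R V] [IsScalarTower k R V]
      [Module.Finite k V], Module.finrank k U + Module.finrank k V ≤ N →
      hd k R U V = hd k R V U ∧ 2 * hd k R U V ≤ hd k R U U + hd k R V V)
    (h : Module.finrank k U + Module.finrank k V ≤ N + 1) (f : U →ₗ[R] V) (hf : f ≠ 0) :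
    hd k R U V = hd k R V U ∧ 2 * hd k R U V ≤ hd k R U U + hd k R V V := by
  obtain ⟨V1, ⟨e1⟩, ⟨e2⟩⟩ := split f
  have i1 := fin_sub (k := k) (LinearMap.ker f)
  have i2 := fin_sub (k := k) (LinearMap.range f)
  have i3 := fin_sub (k := k) V1
  have d1 : Module.finrank k U = Module.finrank k (LinearMap.ker f) +
      Module.finrank k (LinearMap.range f) := by
    rw [← Module.finrank_prod]
    exact LinearEquiv.finrank_eq (e1.restrictScalars k)
  have d2 : Module.finrank k V = Module.finrank k (LinearMap.range f) +
      Module.finrank k V1 := by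
    rw [← Module.finrank_prod]
    exact LinearEquiv.finrank_eq (e2.restrictScalars k)
  have d3 : 1 ≤ Module.finrank k (LinearMap.range f) := by
    have hn : Nontrivial (LinearMap.range f) := by
      rw [Submodule.nontrivial_iff_ne_bot]
      intro h0
      exact hf (LinearMap.range_eq_bot.1 h0)
    exact Module.finrank_pos
  have a1 := ih (LinearMap.ker f) V1 (by omega)
  have a2 := ih (LinearMap.ker f) (LinearMap.range f) (by omega)
  have a3 := ih (LinearMap.range f) V1 (by omega)
  have b1 : hd k R U V = hd k R (LinearMap.ker f) (LinearMap.range f) +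
      hd k R (LinearMap.ker f) V1 + (hd k R (LinearMap.range f) (LinearMap.range f) +
      hd k R (LinearMap.range f) V1) := by
    rw [hd_congL e1, hd_congR e2, hd_prodL, hd_prodR, hd_prodR]
  have b2 : hd k R V U = hd k R (LinearMap.range f) (LinearMap.ker f) +
      hd k R (LinearMap.range f) (LinearMap.range f) + (hd k R V1 (LinearMap.ker f) +
      hd k R V1 (LinearMap.range f)) := by
    rw [hd_congL e2, hd_congR e1, hd_prodL, hd_prodR, hd_prodR]
  have b3 : hd k R U U = hd k R (LinearMap.ker f) (LinearMap.ker f) +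
      hd k R (LinearMap.ker f) (LinearMap.range f) + (hd k R (LinearMap.range f) (LinearMap.ker f) +
      hd k R (LinearMap.range f) (LinearMap.range f)) := by
    rw [hd_congL e1, hd_congR e1, hd_prodL, hd_prodR, hd_prodR]
  have b4 : hd k R V V = hd k R (LinearMap.range f) (LinearMap.range f) +
      hd k R (LinearMap.range f) V1 + (hd k R V1 (LinearMap.range f) +
      hd k R V1 V1) := by
    rw [hd_congL e2, hd_congR e2, hd_prodL, hd_prodR, hd_prodR]
  omega

theorem main [IsSemisimpleRing R] : ∀ (N : ℕ) (U V : Type) [AddCommGroup U] [Module k U]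
    [Module R U] [IsScalarTower k R U]
    [Module.Finite k U] [AddCommGroup V] [Module k V] [Module R V] [IsScalarTower k R V]
    [Module.Finite k V], Module.finrank k U + Module.finrank k V ≤ N →
    hd k R U V = hd k R V U ∧ 2 * hd k R U V ≤ hd k R U U + hd k R V V := by
  intro N
  induction N with
  | zero =>
    intro U V _ _ _ _ _ _ _ _ _ _ h
    have hU : Subsingleton U := (Module.finrank_zero_iff (R := k) (M := U)).1 (by omega)
    have hV : Subsingleton V := (Module.finrank_zero_iff (R := k) (M := V)).1 (by omega)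
    rw [hd_zero (U := U) (V := V) (fun f => Subsingleton.elim _ _),
      hd_zero (U := V) (V := U) (fun f => Subsingleton.elim _ _)]
    omega
  | succ N ih =>
    intro U V _ _ _ _ _ _ _ _ _ _ h
    by_cases h1 : ∀ f : U →ₗ[R] V, f = 0
    · by_cases h2 : ∀ f : V →ₗ[R] U, f = 0
      · rw [hd_zero h1, hd_zero h2]
        omega
      · push Not at h2
        obtain ⟨f, hf⟩ := h2
        have := step N (fun U V _ _ _ _ _ _ _ _ _ _ h => ih U V h) (by omega) f hf
        omega
    · push Not at h1
      obtain ⟨f, hf⟩ := h1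
      exact step N (fun U V _ _ _ _ _ _ _ _ _ _ h => ih U V h) h f hf

theorem hd_symm [IsSemisimpleRing R] : hd k R U V = hd k R V U := (main _ U V le_rfl).1

theorem hd_powR [IsSemisimpleRing R] (m : ℕ) : hd k R U (Fin m → V) = m * hd k R U V := by
  rw [hd_symm, hd_powL, hd_symm]

end abs

/-- the trivial representation -/
abbrev tr (k P : Type) [Field k] [Group P] : P →* Module.End k k := 1

theorem final (k P W : Type) [Field k] [Group P] [Finite P] [NeZero (Nat.card P : k)]
    [AddCommGroup W] [Module k W] [FiniteDimensional k W]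
    (ρ : Representation k P W) (hfix : ∀ v : W, (∀ x : P, ρ x v = v) → v = 0) :
    (Module.finrank k W) ^ 2 ≤ (Nat.card P - 1) *
      hd k (MonoidAlgebra k P) ρ.asModule ρ.asModule := by
  classical
  set τ : Representation k P k := 1 with hτ
  have f1 : Module.Finite k (MonoidAlgebra k P) := inferInstance
  have c1 : Module.finrank k (MonoidAlgebra k P) = Nat.card P := by
    have := Fintype.ofFinite P
    rw [LinearEquiv.finrank_eq (MonoidAlgebra.coeffLinearEquiv (S := k) (M := P) k),
      Module.finrank_finsupp_self, Nat.card_eq_fintype_card]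
  have hpos : 0 < Nat.card P := Nat.card_pos
  set a : ℕ := Nat.card P - 1 with ha
  have hcard : Nat.card P = a + 1 := by omega
  set n : ℕ := Module.finrank k W with hn
  set h : ℕ := hd k (MonoidAlgebra k P) ρ.asModule ρ.asModule with hh
  have nW : Module.finrank k ρ.asModule = n := rfl
  have nT : Module.finrank k τ.asModule = 1 := Module.finrank_self k
  -- no maps from the trivial module
  have z1 : hd k (MonoidAlgebra k P) τ.asModule ρ.asModule = 0 := by
    refine hd_zero fun f => ?_
    have h1 : ρ.asModuleEquiv (f (τ.asModuleEquiv.symm 1)) = 0 := by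
      refine hfix _ fun x => ?_
      have h3 : τ.asModuleEquiv.symm (1 : k) =
          MonoidAlgebra.of k P x • τ.asModuleEquiv.symm (1 : k) :=
        Representation.asModuleEquiv_symm_map_rho τ x (1 : k)
      conv_rhs => rw [h3, map_smul, Representation.asModuleEquiv_map_smul,
        Representation.asAlgebraHom_of]
    have h4 : f (τ.asModuleEquiv.symm 1) = 0 := ρ.asModuleEquiv.injective (by rw [h1, map_zero])
    refine LinearMap.ext fun v => ?_
    have h5 : v = (τ.asModuleEquiv v) • τ.asModuleEquiv.symm (1 : k) := by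
      apply τ.asModuleEquiv.injective
      rw [map_smul, LinearEquiv.apply_symm_apply, smul_eq_mul, mul_one]
    rw [h5]
    have h6 := (f.restrictScalars k).map_smul (τ.asModuleEquiv v) (τ.asModuleEquiv.symm (1 : k))
    have h7 : f ((τ.asModuleEquiv v) • τ.asModuleEquiv.symm (1 : k)) =
      (τ.asModuleEquiv v) • f (τ.asModuleEquiv.symm (1 : k)) := h6
    rw [h7, h4, smul_zero]
    rfl
  have z2 : hd k (MonoidAlgebra k P) ρ.asModule τ.asModule = 0 := by
    rw [hd_symm, z1]
  have t1 : hd k (MonoidAlgebra k P) τ.asModule τ.asModule ≤ 1 := by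
    unfold hd
    refine (LinearMap.finrank_le_finrank_of_injective
      (f := LinearMap.restrictScalarsₗ k (MonoidAlgebra k P) τ.asModule τ.asModule k)
      (LinearMap.restrictScalars_injective k)).trans ?_
    rw [Module.finrank_linearMap, nT]
  have m := (main (k := k) (R := MonoidAlgebra k P) _ (Fin n → MonoidAlgebra k P)
    ((Fin a → ρ.asModule) × (Fin n → τ.asModule)) le_rfl).2
  have m1 : hd k (MonoidAlgebra k P) (Fin n → MonoidAlgebra k P)
      ((Fin a → ρ.asModule) × (Fin n → τ.asModule)) = n * (a * n + n) := by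
    rw [hd_powL, hd_self, Module.finrank_prod, Module.finrank_pi_fintype, Module.finrank_pi_fintype]
    simp [nW, nT]
  have m2 : hd k (MonoidAlgebra k P) (Fin n → MonoidAlgebra k P) (Fin n → MonoidAlgebra k P) =
      n * (n * (a + 1)) := by
    rw [hd_powL, hd_self, Module.finrank_pi_fintype]
    simp [c1, hcard]
  have m3 : hd k (MonoidAlgebra k P) ((Fin a → ρ.asModule) × (Fin n → τ.asModule))
      ((Fin a → ρ.asModule) × (Fin n → τ.asModule)) ≤ a * (a * h) + n * n := by
    rw [hd_prodL, hd_powL, hd_powL, hd_prodR, hd_prodR, hd_powR, hd_powR, hd_powR, hd_powR, z1, z2]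
    have : n * (n * hd k (MonoidAlgebra k P) τ.asModule τ.asModule) ≤ n * (n * 1) :=
      Nat.mul_le_mul le_rfl (Nat.mul_le_mul le_rfl t1)
    simp only [mul_zero, add_zero, zero_add]
    rw [mul_one] at this
    exact Nat.add_le_add_left this _
  rw [m1, m2] at m
  have m4 : a * n ^ 2 ≤ a * (a * h) := by nlinarith
  rcases Nat.eq_zero_or_pos a with h0 | h0
  · have hsub : Subsingleton P := by
      rw [h0, zero_add] at hcard
      exact (Nat.card_eq_one_iff_unique.1 hcard).1
    have hW : ∀ v : W, v = 0 := fun v => hfix v fun x => by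
      rw [Subsingleton.elim x 1, map_one]
      rfl
    have : Subsingleton W := ⟨fun v w => by rw [hW v, hW w]⟩
    have : n = 0 := Module.finrank_zero_of_subsingleton
    rw [this]
    simp
  · exact Nat.le_of_mul_le_mul_left m4 h0


theorem target : S_D1 := by
  intro p q hp hq k P W _ _ _ _ _ _ _ ρ E hpq hP hfix hE
  obtain ⟨m, hm⟩ := IsPGroup.iff_card.1 hP
  have hne : NeZero (Nat.card P : k) := by
    constructor
    rw [hm]
    intro h0
    rw [CharP.cast_eq_zero_iff k q] at h0
    have h1 := hq.out.dvd_of_dvd_pow h0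
    exact hpq ((Nat.prime_dvd_prime_iff_eq hq.out hp.out).1 h1).symm
  refine (final k P W ρ hfix).trans (Nat.mul_le_mul le_rfl ?_)
  unfold hd
  let ψ : (Representation.asModule ρ →ₗ[MonoidAlgebra k P] Representation.asModule ρ) →
      Module.End k W := fun f =>
    (Representation.asModuleEquiv ρ).toLinearMap ∘ₗ (f.restrictScalars k) ∘ₗ
      (Representation.asModuleEquiv ρ).symm.toLinearMap
  have hψ : ∀ f w, ψ f w = Representation.asModuleEquiv ρ
      (f ((Representation.asModuleEquiv ρ).symm w)) := fun f w => rfl
  have hmem : ∀ f, ψ f ∈ E := by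
    intro f
    refine (hE _).2 fun x => LinearMap.ext fun w => ?_
    rw [Module.End.mul_apply, Module.End.mul_apply, hψ, hψ,
      Representation.asModuleEquiv_symm_map_rho, map_smul, Representation.asModuleEquiv_map_smul,
      Representation.asAlgebraHom_of]
  let Φ : (Representation.asModule ρ →ₗ[MonoidAlgebra k P] Representation.asModule ρ) →ₗ[k] E :=
    { toFun := fun f => ⟨ψ f, hmem f⟩
      map_add' := fun f g => Subtype.ext (LinearMap.ext fun w => by
        show ψ (f + g) w = ψ f w + ψ g w
        rw [hψ, hψ, hψ, LinearMap.add_apply, map_add])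
      map_smul' := fun c f => Subtype.ext (LinearMap.ext fun w => by
        show ψ (c • f) w = c • ψ f w
        rw [hψ, hψ, LinearMap.smul_apply, map_smul]) }
  refine LinearMap.finrank_le_finrank_of_injective (f := Φ) ?_
  intro f g hfg
  have h1 : ψ f = ψ g := congrArg Subtype.val hfg
  refine LinearMap.ext fun v => ?_
  have h2 := LinearMap.congr_fun h1 (Representation.asModuleEquiv ρ v)
  rw [hψ, hψ, LinearEquiv.symm_apply_apply] at h2
  exact (Representation.asModuleEquiv ρ).injective h2

end Pool.Agent.Helper867_Rae.JobD1
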