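import Pool.Agent.Helper867_Rae.Defs

set_option autoImplicit false

/-! Exact statements, section 8 of the paper proof (papers.id = 54): the infinite part. -/

namespace Pool.Agent.Helper867_Rae

open Pool.Agent.TH62.PL

/-- (8a), the tree argument -/
def S_tree : Prop :=
  ∀ (G : Type) [Group G], LF G → ∀ K : Subgroup G,
    (∀ H : Subgroup G, H ≤ K → Countable H → Cardinal.mk (Sylow 2 H) < Cardinal.continuum) →
    ∀ H : Subgroup G, H ≤ K → ∃ F : Subgroup G, UQi 2 H F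

/-- (8b), local to global -/
def S_loc : Prop :=
  ∀ (p c : ℕ) (G : Type) [Group G], p.Prime → LF G → ∀ P : Subgroup G, Finite P →
    (∀ X : Subgroup G, Finite X → P ≤ X → Len {p} c (⊥ : Subgroup X)) →
    Len {p} c (⊥ : Subgroup G)

/-- (HH) for locally finite groups -/
def S_HH : Prop :=
  ∀ (p n : ℕ) (G : Type) [Group G], p.Prime → LF G → Len {p} n (⊥ : Subgroup G) →
  ∀ F : Subgroup G, F.Normal →
    ((PF {p}ᶜ ⊥ F ∧ (∀ N : Subgroup G, N.Normal → IsPGroup p N → N = ⊥) ∧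
        (∀ N : Subgroup G, N.Normal → PF {p}ᶜ ⊥ N → N ≤ F)) ∨
      (IsPGroup p F ∧ (∀ N : Subgroup G, N.Normal → PF {p}ᶜ ⊥ N → N = ⊥) ∧
        (∀ N : Subgroup G, N.Normal → IsPGroup p N → N ≤ F))) →
    ∀ x : G, (∀ y ∈ F, x * y = y * x) → x ∈ F

/-- largest normal `p`-subgroup and largest normal `p'`-subgroup of a locally finite group -/
def S_core : Prop :=
  ∀ (p : ℕ) (G : Type) [Group G], p.Prime → LF G →
    (∃ Q : Subgroup G, Q.Characteristic ∧ IsPGroup p Q ∧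
      ∀ N : Subgroup G, N.Normal → IsPGroup p N → N ≤ Q) ∧
    (∃ Q : Subgroup G, Q.Characteristic ∧ PF {p}ᶜ ⊥ Q ∧
      ∀ N : Subgroup G, N.Normal → PF {p}ᶜ ⊥ N → N ≤ Q)

/-- (8c) -/
def S_fix : Prop :=
  ∀ (G : Type) [Group G], LF G → HUQ 2 G → ∀ V T : Subgroup G, V.Normal → PF {2}ᶜ ⊥ V →
    IsPGroup 2 T → ∃ F : Subgroup G, F ≤ T ∧ Finite F ∧
      ∀ v ∈ V, (∀ x ∈ F, x * v = v * x) → ∀ x ∈ T, x * v = v * x

/-- (8d) -/
def S_four : Prop :=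
  ∀ (V : Type) [Group V], (∀ v : V, ∃ m, Odd m ∧ v ^ m = 1) →
  ∀ a b : V ≃* V, (∀ v, a (a v) = v) → (∀ v, b (b v) = v) → (∀ v, a (b v) = b (a v)) →
  ∀ W : Subgroup V, (∀ v, a v = v → v ∈ W) → (∀ v, b v = v → v ∈ W) →
    (∀ v, a (b v) = v → v ∈ W) → W = ⊤

/-- (8e) from (8c), (8d) -/
def S_EA : Prop :=
  ∀ (G : Type) [Group G] (V : Subgroup G), V.Normal → PF {2}ᶜ ⊥ V →
    (∀ x : G, (∀ y ∈ V, x * y = y * x) → x ∈ V) →
    (∀ T : Subgroup G, IsPGroup 2 T → ∃ F : Subgroup G, F ≤ T ∧ Finite F ∧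
      ∀ v ∈ V, (∀ x ∈ F, x * v = v * x) → ∀ x ∈ T, x * v = v * x) →
    ∀ E : Subgroup G, (∀ x ∈ E, x * x = 1) → Finite E

/-- (8f) (F1) -/
def S_F1 : Prop :=
  ∀ (A : Type) [AddCommGroup A], (∀ a : A, ∃ k : ℕ, 2 ^ k • a = 0) →
    Finite {a : A // 2 • a = 0} →
    ∃ N : ℕ, Finite {a : A // 2 ^ N • a = 0} ∧
      ∀ g : A ≃+ A, (∃ m : ℕ, 0 < m ∧ ∀ a, (g^[m]) a = a) →
        (∀ a, 2 ^ N • a = 0 → g a = a) → ∀ a, g a = a

/-- (8f) (F2) -/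
def S_F2 : Prop :=
  ∀ (A : Type) [AddCommGroup A], (∀ a : A, ∃ k : ℕ, 2 ^ k • a = 0) →
    Finite {a : A // 2 • a = 0} →
    (∀ H : ℕ → AddSubgroup A, Antitone H → ∃ n, ∀ m ≥ n, H m = H n) ∧
    (∃ n : ℕ, (∀ a : A, ∃ b : A, 2 ^ n • a = 2 ^ (n + 1) • b) ∧
      Finite (A ⧸ (AddMonoidHom.range (nsmulAddMonoidHom (α := A) (2 ^ n)))))

/-- (8g) -/
def S_ch : Prop :=
  ∀ (T : Type) [Group T], LF T → IsPGroup 2 (⊤ : Subgroup T) →
    (∀ E : Subgroup T, (∀ x ∈ E, x * x = 1) → Finite E) →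
    (∃ A : Subgroup T, A.Normal ∧ A.FiniteIndex ∧ (∀ a ∈ A, ∀ b ∈ A, a * b = b * a)) ∧
    (∀ H : ℕ → Subgroup T, Antitone H → ∃ n, ∀ m ≥ n, H m = H n)

/-- (8h) -/
def S_fin : Prop :=
  ∀ (Y : Type) [Group Y], LF Y → ∀ D : Subgroup Y, D.Normal → IsPGroup 2 D →
    (∀ N : Subgroup Y, N.Normal → IsPGroup 2 N → N ≤ D) →
    (∀ x : Y, (∀ y ∈ D, x * y = y * x) → x ∈ D) →
    (∀ E : Subgroup Y, E ≤ D → (∀ x ∈ E, x * x = 1) → Finite E) → D.FiniteIndex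

/-- the structure theorem for `N = core K`; (8b)-(8i) for the group `N` itself -/
def S_main : Prop :=
  ∀ (G : Type) [Group G] (c : ℕ), LF G → HUQ 2 G → Len {2} c (⊥ : Subgroup G) →
    ∃ A B C : Subgroup G, A.Characteristic ∧ B.Characteristic ∧ C.Characteristic ∧ A ≤ B ∧
      B ≤ C ∧ C.FiniteIndex ∧ IsPGroup 2 A ∧ PF {2}ᶜ A B ∧ PF {2} B C ∧
      (∀ N : Subgroup G, N.Normal → IsPGroup 2 N → N ≤ A) ∧
      (∀ H : ℕ → Subgroup G, Antitone H → (∀ n, IsPGroup 2 (H n) ∧ A ≤ H n) →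
        ∃ n, ∀ m ≥ n, H m = H n)

end Pool.Agent.Helper867_Rae
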