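import Pool.Agent.Helper867_Rae.Base2
import Pool.Agent.Helper867_Rae.Stmts2

set_option autoImplicit false

namespace Pool.Agent.Helper867_Rae.JobEA

open Pool.Agent.TH62.PL Pool.Agent.Helper867_Rae

/-- conjugation by an involution, on a subgroup it normalises -/
def cj {G : Type} [Group G] (W : Subgroup G) (a : G) (ha : a * a = 1)
    (hW : ∀ w ∈ W, a * w * a ∈ W) : W ≃* W where
  toFun w := ⟨a * w * a, hW w w.2⟩
  invFun w := ⟨a * w * a, hW w w.2⟩
  left_inv w := by
    apply Subtype.ext
    show a * (a * (w : G) * a) * a = w
    calc a * (a * (w : G) * a) * a = (a * a) * w * (a * a) := by group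
      _ = w := by rw [ha]; simp
  right_inv w := by
    apply Subtype.ext
    show a * (a * (w : G) * a) * a = w
    calc a * (a * (w : G) * a) * a = (a * a) * w * (a * a) := by group
      _ = w := by rw [ha]; simp
  map_mul' x y := by
    apply Subtype.ext
    show a * ((x : G) * y) * a = (a * x * a) * (a * y * a)
    calc a * ((x : G) * y) * a = a * x * 1 * y * a := by group
      _ = a * x * (a * a) * y * a := by rw [ha]
      _ = (a * x * a) * (a * y * a) := by group

/-- the set of subgroups for Zorn's lemma -/
def Good {G : Type} [Group G] (V E D : Subgroup G) : Prop :=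
  D ≤ E ∧ ∀ H : Subgroup G, H ≤ D → Finite H →
    (Subgroup.centralizer ((V ⊓ Subgroup.centralizer (H : Set G) : Subgroup G) : Set G)).relIndex E
      = 0

theorem target : S_four → S_EA := by
  intro hfour G _ V hVn hVp hcent hfix E hE
  classical
  by_contra hinf
  -- E abelian
  have hinv : ∀ x ∈ E, x⁻¹ = x := fun x hx => inv_eq_of_mul_eq_one_right (hE x hx)
  have hcomm : ∀ x ∈ E, ∀ y ∈ E, x * y = y * x := by
    intro x hx y hy
    have h := hinv (x * y) (E.mul_mem hx hy)
    rw [mul_inv_rev, hinv x hx, hinv y hy] at h
    exact h.symm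
  -- odd order of elements of `V`
  have hodd : ∀ v ∈ V, ∃ m, Odd m ∧ v ^ m = 1 := by
    intro v hv
    obtain ⟨m, ⟨hm0, hm⟩, hvm⟩ := hVp v hv
    refine ⟨m, ?_, by simpa using hvm⟩
    rw [← Nat.not_even_iff_odd, even_iff_two_dvd]
    intro h2
    have := hm 2 Nat.prime_two h2
    simp at this
  -- E acts faithfully
  have hfaith : ∀ e ∈ E, (∀ v ∈ V, e * v = v * e) → e = 1 := by
    intro e he hev
    have heV : e ∈ V := hcent e hev
    obtain ⟨m, hm, hem⟩ := hodd e heV
    obtain ⟨k, rfl⟩ := hm
    rw [pow_add, pow_mul, pow_two, hE e he] at hem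
    simpa using hem
  -- the relation between indices
  have hmono : ∀ A B : Subgroup G, A ≤ B → A.relIndex E ≠ 0 → B.relIndex E ≠ 0 := by
    intro A B hAB hA hB
    exact hA (Subgroup.relIndex_eq_zero_of_le_left hAB hB)
  -- Zorn
  have hbot : Good V E ⊥ := by
    refine ⟨bot_le, ?_⟩
    intro H hH _
    have hH' : H = ⊥ := le_bot_iff.mp hH
    subst hH'
    by_contra hne
    apply hinf
    have h1 : (V ⊓ Subgroup.centralizer ((⊥ : Subgroup G) : Set G) : Subgroup G) = V := by
      apply inf_eq_left.mpr
      intro v _
      rw [Subgroup.mem_centralizer_iff]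
      intro h hh
      have : h = 1 := by simpa using hh
      rw [this]; simp
    rw [h1] at hne
    have h2 : (Subgroup.centralizer (V : Set G)).subgroupOf E = ⊥ := by
      rw [eq_bot_iff]
      intro x hx
      rw [Subgroup.mem_subgroupOf, Subgroup.mem_centralizer_iff] at hx
      have := hfaith x x.2 (fun v hv => (hx v hv).symm)
      rw [Subgroup.mem_bot]
      exact Subtype.ext this
    have h3 : ((⊥ : Subgroup E)).index ≠ 0 := by
      rw [← h2]; exact hne
    rw [Subgroup.index_bot] at h3
    exact (Nat.card_ne_zero.mp h3).2
  obtain ⟨D, -, hDmax⟩ := zorn_le_nonempty₀ {D : Subgroup G | Good V E D} (by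
    intro c hc hchain y hy
    refine ⟨sSup c, ⟨sSup_le fun D hD => (hc hD).1, ?_⟩, fun z hz => le_sSup hz⟩
    intro H hH hHf
    have hfin : (H : Set G).Finite := Set.toFinite _
    have hdir : DirectedOn (· ≤ ·) c := hchain.directedOn
    have hsub : ((hfin.toFinset : Finset G) : Set G) ⊆ ⋃ i ∈ c, ((i : Subgroup G) : Set G) := by
      intro x hx
      have hxH : x ∈ H := by simpa using hx
      have := hH hxH
      rw [Subgroup.mem_sSup_of_directedOn ⟨y, hy⟩ hdir] at this
      obtain ⟨s, hs, hxs⟩ := this
      simp only [Set.mem_iUnion]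
      exact ⟨s, hs, hxs⟩
    obtain ⟨i, hi, hHi⟩ := DirectedOn.exists_mem_subset_of_finset_subset_biUnion ⟨y, hy⟩
      (f := fun i : Subgroup G => (i : Set G)) (c := c) hdir hsub
    apply (hc hi).2 H _ hHf
    intro x hx
    exact hHi (by simpa using hx)) ⊥ hbot
  have hDg : Good V E D := hDmax.prop
  obtain ⟨hDE, hDH⟩ := hDg
  -- the 2-group D
  have hDp : IsPGroup 2 D := by
    intro x
    refine ⟨1, ?_⟩
    apply Subtype.ext
    have := hE x (hDE x.2)
    simpa [pow_two] using this
  obtain ⟨F, hFD, hFf, hF⟩ := hfix D hDp
  -- W
  obtain ⟨W, hW⟩ : ∃ W : Subgroup G, W = V ⊓ Subgroup.centralizer (D : Set G) := ⟨_, rfl⟩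
  have hWmem : ∀ x, x ∈ W ↔ x ∈ V ∧ ∀ d ∈ D, d * x = x * d := by
    intro x
    rw [hW, Subgroup.mem_inf, Subgroup.mem_centralizer_iff]
    rfl
  have hWF : V ⊓ Subgroup.centralizer (F : Set G) = W := by
    apply le_antisymm
    · intro x hx
      rw [Subgroup.mem_inf, Subgroup.mem_centralizer_iff] at hx
      rw [hWmem]
      exact ⟨hx.1, hF x hx.1 hx.2⟩
    · rw [hW]
      exact inf_le_inf_left _ (Subgroup.centralizer_le hFD)
  have hWinf : (Subgroup.centralizer (W : Set G)).relIndex E = 0 := by
    have := hDH F hFD hFf
    rwa [hWF] at this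
  have hDW : D ≤ Subgroup.centralizer (W : Set G) := by
    intro d hd
    rw [Subgroup.mem_centralizer_iff]
    intro w hw
    exact (((hWmem w).mp hw).2 d hd).symm
  -- elements outside D
  have hout : ∀ e ∈ E, e ∉ D → (Subgroup.centralizer
      ((W ⊓ Subgroup.centralizer ({e} : Set G) : Subgroup G) : Set G)).relIndex E ≠ 0 := by
    intro e he heD
    -- the subgroup D ∪ eD
    have hee := hE e he
    let D' : Subgroup G :=
      { carrier := {x | x ∈ D ∨ e * x ∈ D}
        one_mem' := Or.inl D.one_mem
        mul_mem' := by
          rintro x y (hx | hx) (hy | hy)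
          · exact Or.inl (D.mul_mem hx hy)
          · right
            have hxe := hcomm e he x (hDE hx)
            have : e * (x * y) = x * (e * y) := by
              rw [← mul_assoc, hxe, mul_assoc]
            show e * (x * y) ∈ D
            rw [this]
            exact D.mul_mem hx hy
          · right
            show e * (x * y) ∈ D
            rw [← mul_assoc]
            exact D.mul_mem hx hy
          · left
            have hxE : x ∈ E := by
              have h1 := E.mul_mem he (hDE hx)
              rwa [← mul_assoc, hee, one_mul] at h1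
            have hxe := hcomm e he x hxE
            have : x * y = (e * x) * (e * y) := by
              calc x * y = (e * e) * x * y := by rw [hee]; simp
                _ = e * (e * x) * y := by group
                _ = e * (x * e) * y := by rw [hxe]
                _ = (e * x) * (e * y) := by group
            show x * y ∈ D
            rw [this]
            exact D.mul_mem hx hy
        inv_mem' := by
          rintro x (hx | hx)
          · exact Or.inl (D.inv_mem hx)
          · right
            have hxE : x ∈ E := by
              have h1 := E.mul_mem he (hDE hx)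
              rwa [← mul_assoc, hee, one_mul] at h1
            show e * x⁻¹ ∈ D
            rw [hinv x hxE]
            exact hx }
    have hD'mem : ∀ x, x ∈ D' ↔ x ∈ D ∨ e * x ∈ D := fun x => Iff.rfl
    have hD'E : D' ≤ E := by
      intro x hx
      rcases (hD'mem x).mp hx with hx | hx
      · exact hDE hx
      · have h1 := E.mul_mem he (hDE hx)
        rwa [← mul_assoc, hee, one_mul] at h1
    have hnot : ¬ Good V E D' := by
      intro hg
      have h1 : D ≤ D' := fun x hx => (hD'mem x).mpr (Or.inl hx)
      have h2 : D' ≤ D := hDmax.le_of_ge hg h1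
      apply heD
      apply h2
      rw [hD'mem]
      right
      rw [hee]
      exact D.one_mem
    have : ∃ H : Subgroup G, H ≤ D' ∧ Finite H ∧ (Subgroup.centralizer
        ((V ⊓ Subgroup.centralizer (H : Set G) : Subgroup G) : Set G)).relIndex E ≠ 0 := by
      by_contra hcon
      push Not at hcon
      exact hnot ⟨hD'E, fun H hH hf => hcon H hH hf⟩
    obtain ⟨H, hHD', -, hHi⟩ := this
    refine hmono _ _ ?_ hHi
    apply Subgroup.centralizer_le
    intro x hx
    have hx' : x ∈ W ⊓ Subgroup.centralizer ({e} : Set G) := hx
    rw [Subgroup.mem_inf, Subgroup.mem_centralizer_singleton_iff] at hx'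
    obtain ⟨hxW, hxe⟩ := hx'
    obtain ⟨hxV, hxD⟩ := (hWmem x).mp hxW
    show x ∈ V ⊓ Subgroup.centralizer (H : Set G)
    rw [Subgroup.mem_inf, Subgroup.mem_centralizer_iff]
    refine ⟨hxV, ?_⟩
    intro h hh
    rcases (hD'mem h).mp (hHD' hh) with h1 | h1
    · exact hxD h h1
    · have h2 := hxD _ h1
      have h3 : h = e * (e * h) := by rw [← mul_assoc, hee, one_mul]
      calc h * x = e * (e * h) * x := by rw [← h3]
        _ = e * (e * h * x) := by group
        _ = e * (x * (e * h)) := by rw [h2]
        _ = (e * x) * (e * h) := by group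
        _ = (x * e) * (e * h) := by rw [hxe]
        _ = x * (e * (e * h)) := by group
        _ = x * h := by rw [← h3]
  -- choose a, b
  have hWi : ∀ a ∈ E, a ∉ Subgroup.centralizer (W : Set G) → ∃ b ∈ E,
      b ∉ Subgroup.centralizer (W : Set G) ∧ b * a ∉ Subgroup.centralizer (W : Set G) := by
    intro a ha haW
    by_contra hcon
    push Not at hcon
    have h2 : (Subgroup.centralizer (W : Set G)).relIndex E = 2 := by
      rw [Subgroup.relIndex_eq_two_iff]
      refine ⟨a, ha, fun b hb => ?_⟩
      by_cases hbW : b ∈ Subgroup.centralizer (W : Set G)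
      · right
        refine ⟨hbW, fun h => haW ?_⟩
        have := Subgroup.mul_mem _ (Subgroup.inv_mem _ hbW) h
        simpa using this
      · left
        exact ⟨hcon b hb hbW, hbW⟩
    rw [h2] at hWinf
    omega
  have hWa : ∃ a ∈ E, a ∉ Subgroup.centralizer (W : Set G) := by
    by_contra hcon
    push Not at hcon
    have : (Subgroup.centralizer (W : Set G)).relIndex E = 1 := Subgroup.relIndex_eq_one.mpr hcon
    omega
  obtain ⟨a, haE, haW⟩ := hWa
  obtain ⟨b, hbE, hbW, hbaW⟩ := hWi a haE haW
  have habE : a * b ∈ E := E.mul_mem haE hbE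
  have habW : a * b ∉ Subgroup.centralizer (W : Set G) := by
    rw [hcomm a haE b hbE]; exact hbaW
  have hia := hout a haE (fun h => haW (hDW h))
  have hib := hout b hbE (fun h => hbW (hDW h))
  have hiab := hout (a * b) habE (fun h => habW (hDW h))
  -- the intersection of the three has finite index
  have hK := Subgroup.relIndex_inf_ne_zero (Subgroup.relIndex_inf_ne_zero hia hib) hiab
  -- W is normalised by E
  have hWn : ∀ e ∈ E, ∀ w ∈ W, e * w * e ∈ W := by
    intro e he w hw
    obtain ⟨hwV, hwD⟩ := (hWmem w).mp hw
    rw [hWmem]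
    constructor
    · have := hVn.conj_mem w hwV e
      rwa [hinv e he] at this
    · intro d hd
      have hde := hcomm d (hDE hd) e he
      calc d * (e * w * e) = (d * e) * w * e := by group
        _ = (e * d) * w * e := by rw [hde]
        _ = e * (d * w) * e := by group
        _ = e * (w * d) * e := by rw [hwD d hd]
        _ = e * w * (d * e) := by group
        _ = e * w * (e * d) := by rw [hde]
        _ = e * w * e * d := by group
  -- it centralises W
  have hfinal : ((Subgroup.centralizer
      ((W ⊓ Subgroup.centralizer ({a} : Set G) : Subgroup G) : Set G) ⊓ Subgroup.centralizer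
      ((W ⊓ Subgroup.centralizer ({b} : Set G) : Subgroup G) : Set G)) ⊓ Subgroup.centralizer
      ((W ⊓ Subgroup.centralizer ({a * b} : Set G) : Subgroup G) : Set G)) ≤
      Subgroup.centralizer (W : Set G) := by
    intro e he
    obtain ⟨⟨h1, h2⟩, h3⟩ := he
    have h1' := Subgroup.mem_centralizer_iff.mp h1
    have h2' := Subgroup.mem_centralizer_iff.mp h2
    have h3' := Subgroup.mem_centralizer_iff.mp h3
    have haa := hE a haE
    have hbb := hE b hbE
    have key := hfour W (by
        intro v
        obtain ⟨m, hm, hv⟩ := hodd v ((hWmem v).mp v.2).1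
        exact ⟨m, hm, Subtype.ext (by simpa using hv)⟩)
      (cj W a haa (hWn a haE)) (cj W b hbb (hWn b hbE))
      (fun v => (cj W a haa (hWn a haE)).left_inv v)
      (fun v => (cj W b hbb (hWn b hbE)).left_inv v)
      (by
        intro v
        apply Subtype.ext
        show a * (b * (v : G) * b) * a = b * (a * (v : G) * a) * b
        have hab := hcomm a haE b hbE
        calc a * (b * (v : G) * b) * a = (a * b) * v * (b * a) := by group
          _ = (b * a) * v * (a * b) := by rw [hab]
          _ = b * (a * (v : G) * a) * b := by group)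
      ((Subgroup.centralizer ({e} : Set G)).subgroupOf W)
      (by
        intro v hv
        have hv' : a * (v : G) * a = v := congrArg Subtype.val hv
        rw [Subgroup.mem_subgroupOf, Subgroup.mem_centralizer_singleton_iff]
        have : (v : G) ∈ W ⊓ Subgroup.centralizer ({a} : Set G) := by
          refine ⟨v.2, ?_⟩
          show (v : G) ∈ Subgroup.centralizer ({a} : Set G)
          rw [Subgroup.mem_centralizer_singleton_iff]
          calc (v : G) * a = (a * v * a) * a := by rw [hv']
            _ = a * v * (a * a) := by group
            _ = a * v := by rw [haa, mul_one]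
        exact h1' v this)
      (by
        intro v hv
        have hv' : b * (v : G) * b = v := congrArg Subtype.val hv
        rw [Subgroup.mem_subgroupOf, Subgroup.mem_centralizer_singleton_iff]
        have : (v : G) ∈ W ⊓ Subgroup.centralizer ({b} : Set G) := by
          refine ⟨v.2, ?_⟩
          show (v : G) ∈ Subgroup.centralizer ({b} : Set G)
          rw [Subgroup.mem_centralizer_singleton_iff]
          calc (v : G) * b = (b * v * b) * b := by rw [hv']
            _ = b * v * (b * b) := by group
            _ = b * v := by rw [hbb, mul_one]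
        exact h2' v this)
      (by
        intro v hv
        have hv' : a * (b * (v : G) * b) * a = v := congrArg Subtype.val hv
        rw [Subgroup.mem_subgroupOf, Subgroup.mem_centralizer_singleton_iff]
        have : (v : G) ∈ W ⊓ Subgroup.centralizer ({a * b} : Set G) := by
          refine ⟨v.2, ?_⟩
          show (v : G) ∈ Subgroup.centralizer ({a * b} : Set G)
          rw [Subgroup.mem_centralizer_singleton_iff]
          have hab := hcomm a haE b hbE
          calc (v : G) * (a * b) = (a * (b * v * b) * a) * (a * b) := by rw [hv']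
            _ = (a * b) * v * b * (a * a) * b := by group
            _ = (a * b) * v * (b * b) := by rw [haa]; group
            _ = (a * b) * v := by rw [hbb, mul_one]
        exact h3' v this)
    rw [Subgroup.mem_centralizer_iff]
    intro w hw
    have : (⟨w, hw⟩ : W) ∈ (Subgroup.centralizer ({e} : Set G)).subgroupOf W := by
      rw [key]; trivial
    rw [Subgroup.mem_subgroupOf, Subgroup.mem_centralizer_singleton_iff] at this
    exact this
  exact hmono _ _ hfinal hK hWinf

end Pool.Agent.Helper867_Rae.JobEA
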