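import Pool.Agent.Helper867_Rae.Base2
import Pool.Agent.Helper867_Rae.Stmts2

set_option autoImplicit false

namespace Pool.Agent.Helper867_Rae.JobF2

open Pool.Agent.TH62.PL Pool.Agent.Helper867_Rae

theorem stab {A : Type} (f : ℕ → Set A) (hf : Antitone f) (h0 : (f 0).Finite) :
    ∃ n, ∀ m ≥ n, f m = f n := by
  refine ⟨Function.argmin (fun n => (f n).ncard), fun m hm => ?_⟩
  exact Set.eq_of_subset_of_ncard_le (hf hm)
    (Function.argmin_le (fun n => (f n).ncard) m)
    (h0.subset (hf (Nat.zero_le _)))

theorem fin_tors {A : Type} [AddCommGroup A] (hT : {a : A | 2 • a = 0}.Finite) (m : ℕ) :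
    {a : A | 2 ^ m • a = 0}.Finite := by
  induction m with
  | zero =>
      have : {a : A | 2 ^ 0 • a = 0} = {0} := by ext a; simp
      rw [this]; exact Set.finite_singleton _
  | succ m ih =>
      have h1 : {a : A | 2 ^ (m + 1) • a = 0} = (fun a : A => 2 • a) ⁻¹' {a : A | 2 ^ m • a = 0} := by
        ext a
        simp only [Set.mem_ofPred_eq, Set.mem_preimage, smul_smul, pow_succ]
      rw [h1]
      refine ih.preimage' ?_
      intro b _
      by_cases hne : ((fun a : A => 2 • a) ⁻¹' {b}).Nonempty
      · obtain ⟨a0, ha0⟩ := hne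
        refine (hT.image (fun t => a0 + t)).subset ?_
        intro a ha
        refine ⟨a - a0, ?_, by simp⟩
        simp only [Set.mem_preimage, Set.mem_singleton_iff] at ha ha0
        simp only [Set.mem_ofPred_eq, smul_sub, ha, ha0, sub_self]
      · rw [Set.not_nonempty_iff_eq_empty] at hne
        rw [hne]; exact Set.finite_empty

theorem target : S_F2 := by
  intro A _ hA hfin
  have hT : {a : A | 2 • a = 0}.Finite := hfin
  constructor
  · intro H hH
    set S : ℕ → ℕ → Set A := fun i k => {a | 2 • a = 0 ∧ ∃ h ∈ H i, 2 ^ k • h = a} with hS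
    have hSi : ∀ {i j k : ℕ}, i ≤ j → S j k ⊆ S i k := by
      rintro i j k hij a ⟨h1, h, hh, h2⟩
      exact ⟨h1, h, hH hij hh, h2⟩
    have hSk : ∀ {i k l : ℕ}, k ≤ l → S i l ⊆ S i k := by
      rintro i k l hkl a ⟨h1, h, hh, h2⟩
      refine ⟨h1, 2 ^ (l - k) • h, (H i).nsmul_mem hh _, ?_⟩
      rw [smul_smul, ← pow_add, Nat.add_sub_cancel' hkl, h2]
    have hSf : ∀ i k, (S i k).Finite := fun i k => hT.subset (fun a ha => ha.1)
    obtain ⟨n0, hn0⟩ := stab (fun n => S n n)
      (fun a b hab => (hSi hab).trans (hSk hab)) (hSf 0 0)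
    have hrow : ∀ k, ∃ n, ∀ m ≥ n, S m k = S n k := fun k =>
      stab (fun n => S n k) (fun a b hab => hSi hab) (hSf 0 k)
    choose I hI using hrow
    set i0 := max n0 ((Finset.range n0).sup I) with hi0
    have key : ∀ i ≥ i0, ∀ k, S i k = S i0 k := by
      intro i hi k
      by_cases hk : n0 ≤ k
      · have h1 : ∀ j ≥ n0, S j k = S n0 n0 := by
          intro j hj
          apply Set.Subset.antisymm
          · exact (hSi hj).trans (hSk hk)
          · have h2 := hn0 (max j k) (le_trans hj (le_max_left _ _))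
            rw [← h2]
            exact (hSi (le_max_left _ _)).trans (hSk (le_max_right _ _))
        rw [h1 i (le_trans (le_max_left _ _) hi), h1 i0 (le_max_left _ _)]
      · push Not at hk
        have h1 : I k ≤ i0 := le_trans (Finset.le_sup (f := I) (Finset.mem_range.2 hk)) (le_max_right _ _)
        rw [hI k i (le_trans h1 hi), hI k i0 h1]
    refine ⟨i0, fun i hi => le_antisymm (hH hi) ?_⟩
    have main : ∀ m : ℕ, ∀ x ∈ H i0, 2 ^ m • x = 0 → x ∈ H i := by
      intro m
      induction m with
      | zero =>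
          intro x _ hx
          have : x = 0 := by simpa using hx
          rw [this]; exact (H i).zero_mem
      | succ m ih =>
          intro x hx hx2
          have h1 : 2 ^ m • x ∈ S i0 m := ⟨by rw [smul_smul, ← pow_succ']; exact hx2, x, hx, rfl⟩
          rw [← key i hi m] at h1
          obtain ⟨_, x', hx', h3⟩ := h1
          have h4 : x - x' ∈ H i := by
            refine ih _ ((H i0).sub_mem hx (hH hi hx')) ?_
            rw [smul_sub, h3, sub_self]
          have := (H i).add_mem h4 hx'
          simpa using this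
    intro x hx
    obtain ⟨m, hm⟩ := hA x
    exact main m x hx hm
  · set S : ℕ → Set A := fun k => {a | 2 • a = 0 ∧ ∃ b : A, 2 ^ k • b = a} with hS
    have hSk : Antitone S := by
      rintro k l hkl a ⟨h1, h, h2⟩
      refine ⟨h1, 2 ^ (l - k) • h, ?_⟩
      rw [smul_smul, ← pow_add, Nat.add_sub_cancel' hkl, h2]
    obtain ⟨n, hn⟩ := stab S hSk (hT.subset (fun a ha => ha.1))
    have main : ∀ j : ℕ, ∀ a : A, 2 ^ j • (2 ^ n • a) = 0 → ∃ b : A, 2 ^ n • a = 2 ^ (n + 1) • b := by
      intro j
      induction j with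
      | zero =>
          intro a ha
          refine ⟨0, ?_⟩
          simpa using ha
      | succ j ih =>
          intro a ha
          have h1 : 2 ^ j • (2 ^ n • a) ∈ S n := by
            refine ⟨by rw [smul_smul, ← pow_succ']; exact ha, 2 ^ j • a, ?_⟩
            rw [smul_smul, smul_smul, mul_comm]
          rw [← hn (n + j + 1) (by omega)] at h1
          obtain ⟨_, z, hz⟩ := h1
          have h2 : 2 ^ j • (2 ^ n • (a - 2 • z)) = 0 := by
            rw [smul_sub, smul_sub, ← hz, sub_eq_zero]
            simp only [smul_smul]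
            congr 1
            ring
          obtain ⟨b, hb⟩ := ih _ h2
          refine ⟨z + b, ?_⟩
          rw [smul_add, ← hb, smul_sub, smul_smul, ← pow_succ]
          abel
    have h1 : ∀ a : A, ∃ b : A, 2 ^ n • a = 2 ^ (n + 1) • b := by
      intro a
      obtain ⟨j, hj⟩ := hA (2 ^ n • a)
      exact main j a hj
    refine ⟨n, h1, ?_⟩
    have h2 : ∀ k : ℕ, ∀ a : A, ∃ b : A, 2 ^ n • a = 2 ^ (n + k) • b := by
      intro k
      induction k with
      | zero => intro a; exact ⟨a, rfl⟩
      | succ k ih =>
          intro a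
          obtain ⟨b, hb⟩ := ih a
          obtain ⟨c, hc⟩ := h1 b
          refine ⟨c, ?_⟩
          rw [hb, add_comm n k, pow_add, mul_smul, hc, smul_smul, ← pow_add]
          congr 2
          omega
    have h3 := fin_tors hT n
    have : Finite {a : A | 2 ^ n • a = 0} := h3
    refine Finite.of_surjective (fun t : {a : A | 2 ^ n • a = 0} =>
      (QuotientAddGroup.mk (t : A) : A ⧸ (AddMonoidHom.range (nsmulAddMonoidHom (α := A) (2 ^ n))))) ?_
    intro q
    induction q using QuotientAddGroup.induction_on with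
    | H a =>
      obtain ⟨b, hb⟩ := h2 n a
      refine ⟨⟨a - 2 ^ n • b, ?_⟩, ?_⟩
      · simp only [Set.mem_ofPred_eq]
        rw [smul_sub, hb, smul_smul, ← pow_add, sub_self]
      · simp only
        rw [QuotientAddGroup.eq]
        refine ⟨b, ?_⟩
        simp only [nsmulAddMonoidHom_apply]
        abel

end Pool.Agent.Helper867_Rae.JobF2
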