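import Pool.Agent.Helper867_Rae.Base2
import Pool.Agent.Helper867_Rae.Stmts2

set_option autoImplicit false

namespace Pool.Agent.Helper867_Rae.JobHH

open Pool.Agent.TH62.PL Pool.Agent.Helper867_Rae

lemma mul_fin {σ : Set ℕ} (Y : Type) [Group Y] [Finite Y] (h : PF σ (Subgroup.center Y) ⊤)
    {x y : Y} {a b : ℕ} (ha : PN σ a) (hb : PN σ b) (hx : x ^ a = 1) (hy : y ^ b = 1) :
    ∃ c, PN σ c ∧ (x * y) ^ c = 1 := by
  have hn : PN σ (Subgroup.center Y).index := by
    have h1 := (PF.iff_relIndex (Inv.of_normal ⊤ (inferInstance : (Subgroup.center Y).Normal))).1 h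
    rwa [Subgroup.relIndex_top_right] at h1
  set n := (Subgroup.center Y).index with hnn
  have h2 : (x * y) ^ n = x ^ n * y ^ n := by
    have h3 := congrArg Subtype.val (map_mul (MonoidHom.transferCenterPow Y) x y)
    rw [Subgroup.coe_mul, MonoidHom.transferCenterPow_apply, MonoidHom.transferCenterPow_apply,
      MonoidHom.transferCenterPow_apply] at h3
    exact h3
  have h4 : Commute (x ^ n) (y ^ n) := by
    have h5 : x ^ n ∈ Subgroup.center Y := by
      have h6 := (MonoidHom.transferCenterPow Y x).2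
      rwa [MonoidHom.transferCenterPow_apply] at h6
    exact ((Subgroup.mem_center_iff.1 h5) (y ^ n)).symm
  refine ⟨n * (a * b), hn.mul (ha.mul hb), ?_⟩
  rw [pow_mul, h2, h4.mul_pow, ← pow_mul, ← pow_mul]
  have e1 : x ^ (n * (a * b)) = 1 := by
    rw [show n * (a * b) = a * (n * b) by ring, pow_mul, hx, one_pow]
  have e2 : y ^ (n * (a * b)) = 1 := by
    rw [show n * (a * b) = b * (n * a) by ring, pow_mul, hy, one_pow]
  rw [e1, e2, one_mul]

lemma mul_mem' {σ : Set ℕ} {G : Type} [Group G] (hLF : LF G) {M0 M : Subgroup G}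
    (hc : ∀ z ∈ M0, ∀ m ∈ M, z * m = m * z) (h : PF σ M0 M)
    {x y : G} (hxM : x ∈ M) (hyM : y ∈ M) {a b : ℕ} (ha : PN σ a) (hb : PN σ b)
    (hx : x ^ a = 1) (hy : y ^ b = 1) :
    ∃ c, PN σ c ∧ (x * y) ^ c = 1 := by
  set Y : Subgroup G := Subgroup.closure {x, y} with hY
  have hfg : Y.FG := by
    classical
    exact ⟨({x, y} : Finset G), by simp [hY]⟩
  have hfin : Finite Y := hLF Y hfg
  have hxY : x ∈ Y := Subgroup.subset_closure (by simp)
  have hyY : y ∈ Y := Subgroup.subset_closure (by simp)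
  have hYM : Y ≤ M := by
    rw [hY, Subgroup.closure_le]
    intro z hz
    rcases hz with rfl | rfl
    · exact hxM
    · exact hyM
  have h1 : PF σ (Subgroup.center Y) ⊤ := by
    intro b _
    obtain ⟨m, hm, hm'⟩ := h b.1 (hYM b.2)
    refine ⟨m, hm, ?_⟩
    rw [Subgroup.mem_center_iff]
    intro g
    apply Subtype.ext
    have := hc _ hm' g.1 (hYM g.2)
    simpa using this.symm
  obtain ⟨c, hc1, hc2⟩ := mul_fin Y h1 (x := ⟨x, hxY⟩) (y := ⟨y, hyY⟩) ha hb
    (Subtype.ext (by simpa using hx)) (Subtype.ext (by simpa using hy))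
  refine ⟨c, hc1, ?_⟩
  have := congrArg Subtype.val hc2
  simpa using this

lemma gen {σ : Set ℕ} {G : Type} [Group G] (hLF : LF G) {F : Subgroup G}
    (hF : PF σ ⊥ F) (h1 : ∀ N : Subgroup G, N.Normal → PF σᶜ ⊥ N → N = ⊥)
    (h2 : ∀ N : Subgroup G, N.Normal → PF σ ⊥ N → N ≤ F)
    {M0 M : Subgroup G} (hM : M.Normal)
    (hMC : ∀ c ∈ M, ∀ y ∈ F, c * y = y * c) (hM0F : M0 ≤ F)
    (h : PF σ M0 M ∨ PF σᶜ M0 M) : M ≤ F := by
  have hM0 : PF σ ⊥ M0 := hF.mono le_rfl hM0F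
  rcases h with h | h
  · exact h2 M hM (hM0.trans h)
  · have hc : ∀ z ∈ M0, ∀ m ∈ M, z * m = m * z := fun z hz m hm => (hMC m hm z (hM0F hz)).symm
    let K : Subgroup G :=
      { carrier := {x | x ∈ M ∧ ∃ m, PN σᶜ m ∧ x ^ m = 1}
        one_mem' := ⟨M.one_mem, 1, PN.one _, one_pow _⟩
        mul_mem' := by
          rintro x y ⟨hxM, a, ha, hx⟩ ⟨hyM, b, hb, hy⟩
          exact ⟨M.mul_mem hxM hyM, mul_mem' hLF hc h hxM hyM ha hb hx hy⟩
        inv_mem' := by
          rintro x ⟨hxM, a, ha, hx⟩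
          exact ⟨M.inv_mem hxM, a, ha, by rw [inv_pow, hx, inv_one]⟩ }
    have hK : K.Normal := ⟨by
      rintro x ⟨hxM, a, ha, hx⟩ g
      refine ⟨hM.conj_mem x hxM g, a, ha, ?_⟩
      rw [conj_pow, hx]; simp⟩
    have hKb : K = ⊥ := h1 K hK (by
      rintro x ⟨hxM, a, ha, hx⟩
      exact ⟨a, ha, by rw [hx]; exact Subgroup.one_mem _⟩)
    refine h2 M hM ?_
    intro x hx
    obtain ⟨m, hm, hm'⟩ := h x hx
    obtain ⟨k, hk, hk'⟩ := hM0 _ hm'
    refine ⟨k, hk, ?_⟩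
    rw [← hKb]
    refine ⟨M.pow_mem hx k, m, hm, ?_⟩
    rw [Subgroup.mem_bot] at hk'
    rw [← pow_mul, mul_comm, pow_mul, hk']

theorem target : S_HH := by
  intro p n G _ hp hLF hLen F hFn hcase x hx
  have := Fact.mk hp
  obtain ⟨σ, hσ, hF, h1, h2⟩ : ∃ σ : Set ℕ, (σ = {p} ∨ σ = {p}ᶜ) ∧ PF σ ⊥ F ∧
      (∀ N : Subgroup G, N.Normal → PF σᶜ ⊥ N → N = ⊥) ∧
      (∀ N : Subgroup G, N.Normal → PF σ ⊥ N → N ≤ F) := by
    rcases hcase with ⟨hF, h1, h2⟩ | ⟨hF, h1, h2⟩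
    · refine ⟨{p}ᶜ, Or.inr rfl, hF, fun N hN hNp => ?_, h2⟩
      rw [compl_compl] at hNp
      exact h1 N hN (isPGroup_of_PF hNp)
    · exact ⟨{p}, Or.inl rfl, PF_of_isPGroup hF, h1, fun N hN hNp => h2 N hN (isPGroup_of_PF hNp)⟩
  set C : Subgroup G := Subgroup.centralizer (F : Set G) with hC
  have hCn : C.Normal := by
    rw [hC]; infer_instance
  have hCF : ∀ c ∈ C, ∀ y ∈ F, c * y = y * c := by
    intro c hc y hy
    exact ((Subgroup.mem_centralizer_iff.1 hc) y hy).symm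
  have step : ∀ A B : Subgroup G, B.Normal → A ⊓ C ≤ F →
      (PF {p} A B ∨ PF {p}ᶜ A B) → B ⊓ C ≤ F := by
    intro A B hB hA hPF
    have hn2 : (B ⊓ C).Normal := inferInstance
    refine gen hLF hF h1 h2 hn2 (fun c hc => hCF c hc.2) hA ?_
    rcases hPF with hPF | hPF
    · have h3 := hPF.inf (PF.refl C)
      rcases hσ with rfl | rfl
      · exact Or.inl h3
      · right; rw [compl_compl]; exact h3
    · have h3 := hPF.inf (PF.refl C)
      rcases hσ with rfl | rfl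
      · exact Or.inr h3
      · exact Or.inl h3
  have key : ∀ (n : ℕ) (N : Subgroup G), Len {p} n N → N ⊓ C ≤ F → C ≤ F := by
    intro n
    induction n with
    | zero =>
      intro N h hN
      have := step N ⊤ inferInstance hN (Or.inr h)
      rwa [top_inf_eq] at this
    | succ n ih =>
      rintro N ⟨A, B, hA, hB, hNA, hAB, h1, h2, h3⟩ hN
      exact ih B h3 (step A B hB (step N A hA hN (Or.inr h1)) (Or.inl h2))
  refine key n ⊥ hLen (by rw [bot_inf_eq]; exact bot_le) ?_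
  rw [hC, Subgroup.mem_centralizer_iff]
  intro y hy
  exact (hx y hy).symm

end Pool.Agent.Helper867_Rae.JobHH
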