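import Pool.Agent.Helper867_Rae.Base2
import Pool.Agent.Helper867_Rae.Stmts3

set_option autoImplicit false

namespace Pool.Agent.Helper867_Rae.JobR

open Pool.Agent.TH62.PL Pool.Agent.Helper867_Rae

section
variable {X : Type} [Group X]

/-- a chief factor of a finite soluble group is elementary abelian -/
lemma chief_elem [Finite X] (hX : Group.IsSolvable X) {N M : Subgroup X} (hN : N.Normal)
    (hM : M.Normal) (hle : N ≤ M) (hne : N ≠ M)
    (hch : ∀ Y : Subgroup X, Y.Normal → N ≤ Y → Y ≤ M → Y = M ∨ Y = N) :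
    ∃ r : ℕ, r.Prime ∧ (∀ x ∈ M, ∀ y ∈ M, x * y * x⁻¹ * y⁻¹ ∈ N) ∧ (∀ x ∈ M, x ^ r ∈ N) := by
  classical
  set π := QuotientGroup.mk' N with hπ
  have hπs : Function.Surjective π := QuotientGroup.mk'_surjective N
  set M' := M.map π with hM'
  have hM'n : M'.Normal := hM.map _ hπs
  have hcomapM : M'.comap π = M := by
    rw [hM', Subgroup.comap_map_eq, QuotientGroup.ker_mk']
    exact sup_eq_left.2 hle
  have hM'ne : M' ≠ ⊥ := by
    intro h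
    apply hne
    have h1 : M'.comap π = N := by rw [h, MonoidHom.comap_bot, QuotientGroup.ker_mk']
    rw [← h1, hcomapM]
  -- the general principle
  have hmid : ∀ R : Subgroup (X ⧸ N), R.Normal → R ≤ M' → R = M' ∨ R = ⊥ := by
    intro R hR hRM
    have h1 : N ≤ R.comap π := by
      intro y hy
      have : π y = 1 := (QuotientGroup.eq_one_iff y).2 hy
      rw [Subgroup.mem_comap, this]; exact R.one_mem
    have h2 : R.comap π ≤ M := by
      rw [← hcomapM]; exact Subgroup.comap_mono hRM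
    have hmc : (R.comap π).map π = R := Subgroup.map_comap_eq_self_of_surjective hπs R
    rcases hch _ (hR.comap π) h1 h2 with h | h
    · left
      rw [← hmc, h]
    · right
      rw [← hmc, h]
      rw [eq_bot_iff]
      rintro _ ⟨x, hx, rfl⟩
      exact (QuotientGroup.eq_one_iff x).2 hx
  have hab : ⁅M', M'⁆ = ⊥ := by
    have h1 : ⁅M', M'⁆ < M' := Group.IsSolvable.commutator_lt_of_ne_bot hM'ne
    rcases hmid ⁅M', M'⁆ inferInstance h1.le with h | h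
    · exact absurd h h1.ne
    · exact h
  have hcomm : ∀ x ∈ M', ∀ y ∈ M', x * y = y * x := by
    intro x hx y hy
    have h1 := Subgroup.commutator_mem_commutator hx hy
    rw [hab, Subgroup.mem_bot, commutatorElement_def] at h1
    have h2 : x * y = (x * y * x⁻¹ * y⁻¹) * (y * x) := by group
    rw [h2, h1, one_mul]
  have hcard : Nat.card M' ≠ 1 := fun h => hM'ne (Subgroup.card_eq_one.1 h)
  obtain ⟨r, hr, hrM⟩ := Nat.exists_prime_and_dvd hcard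
  have := Fact.mk hr
  obtain ⟨x, hx⟩ := exists_prime_orderOf_dvd_card' r hrM
  let R : Subgroup (X ⧸ N) :=
    { carrier := {y | y ∈ M' ∧ y ^ r = 1}
      one_mem' := ⟨M'.one_mem, one_pow _⟩
      mul_mem' := by
        rintro a b ⟨ha, ha'⟩ ⟨hb, hb'⟩
        refine ⟨M'.mul_mem ha hb, ?_⟩
        have hc : Commute a b := hcomm a ha b hb
        rw [hc.mul_pow, ha', hb', one_mul]
      inv_mem' := by
        rintro a ⟨ha, ha'⟩
        exact ⟨M'.inv_mem ha, by rw [inv_pow, ha', inv_one]⟩ }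
  have hRn : R.Normal := ⟨by
    rintro a ⟨ha, ha'⟩ g
    exact ⟨hM'n.conj_mem a ha g, by rw [conj_pow, ha', mul_one, mul_inv_cancel]⟩⟩
  have hR : R = M' := by
    rcases hmid R hRn (fun y hy => hy.1) with h | h
    · exact h
    · exfalso
      have h1 : (x : X ⧸ N) ∈ R := by
        refine ⟨x.2, ?_⟩
        have h2 : x ^ r = 1 := by rw [← hx]; exact pow_orderOf_eq_one x
        have h3 := congrArg Subtype.val h2
        simpa using h3
      rw [h, Subgroup.mem_bot] at h1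
      have h3 : x = 1 := Subtype.ext h1
      rw [h3, orderOf_one] at hx
      exact hr.one_lt.ne hx
  refine ⟨r, hr, ?_, ?_⟩
  · intro a ha b hb
    rw [← QuotientGroup.eq_one_iff]
    have h1 := hcomm _ (Subgroup.mem_map_of_mem π ha) _ (Subgroup.mem_map_of_mem π hb)
    change π (a * b * a⁻¹ * b⁻¹) = 1
    rw [map_mul, map_mul, map_mul, map_inv, map_inv, h1]; group
  · intro a ha
    rw [← QuotientGroup.eq_one_iff]
    have h0 : π a ∈ R := by rw [hR]; exact Subgroup.mem_map_of_mem π ha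
    have h1 := h0.2
    change π (a ^ r) = 1
    rw [map_pow]; exact h1

/-- `PF {r} N M` from exponent `r` -/
lemma PF_of_pow {r : ℕ} (hr : r.Prime) {N M : Subgroup X} (h : ∀ x ∈ M, x ^ r ∈ N) :
    PF {r} N M := fun x hx => ⟨r, PN.prime hr rfl, h x hx⟩

lemma map_conj_normal {N : Subgroup X} (hN : N.Normal) (g : X) :
    N.map (MulAut.conj g).toMonoidHom = N := by
  apply le_antisymm
  · rintro _ ⟨x, hx, rfl⟩
    exact hN.conj_mem x hx g
  · intro x hx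
    refine ⟨g⁻¹ * x * g, ?_, by simp [mul_assoc]⟩
    simpa using hN.conj_mem x hx g⁻¹

/-- `A = S ⊓ A₁`, `A₁ = A L`, `[A, L] ≤ N ≤ L`: then `A N` is normal -/
lemma AN_normal [Finite X] {p : ℕ} {S A₁ L N : Subgroup X} (hS : IsHall {p} S) (hA₁ : A₁.Normal)
    (hL : L.Normal) (hN : N.Normal) (hNL : N ≤ L) (hA₁' : A₁ ≤ (S ⊓ A₁) ⊔ L) (hLA : L ≤ A₁)
    (hc : ∀ a ∈ S ⊓ A₁, ∀ u ∈ L, a * u * a⁻¹ * u⁻¹ ∈ N) : ((S ⊓ A₁) ⊔ N).Normal := by
  set A := S ⊓ A₁ with hA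
  have hNA : Inv A N := Inv.of_normal _ hN
  have hinvA : Inv A (A ⊔ N) := (Inv.self A).sup hNA
  have hinvL : Inv L (A ⊔ N) := by
    intro u hu x hx
    obtain ⟨a, ha, n, hn, rfl⟩ := (mem_sup_inv hNA).1 hx
    have h1 : u * a * u⁻¹ * a⁻¹ ∈ N := by
      have h2 := N.inv_mem (hc a ha u hu)
      have h3 : (a * u * a⁻¹ * u⁻¹)⁻¹ = u * a * u⁻¹ * a⁻¹ := by group
      rwa [h3] at h2
    have h4 : u * (a * n) * u⁻¹ = (u * a * u⁻¹ * a⁻¹) * a * (u * n * u⁻¹) := by group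
    rw [h4]
    exact (A ⊔ N).mul_mem ((A ⊔ N).mul_mem (Subgroup.mem_sup_right h1)
      (Subgroup.mem_sup_left ha)) (Subgroup.mem_sup_right (hN.conj_mem n hn u))
  have hinv : Inv A₁ (A ⊔ N) := by
    intro g hg x hx
    obtain ⟨a, ha, u, hu, rfl⟩ := (mem_sup_inv (Inv.of_normal A hL)).1 (hA₁' hg)
    have h1 : a * u * x * (a * u)⁻¹ = a * (u * x * u⁻¹) * a⁻¹ := by group
    rw [h1]
    exact hinvA a ha _ (hinvL u hu x hx)
  have h1 : PF {p}ᶜ (A ⊔ N) A₁ := hS.PF_inf hA₁ hinv le_sup_left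
  have h2 : PF {p} N (A ⊔ N) := by
    have h3 : PF {p} (⊥ : Subgroup X) A := hS.1.mono le_rfl inf_le_left
    have h4 := h3.supN hN
    rwa [bot_sup_eq] at h4
  have hle : A ⊔ N ≤ A₁ := sup_le inf_le_right (hNL.trans hLA)
  refine ⟨fun x hx g => ?_⟩
  have h5 : (A ⊔ N).map (MulAut.conj g).toMonoidHom ≤ A ⊔ N := by
    apply PF.le_of_compl (σ := {p})
    · have h6 := h2.map (MulAut.conj g).toMonoidHom
      rw [map_conj_normal hN g] at h6
      exact h6.mono le_sup_right le_rfl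
    · refine h1.mono le_rfl ?_
      rintro _ ⟨y, hy, rfl⟩
      exact hA₁.conj_mem y (hle hy) g
  exact h5 ⟨x, hx, rfl⟩

end

theorem target : S_R := by
  intro p hp X _ _ hX S D hSp hSi hD hFL
  have hS : IsHall {p} S := ⟨PF_of_isPGroup hSp, PN_compl hp.out
    Subgroup.index_ne_zero_of_finite hSi⟩
  -- `O`
  obtain ⟨R₀, hR₀, -, hR₀p, hR₀max⟩ := exists_core {p} (⊥ : Subgroup X) inferInstance
  set O := R₀ ⊓ D with hO
  have hOn : O.Normal := Subgroup.normal_inf_normal R₀ D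
  have hOp : PF {p} ⊥ O := hR₀p.mono le_rfl inf_le_left
  have hOmax : ∀ A : Subgroup X, A.Normal → A ≤ D → PF {p} ⊥ A → A ≤ O :=
    fun A hA hAD hAp => le_inf (hR₀max A hA bot_le hAp) hAD
  -- `L`
  obtain ⟨R₁, hR₁, hOR₁, hR₁p, hR₁max⟩ := exists_core {p}ᶜ O hOn
  set L := R₁ ⊓ D with hL
  have hLn : L.Normal := Subgroup.normal_inf_normal R₁ D
  have hOL : O ≤ L := le_inf hOR₁ inf_le_right
  have hLp : PF {p}ᶜ O L := hR₁p.mono le_rfl inf_le_left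
  have hLmax : ∀ A : Subgroup X, A.Normal → A ≤ D → O ≤ A → PF {p}ᶜ O A → A ≤ L :=
    fun A hA hAD hOA hAp => le_inf (hR₁max A hA hOA hAp) hAD
  have hLD : L ≠ D := by
    intro h
    apply hFL
    refine ⟨O.subgroupOf D, hOn.subgroupOf D, bot_le, ?_, ?_⟩
    · have h1 := hOp.comap D.subtype
      rwa [MonoidHom.comap_bot, Subgroup.ker_subtype] at h1
    · rintro ⟨x, hx⟩ -
      obtain ⟨m, hm, hm'⟩ := hLp x (h ▸ hx)
      exact ⟨m, hm, hm'⟩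
  -- `A₁`
  obtain ⟨A₁, hA₁⟩ := Set.Finite.exists_minimal
    (Set.toFinite {A : Subgroup X | A.Normal ∧ L ≤ A ∧ A ≤ D ∧ A ≠ L})
    ⟨D, hD, inf_le_right, le_rfl, Ne.symm hLD⟩
  obtain ⟨⟨hA₁n, hLA₁, hA₁D, hA₁ne⟩, hA₁min⟩ := hA₁
  have hch : ∀ Y : Subgroup X, Y.Normal → L ≤ Y → Y ≤ A₁ → Y = A₁ ∨ Y = L := by
    intro Y hY h1 h2
    by_cases h3 : Y = L
    · exact Or.inr h3
    · exact Or.inl (le_antisymm h2 (hA₁min ⟨hY, h1, h2.trans hA₁D, h3⟩ h2))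
  obtain ⟨r, hr, -, hrp⟩ := chief_elem hX hLn hA₁n hLA₁ (Ne.symm hA₁ne) hch
  have hrp' : r = p := by
    by_contra hne
    apply hA₁ne
    apply le_antisymm _ hLA₁
    apply hLmax A₁ hA₁n hA₁D (hOL.trans hLA₁)
    refine hLp.trans ((PF_of_pow hr hrp).set_mono ?_)
    intro s hs
    rw [Set.mem_singleton_iff] at hs
    subst hs
    exact hne
  subst hrp'
  have hPA₁ : PF {r} L A₁ := PF_of_pow hr hrp
  set A := S ⊓ A₁ with hA
  have hA₁' : A₁ ≤ A ⊔ L := by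
    have h1 : A₁ ≤ S ⊔ L := hS.normal_le_sup hLn hA₁n hPA₁
    intro x hx
    obtain ⟨s, hs, u, hu, rfl⟩ := (mem_sup_inv (Inv.of_normal S hLn)).1 (h1 hx)
    refine Subgroup.mul_mem_sup ⟨hs, ?_⟩ hu
    have := A₁.mul_mem hx (A₁.inv_mem (hLA₁ hu))
    simpa using this
  have hOS : O ≤ S := hS.normal_le hOn hOp
  have hOA : O ≤ A := le_inf hOS (hOL.trans hLA₁)
  have hAp : PF {r} ⊥ A := hS.1.mono le_rfl inf_le_left
  -- `[L, A]` is not in `O`
  have hLA : ¬ ∀ a ∈ A, ∀ u ∈ L, a * u * a⁻¹ * u⁻¹ ∈ O := by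
    intro hcon
    have h1 := AN_normal hS hA₁n hLn hOn hOL hA₁' hLA₁ hcon
    rw [sup_eq_left.2 hOA] at h1
    have h2 : A ≤ O := hOmax A h1 (inf_le_right.trans hA₁D) hAp
    exact hA₁ne (le_antisymm (hA₁'.trans (sup_le (h2.trans hOL) le_rfl)) hLA₁)
  -- `L₁`
  obtain ⟨L₁, hL₁⟩ := Set.Finite.exists_minimal
    (Set.toFinite {M : Subgroup X | M.Normal ∧ O ≤ M ∧ M ≤ L ∧
      ∀ a ∈ A, ∀ u ∈ L, a * u * a⁻¹ * u⁻¹ ∈ M})
    ⟨L, hLn, hOL, le_rfl, fun a _ u hu => L.mul_mem (hLn.conj_mem u hu a) (L.inv_mem hu)⟩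
  obtain ⟨⟨hL₁n, hOL₁, hL₁L, hL₁c⟩, hL₁min⟩ := hL₁
  have hOL₁ne : O ≠ L₁ := by
    intro h
    exact hLA (h ▸ hL₁c)
  -- `L₂`
  obtain ⟨L₂, hL₂⟩ := Set.Finite.exists_maximal
    (Set.toFinite {M : Subgroup X | M.Normal ∧ O ≤ M ∧ M ≤ L₁ ∧ M ≠ L₁})
    ⟨O, hOn, le_rfl, hOL₁, hOL₁ne⟩
  obtain ⟨⟨hL₂n, hOL₂, hL₂L₁, hL₂ne⟩, hL₂max⟩ := hL₂
  have hch2 : ∀ Y : Subgroup X, Y.Normal → L₂ ≤ Y → Y ≤ L₁ → Y = L₁ ∨ Y = L₂ := by
    intro Y hY h1 h2
    by_cases h3 : Y = L₁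
    · exact Or.inl h3
    · exact Or.inr (le_antisymm (hL₂max ⟨hY, hOL₂.trans h1, h2, h3⟩ h1) h1)
  obtain ⟨q, hq, hqc, hqp⟩ := chief_elem hX hL₂n hL₁n hL₂L₁ hL₂ne hch2
  have hcompl : PF {r}ᶜ L₂ L₁ := hLp.mono hOL₂ hL₁L
  have hqr : q ≠ r := by
    intro h
    subst h
    exact hL₂ne (le_antisymm hL₂L₁ ((PF_of_pow hq hqp).le_of_compl hcompl))
  have hL₂c : ¬ ∀ a ∈ A, ∀ u ∈ L, a * u * a⁻¹ * u⁻¹ ∈ L₂ := by
    intro h
    exact hL₂ne (le_antisymm hL₂L₁ (hL₁min ⟨hL₂n, hOL₂, hL₂L₁.trans hL₁L, h⟩ hL₂L₁))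
  -- `A` does not centralise `L₁ / L₂`
  have hAc : ¬ ∀ a ∈ A, ∀ v ∈ L₁, a * v * a⁻¹ * v⁻¹ ∈ L₂ := by
    intro hcon
    apply hL₂c
    intro a ha u hu
    set w := a * u * a⁻¹ * u⁻¹ with hw
    have hwL₁ : w ∈ L₁ := hL₁c a ha u hu
    have key : ∀ n : ℕ, ∃ t ∈ L₂, a ^ n * u * (a ^ n)⁻¹ = t * w ^ n * u := by
      intro n
      induction n with
      | zero => exact ⟨1, L₂.one_mem, by simp⟩
      | succ n ih =>
        obtain ⟨t, ht, he⟩ := ih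
        have h1 : a * w ^ n * a⁻¹ * (w ^ n)⁻¹ ∈ L₂ := hcon a ha _ (L₁.pow_mem hwL₁ n)
        refine ⟨(a * t * a⁻¹) * (a * w ^ n * a⁻¹ * (w ^ n)⁻¹),
          L₂.mul_mem (hL₂n.conj_mem t ht a) h1, ?_⟩
        have h2 : a ^ (n + 1) * u * (a ^ (n + 1))⁻¹ = a * (a ^ n * u * (a ^ n)⁻¹) * a⁻¹ := by
          rw [pow_succ' a n]; group
        have h3 : a * u * a⁻¹ = w * u := by rw [hw]; group
        rw [h2, he]
        calc a * (t * w ^ n * u) * a⁻¹ = (a * t * a⁻¹) * (a * w ^ n * a⁻¹) * (a * u * a⁻¹) := by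
              group
          _ = (a * t * a⁻¹) * (a * w ^ n * a⁻¹) * (w * u) := by rw [h3]
          _ = (a * t * a⁻¹) * (a * w ^ n * a⁻¹ * (w ^ n)⁻¹) * w ^ (n + 1) * u := by
              rw [pow_succ w n]; group
    obtain ⟨m, hm, hm'⟩ := hAp a ha
    rw [Subgroup.mem_bot] at hm'
    obtain ⟨t, ht, he⟩ := key m
    rw [hm'] at he
    have h4 : w ^ m ∈ L₂ := by
      have h5 : w ^ m = t⁻¹ * ((1 : X) * u * (1 : X)⁻¹) * u⁻¹ := by rw [he]; group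
      rw [h5]
      simpa using ht
    -- `w ^ q ∈ L₂`, `w ^ m ∈ L₂`
    have h6 : Subgroup.zpowers w ≤ L₂ := by
      apply PF.le_of_compl (σ := {r})
      · rintro _ ⟨k, rfl⟩
        refine ⟨m, hm, ?_⟩
        have : (w ^ k) ^ m = (w ^ m) ^ k := by
          rw [← zpow_natCast, ← zpow_natCast, ← zpow_mul, ← zpow_mul, mul_comm]
        change (w ^ k) ^ m ∈ L₂
        rw [this]
        exact L₂.zpow_mem h4 k
      · refine hcompl.mono le_rfl ?_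
        rw [Subgroup.zpowers_le]
        exact hwL₁
    exact h6 (Subgroup.mem_zpowers w)
  -- `A L₁` is normal
  have hAL₁ : (A ⊔ L₁).Normal := AN_normal hS hA₁n hLn hL₁n hL₁L hA₁' hLA₁ hL₁c
  -- the centraliser
  let C : Subgroup X :=
    { carrier := {v | v ∈ L₁ ∧ ∀ b ∈ A ⊔ L₁, b * v * b⁻¹ * v⁻¹ ∈ L₂}
      one_mem' := ⟨L₁.one_mem, fun b _ => by simp⟩
      mul_mem' := by
        rintro v w ⟨hv, hv'⟩ ⟨hw, hw'⟩
        refine ⟨L₁.mul_mem hv hw, fun b hb => ?_⟩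
        have h1 : b * (v * w) * b⁻¹ * (v * w)⁻¹ =
            (b * v * b⁻¹ * v⁻¹) * (v * (b * w * b⁻¹ * w⁻¹) * v⁻¹) := by group
        rw [h1]
        exact L₂.mul_mem (hv' b hb) (hL₂n.conj_mem _ (hw' b hb) v)
      inv_mem' := by
        rintro v ⟨hv, hv'⟩
        refine ⟨L₁.inv_mem hv, fun b hb => ?_⟩
        have h1 : b * v⁻¹ * b⁻¹ * v⁻¹⁻¹ = v⁻¹ * (b * v * b⁻¹ * v⁻¹)⁻¹ * v⁻¹⁻¹ := by group
        rw [h1]
        exact hL₂n.conj_mem _ (L₂.inv_mem (hv' b hb)) v⁻¹ }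
  have hCn : C.Normal := ⟨by
    rintro v ⟨hv, hv'⟩ g
    refine ⟨hL₁n.conj_mem v hv g, fun b hb => ?_⟩
    have h1 : b * (g * v * g⁻¹) * b⁻¹ * (g * v * g⁻¹)⁻¹ =
        g * ((g⁻¹ * b * g) * v * (g⁻¹ * b * g)⁻¹ * v⁻¹) * g⁻¹ := by group
    rw [h1]
    refine hL₂n.conj_mem _ (hv' _ ?_) g
    simpa using hAL₁.conj_mem b hb g⁻¹⟩
  have hL₂C : L₂ ≤ C := fun v hv => ⟨hL₂L₁ hv, fun b _ =>
    L₂.mul_mem (hL₂n.conj_mem v hv b) (L₂.inv_mem hv)⟩
  have hC : C = L₂ := by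
    rcases hch2 C hCn hL₂C (fun v hv => hv.1) with h | h
    · exfalso
      apply hAc
      intro a ha v hv
      have h1 : v ∈ C := by rw [h]; exact hv
      exact h1.2 a (Subgroup.mem_sup_left ha)
    · exact h
  refine ⟨q, L₁, L₂, hq, hqr, hL₁n, hL₂n, hL₂L₁, hL₂ne, hch2, hqc, hqp, ?_, ?_⟩
  · by_contra hcon
    apply hAc
    intro a ha v hv
    by_contra h
    exact hcon ⟨a, hA₁D ha.2, v, hv, h⟩
  · intro v hv hv'
    rw [← hC]
    refine ⟨hv, ?_⟩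
    let B : Subgroup X :=
      { carrier := {b | b * v * b⁻¹ * v⁻¹ ∈ L₂}
        one_mem' := by simp
        mul_mem' := by
          intro b c hb hc
          rw [Set.mem_ofPred_eq] at hb hc ⊢
          have h1 : b * c * v * (b * c)⁻¹ * v⁻¹ =
              (b * (c * v * c⁻¹ * v⁻¹) * b⁻¹) * (b * v * b⁻¹ * v⁻¹) := by group
          rw [h1]
          exact L₂.mul_mem (hL₂n.conj_mem _ hc b) hb
        inv_mem' := by
          intro b hb
          rw [Set.mem_ofPred_eq] at hb ⊢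
          have h1 : b⁻¹ * v * b⁻¹⁻¹ * v⁻¹ = b⁻¹ * (b * v * b⁻¹ * v⁻¹)⁻¹ * b⁻¹⁻¹ := by group
          rw [h1]
          exact hL₂n.conj_mem _ (L₂.inv_mem hb) b⁻¹ }
    have h1 : A ⊔ L₁ ≤ B := by
      apply sup_le
      · intro a ha
        exact hv' a ha.1
      · intro u hu
        exact hqc u hu v hv
    intro b hb
    exact h1 hb

end Pool.Agent.Helper867_Rae.JobR
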