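import Pool.Agent.Helper867_Rae.Base2
import Pool.Agent.Helper867_Rae.Stmts3

set_option autoImplicit false

namespace Pool.Agent.Helper867_Rae.JobV

open Pool.Agent.TH62.PL Pool.Agent.Helper867_Rae
open scoped TensorProduct

/-- the hypothesis of (C2) with the bound `d` -/
def HC (p l d : ℕ) : Prop :=
  ∀ (q : ℕ) [Fact q.Prime] (k X V : Type) [Field k] [IsAlgClosed k] [CharP k q] [Group X]
    [Finite X] [AddCommGroup V] [Module k V] [FiniteDimensional k V]
    (ρ : X →* Module.End k V) (P : Subgroup X), p ≠ q →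
    Group.IsSolvable X → Function.Injective ρ →
    (∀ N : Subgroup X, N.Normal → IsPGroup q N → N = ⊥) → UQ p P → Nat.card P ≤ p ^ (l + 1) →
    (∀ v : V, (∀ x ∈ P, ρ x v = v) → v = 0) → LM p d (⊥ : Subgroup X)

/-- the main case, for an abstract irreducible module over `ZMod q` -/
theorem core {p l d : ℕ} [hp : Fact p.Prime] (H : HC p l d) {X : Type} [Group X] [Finite X]
    (hX : Group.IsSolvable X) {q : ℕ} [hq : Fact q.Prime] (hqp : q ≠ p) {P : Subgroup X}
    (hP : UQ p P) (hcard : Nat.card P ≤ p ^ (l + 1))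
    {V : Type} [AddCommGroup V] [Finite V] [Nontrivial V] [Module (ZMod q) V]
    (ρ : X →* Module.End (ZMod q) V)
    (hirr : ∀ N : Subgroup X, N.Normal → (∀ v : V, (∀ n ∈ N, ρ n v = v) → v = 0) ∨
      (∀ n ∈ N, ρ n = 1))
    (hfix : ∀ v : V, (∀ x ∈ P, ρ x v = v) → v = 0) : LM p d ρ.ker := by
  classical
  have hX' : Finite (X ⧸ ρ.ker) := inferInstance
  let f : X →* X ⧸ ρ.ker := QuotientGroup.mk' ρ.ker
  have hf : Function.Surjective f := QuotientGroup.mk'_surjective _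
  let ρb : X ⧸ ρ.ker →* Module.End (ZMod q) V := QuotientGroup.lift ρ.ker ρ fun g hg => hg
  have hρb : ∀ x, ρb (f x) = ρ x := fun x => rfl
  have hρbinj : Function.Injective ρb := by
    rw [injective_iff_map_eq_one]
    intro y hy
    obtain ⟨x, rfl⟩ := hf y
    rw [hρb] at hy
    exact (QuotientGroup.eq_one_iff x).2 hy
  have hchar : CharP (AlgebraicClosure (ZMod q)) q :=
    charP_of_injective_algebraMap (algebraMap (ZMod q) (AlgebraicClosure (ZMod q))).injective q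
  let B : Module.End (ZMod q) V →ₐ[ZMod q]
      Module.End (AlgebraicClosure (ZMod q)) (AlgebraicClosure (ZMod q) ⊗[ZMod q] V) :=
    Module.End.baseChangeHom (ZMod q) (AlgebraicClosure (ZMod q)) V
  have hBinj : Function.Injective B := LinearMap.baseChangeHom_injective _ _ _
  have hfinV : Module.Finite (ZMod q) V := Module.Finite.of_finite
  let ρ' : X ⧸ ρ.ker →* Module.End (AlgebraicClosure (ZMod q))
      (AlgebraicClosure (ZMod q) ⊗[ZMod q] V) := (B : _ →* _).comp ρb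
  have hρ' : ∀ x, ρ' (f x) = B (ρ x) := fun x => rfl
  have hq0 : ∀ v : V, q • v = 0 := by
    intro v
    have h1 : ((q : ℕ) : ZMod q) • v = q • v := Nat.cast_smul_eq_nsmul _ _ _
    rw [← h1, ZMod.natCast_self, zero_smul]
  have hqV : q ∣ Nat.card V := by
    obtain ⟨v, hv⟩ := exists_ne (0 : V)
    have h1 : addOrderOf v = q := addOrderOf_eq_prime (hq0 v) hv
    rw [← h1]
    exact addOrderOf_dvd_natCard v
  have key := H q (AlgebraicClosure (ZMod q)) (X ⧸ ρ.ker) (AlgebraicClosure (ZMod q) ⊗[ZMod q] V)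
    ρ' (P.map f) hqp.symm (Group.isSolvable_of_surjective hf) (hBinj.comp hρbinj) ?_
    (hP.map f hf) ?_ ?_
  · have h1 := key.comap f
    rw [MonoidHom.comap_bot] at h1
    have h2 : f.ker = ρ.ker := QuotientGroup.ker_mk' _
    rwa [h2] at h1
  · -- no normal `q`-subgroups
    intro N hN hNq
    rcases hirr (N.comap f) (hN.comap f) with h | h
    · exfalso
      let _ : MulAction N V := MulAction.compHom V (ρb.comp N.subtype)
      have hact : ∀ (n : N) (v : V), n • v = ρb n v := fun n v => rfl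
      have h0 : (0 : V) ∈ MulAction.fixedPoints N V := by
        intro n
        rw [hact, map_zero]
      obtain ⟨v, hv, hv0⟩ :=
        hNq.exists_fixed_point_of_prime_dvd_card_of_fixed_point V hqV h0
      apply hv0
      refine (h v fun n hn => ?_).symm
      have := hv ⟨f n, hn⟩
      rw [hact] at this
      exact this
    · rw [eq_bot_iff]
      intro y hy
      obtain ⟨x, rfl⟩ := hf y
      rw [Subgroup.mem_bot]
      exact (QuotientGroup.eq_one_iff x).2 (h x hy)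
  · have h1 : Nat.card (P.map f) ≤ Nat.card P := by
      have hsur := f.subgroupMap_surjective P
      exact Nat.card_le_card_of_surjective _ hsur
    exact h1.trans hcard
  · intro w hw
    have := Fintype.ofFinite P
    -- the sum over `P` acts as zero
    have hS : (∑ x : P, ρ (x : X)) = 0 := by
      refine LinearMap.ext fun v => ?_
      rw [LinearMap.zero_apply]
      apply hfix
      intro y hy
      rw [LinearMap.sum_apply, map_sum]
      refine Fintype.sum_equiv (Equiv.mulLeft (⟨y, hy⟩ : P)) _ _ fun x => ?_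
      change ρ y (ρ (x : X) v) = ρ (((⟨y, hy⟩ : P) * x : P) : X) v
      rw [Subgroup.coe_mul, map_mul]
      rfl
    have hS' : (∑ x : P, B (ρ (x : X))) = 0 := by
      rw [← map_sum, hS, map_zero]
    have h1 : (∑ x : P, B (ρ (x : X))) w = (Fintype.card P : ℕ) • w := by
      rw [LinearMap.sum_apply]
      rw [Finset.sum_congr rfl fun x _ => ?_, Finset.sum_const, Finset.card_univ]
      have := hw (f x) ⟨x, x.2, rfl⟩
      rw [hρ'] at this
      exact this
    rw [hS', LinearMap.zero_apply, ← Nat.card_eq_fintype_card] at h1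
    obtain ⟨n, hn⟩ := hP.1.exists_card_eq
    rw [hn, ← Nat.cast_smul_eq_nsmul (AlgebraicClosure (ZMod q))] at h1
    have h2 : ((p ^ n : ℕ) : AlgebraicClosure (ZMod q)) ≠ 0 := by
      rw [Ne, CharP.cast_eq_zero_iff (AlgebraicClosure (ZMod q)) q]
      intro h3
      exact hqp ((Nat.prime_dvd_prime_iff_eq hq.out hp.out).1 (hq.out.dvd_of_dvd_pow h3))
    exact (smul_eq_zero.1 h1.symm).resolve_left h2

section act
variable {X : Type} [Group X] (L₁ L₂ : Subgroup X) [hL₁ : L₁.Normal] [hL₂ : L₂.Normal]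

/-- the action on the factor group by conjugation -/
def act (x : X) : (L₁ ⧸ L₂.subgroupOf L₁) →* (L₁ ⧸ L₂.subgroupOf L₁) :=
  QuotientGroup.map _ _ (MulAut.conjNormal x : MulAut L₁).toMonoidHom (by
    intro v hv
    rw [Subgroup.mem_subgroupOf] at hv
    rw [Subgroup.mem_comap, Subgroup.mem_subgroupOf]
    change (((MulAut.conjNormal x : MulAut L₁) v : L₁) : X) ∈ L₂
    rw [MulAut.conjNormal_apply]
    exact hL₂.conj_mem _ hv x)

theorem act_mk (x : X) (v : L₁) :
    act L₁ L₂ x (v : L₁ ⧸ L₂.subgroupOf L₁) = ((MulAut.conjNormal x : MulAut L₁) v : L₁) := rfl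

theorem act_one : act L₁ L₂ 1 = MonoidHom.id _ := by
  ext v
  change act L₁ L₂ 1 (v : L₁ ⧸ L₂.subgroupOf L₁) = v
  rw [act_mk, map_one]
  rfl

theorem act_mul (x y : X) : act L₁ L₂ (x * y) = (act L₁ L₂ x).comp (act L₁ L₂ y) := by
  ext v
  change act L₁ L₂ (x * y) (v : L₁ ⧸ L₂.subgroupOf L₁) =
    act L₁ L₂ x (act L₁ L₂ y (v : L₁ ⧸ L₂.subgroupOf L₁))
  rw [act_mk, act_mk, act_mk, map_mul]
  rfl

theorem act_eq_iff (x : X) (v : L₁) :
    act L₁ L₂ x (v : L₁ ⧸ L₂.subgroupOf L₁) = v ↔ x * (v : X) * x⁻¹ * (v : X)⁻¹ ∈ L₂ := by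
  rw [act_mk, QuotientGroup.eq, Subgroup.mem_subgroupOf, Subgroup.coe_mul, Subgroup.coe_inv,
    MulAut.conjNormal_apply]
  constructor
  · intro h
    have h1 := hL₂.conj_mem _ (L₂.inv_mem h) (v : X)
    have h2 : (v : X) * ((x * (v : X) * x⁻¹)⁻¹ * (v : X))⁻¹ * (v : X)⁻¹ =
        x * (v : X) * x⁻¹ * (v : X)⁻¹ := by group
    rwa [h2] at h1
  · intro h
    have h1 := hL₂.conj_mem _ (L₂.inv_mem h) (v : X)⁻¹
    have h2 : (v : X)⁻¹ * (x * (v : X) * x⁻¹ * (v : X)⁻¹)⁻¹ * (v : X)⁻¹⁻¹ =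
        (x * (v : X) * x⁻¹)⁻¹ * (v : X) := by group
    rwa [h2] at h1

end act

/-- a representation over `ZMod q` from additive maps -/
def toRep (q : ℕ) {X V : Type} [Group X] [AddCommGroup V] [Module (ZMod q) V] (φ : X → (V →+ V))
    (h1 : ∀ v, φ 1 v = v) (hm : ∀ x y v, φ (x * y) v = φ x (φ y v)) :
    X →* Module.End (ZMod q) V where
  toFun x := (φ x).toZModLinearMap q
  map_one' := LinearMap.ext fun v => h1 v
  map_mul' x y := LinearMap.ext fun v => hm x y v

theorem aux {p l d : ℕ} [hp : Fact p.Prime] (H : HC p l d) {X : Type} [Group X] [Finite X]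
    (hX : Group.IsSolvable X) {q : ℕ} [hq : Fact q.Prime] (hqp : q ≠ p)
    {P L₁ L₂ W : Subgroup X}
    (hP : UQ p P) (hcard : Nat.card P ≤ p ^ (l + 1)) (hL₁ : L₁.Normal) (hL₂ : L₂.Normal)
    (hle : L₂ ≤ L₁) (hne : L₂ ≠ L₁)
    (hchief : ∀ Y : Subgroup X, Y.Normal → L₂ ≤ Y → Y ≤ L₁ → Y = L₁ ∨ Y = L₂)
    (hfix : ∀ v ∈ L₁, (∀ s ∈ P, s * v * s⁻¹ * v⁻¹ ∈ L₂) → v ∈ L₂)
    (hW : ∀ x : X, (∀ v ∈ L₁, x * v * x⁻¹ * v⁻¹ ∈ L₂) → x ∈ W)
    {V : Type} [AddCommGroup V] [Finite V] [Module (ZMod q) V] (κ : L₁ → V)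
    (hκ : Function.Surjective κ)
    (hker : ∀ v : L₁, κ v = 0 ↔ (v : X) ∈ L₂) (a : X → V →+ V) (ha1 : ∀ v, a 1 v = v)
    (ham : ∀ x y v, a (x * y) v = a x (a y v))
    (haκ : ∀ x v, a x (κ v) = κ v ↔ x * (v : X) * x⁻¹ * (v : X)⁻¹ ∈ L₂) : LM p d W := by
  have hnt : Nontrivial V := by
    obtain ⟨x, hx, hx'⟩ := SetLike.exists_of_lt (lt_of_le_of_ne hle hne)
    have h1 : κ ⟨x, hx⟩ ≠ 0 := fun h => hx' ((hker _).1 h)
    exact ⟨_, _, h1⟩
  let ρ : X →* Module.End (ZMod q) V := toRep q a ha1 ham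
  have hρ : ∀ (x : X) (v : L₁), ρ x (κ v) = κ v ↔ x * (v : X) * x⁻¹ * (v : X)⁻¹ ∈ L₂ :=
    fun x v => haκ x v
  have hsurj : ∀ v : V, ∃ w : L₁, v = κ w := fun v => by
    obtain ⟨w, hw⟩ := hκ v
    exact ⟨w, hw.symm⟩
  have hzero : ∀ w : L₁, (w : X) ∈ L₂ → κ w = 0 := fun w hw => (hker w).2 hw
  have key := core (p := p) (l := l) (d := d) H hX (q := q) hqp hP hcard ρ ?_ ?_
  · refine key.mono fun x hx => ?_
    refine hW x fun v hv => ?_
    have h1 : ρ x = 1 := hx
    have h2 := (hρ x ⟨v, hv⟩).1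
    refine h2 ?_
    rw [h1]; rfl
  · intro N hN
    let π : X →* X ⧸ L₂ := QuotientGroup.mk' L₂
    have hπ : Function.Surjective π := QuotientGroup.mk'_surjective L₂
    have hNπ : (N.map π).Normal := hN.map π hπ
    have hmem : ∀ n v : X, π n * π v = π v * π n ↔ n * v * n⁻¹ * v⁻¹ ∈ L₂ := by
      intro n v
      rw [← QuotientGroup.eq_one_iff]
      change π n * π v = π v * π n ↔ π (n * v * n⁻¹ * v⁻¹) = 1
      rw [map_mul, map_mul, map_mul, map_inv, map_inv]
      constructor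
      · intro h; rw [h]; group
      · intro h
        have : π n * π v = (π n * π v * (π n)⁻¹ * (π v)⁻¹) * (π v * π n) := by group
        rw [this, h, one_mul]
    let C : Subgroup X :=
      (Subgroup.centralizer ((N.map π : Subgroup (X ⧸ L₂)) : Set (X ⧸ L₂))).comap π
    have hCn : C.Normal := Subgroup.Normal.comap inferInstance π
    have hC : ∀ v, v ∈ C ↔ ∀ n ∈ N, n * v * n⁻¹ * v⁻¹ ∈ L₂ := by
      intro v
      rw [Subgroup.mem_comap, Subgroup.mem_centralizer_iff]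
      constructor
      · intro h n hn
        exact (hmem n v).1 (h (π n) ⟨n, hn, rfl⟩)
      · rintro h _ ⟨n, hn, rfl⟩
        exact (hmem n v).2 (h n hn)
    have hY := hchief (L₁ ⊓ C) (Subgroup.normal_inf_normal _ _) (by
      intro v hv
      refine ⟨hle hv, (hC v).2 fun n hn => ?_⟩
      exact L₂.mul_mem (hL₂.conj_mem v hv n) (L₂.inv_mem hv)) inf_le_left
    rcases hY with hY | hY
    · right
      intro n hn
      refine LinearMap.ext fun v => ?_
      obtain ⟨w, rfl⟩ := hsurj v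
      refine (hρ n w).2 ?_
      have h1 : (w : X) ∈ L₁ ⊓ C := by rw [hY]; exact w.2
      exact (hC _).1 h1.2 n hn
    · left
      intro v hv
      obtain ⟨w, rfl⟩ := hsurj v
      apply hzero
      rw [← hY]
      exact ⟨w.2, (hC _).2 fun n hn => (hρ n w).1 (hv n hn)⟩
  · intro v hv
    obtain ⟨w, rfl⟩ := hsurj v
    apply hzero
    exact hfix (w : X) w.2 fun s hs => (hρ s w).1 (hv s hs)

theorem target : S_V := by
  intro p l d _ H X _ _ hX q P L₁ L₂ W hP hcard hq hqp hL₁ hL₂ hle hne hchief hab hpow hfix hW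
  have hqf := Fact.mk hq
  have hcomm : ∀ a b : L₁ ⧸ L₂.subgroupOf L₁, a * b = b * a := by
    intro a b
    obtain ⟨x, rfl⟩ := QuotientGroup.mk_surjective a
    obtain ⟨y, rfl⟩ := QuotientGroup.mk_surjective b
    rw [← QuotientGroup.mk_mul, ← QuotientGroup.mk_mul, QuotientGroup.eq, Subgroup.mem_subgroupOf]
    have h1 := hab (y : X)⁻¹ (L₁.inv_mem y.2) (x : X)⁻¹ (L₁.inv_mem x.2)
    have h2 : (((x * y)⁻¹ * (y * x) : L₁) : X) =
        (y : X)⁻¹ * (x : X)⁻¹ * (y : X)⁻¹⁻¹ * (x : X)⁻¹⁻¹ := by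
      push_cast; group
    rw [h2]; exact h1
  let instC : CommGroup (L₁ ⧸ L₂.subgroupOf L₁) :=
    { (inferInstance : Group (L₁ ⧸ L₂.subgroupOf L₁)) with mul_comm := hcomm }
  have hq0 : ∀ v : L₁ ⧸ L₂.subgroupOf L₁, v ^ q = 1 := by
    intro a
    obtain ⟨x, rfl⟩ := QuotientGroup.mk_surjective a
    rw [← QuotientGroup.mk_pow, QuotientGroup.eq_one_iff, Subgroup.mem_subgroupOf]
    exact hpow (x : X) x.2
  have hfin : Finite (Additive (L₁ ⧸ L₂.subgroupOf L₁)) :=
    inferInstanceAs (Finite (L₁ ⧸ L₂.subgroupOf L₁))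
  let instM : Module (ZMod q) (Additive (L₁ ⧸ L₂.subgroupOf L₁)) :=
    AddCommGroup.zmodModule hq0
  refine aux (p := p) (l := l) (d := d) H hX (q := q) hqp hP hcard hL₁ hL₂ hle hne hchief
    hfix hW (V := Additive (L₁ ⧸ L₂.subgroupOf L₁))
    (fun v => Additive.ofMul ((v : L₁) : L₁ ⧸ L₂.subgroupOf L₁))
    (fun v => ?_) (fun v => ?_)
    (fun x => MonoidHom.toAdditive (act L₁ L₂ x)) (fun v => by rw [act_one]; rfl)
    (fun x y v => by rw [act_mul]; rfl) (fun x v => act_eq_iff L₁ L₂ x v)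
  · obtain ⟨w, hw⟩ := QuotientGroup.mk_surjective v.toMul
    exact ⟨w, by simp only [hw]; rfl⟩
  · change ((v : L₁) : L₁ ⧸ L₂.subgroupOf L₁) = 1 ↔ _
    rw [QuotientGroup.eq_one_iff, Subgroup.mem_subgroupOf]

end Pool.Agent.Helper867_Rae.JobV
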