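import Pool.Agent.Helper867_Rae.Base2
import Pool.Agent.Helper867_Rae.Stmts2

set_option autoImplicit false

namespace Pool.Agent.Helper867_Rae.Jobch

open Pool.Agent.TH62.PL Pool.Agent.Helper867_Rae

/-- property (E) -/
def PE (T : Type) [Group T] : Prop := ∀ E : Subgroup T, (∀ x ∈ E, x * x = 1) → Finite E

/-- 2-group -/
def P2 (T : Type) [Group T] : Prop := ∀ x : T, ∃ k : ℕ, x ^ (2 ^ k) = 1

section
variable {T : Type} [Group T]

lemma P2.sub (h : P2 T) (H : Subgroup T) : P2 H := fun x => by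
  obtain ⟨k, hk⟩ := h x
  exact ⟨k, Subtype.ext (by simpa using hk)⟩

lemma P2.quot (h : P2 T) (A : Subgroup T) [A.Normal] : P2 (T ⧸ A) := fun x => by
  obtain ⟨y, rfl⟩ := QuotientGroup.mk'_surjective A x
  obtain ⟨k, hk⟩ := h y
  exact ⟨k, by rw [← map_pow, hk, map_one]⟩

lemma PE.sub (h : PE T) (H : Subgroup T) : PE H := fun E hE => by
  have h1 : Finite (E.map H.subtype) := h _ (by
    rintro _ ⟨x, hx, rfl⟩
    have := congrArg Subtype.val (hE x hx)
    simpa using this)
  exact Finite.of_equiv _ (E.equivMapOfInjective H.subtype H.subtype_injective).symm.toEquiv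

lemma LF_quot (h : LF T) (A : Subgroup T) [A.Normal] : LF (T ⧸ A) := fun K hK => by
  obtain ⟨S, hS⟩ := hK
  classical
  have h1 : Finite (Subgroup.closure ((S.image Quotient.out : Finset T) : Set T)) :=
    h _ ⟨_, rfl⟩
  have h2 : (Subgroup.closure ((S.image Quotient.out : Finset T) : Set T)).map
      (QuotientGroup.mk' A) = K := by
    rw [MonoidHom.map_closure, ← hS]
    congr 1
    ext x
    simp only [Finset.coe_image, Set.mem_image, Finset.mem_coe, exists_exists_and_eq_and,
      QuotientGroup.mk'_apply, QuotientGroup.out_eq']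
    constructor
    · rintro ⟨y, hy, rfl⟩; exact hy
    · intro hx; exact ⟨x, hx, rfl⟩
  rw [← h2]
  exact Finite.of_surjective _ ((QuotientGroup.mk' A).subgroupMap_surjective _)

/-- (0) -/
lemma fin_cent (h1 : S_F1) (hM : P2 T) (A : Subgroup T) [hA : A.Normal]
    (hab : ∀ a ∈ A, ∀ b ∈ A, a * b = b * a) (h2 : PE T) :
    (Subgroup.centralizer (A : Set T)).FiniteIndex := by
  let _ : CommGroup A :=
    { (inferInstance : Group A) with mul_comm := fun a b => Subtype.ext (hab a a.2 b b.2) }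
  have hfin : Finite {a : Additive A // 2 • a = 0} := by
    let W : Subgroup T :=
      { carrier := {a | a ∈ A ∧ a * a = 1}
        one_mem' := ⟨A.one_mem, one_mul _⟩
        mul_mem' := by
          rintro a b ⟨ha, ha'⟩ ⟨hb, hb'⟩
          refine ⟨A.mul_mem ha hb, ?_⟩
          rw [mul_assoc, ← mul_assoc b a b, ← hab a ha b hb, mul_assoc a b b, hb', mul_one, ha']
        inv_mem' := by
          rintro a ⟨ha, ha'⟩
          exact ⟨A.inv_mem ha, by rw [← mul_inv_rev, ha', inv_one]⟩ }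
    have hW : Finite W := h2 W fun x hx => hx.2
    refine Finite.of_injective (fun a : {a : Additive A // 2 • a = 0} =>
      (⟨(a.1.toMul : A), ⟨(a.1.toMul : A).2, ?_⟩⟩ : W)) ?_
    · have := congrArg (fun z : Additive A => ((z.toMul : A) : T)) a.2
      rw [two_nsmul] at this
      exact this
    · intro a b h
      have h3 := congrArg Subtype.val h
      apply Subtype.ext
      exact Additive.toMul.injective (Subtype.ext h3)
  obtain ⟨N, hN, h3⟩ := h1 (Additive A) (fun a => by
    obtain ⟨k, hk⟩ := (hM.sub A) a.toMul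
    exact ⟨k, Additive.toMul.injective (by simpa using hk)⟩) hfin
  let W : Subgroup T :=
    { carrier := {a | a ∈ A ∧ a ^ (2 ^ N) = 1}
      one_mem' := ⟨A.one_mem, one_pow _⟩
      mul_mem' := by
        rintro a b ⟨ha, ha'⟩ ⟨hb, hb'⟩
        exact ⟨A.mul_mem ha hb, by
          rw [(show Commute a b from hab a ha b hb).mul_pow, ha', hb', one_mul]⟩
      inv_mem' := by
        rintro a ⟨ha, ha'⟩
        exact ⟨A.inv_mem ha, by rw [inv_pow, ha', inv_one]⟩ }
  have hWn : W.Normal := ⟨by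
    rintro a ⟨ha, ha'⟩ g
    exact ⟨hA.conj_mem a ha g, by rw [conj_pow, ha', mul_one, mul_inv_cancel]⟩⟩
  have hWf : Finite W := by
    refine Finite.of_injective (fun w : W =>
      (⟨Additive.ofMul (⟨w.1, w.2.1⟩ : A), ?_⟩ : {a : Additive A // 2 ^ N • a = 0})) ?_
    · apply Additive.toMul.injective
      apply Subtype.ext
      simpa using w.2.2
    · intro a b h
      have h4 := congrArg (fun z : {a : Additive A // 2 ^ N • a = 0} =>
        ((z.1.toMul : A) : T)) h
      exact Subtype.ext h4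
  have hfi : (MulAut.conjNormal : T →* MulAut W).ker.FiniteIndex := inferInstance
  refine Subgroup.finiteIndex_of_le (H := (MulAut.conjNormal : T →* MulAut W).ker) ?_
  intro m hm
  have hm' : ∀ w ∈ W, m * w * m⁻¹ = w := by
    intro w hw
    have h4 := congrArg (fun f : MulAut W => ((f ⟨w, hw⟩ : W) : T)) (MonoidHom.mem_ker.1 hm)
    simpa using h4
  rw [Subgroup.mem_centralizer_iff]
  intro a ha
  have hit : ∀ (n : ℕ) (x : Additive A),
      ((MulEquiv.toAdditive (MulAut.conjNormal m : MulAut A)))^[n] x =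
        Additive.ofMul ((MulAut.conjNormal (m ^ n) : MulAut A) x.toMul) := by
    intro n
    induction n with
    | zero => intro x; simp
    | succ n ih =>
      intro x
      rw [Function.iterate_succ_apply', ih, pow_succ', map_mul]
      rfl
  obtain ⟨k, hk⟩ := hM m
  have h5 := h3 (MulEquiv.toAdditive (MulAut.conjNormal m : MulAut A)) ⟨2 ^ k, by positivity, by
    intro x
    rw [hit, hk, map_one]; rfl⟩ (by
    intro x hx
    apply Additive.toMul.injective
    apply Subtype.ext
    have h6 : ((x.toMul : A) : T) ∈ W := by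
      refine ⟨(x.toMul : A).2, ?_⟩
      have := congrArg (fun z : Additive A => ((z.toMul : A) : T)) hx
      simpa using this
    have h7 := hm' _ h6
    simpa using h7) (Additive.ofMul ⟨a, ha⟩)
  have h8 := congrArg (fun z : Additive A => ((z.toMul : A) : T)) h5
  have h9 : m * a * m⁻¹ = a := by simpa using h8
  calc a * m = (m * a * m⁻¹) * m := by rw [h9]
    _ = m * a := by group

/-- Zorn -/
lemma zorn (P : Subgroup T → Prop) (A : Subgroup T) (hA : P A)
    (hc : ∀ c : Set (Subgroup T), c.Nonempty → IsChain (· ≤ ·) c → (∀ B ∈ c, P B) → P (sSup c)) :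
    ∃ B, A ≤ B ∧ P B ∧ ∀ B', P B' → B ≤ B' → B' ≤ B := by
  obtain ⟨m, h1, h2⟩ := zorn_le_nonempty₀ {B | P B} (fun c hcs hch y hy =>
    ⟨sSup c, hc c ⟨y, hy⟩ hch fun B hB => hcs hB, fun z hz => le_sSup hz⟩) A hA
  exact ⟨m, h1, h2.1, fun B' hB' hle => h2.2 hB' hle⟩

lemma mem_chain {c : Set (Subgroup T)} (hne : c.Nonempty) (hc : IsChain (· ≤ ·) c) {x : T}
    (hx : x ∈ sSup c) : ∃ B ∈ c, x ∈ B :=
  (Subgroup.mem_sSup_of_directedOn hne hc.directedOn).1 hx

lemma mem_chain₂ {c : Set (Subgroup T)} (hne : c.Nonempty) (hc : IsChain (· ≤ ·) c) {x y : T}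
    (hx : x ∈ sSup c) (hy : y ∈ sSup c) : ∃ B ∈ c, x ∈ B ∧ y ∈ B := by
  obtain ⟨B, hB, hxB⟩ := mem_chain hne hc hx
  obtain ⟨C, hC, hyC⟩ := mem_chain hne hc hy
  rcases hc.total hB hC with h | h
  · exact ⟨C, hC, h hxB, hyC⟩
  · exact ⟨B, hB, hxB, h hyC⟩

lemma closure_comm {k : Set T} (h : ∀ x ∈ k, ∀ y ∈ k, x * y = y * x) :
    ∀ x ∈ Subgroup.closure k, ∀ y ∈ Subgroup.closure k, x * y = y * x := by
  have h1 : Subgroup.closure k ≤ Subgroup.centralizer k := by
    rw [Subgroup.closure_le]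
    intro x hx
    rw [SetLike.mem_coe, Subgroup.mem_centralizer_iff]
    intro y hy
    exact h y hy x hx
  intro x hx y hy
  have h2 := Subgroup.closure_le_centralizer_centralizer k hx
  rw [Subgroup.mem_centralizer_iff] at h2
  exact (h2 y (h1 hy)).symm

/-- (i) -/
lemma meetZ (hL : LF T) (h2 : P2 T) (hE : PE T) (M : Subgroup T) (hM : M.Normal) (hne : M ≠ ⊥) :
    ∃ z ∈ M, z ≠ 1 ∧ ∀ t : T, t * z = z * t := by
  by_contra hcon
  push Not at hcon
  choose! t ht using hcon
  obtain ⟨E, -, hE1, hE2⟩ := zorn (fun E : Subgroup T => ∀ x ∈ E, x * x = 1) ⊥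
    (by intro x hx; rw [Subgroup.mem_bot.1 hx, one_mul])
    (by
      intro c hne hc hP x hx
      obtain ⟨B, hB, hxB⟩ := mem_chain hne hc hx
      exact hP B hB x hxB)
  obtain ⟨⟨w, hw⟩, hw0⟩ := Subgroup.ne_bot_iff_exists_ne_one.1 hne
  have hw1 : w ≠ 1 := fun h => hw0 (Subtype.ext h)
  have hEf : Finite E := hE E hE1
  have hSf : ((E : Set T) ∪ {w} ∪ t '' (E : Set T)).Finite := by
    have h3 : (E : Set T).Finite := Set.toFinite _
    exact (h3.union (Set.finite_singleton w)).union (h3.image t)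
  set Y := Subgroup.closure ((E : Set T) ∪ {w} ∪ t '' (E : Set T)) with hY
  have hYf : Finite Y := hL Y ⟨hSf.toFinset, by rw [Set.Finite.coe_toFinset]⟩
  have hEY : E ≤ Y := fun x hx => Subgroup.subset_closure (Or.inl (Or.inl hx))
  have hwY : w ∈ Y := Subgroup.subset_closure (Or.inl (Or.inr rfl))
  have htY : ∀ x ∈ E, t x ∈ Y := fun x hx => Subgroup.subset_closure (Or.inr ⟨x, hx, rfl⟩)
  have hYp : IsPGroup 2 Y := fun x => (h2.sub Y) x
  have : Fact (Nat.Prime 2) := ⟨Nat.prime_two⟩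
  have hMn : (M.subgroupOf Y).Normal := hM.subgroupOf Y
  obtain ⟨x, hxM, hx1, hxc⟩ := meet_center hYp (M.subgroupOf Y) (by
    intro h
    have h3 : (⟨w, hwY⟩ : Y) ∈ M.subgroupOf Y := hw
    rw [h, Subgroup.mem_bot] at h3
    exact hw1 (congrArg Subtype.val h3))
  -- an element of order two
  obtain ⟨z, hzM, hz1, hzz, hzc⟩ : ∃ z ∈ M, z ≠ 1 ∧ z * z = 1 ∧ ∀ g ∈ Y, g * z = z * g := by
    have hex : ∃ k : ℕ, (x : T) ^ (2 ^ k) = 1 := h2 x
    classical
    have h3 := Nat.find_spec hex
    have h4 : Nat.find hex ≠ 0 := by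
      intro h0
      rw [h0, pow_zero, pow_one] at h3
      exact hx1 (Subtype.ext h3)
    obtain ⟨j, hj⟩ := Nat.exists_eq_succ_of_ne_zero h4
    refine ⟨(x : T) ^ (2 ^ j), M.pow_mem hxM _, ?_, ?_, ?_⟩
    · exact Nat.find_min hex (by omega)
    · rw [hj, Nat.succ_eq_add_one, pow_succ, pow_mul, sq] at h3
      exact h3
    · intro g hg
      have h5 : Commute g (x : T) := congrArg Subtype.val (hxc ⟨g, hg⟩)
      exact h5.pow_right _
  have hEz : ∀ e ∈ E, e * z = z * e := fun e he => hzc e (hEY he)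
  have hzinv : z⁻¹ = z := by
    rw [inv_eq_iff_mul_eq_one]; exact hzz
  have hcz : ∀ x, x * z ∈ E → x * z = z * x := by
    intro x hx
    have h3 := hEz _ hx
    calc x * z = (x * z * z) * z := by rw [mul_assoc x z z, hzz, mul_one]
      _ = (z * (x * z)) * z := by rw [h3]
      _ = z * x * (z * z) := by group
      _ = z * x := by rw [hzz, mul_one]
  let E' : Subgroup T :=
    { carrier := {x | x ∈ E ∨ x * z ∈ E}
      one_mem' := Or.inl E.one_mem
      mul_mem' := by
        rintro a b (ha | ha) (hb | hb)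
        · exact Or.inl (E.mul_mem ha hb)
        · right
          rw [mul_assoc]; exact E.mul_mem ha hb
        · right
          have : a * b * z = (a * z) * b := by rw [mul_assoc a b z, hEz b hb, mul_assoc]
          rw [this]; exact E.mul_mem ha hb
        · left
          have : a * b = (a * z) * (b * z) := by
            rw [hcz b hb, mul_assoc, ← mul_assoc z z b, hzz, one_mul]
          rw [this]; exact E.mul_mem ha hb
      inv_mem' := by
        rintro a (ha | ha)
        · exact Or.inl (E.inv_mem ha)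
        · right
          have : a⁻¹ * z = (a * z)⁻¹ := by
            rw [hcz a ha, mul_inv_rev, hzinv]
          rw [this]; exact E.inv_mem ha }
  have h6 : E' ≤ E := hE2 E' (by
    rintro x (hx | hx)
    · exact hE1 x hx
    · have h7 := hE1 _ hx
      have : x * z * (x * z) = x * x := by
        calc x * z * (x * z) = x * (z * x) * z := by group
          _ = x * (x * z) * z := by rw [hcz x hx]
          _ = x * x * (z * z) := by group
          _ = x * x := by rw [hzz, mul_one]
      rwa [this] at h7) (fun x hx => Or.inl hx)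
  have h8 : z ∈ E := h6 (Or.inr (by rw [hzz]; exact E.one_mem))
  exact ht z hzM hz1 (hzc _ (htY z h8))

/-- (ii') -/
lemma fin_ext (h2 : S_F2) (hT : P2 T) (hE : PE T) (A : Subgroup T)
    (hA : ∀ a ∈ A, ∀ g : T, g * a = a * g) (hx : ∀ x : T, x * x ∈ A) : Finite (T ⧸ A) := by
  have hAn : A.Normal := ⟨fun a ha g => by rw [hA a ha g]; simpa using ha⟩
  -- quotient is abelian
  have hcomm : ∀ x y : T, x * y * x⁻¹ * y⁻¹ ∈ A := by
    intro x y
    rw [← QuotientGroup.eq_one_iff]
    have h3 : ∀ x : T ⧸ A, x * x = 1 := by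
      intro x
      obtain ⟨y, rfl⟩ := QuotientGroup.mk'_surjective A x
      rw [← map_mul]
      exact (QuotientGroup.eq_one_iff _).2 (hx y)
    have h4 : ∀ x : T ⧸ A, x⁻¹ = x := fun x => by
      rw [inv_eq_iff_mul_eq_one]; exact h3 x
    have h5 : ((x * y * x⁻¹ * y⁻¹ : T) : T ⧸ A) = (x : T ⧸ A) * y * (x : T ⧸ A)⁻¹ * (y : T ⧸ A)⁻¹ :=
      rfl
    rw [h5, h4, h4, mul_assoc, mul_assoc, ← mul_assoc (x : T ⧸ A) y, h3]
  -- the homomorphisms
  let f : T → (T →* T) := fun r => MonoidHom.mk' (fun m => m * r * m⁻¹ * r⁻¹) (by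
    intro m m'
    have h3 : m * m' * r * (m * m')⁻¹ * r⁻¹ = m * (m' * r * m'⁻¹ * r⁻¹) * (r * m⁻¹ * r⁻¹) := by
      group
    rw [h3, hA _ (hcomm m' r) m, mul_assoc, ← hA _ (hcomm m' r)]
    group)
  have hf : ∀ r m, f r m = m * r * m⁻¹ * r⁻¹ := fun r m => rfl
  have hfk : ∀ r, (f r).ker.FiniteIndex := by
    intro r
    have h3 : Finite (f r).range := hE _ (by
      rintro _ ⟨m, rfl⟩
      rw [← map_mul, hf]
      have h4 := hA _ (hx m) r
      rw [← h4]; group)
    infer_instance
  obtain ⟨B, hAB, hB, hBmax⟩ := zorn (fun B : Subgroup T => ∀ a ∈ B, ∀ b ∈ B, a * b = b * a) A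
    (fun a _ b hb => hA b hb a)
    (by
      intro c hne hc hP x hx y hy
      obtain ⟨B, hB, hxB, hyB⟩ := mem_chain₂ hne hc hx hy
      exact hP B hB x hxB y hyB)
  let _ : CommGroup B :=
    { (inferInstance : Group B) with mul_comm := fun a b => Subtype.ext (hB a a.2 b b.2) }
  have hfin : Finite {a : Additive B // 2 • a = 0} := by
    let W : Subgroup T :=
      { carrier := {a | a ∈ B ∧ a * a = 1}
        one_mem' := ⟨B.one_mem, one_mul _⟩
        mul_mem' := by
          rintro a b ⟨ha, ha'⟩ ⟨hb, hb'⟩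
          refine ⟨B.mul_mem ha hb, ?_⟩
          rw [mul_assoc, ← mul_assoc b a b, ← hB a ha b hb, mul_assoc a b b, hb', mul_one, ha']
        inv_mem' := by
          rintro a ⟨ha, ha'⟩
          exact ⟨B.inv_mem ha, by rw [← mul_inv_rev, ha', inv_one]⟩ }
    have hW : Finite W := hE W fun x hx => hx.2
    refine Finite.of_injective (fun a : {a : Additive B // 2 • a = 0} =>
      (⟨(a.1.toMul : B), ⟨(a.1.toMul : B).2, ?_⟩⟩ : W)) ?_
    · have := congrArg (fun z : Additive B => ((z.toMul : B) : T)) a.2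
      rw [two_nsmul] at this
      exact this
    · intro a b h
      have h3 := congrArg Subtype.val h
      apply Subtype.ext
      exact Additive.toMul.injective (Subtype.ext h3)
  obtain ⟨-, n, hn, hnf⟩ := h2 (Additive B) (fun a => by
    obtain ⟨k, hk⟩ := (hT.sub B) a.toMul
    exact ⟨k, Additive.toMul.injective (by simpa using hk)⟩) hfin
  -- representatives
  obtain ⟨R, hRf, hR⟩ : ∃ R : Set T, R.Finite ∧ ∀ b ∈ B, ∃ r ∈ R, r⁻¹ * b ∈ A := by
    rcases n with _ | n
    · refine ⟨{1}, Set.finite_singleton 1, fun b hb => ⟨1, rfl, ?_⟩⟩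
      obtain ⟨c, hc⟩ := hn (Additive.ofMul ⟨b, hb⟩)
      have h3 := congrArg (fun z : Additive B => ((z.toMul : B) : T)) hc
      have h4 : b = ((c.toMul : B) : T) * ((c.toMul : B) : T) := by
        simpa [two_nsmul] using h3
      rw [inv_one, one_mul, h4]
      exact hx _
    · refine ⟨Set.range (fun q : (Additive B ⧸ (AddMonoidHom.range
        (nsmulAddMonoidHom (α := Additive B) (2 ^ (n + 1))))) => ((q.out.toMul : B) : T)),
        Set.finite_range _, fun b hb => ?_⟩
      refine ⟨_, ⟨QuotientAddGroup.mk (Additive.ofMul ⟨b, hb⟩), rfl⟩, ?_⟩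
      have h3 := QuotientAddGroup.eq.1 (QuotientAddGroup.out_eq' (QuotientAddGroup.mk
        (s := (AddMonoidHom.range
        (nsmulAddMonoidHom (α := Additive B) (2 ^ (n + 1))))) (Additive.ofMul (⟨b, hb⟩ : B))))
      obtain ⟨c, hc⟩ := h3
      have h4 := congrArg (fun z : Additive B => ((z.toMul : B) : T)) hc
      have h5 : ((c.toMul : B) : T) ^ (2 ^ (n + 1)) ∈ A := by
        rw [pow_succ, pow_mul, sq]; exact hx _
      convert h5 using 1
      simpa using h4.symm
  have hB2 : B.FiniteIndex := by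
    have : Finite R := hRf
    have h3 : (⨅ r : R, (f r).ker).FiniteIndex := Subgroup.finiteIndex_iInf fun r => hfk r
    refine Subgroup.finiteIndex_of_le (H := ⨅ r : R, (f r).ker) ?_
    intro x hx'
    rw [Subgroup.mem_iInf] at hx'
    have h4 : ∀ b ∈ B, x * b = b * x := by
      intro b hb
      obtain ⟨r, hr, hra⟩ := hR b hb
      have h5 : x * r = r * x := by
        have h6 := MonoidHom.mem_ker.1 (hx' ⟨r, hr⟩)
        rw [hf] at h6
        have h7 : x * r = (x * r * x⁻¹ * r⁻¹) * (r * x) := by group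
        rw [h7]
        change (x * r * x⁻¹ * r⁻¹) = 1 at h6
        rw [h6, one_mul]
      calc x * b = (x * r) * (r⁻¹ * b) := by group
        _ = r * (x * (r⁻¹ * b)) := by rw [h5, mul_assoc]
        _ = r * ((r⁻¹ * b) * x) := by rw [hA _ hra x]
        _ = b * x := by group
    have h8 := hBmax (Subgroup.closure ((B : Set T) ∪ {x})) (closure_comm (by
      rintro a (ha | ha) b (hb | hb)
      · exact hB a ha b hb
      · rw [Set.mem_singleton_iff.1 hb]; exact (h4 a ha).symm
      · rw [Set.mem_singleton_iff.1 ha]; exact h4 b hb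
      · rw [Set.mem_singleton_iff.1 ha, Set.mem_singleton_iff.1 hb]))
      (fun y hy => Subgroup.subset_closure (Or.inl hy))
    exact h8 (Subgroup.subset_closure (Or.inr rfl))
  have hq : Finite (T ⧸ B) := inferInstance
  have : Finite R := hRf
  refine Finite.of_surjective (fun p : (T ⧸ B) × R => (QuotientGroup.mk (p.1.out * p.2) : T ⧸ A)) ?_
  intro q
  obtain ⟨g, rfl⟩ := QuotientGroup.mk_surjective q
  have h3 : (QuotientGroup.mk g : T ⧸ B).out⁻¹ * g ∈ B :=
    QuotientGroup.eq.1 (QuotientGroup.out_eq' (QuotientGroup.mk g : T ⧸ B))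
  obtain ⟨r, hr, hra⟩ := hR _ h3
  refine ⟨(QuotientGroup.mk g, ⟨r, hr⟩), ?_⟩
  refine QuotientGroup.eq.2 ?_
  convert hra using 1
  group

/-- (ii) -/
lemma PE_quot (h1 : S_F1) (h2 : S_F2) (hT : P2 T) (hE : PE T) (A : Subgroup T) [hA : A.Normal]
    (hab : ∀ a ∈ A, ∀ b ∈ A, a * b = b * a) : PE (T ⧸ A) := by
  intro E hEE
  set M := E.comap (QuotientGroup.mk' A) with hM
  have hA'n : (A.subgroupOf M).Normal := hA.subgroupOf M
  have hab' : ∀ a ∈ A.subgroupOf M, ∀ b ∈ A.subgroupOf M, a * b = b * a :=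
    fun a ha b hb => Subtype.ext (hab a ha b hb)
  have hC := fin_cent h1 (hT.sub M) (A.subgroupOf M) hab' (hE.sub M)
  set C := Subgroup.centralizer ((A.subgroupOf M : Subgroup M) : Set M) with hCdef
  have hAC : A.subgroupOf M ≤ C := by
    intro a ha
    rw [hCdef, Subgroup.mem_centralizer_iff]
    intro b hb
    exact hab' b hb a ha
  have hfin : Finite (C ⧸ (A.subgroupOf M).subgroupOf C) := by
    refine fin_ext h2 ((hT.sub M).sub C) ((hE.sub M).sub C) _ ?_ ?_
    · rintro ⟨a, haC⟩ ha ⟨g, hg⟩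
      apply Subtype.ext
      exact ((Subgroup.mem_centralizer_iff.1 hg) a ha).symm
    · rintro ⟨⟨x, hxM⟩, hxC⟩
      change x * x ∈ A
      rw [← QuotientGroup.eq_one_iff]
      exact hEE _ hxM
  have h3 : (A.subgroupOf M).relIndex C ≠ 0 := by
    have : ((A.subgroupOf M).subgroupOf C).FiniteIndex := Subgroup.finiteIndex_of_finite_quotient
    exact this.index_ne_zero
  have h4 : (A.subgroupOf M).index ≠ 0 := by
    rw [← Subgroup.relIndex_mul_index hAC]
    exact mul_ne_zero h3 hC.index_ne_zero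
  have h5 : (A.subgroupOf M).FiniteIndex := ⟨h4⟩
  have h6 : Finite (M ⧸ A.subgroupOf M) := inferInstance
  let g : M →* E := (QuotientGroup.mk' A).subgroupComap E
  have hg : Function.Surjective g :=
    MonoidHom.subgroupComap_surjective_of_surjective _ _ (QuotientGroup.mk'_surjective A)
  refine Finite.of_surjective (QuotientGroup.lift (A.subgroupOf M) g ?_) ?_
  · rintro ⟨x, hxM⟩ hx
    apply Subtype.ext
    exact (QuotientGroup.eq_one_iff x).2 hx
  · intro e
    obtain ⟨x, rfl⟩ := hg e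
    exact ⟨QuotientGroup.mk x, rfl⟩

/-- (iii) -/
lemma exists_A (h1 : S_F1) (h2 : S_F2) (hL : LF T) (hT : P2 T) (hE : PE T) :
    ∃ A : Subgroup T, A.Normal ∧ A.FiniteIndex ∧ (∀ a ∈ A, ∀ b ∈ A, a * b = b * a) := by
  obtain ⟨A, -, ⟨hAn, hab⟩, hmax⟩ := zorn (fun A : Subgroup T => A.Normal ∧
    ∀ a ∈ A, ∀ b ∈ A, a * b = b * a) ⊥
    ⟨inferInstance, by
      intro a ha b hb
      rw [Subgroup.mem_bot.1 ha, Subgroup.mem_bot.1 hb]⟩
    (by
      intro c hne hc hP
      refine ⟨⟨?_⟩, ?_⟩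
      · intro x hx g
        obtain ⟨B, hB, hxB⟩ := mem_chain hne hc hx
        exact (le_sSup hB : B ≤ sSup c) ((hP B hB).1.conj_mem x hxB g)
      · intro x hx y hy
        obtain ⟨B, hB, hxB, hyB⟩ := mem_chain₂ hne hc hx hy
        exact (hP B hB).2 x hxB y hyB)
  refine ⟨A, hAn, ?_, hab⟩
  have hC := fin_cent h1 hT A hab hE
  refine Subgroup.finiteIndex_of_le (H := Subgroup.centralizer (A : Set T)) ?_
  by_contra hcon
  have hne : (Subgroup.centralizer (A : Set T)).map (QuotientGroup.mk' A) ≠ ⊥ := by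
    intro h
    apply hcon
    rw [Subgroup.map_eq_bot_iff, QuotientGroup.ker_mk'] at h
    exact h
  have hCn : (Subgroup.centralizer (A : Set T)).Normal := inferInstance
  obtain ⟨z, hz, hz1, hzc⟩ := meetZ (LF_quot hL A) (hT.quot A) (PE_quot h1 h2 hT hE A hab)
    _ (hCn.map _ (QuotientGroup.mk'_surjective A)) hne
  obtain ⟨x, hx, rfl⟩ := hz
  have hxA : ∀ a ∈ A, a * x = x * a := fun a ha => (Subgroup.mem_centralizer_iff.1 hx) a ha
  have hZn : (Subgroup.zpowers (QuotientGroup.mk' A x)).Normal := ⟨by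
    rintro _ ⟨n, rfl⟩ g
    have h3 : Commute g ((QuotientGroup.mk' A x) ^ n) :=
      (show Commute g (QuotientGroup.mk' A x) from hzc g).zpow_right n
    have h4 : g * ((QuotientGroup.mk' A x) ^ n) * g⁻¹ = (QuotientGroup.mk' A x) ^ n := by
      rw [h3.eq, mul_assoc, mul_inv_cancel, mul_one]
    change g * ((QuotientGroup.mk' A x) ^ n) * g⁻¹ ∈ _
    rw [h4]
    exact ⟨n, rfl⟩⟩
  have hrep : ∀ b ∈ (Subgroup.zpowers (QuotientGroup.mk' A x)).comap (QuotientGroup.mk' A),
      ∃ n : ℤ, ∃ a ∈ A, b = x ^ n * a := by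
    rintro b ⟨n, hn⟩
    refine ⟨n, (x ^ n)⁻¹ * b, ?_, by group⟩
    rw [← QuotientGroup.eq_one_iff]
    change (QuotientGroup.mk' A) ((x ^ n)⁻¹ * b) = 1
    have hn' : (QuotientGroup.mk' A) x ^ n = (QuotientGroup.mk' A) b := hn
    rw [map_mul, map_inv, map_zpow, hn', inv_mul_cancel]
  have h5 := hmax ((Subgroup.zpowers (QuotientGroup.mk' A x)).comap (QuotientGroup.mk' A))
    ⟨hZn.comap _, by
      intro b hb c hc
      obtain ⟨n, a, ha, rfl⟩ := hrep b hb
      obtain ⟨m, a', ha', rfl⟩ := hrep c hc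
      have c1 : Commute a x := hxA a ha
      have c2 : Commute a' x := hxA a' ha'
      have c3 : Commute a a' := hab a ha a' ha'
      have c4 : Commute (x ^ n) (x ^ m) := (Commute.refl x).zpow_zpow n m
      exact ((c4.mul_right (c2.zpow_right n).symm).mul_left
        ((c1.zpow_right m).mul_right c3)).eq⟩ (by
      intro a ha
      rw [Subgroup.mem_comap]
      have : (QuotientGroup.mk' A) a = 1 := (QuotientGroup.eq_one_iff a).2 ha
      rw [this]; exact Subgroup.one_mem _)
  have h6 : x ∈ A := h5 (by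
    rw [Subgroup.mem_comap]; exact Subgroup.mem_zpowers _)
  exact hz1 ((QuotientGroup.eq_one_iff x).2 h6)

end

theorem target : S_F1 → S_F2 → S_ch := by
  intro h1 h2 T _ hL hp hE
  have hT : P2 T := by
    intro x
    obtain ⟨k, hk⟩ := hp ⟨x, trivial⟩
    exact ⟨k, by simpa using congrArg Subtype.val hk⟩
  have hE' : PE T := hE
  obtain ⟨A, hAn, hAf, hab⟩ := exists_A h1 h2 hL hT hE'
  refine ⟨⟨A, hAn, hAf, hab⟩, ?_⟩
  intro H hH
  let _ : CommGroup A :=
    { (inferInstance : Group A) with mul_comm := fun a b => Subtype.ext (hab a a.2 b b.2) }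
  have hfin : Finite {a : Additive A // 2 • a = 0} := by
    let W : Subgroup T :=
      { carrier := {a | a ∈ A ∧ a * a = 1}
        one_mem' := ⟨A.one_mem, one_mul _⟩
        mul_mem' := by
          rintro a b ⟨ha, ha'⟩ ⟨hb, hb'⟩
          refine ⟨A.mul_mem ha hb, ?_⟩
          rw [mul_assoc, ← mul_assoc b a b, ← hab a ha b hb, mul_assoc a b b, hb', mul_one, ha']
        inv_mem' := by
          rintro a ⟨ha, ha'⟩
          exact ⟨A.inv_mem ha, by rw [← mul_inv_rev, ha', inv_one]⟩ }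
    have hW : Finite W := hE' W fun x hx => hx.2
    refine Finite.of_injective (fun a : {a : Additive A // 2 • a = 0} =>
      (⟨(a.1.toMul : A), ⟨(a.1.toMul : A).2, ?_⟩⟩ : W)) ?_
    · have := congrArg (fun z : Additive A => ((z.toMul : A) : T)) a.2
      rw [two_nsmul] at this
      exact this
    · intro a b h
      have h3 := congrArg Subtype.val h
      apply Subtype.ext
      exact Additive.toMul.injective (Subtype.ext h3)
  obtain ⟨hch, -⟩ := h2 (Additive A) (fun a => by
    obtain ⟨k, hk⟩ := (hT.sub A) a.toMul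
    exact ⟨k, Additive.toMul.injective (by simpa using hk)⟩) hfin
  obtain ⟨n1, hn1⟩ := hch (fun n => Subgroup.toAddSubgroup ((H n).subgroupOf A)) (by
    intro m n hmn x hx
    exact hH hmn hx)
  have hq : Finite (T ⧸ A) := inferInstance
  have hqs : Finite (Subgroup (T ⧸ A)) := inferInstance
  obtain ⟨n2, hn2⟩ : ∃ n, ∀ m ≥ n, (H m).map (QuotientGroup.mk' A) =
      (H n).map (QuotientGroup.mk' A) := by
    have h3 := WellFoundedGT.monotone_chain_condition (α := (Subgroup (T ⧸ A))ᵒᵈ)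
      ⟨fun n => OrderDual.toDual ((H n).map (QuotientGroup.mk' A)), fun m n hmn =>
        Subgroup.map_mono (hH hmn)⟩
    obtain ⟨n, hn⟩ := h3
    exact ⟨n, fun m hm => (OrderDual.toDual.injective (hn m hm)).symm⟩
  refine ⟨max n1 n2, fun m hm => ?_⟩
  refine le_antisymm (hH hm) ?_
  intro x hx
  have hm1 : n1 ≤ m := (le_max_left _ _).trans hm
  have hm2 : n2 ≤ m := (le_max_right _ _).trans hm
  have h4 : (QuotientGroup.mk' A) x ∈ (H m).map (QuotientGroup.mk' A) := by
    rw [hn2 m hm2, ← hn2 _ (le_max_right n1 n2)]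
    exact ⟨x, hx, rfl⟩
  obtain ⟨y, hy, hyx⟩ := h4
  have h5 : y⁻¹ * x ∈ A := QuotientGroup.eq.1 hyx
  have h6 : y⁻¹ * x ∈ H (max n1 n2) :=
    (H _).mul_mem ((H _).inv_mem (hH hm hy)) hx
  have h7 : Subgroup.toAddSubgroup ((H (max n1 n2)).subgroupOf A) =
      Subgroup.toAddSubgroup ((H m).subgroupOf A) := by
    have e1 := hn1 _ (le_max_left n1 n2)
    have e2 := hn1 m hm1
    exact e1.trans e2.symm
  have h8 : (Additive.ofMul (⟨y⁻¹ * x, h5⟩ : A)) ∈
      Subgroup.toAddSubgroup ((H (max n1 n2)).subgroupOf A) := h6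
  rw [h7] at h8
  have h9 : y⁻¹ * x ∈ H m := h8
  have h10 : x = y * (y⁻¹ * x) := by group
  rw [h10]
  exact (H m).mul_mem hy h9

end Pool.Agent.Helper867_Rae.Jobch
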