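import Pool.Agent.Helper867_Rae.Base2
import Pool.Agent.Helper867_Rae.Stmts2

set_option autoImplicit false

namespace Pool.Agent.Helper867_Rae.Jobcore

open Pool.Agent.TH62.PL Pool.Agent.Helper867_Rae

/-- the largest normal `σ`-subgroup -/
theorem core_aux (σ : Set ℕ) (G : Type) [Group G] :
    ∃ Q : Subgroup G, Q.Characteristic ∧ PF σ ⊥ Q ∧
      ∀ N : Subgroup G, N.Normal → PF σ ⊥ N → N ≤ Q := by
  obtain ⟨S, hS⟩ : ∃ S : Set (Subgroup G), ∀ N, N ∈ S ↔ N.Normal ∧ PF σ ⊥ N :=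
    ⟨{N | N.Normal ∧ PF σ ⊥ N}, fun _ => Iff.rfl⟩
  have hne : S.Nonempty := ⟨⊥, (hS _).2 ⟨inferInstance, PF.refl _⟩⟩
  have hdir : DirectedOn (· ≤ ·) S := by
    intro A hA B hB
    obtain ⟨hA1, hA2⟩ := (hS A).1 hA
    obtain ⟨hB1, hB2⟩ := (hS B).1 hB
    refine ⟨A ⊔ B, (hS _).2 ⟨inferInstance, ?_⟩, le_sup_left, le_sup_right⟩
    have h := hA2.supN hB1
    rw [bot_sup_eq] at h
    exact hB2.trans h
  have hmem : ∀ x, x ∈ sSup S ↔ ∃ N ∈ S, x ∈ N := fun x =>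
    Subgroup.mem_sSup_of_directedOn hne hdir
  refine ⟨sSup S, ?_, ?_, fun N h1 h2 => le_sSup ((hS N).2 ⟨h1, h2⟩)⟩
  · rw [Subgroup.characteristic_iff_le_comap]
    intro φ x hx
    obtain ⟨N, hN, hxN⟩ := (hmem x).1 hx
    obtain ⟨h1, h2⟩ := (hS N).1 hN
    rw [Subgroup.mem_comap, hmem]
    refine ⟨N.map φ.toMonoidHom, (hS _).2 ⟨h1.map _ φ.surjective, ?_⟩, Subgroup.mem_map_of_mem _ hxN⟩
    have h3 := h2.map φ.toMonoidHom
    rwa [Subgroup.map_bot] at h3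
  · intro x hx
    obtain ⟨N, hN, hxN⟩ := (hmem x).1 hx
    exact ((hS N).1 hN).2 x hxN

theorem target : S_core := by
  intro p G _ hp _
  have : Fact p.Prime := ⟨hp⟩
  refine ⟨?_, core_aux _ G⟩
  obtain ⟨Q, h1, h2, h3⟩ := core_aux {p} G
  exact ⟨Q, h1, isPGroup_of_PF h2, fun N hN hN2 => h3 N hN (PF_of_isPGroup hN2)⟩

end Pool.Agent.Helper867_Rae.Jobcore
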