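import Pool.Agent.Helper867_Rae.Base2
import Pool.Agent.Helper867_Rae.Stmts2

set_option autoImplicit false
set_option linter.style.haveILetI false

namespace Pool.Agent.Helper867_Rae.Jobfin

open Pool.Agent.TH62.PL Pool.Agent.Helper867_Rae

/-- the elements acting trivially on a finite invariant set form a subgroup of finite index -/
lemma fin_cent {Y Q : Type} [Group Y] [Group Q] (f : Y →* Q) (F : Set Q) (hF : F.Finite)
    (hinv : ∀ y, ∀ x ∈ F, f y * x * (f y)⁻¹ ∈ F) :
    ∃ K : Subgroup Y, K.FiniteIndex ∧ ∀ y ∈ K, ∀ x ∈ F, f y * x * (f y)⁻¹ = x := by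
  classical
  haveI : Finite F := hF
  letI act : MulAction Y F :=
    { smul := fun y x => ⟨f y * x * (f y)⁻¹, hinv y x x.2⟩
      one_smul := fun x => by
        apply Subtype.ext
        show f 1 * (x : Q) * (f 1)⁻¹ = x
        simp
      mul_smul := fun y z x => by
        apply Subtype.ext
        show f (y * z) * (x : Q) * (f (y * z))⁻¹ = f y * (f z * x * (f z)⁻¹) * (f y)⁻¹
        simp [mul_assoc] }
  refine ⟨(MulAction.toPermHom Y F).ker, inferInstance, ?_⟩
  intro y hy x hx
  rw [MonoidHom.mem_ker] at hy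
  have := congrArg (fun p => ((p ⟨x, hx⟩ : F) : Q)) hy
  exact this

lemma pow_torsion {Y : Type} [Group Y] (h : LF Y) (g : Y) : IsOfFinOrder g := by
  have h1 : Finite (Subgroup.zpowers g) := h _ ⟨{g}, by simp [Subgroup.zpowers_eq_closure]⟩
  exact isOfFinOrder_iff_zpow_eq_one.2 (by
    have := isOfFinOrder_of_finite (⟨g, Subgroup.mem_zpowers g⟩ : Subgroup.zpowers g)
    rw [isOfFinOrder_iff_zpow_eq_one] at this
    obtain ⟨n, hn, he⟩ := this
    refine ⟨n, hn, ?_⟩
    simpa using congrArg (Subgroup.subtype _) he)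

/-- an element of 2-power order with trivial odd power is trivial -/
lemma two_odd {G : Type} [Group G] {a : G} {i m : ℕ} (h1 : a ^ 2 ^ i = 1) (h2 : a ^ m = 1)
    (hm : Odd m) : a = 1 := by
  have h3 : orderOf a ∣ 2 ^ i := orderOf_dvd_of_pow_eq_one h1
  have h4 : orderOf a ∣ m := orderOf_dvd_of_pow_eq_one h2
  have h5 : Nat.Coprime (2 ^ i) m := (Nat.coprime_two_left.2 hm).pow_left i
  have h6 : orderOf a ∣ 1 := by
    rw [← Nat.Coprime.gcd_eq_one h5]; exact Nat.dvd_gcd h3 h4
  exact orderOf_eq_one_iff.1 (Nat.dvd_one.1 h6)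

/-- an element of 2-power order whose odd power is in `H` is in `H` -/
lemma two_odd_mem {G : Type} [Group G] (H : Subgroup G) {a : G} {i m : ℕ} (h1 : a ^ 2 ^ i = 1)
    (h2 : a ^ m ∈ H) (hm : Odd m) : a ∈ H := by
  have h3 : orderOf a ∣ 2 ^ i := orderOf_dvd_of_pow_eq_one h1
  have h5 : Nat.Coprime (2 ^ i) m := (Nat.coprime_two_left.2 hm).pow_left i
  have h6 : Nat.Coprime (orderOf a) m := Nat.Coprime.coprime_dvd_left h3 h5
  obtain ⟨k, hk⟩ := exists_pow_eq_self_of_coprime h6.symm
  rw [← hk]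
  exact H.pow_mem h2 k

lemma F2' (h : S_F2) {B : Type} [Group B] (hc : ∀ a b : B, a * b = b * a)
    (hp : ∀ a : B, ∃ k : ℕ, a ^ 2 ^ k = 1) (hf : {a : B | a * a = 1}.Finite) :
    ∃ n : ℕ, (∀ a : B, ∃ b : B, a ^ 2 ^ n = b ^ 2 ^ (n + 1)) ∧
      ∃ H : Subgroup B, H.FiniteIndex ∧ ∀ x, x ∈ H ↔ ∃ a, a ^ 2 ^ n = x := by
  letI : CommGroup B := { (inferInstance : Group B) with mul_comm := hc }
  have h1 : ∀ a : Additive B, ∃ k : ℕ, 2 ^ k • a = 0 := by
    intro a
    obtain ⟨k, hk⟩ := hp a.toMul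
    exact ⟨k, hk⟩
  have h2 : Finite {a : Additive B // 2 • a = 0} := by
    have h3 : Finite {a : B | a * a = 1} := hf
    refine Finite.of_injective (β := {a : B | a * a = 1})
      (fun a => ⟨a.1.toMul, ?_⟩) ?_
    · have := a.2
      rw [two_nsmul] at this
      exact this
    · intro a b hab
      apply Subtype.ext
      have := congrArg Subtype.val hab
      exact this
  obtain ⟨n, hn, hfin⟩ := (h (Additive B) h1 h2).2
  refine ⟨n, ?_, ?_⟩
  · intro a
    obtain ⟨b, hb⟩ := hn (Additive.ofMul a)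
    exact ⟨b.toMul, hb⟩
  · refine ⟨(powMonoidHom (α := B) (2 ^ n)).range, ?_, ?_⟩
    · have h4 : (AddMonoidHom.range (nsmulAddMonoidHom (α := Additive B) (2 ^ n))).index ≠ 0 := by
        have := hfin
        have h6 : (AddMonoidHom.range (nsmulAddMonoidHom (α := Additive B) (2 ^ n))).FiniteIndex :=
          AddSubgroup.finiteIndex_of_finite_quotient
        exact h6.index_ne_zero
      constructor
      intro h5
      apply h4
      have e : (AddMonoidHom.range (nsmulAddMonoidHom (α := Additive B) (2 ^ n))) =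
        Subgroup.toAddSubgroup (powMonoidHom (α := B) (2 ^ n)).range := by
        ext x
        rfl
      rw [e, ← h5]
      rfl
    · intro x
      rfl

lemma F1' (h : S_F1) {B : Type} [Group B] (hc : ∀ a b : B, a * b = b * a)
    (hp : ∀ a : B, ∃ k : ℕ, a ^ 2 ^ k = 1) (hf : {a : B | a * a = 1}.Finite) :
    ∃ N : ℕ, {a : B | a ^ 2 ^ N = 1}.Finite ∧
      ∀ g : B ≃* B, (∃ m : ℕ, 0 < m ∧ ∀ a, (g^[m]) a = a) →
        (∀ a, a ^ 2 ^ N = 1 → g a = a) → ∀ a, g a = a := by
  letI : CommGroup B := { (inferInstance : Group B) with mul_comm := hc }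
  have h1 : ∀ a : Additive B, ∃ k : ℕ, 2 ^ k • a = 0 := by
    intro a
    obtain ⟨k, hk⟩ := hp a.toMul
    exact ⟨k, hk⟩
  have h2 : Finite {a : Additive B // 2 • a = 0} := by
    have h3 : Finite {a : B | a * a = 1} := hf
    refine Finite.of_injective (β := {a : B | a * a = 1})
      (fun a => ⟨a.1.toMul, ?_⟩) ?_
    · have := a.2
      rw [two_nsmul] at this
      exact this
    · intro a b hab
      apply Subtype.ext
      have := congrArg Subtype.val hab
      exact this
  obtain ⟨N, hN, hg⟩ := h (Additive B) h1 h2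
  refine ⟨N, ?_, ?_⟩
  · exact hN
  · intro g hm ht a
    exact hg (MulEquiv.toAdditive g) hm ht a

theorem target : S_ch → S_F1 → S_F2 → S_fin := by
  intro hch hF1 hF2 Y _ hLF D hDn hDp hDmax hDc hDE
  -- step 1
  have hDord : ∀ d ∈ D, ∃ k : ℕ, d ^ 2 ^ k = 1 := by
    intro d hd
    obtain ⟨k, hk⟩ := hDp ⟨d, hd⟩
    exact ⟨k, by simpa using congrArg (Subgroup.subtype _) hk⟩
  obtain ⟨A, hA, hAi, hAc⟩ := (hch D (by
    intro H hH
    have h1 : (H.map D.subtype).FG := by
      obtain ⟨S, hS⟩ := hH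
      classical
      refine ⟨S.image D.subtype, ?_⟩
      rw [Finset.coe_image, ← MonoidHom.map_closure, hS]
    have h2 : Finite (H.map D.subtype) := hLF _ h1
    exact (H.equivMapOfInjective D.subtype D.subtype_injective).toEquiv.finite_iff.2 h2) (by
    rw [IsPGroup]
    rintro ⟨d, -⟩
    obtain ⟨k, hk⟩ := hDp d
    exact ⟨k, Subtype.ext hk⟩) (by
    intro E hE
    have h2 : Finite (E.map D.subtype) := hDE (E.map D.subtype) (by
      rintro _ ⟨x, -, rfl⟩
      exact x.2) (by
      rintro _ ⟨x, hx, rfl⟩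
      rw [← map_mul, hE x hx, map_one])
    exact (E.equivMapOfInjective D.subtype D.subtype_injective).toEquiv.finite_iff.2 h2)).1
  -- involutions of A
  have hAord : ∀ a : A, ∃ k : ℕ, a ^ 2 ^ k = 1 := by
    intro a
    obtain ⟨k, hk⟩ := hDord (a : D) (a : D).2
    exact ⟨k, by apply Subtype.ext; apply Subtype.ext; simpa using hk⟩
  -- general finiteness of involutions in commutative subgroups of D
  have hinvo : ∀ B : Subgroup Y, B ≤ D → (∀ a ∈ B, ∀ b ∈ B, a * b = b * a) →
      {a : B | a * a = 1}.Finite := by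
    intro B hBD hBc
    let E : Subgroup Y :=
      { carrier := {x | x ∈ B ∧ x * x = 1}
        mul_mem' := by
          rintro a b ⟨ha, ha'⟩ ⟨hb, hb'⟩
          refine ⟨B.mul_mem ha hb, ?_⟩
          calc a * b * (a * b) = a * (b * a) * b := by group
            _ = a * (a * b) * b := by rw [hBc b hb a ha]
            _ = (a * a) * (b * b) := by group
            _ = 1 := by rw [ha', hb', one_mul]
        one_mem' := ⟨B.one_mem, by simp⟩
        inv_mem' := by
          rintro a ⟨ha, ha'⟩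
          refine ⟨B.inv_mem ha, ?_⟩
          rw [← mul_inv_rev, ha', inv_one] }
    have h1 : Finite E := hDE E (fun x hx => hBD hx.1) (fun x hx => hx.2)
    have h2 : Finite {a : B | a * a = 1} := by
      refine Finite.of_injective (β := E)
        (fun a => ⟨(a.1 : Y), a.1.2, ?_⟩) ?_
      · have := congrArg (Subgroup.subtype _) a.2
        simpa using this
      · intro a b hab
        apply Subtype.ext
        apply Subtype.ext
        exact congrArg (fun x : E => (x : Y)) hab
    exact h2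
  -- A as a subgroup of Y
  let A' : Subgroup Y := A.map D.subtype
  have hA'D : A' ≤ D := by
    rintro _ ⟨x, -, rfl⟩
    exact x.2
  have hA'c : ∀ a ∈ A', ∀ b ∈ A', a * b = b * a := by
    rintro _ ⟨x, hx, rfl⟩ _ ⟨y, hy, rfl⟩
    rw [← map_mul, hAc x hx y hy, map_mul]
  have hA'i : A'.relIndex D ≠ 0 := by
    have : A'.subgroupOf D = A := by
      ext x
      simp [A', Subgroup.mem_subgroupOf]
    rw [Subgroup.relIndex, this]
    exact hAi.index_ne_zero
  obtain ⟨n, hdiv, H, hHi, hH⟩ := F2' hF2 (B := A')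
    (fun a b => Subtype.ext (hA'c a a.2 b b.2)) (fun a => by
      obtain ⟨k, hk⟩ := hDord a (hA'D a.2)
      exact ⟨k, Subtype.ext (by simpa using hk)⟩) (hinvo A' hA'D hA'c)
  let A0 : Subgroup Y := H.map A'.subtype
  have hA0A : A0 ≤ A' := by
    rintro _ ⟨x, -, rfl⟩
    exact x.2
  have hA0c : ∀ a ∈ A0, ∀ b ∈ A0, a * b = b * a := fun a ha b hb => hA'c a (hA0A ha) b (hA0A hb)
  have hA0D : A0 ≤ D := hA0A.trans hA'D
  have hA0i : A0.relIndex D ≠ 0 := by
    have h1 : A0.relIndex A' ≠ 0 := by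
      have : A0.subgroupOf A' = H := by
        ext x
        simp [A0, Subgroup.mem_subgroupOf]
      rw [Subgroup.relIndex, this]
      exact hHi.index_ne_zero
    rw [← Subgroup.relIndex_mul_relIndex A0 A' D hA0A hA'D]
    exact mul_ne_zero h1 hA'i
  -- divisibility
  have hA0div : ∀ x ∈ A0, ∃ z ∈ A0, z ^ 2 = x := by
    rintro _ ⟨x, hx, rfl⟩
    obtain ⟨a, rfl⟩ := (hH x).1 hx
    obtain ⟨b, hb⟩ := hdiv a
    refine ⟨A'.subtype (b ^ 2 ^ n), ⟨b ^ 2 ^ n, (hH _).2 ⟨b, rfl⟩, rfl⟩, ?_⟩
    rw [hb, ← map_pow, ← pow_mul, ← pow_succ]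
  have hA0div' : ∀ k : ℕ, ∀ x ∈ A0, ∃ z ∈ A0, z ^ 2 ^ k = x := by
    intro k
    induction k with
    | zero => intro x hx; exact ⟨x, hx, by simp⟩
    | succ k ih =>
      intro x hx
      obtain ⟨z, hz, rfl⟩ := hA0div x hx
      obtain ⟨w, hw, rfl⟩ := ih z hz
      exact ⟨w, hw, by rw [← pow_mul, pow_succ]⟩
  -- A0 is contained in every subgroup of finite index in D
  have hA0le : ∀ L : Subgroup Y, L.relIndex D ≠ 0 → A0 ≤ L := by
    intro L hL x hx
    have h1 : L.relIndex A0 ≠ 0 := fun h0 =>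
      hL (Subgroup.relIndex_eq_zero_of_le_right hA0D h0)
    have h2 : (L.subgroupOf A0).Normal := by
      constructor
      intro a ha b
      have : b * a * b⁻¹ = a := by
        rw [show b * a = a * b from Subtype.ext (hA0c b b.2 a a.2)]
        group
      rw [this]
      exact ha
    obtain ⟨k, r, hr, hkr⟩ := Nat.exists_eq_two_pow_mul_odd h1
    obtain ⟨z, hz, hzx⟩ := hA0div' k x hx
    have h3 : z ^ (L.relIndex A0) ∈ L := by
      have := Subgroup.pow_index_mem (L.subgroupOf A0) (⟨z, hz⟩ : A0)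
      rw [Subgroup.mem_subgroupOf] at this
      exact this
    obtain ⟨i, hi⟩ := hDord x (hA0D hx)
    refine two_odd_mem L hi (m := r) ?_ hr
    rw [← hzx, ← pow_mul, ← hkr]
    exact h3
  have hA0n : A0.Normal := by
    constructor
    intro x hx y
    have h1 : (A0.comap (MulAut.conj y).toMonoidHom).relIndex D ≠ 0 := by
      rw [Subgroup.relIndex_comap]
      have : D.map (MulAut.conj y).toMonoidHom = D := by
        ext d
        simp only [Subgroup.mem_map, MulEquiv.coe_toMonoidHom, MulAut.conj_apply]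
        constructor
        · rintro ⟨e, he, rfl⟩
          exact hDn.conj_mem e he y
        · intro hd
          refine ⟨y⁻¹ * d * y, ?_, by group⟩
          simpa using hDn.conj_mem d hd y⁻¹
      rw [this]
      exact hA0i
    have h2 := hA0le _ h1 hx
    simpa [Subgroup.mem_comap] using h2
  -- centraliser of A0
  obtain ⟨N, hNf, hN⟩ := F1' hF1 (B := A0)
    (fun a b => Subtype.ext (hA0c a a.2 b b.2)) (fun a => by
      obtain ⟨k, hk⟩ := hDord a (hA0D a.2)
      exact ⟨k, Subtype.ext (by simpa using hk)⟩) (hinvo A0 hA0D hA0c)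
  obtain ⟨K1, hK1i, hK1⟩ := fin_cent (MonoidHom.id Y) {x : Y | x ∈ A0 ∧ x ^ 2 ^ N = 1} (by
    refine (hNf.image (Subgroup.subtype A0)).subset ?_
    rintro x ⟨hx, hx'⟩
    exact ⟨⟨x, hx⟩, Subtype.ext (by simpa using hx'), rfl⟩) (by
    rintro y x ⟨hx, hx'⟩
    refine ⟨hA0n.conj_mem x hx y, ?_⟩
    simp only [MonoidHom.id_apply]
    rw [conj_pow, hx']
    simp)
  have hK1' : ∀ y ∈ K1, ∀ a ∈ A0, y * a = a * y := by
    intro y hy a ha
    have hiter : ∀ (m : ℕ) (b : A0),
        (((MulAut.conjNormal y : MulAut A0) : A0 ≃* A0)^[m]) b =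
          (MulAut.conjNormal (y ^ m) : MulAut A0) b := by
      intro m
      induction m with
      | zero => intro b; simp
      | succ m ih =>
        intro b
        rw [Function.iterate_succ_apply', ih b, pow_succ' y m, map_mul]
        rfl
    obtain ⟨m, hm, hym⟩ := isOfFinOrder_iff_pow_eq_one.1 (pow_torsion hLF y)
    have h1 := hN (MulAut.conjNormal y : MulAut A0) ⟨m, hm, fun b => by
      rw [hiter, hym]; simp⟩ (by
      intro b hb
      apply Subtype.ext
      rw [MulAut.conjNormal_apply]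
      exact hK1 y hy b ⟨b.2, by simpa using congrArg (Subgroup.subtype A0) hb⟩) ⟨a, ha⟩
    have h2 := congrArg (Subgroup.subtype A0) h1
    simp only [Subgroup.subtype_apply, MulAut.conjNormal_apply] at h2
    calc y * a = (y * a * y⁻¹) * y := by group
      _ = a * y := by rw [h2]
  -- action on D/A0
  obtain ⟨K2, hK2i, hK2⟩ := fin_cent (QuotientGroup.mk' A0) (D.map (QuotientGroup.mk' A0)) (by
    have h1 : (A0.subgroupOf D).FiniteIndex := ⟨hA0i⟩
    have h2 : Finite (D ⧸ A0.subgroupOf D) := Subgroup.finite_quotient_of_finiteIndex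
    have h3 : ((QuotientGroup.mk' A0).comp D.subtype).range = D.map (QuotientGroup.mk' A0) := by
      rw [MonoidHom.range_comp, Subgroup.range_subtype]
    rw [← h3]
    have h4 : A0.subgroupOf D ≤ ((QuotientGroup.mk' A0).comp D.subtype).ker := by
      intro x hx
      rw [MonoidHom.mem_ker]
      simpa [Subgroup.mem_subgroupOf] using hx
    have h5 := (QuotientGroup.lift (A0.subgroupOf D) ((QuotientGroup.mk' A0).comp D.subtype)
      h4)
    refine (Set.finite_range (QuotientGroup.lift (A0.subgroupOf D)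
      ((QuotientGroup.mk' A0).comp D.subtype) h4)).subset ?_
    rintro _ ⟨d, rfl⟩
    exact ⟨QuotientGroup.mk d, rfl⟩) (by
    rintro y _ ⟨d, hd, rfl⟩
    refine ⟨y * d * y⁻¹, hDn.conj_mem d hd y, ?_⟩
    simp)
  have hK2' : ∀ y ∈ K2, ∀ d ∈ D, d⁻¹ * (y * d * y⁻¹) ∈ A0 := by
    intro y hy d hd
    have h1 := hK2 y hy (QuotientGroup.mk' A0 d) ⟨d, hd, rfl⟩
    rw [← map_inv, ← map_mul, ← map_mul] at h1
    have h2 := QuotientGroup.eq.1 h1.symm
    exact h2
  -- the final step
  have hKi : (K1 ⊓ K2).FiniteIndex := inferInstance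
  have hK2g : IsPGroup 2 (K1 ⊓ K2).normalCore := by
    rintro ⟨g, hg⟩
    obtain ⟨m, hm, hgm⟩ := isOfFinOrder_iff_pow_eq_one.1 (pow_torsion hLF g)
    obtain ⟨k, r, hr, hkr⟩ := Nat.exists_eq_two_pow_mul_odd hm.ne'
    refine ⟨k, ?_⟩
    apply Subtype.ext
    simp only [SubmonoidClass.mk_pow, OneMemClass.coe_one]
    set h := g ^ 2 ^ k with hh
    have hhK : h ∈ K1 ⊓ K2 := Subgroup.normalCore_le _ (Subgroup.pow_mem _ hg _)
    have hhr : h ^ r = 1 := by rw [hh, ← pow_mul, ← hkr, hgm]
    have hhD : h ∈ D := by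
      apply hDc
      intro d hd
      have ha := hK2' h hhK.2 d hd
      set a := d⁻¹ * (h * d * h⁻¹) with hadef
      have hda : h * d * h⁻¹ = d * a := by rw [hadef]; group
      have hj : ∀ j : ℕ, h ^ j * d * (h ^ j)⁻¹ = d * a ^ j := by
        intro j
        induction j with
        | zero => simp
        | succ j ih =>
          have hca : h * a ^ j = a ^ j * h := hK1' h hhK.1 _ (A0.pow_mem ha j)
          calc h ^ (j + 1) * d * (h ^ (j + 1))⁻¹
              = h * (h ^ j * d * (h ^ j)⁻¹) * h⁻¹ := by rw [pow_succ' h j]; group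
            _ = h * (d * a ^ j) * h⁻¹ := by rw [ih]
            _ = h * d * h⁻¹ * (h * a ^ j) * h⁻¹ := by group
            _ = h * d * h⁻¹ * a ^ j := by rw [hca]; group
            _ = d * a ^ (j + 1) := by rw [hda, pow_succ' a j]; group
      have h1 := hj r
      rw [hhr] at h1
      have h2 : a ^ r = 1 := by
        have : d = d * a ^ r := by simpa using h1
        exact (mul_eq_left.1 this.symm)
      obtain ⟨i, hi⟩ := hDord a (hA0D ha)
      have h3 : a = 1 := two_odd hi h2 hr
      rw [h3, mul_one] at hda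
      calc h * d = h * d * h⁻¹ * h := by group
        _ = d * h := by rw [hda]
    obtain ⟨i, hi⟩ := hDord h hhD
    exact two_odd hi hhr hr
  have h1 : (K1 ⊓ K2).normalCore ≤ D := hDmax _ inferInstance hK2g
  exact Subgroup.finiteIndex_of_le h1

end Pool.Agent.Helper867_Rae.Jobfin
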