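import Pool.Agent.Helper867_Rae.Base2
import Pool.Agent.Helper867_Rae.Stmts2

set_option autoImplicit false

namespace Pool.Agent.Helper867_Rae.Jobfix

open Pool.Agent.TH62.PL Pool.Agent.Helper867_Rae

section
variable {G : Type} [Group G]

lemma disj {V : Subgroup G} (hVp : PF {2}ᶜ ⊥ V) {P : Subgroup G} (hP : IsPGroup 2 P) {x : G}
    (hx : x ∈ P) (hxV : x ∈ V) : x = 1 := by
  obtain ⟨k, hk⟩ := hP ⟨x, hx⟩
  have hk' : x ^ 2 ^ k = 1 := by
    have := congrArg Subtype.val hk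
    simpa using this
  obtain ⟨m, hm, hm'⟩ := hVp x hxV
  rw [Subgroup.mem_bot] at hm'
  have hodd : Nat.Coprime (2 ^ k) m := by
    apply Nat.Coprime.pow_left
    rw [Nat.Prime.coprime_iff_not_dvd Nat.prime_two]
    intro hd
    exact hm.2 2 Nat.prime_two hd rfl
  have h1 := Nat.dvd_gcd (orderOf_dvd_of_pow_eq_one hk') (orderOf_dvd_of_pow_eq_one hm')
  rw [hodd] at h1
  exact orderOf_eq_one_iff.1 (Nat.dvd_one.1 h1)

lemma mem_sup' {V : Subgroup G} (hV : V.Normal) {P : Subgroup G} {x : G} (hx : x ∈ V ⊔ P) :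
    ∃ v ∈ V, ∃ f ∈ P, v * f = x := Subgroup.mem_sup_of_normal_left.1 hx

/-- `P` finite 2-group, `Y` finite, `P ≤ Y ≤ V P`: then `P` is a Sylow 2-subgroup of `Y` -/
lemma syl {V : Subgroup G} (hV : V.Normal) (hVp : PF {2}ᶜ ⊥ V) {P Y : Subgroup G}
    (hP : IsPGroup 2 P) (hPY : P ≤ Y) (hY : Y ≤ V ⊔ P) :
    ∃ Q : Sylow 2 Y, (Q : Subgroup Y) = P.subgroupOf Y := by
  obtain ⟨Q, hQ⟩ := (hP.comap_subtype (K := Y)).exists_le_sylow
  refine ⟨Q, le_antisymm ?_ hQ⟩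
  intro x hx
  rw [Subgroup.mem_subgroupOf]
  obtain ⟨v, hv, f, hf, hvf⟩ := mem_sup' hV (hY x.2)
  have hfY : (⟨f, hPY hf⟩ : Y) ∈ (Q : Subgroup Y) := hQ hf
  have h1 : x * (⟨f, hPY hf⟩ : Y)⁻¹ ∈ (Q : Subgroup Y) :=
    (Q : Subgroup Y).mul_mem hx ((Q : Subgroup Y).inv_mem hfY)
  have h2 : v ∈ (Q : Subgroup Y).map Y.subtype := by
    refine ⟨_, h1, ?_⟩
    simp [← hvf]
  have h3 : v = 1 := disj hVp (Q.2.map Y.subtype) h2 hv
  rw [← hvf, h3, one_mul]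
  exact hf

end

theorem target : S_fix := by
  intro G _ hLF hU V T hV hVp hT
  obtain ⟨F1, hF1H, hF1f, hF1p, S1, hS1H, hS1p, hS1⟩ := hU (V ⊔ T)
  set F : Subgroup G := T ⊓ (V ⊔ F1) with hF
  have hFT : F ≤ T := inf_le_left
  have hFp : IsPGroup 2 F := hT.to_le hFT
  have hFfin : Finite F := by
    have h1 : ∀ x : F, ∃ f : F1, (x : G) * (f : G)⁻¹ ∈ V := by
      rintro ⟨x, hxT, hx⟩
      obtain ⟨v, hv, f, hf, rfl⟩ := mem_sup' hV hx
      exact ⟨⟨f, hf⟩, by simpa using hv⟩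
    choose φ hφ using h1
    refine Finite.of_injective φ ?_
    intro x y hxy
    have h2 := V.mul_mem (hφ x) (V.inv_mem (hφ y))
    rw [hxy] at h2
    have h3 : (x : G) * (y : G)⁻¹ ∈ V := by
      have : (x : G) * (y : G)⁻¹ = x * ((φ y : G))⁻¹ * ((y : G) * (φ y : G)⁻¹)⁻¹ := by group
      rw [this]; exact h2
    have h4 := disj hVp hT (T.mul_mem x.2.1 (T.inv_mem y.2.1)) h3
    exact Subtype.ext (mul_inv_eq_one.1 h4)
  have hFF1 : F ≤ V ⊔ F1 := inf_le_right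
  have hF1F : F1 ≤ V ⊔ F := by
    intro f hf
    obtain ⟨v, hv, t, ht, hvt⟩ := mem_sup' hV (hF1H hf)
    have h1 : t ∈ F := by
      refine ⟨ht, ?_⟩
      have h2 : t = v⁻¹ * f := by rw [← hvt]; group
      rw [h2]
      exact Subgroup.mul_mem _ (Subgroup.mem_sup_left (V.inv_mem hv)) (Subgroup.mem_sup_right hf)
    rw [← hvt]
    exact Subgroup.mul_mem _ (Subgroup.mem_sup_left hv) (Subgroup.mem_sup_right h1)
  set Y : Subgroup G := F ⊔ F1 with hY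
  have hYfin : Finite Y := by
    apply hLF
    have hfg : ∀ W : Subgroup G, Finite W → W.FG := fun W hW =>
      (Subgroup.fg_iff W).2 ⟨(W : Set G), Subgroup.closure_eq W, Set.toFinite _⟩
    exact Subgroup.FG.sup (hfg F hFfin) (hfg F1 hF1f)
  obtain ⟨Q, hQ⟩ := syl hV hVp hFp (le_sup_left : F ≤ Y) (sup_le le_sup_right hF1F)
  obtain ⟨Q1, hQ1⟩ := syl hV hVp hF1p (le_sup_right : F1 ≤ Y) (sup_le hFF1 le_sup_right)
  obtain ⟨y, hy⟩ := MulAction.exists_smul_eq Y Q1 Q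
  -- conjugation by `y` takes `F1` to `F`
  have hconj : ∀ x ∈ F1, (y : G) * x * (y : G)⁻¹ ∈ F := by
    intro x hx
    have h1 : (⟨x, (le_sup_right : F1 ≤ Y) hx⟩ : Y) ∈ (Q1 : Subgroup Y) := by
      rw [hQ1]; exact hx
    have h2 : y * (⟨x, (le_sup_right : F1 ≤ Y) hx⟩ : Y) * y⁻¹ ∈ (Q : Subgroup Y) := by
      rw [← hy]
      exact ⟨_, h1, by simp⟩
    rw [hQ] at h2
    exact h2
  have hYH : Y ≤ V ⊔ T := sup_le (hFT.trans le_sup_right) hF1H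
  have hyH : (y : G) ∈ V ⊔ T := hYH y.2
  -- the largest one above `F`
  have hmax : ∀ T' : Subgroup G, T' ≤ V ⊔ T → IsPGroup 2 T' → F ≤ T' →
      T' ≤ S1.map (MulAut.conj (y : G)).toMonoidHom := by
    intro T' h1 h2 h3
    have h4 : T'.map (MulAut.conj (y : G)⁻¹).toMonoidHom ≤ S1 := by
      refine hS1 _ ?_ (h2.map _) ?_
      · rintro _ ⟨x, hx, rfl⟩
        have : (y : G)⁻¹ * x * (y : G) ∈ V ⊔ T :=
          Subgroup.mul_mem _ (Subgroup.mul_mem _ (Subgroup.inv_mem _ hyH) (h1 hx)) hyH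
        simpa using this
      · intro x hx
        exact ⟨(y : G) * x * (y : G)⁻¹, h3 (hconj x hx), by simp [mul_assoc]⟩
    intro x hx
    exact ⟨(y : G)⁻¹ * x * y, h4 ⟨x, hx, by simp⟩, by simp [mul_assoc]⟩
  set S := S1.map (MulAut.conj (y : G)).toMonoidHom with hS
  have hSp : IsPGroup 2 S := hS1p.map _
  have hTS : T ≤ S := hmax T le_sup_right hT hFT
  have hSH : S ≤ V ⊔ T := by
    rintro _ ⟨x, hx, rfl⟩
    have : (y : G) * x * (y : G)⁻¹ ∈ V ⊔ T :=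
      Subgroup.mul_mem _ (Subgroup.mul_mem _ hyH (hS1H hx)) (Subgroup.inv_mem _ hyH)
    simpa using this
  refine ⟨F, hFT, hFfin, ?_⟩
  intro v hv hvF t ht
  have hvH : v ∈ V ⊔ T := Subgroup.mem_sup_left hv
  have h1 : S.map (MulAut.conj v).toMonoidHom ≤ S := by
    refine hmax _ ?_ (hSp.map _) ?_
    · rintro _ ⟨x, hx, rfl⟩
      have : v * x * v⁻¹ ∈ V ⊔ T :=
        Subgroup.mul_mem _ (Subgroup.mul_mem _ hvH (hSH hx)) (Subgroup.inv_mem _ hvH)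
      simpa using this
    · intro x hx
      refine ⟨x, hTS (hFT hx), ?_⟩
      change v * x * v⁻¹ = x
      rw [← hvF x hx]; group
  have h2 : v * t * v⁻¹ ∈ S := h1 ⟨t, hTS ht, rfl⟩
  have h3 : v * t * v⁻¹ * t⁻¹ ∈ S := S.mul_mem h2 (S.inv_mem (hTS ht))
  have h4 : v * t * v⁻¹ * t⁻¹ ∈ V := by
    have : v * t * v⁻¹ * t⁻¹ = v * (t * v⁻¹ * t⁻¹) := by group
    rw [this]
    exact V.mul_mem hv (hV.conj_mem _ (V.inv_mem hv) t)
  have h5 := disj hVp hSp h3 h4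
  have h6 : v * t = (v * t * v⁻¹ * t⁻¹) * (t * v) := by group
  rw [h5, one_mul] at h6
  exact h6.symm

end Pool.Agent.Helper867_Rae.Jobfix
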