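import Pool.Agent.Helper867_Rae.Base2
import Pool.Agent.Helper867_Rae.Stmts2

set_option autoImplicit false

namespace Pool.Agent.Helper867_Rae.Jobfour

open Pool.Agent.TH62.PL Pool.Agent.Helper867_Rae

theorem sq_inj {V : Type} [Group V] (hV : ∀ v : V, ∃ m, Odd m ∧ v ^ m = 1) {x y : V}
    (h : x * x = y * y) : x = y := by
  obtain ⟨m, hm, h1⟩ := hV x
  obtain ⟨n, hn, h2⟩ := hV y
  obtain ⟨k, hk⟩ := hm.mul hn
  have hx : x ^ (m * n) = 1 := by rw [pow_mul, h1, one_pow]
  have hy : y ^ (m * n) = 1 := by rw [mul_comm, pow_mul, h2, one_pow]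
  have key : ∀ z : V, z ^ (m * n) = 1 → z = (z * z) ^ (k + 1) := by
    intro z hz
    have : (z * z) ^ (k + 1) = z ^ (m * n) * z := by
      rw [← pow_two, ← pow_mul, ← pow_succ, hk]
      congr 1
    rw [this, hz, one_mul]
  rw [key x hx, key y hy, h]

theorem sq_ex {V : Type} [Group V] (hV : ∀ v : V, ∃ m, Odd m ∧ v ^ m = 1) (v : V) :
    ∃ s : V, s * s = v := by
  obtain ⟨m, ⟨k, hk⟩, h1⟩ := hV v
  refine ⟨v ^ (k + 1), ?_⟩
  rw [← pow_add]
  have : k + 1 + (k + 1) = m + 1 := by omega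
  rw [this, pow_succ, h1, one_mul]

theorem target : S_four := by
  intro V _ hV a b ha hb hab W hWa hWb hWab
  have inj : ∀ {x y : V}, x * x = y * y → x = y := fun h => sq_inj hV h
  -- elements inverted by `a`
  have hB : ∀ u : V, a u = u⁻¹ → u ∈ W := by
    intro u hu
    obtain ⟨c, hc⟩ := sq_ex hV (u * b u)
    have hab' : a (b u) = (b u)⁻¹ := by rw [hab, hu, map_inv]
    have hbc : b c = b u * c * (b u)⁻¹ := by
      apply inj
      rw [← map_mul, hc, map_mul, hb]
      have : b u * c * (b u)⁻¹ * (b u * c * (b u)⁻¹) = b u * (c * c) * (b u)⁻¹ := by group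
      rw [this, hc]
      group
    have hac : a c = b u * c⁻¹ * (b u)⁻¹ := by
      apply inj
      rw [← map_mul, hc, map_mul, hu, hab']
      have : b u * c⁻¹ * (b u)⁻¹ * (b u * c⁻¹ * (b u)⁻¹) = b u * (c * c)⁻¹ * (b u)⁻¹ := by group
      rw [this, hc]
      group
    obtain ⟨n, hn⟩ := sq_ex hV (c * (b u)⁻¹)
    have hbs : b (c * (b u)⁻¹) = (c * (b u)⁻¹)⁻¹ := by
      rw [map_mul, map_inv, hb, hbc]
      have : b u * c * (b u)⁻¹ * u⁻¹ = b u * c * (u * b u)⁻¹ := by group
      rw [this, ← hc]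
      group
    have has : a (c * (b u)⁻¹) = (c * (b u)⁻¹)⁻¹ := by
      rw [map_mul, map_inv, hab', hac]
      group
    have hbn : b n = n⁻¹ := by
      apply inj
      rw [← map_mul, hn, hbs, ← hn]
      group
    have han : a n = n⁻¹ := by
      apply inj
      rw [← map_mul, hn, has, ← hn]
      group
    have hnW : n ∈ W := hWab n (by rw [hbn, map_inv, han, inv_inv])
    have hsu : u = (n * n) * b u * (n * n) := by
      rw [hn]
      have : c * (b u)⁻¹ * b u * (c * (b u)⁻¹) = c * c * (b u)⁻¹ := by group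
      rw [this, hc]
      group
    have hm : n⁻¹ * u * n⁻¹ = n * b u * n := by
      conv_lhs => rw [hsu]
      group
    have hmW : n * b u * n ∈ W := by
      apply hWb
      rw [map_mul, map_mul, hb, hbn]
      exact hm
    have hu2 : u = n * (n * b u * n) * n := by
      conv_lhs => rw [hsu]
      group
    rw [hu2]
    exact W.mul_mem (W.mul_mem hnW hmW) hnW
  rw [eq_top_iff]
  intro w _
  obtain ⟨u, hu⟩ := sq_ex hV (w⁻¹ * a w)
  have hau : a u = u⁻¹ := by
    apply inj
    rw [← map_mul, hu, map_mul, map_inv, ha]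
    have : u⁻¹ * u⁻¹ = (u * u)⁻¹ := by group
    rw [this, hu]
    group
  have h1 : w * u ∈ W := by
    apply hWa
    rw [map_mul, hau]
    have : a w = w * (u * u) := by rw [hu]; group
    rw [this]
    group
  have h2 : w = w * u * u⁻¹ := by group
  rw [h2]
  exact W.mul_mem h1 (W.inv_mem (hB u hau))

end Pool.Agent.Helper867_Rae.Jobfour
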