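import Pool.Agent.Helper867_Rae.Base2
import Pool.Agent.Helper867_Rae.Stmts2

set_option autoImplicit false

namespace Pool.Agent.Helper867_Rae.Jobloc

open Pool.Agent.TH62.PL Pool.Agent.Helper867_Rae Filter

lemma PN_one_loc (σ : Set ℕ) : PN σ 1 :=
  ⟨one_ne_zero, fun p hp h => absurd (Nat.dvd_one.1 h) hp.one_lt.ne'⟩

lemma PN_mul_loc {σ : Set ℕ} {a b : ℕ} (ha : PN σ a) (hb : PN σ b) : PN σ (a * b) :=
  ⟨mul_ne_zero ha.1 hb.1, fun p hp h => (hp.dvd_mul.1 h).elim (ha.2 p hp) (hb.2 p hp)⟩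

lemma PN_dvd_loc {σ : Set ℕ} {a b : ℕ} (h : a ∣ b) (hb : PN σ b) : PN σ a :=
  ⟨fun h0 => hb.1 (by rw [h0] at h; exact Nat.eq_zero_of_zero_dvd h),
    fun p hp hd => hb.2 p hp (hd.trans h)⟩

lemma exists_part_loc (σ : Set ℕ) {o : ℕ} (ho : o ≠ 0) :
    ∃ m, PN σ m ∧ ∀ k, PN σ k → Nat.gcd k o ∣ m := by
  classical
  refine ⟨∏ d ∈ o.divisors.filter (fun d => PN σ d), d, ?_, ?_⟩
  · have h : ∀ s : Finset ℕ, (∀ d ∈ s, PN σ d) → PN σ (∏ d ∈ s, d) := by
      intro s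
      induction s using Finset.induction_on with
      | empty => intro _; simpa using PN_one_loc σ
      | insert a s ha ih =>
        intro h
        rw [Finset.prod_insert ha]
        exact PN_mul_loc (h a (Finset.mem_insert_self a s))
          (ih fun d hd => h d (Finset.mem_insert_of_mem hd))
    exact h _ fun d hd => (Finset.mem_filter.1 hd).2
  · intro k hk
    apply Finset.dvd_prod_of_mem (fun d => d)
    rw [Finset.mem_filter, Nat.mem_divisors]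
    exact ⟨⟨Nat.gcd_dvd_right k o, ho⟩, PN_dvd_loc (Nat.gcd_dvd_left k o) hk⟩

lemma pow_gcd_mem_loc {X : Type} [Group X] (H : Subgroup X) {g : X} {k o : ℕ} (hk : g ^ k ∈ H)
    (ho : g ^ o = 1) : g ^ Nat.gcd k o ∈ H := by
  have e : g ^ Nat.gcd k o = (g ^ k) ^ (Nat.gcdA k o) := by
    have h1 : (g : X) ^ ((Nat.gcd k o : ℕ) : ℤ) = g ^ ((k : ℤ) * Nat.gcdA k o + o * Nat.gcdB k o) := by
      rw [← Nat.gcd_eq_gcd_ab]
    rw [zpow_natCast] at h1
    rw [h1, zpow_add, zpow_mul, zpow_mul, zpow_natCast, zpow_natCast, ho, one_zpow, mul_one]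
  rw [e]
  exact H.zpow_mem hk _

section
variable {G : Type} [Group G] {ι : Type}

/-- limit of subgroups -/
def lim (U : Filter ι) (X : ι → Subgroup G) (N : ∀ i, Subgroup (X i)) : Subgroup G where
  carrier := {g | ∀ᶠ i in U, ∃ h : g ∈ X i, (⟨g, h⟩ : X i) ∈ N i}
  one_mem' := Filter.Eventually.of_forall fun i => ⟨(X i).one_mem, (N i).one_mem⟩
  mul_mem' := by
    intro a b ha hb
    filter_upwards [ha, hb] with i h1 h2
    obtain ⟨h1, h1'⟩ := h1
    obtain ⟨h2, h2'⟩ := h2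
    exact ⟨(X i).mul_mem h1 h2, (N i).mul_mem h1' h2'⟩
  inv_mem' := by
    intro a ha
    filter_upwards [ha] with i h1
    obtain ⟨h1, h1'⟩ := h1
    exact ⟨(X i).inv_mem h1, (N i).inv_mem h1'⟩

lemma mem_lim {U : Filter ι} {X : ι → Subgroup G} {N : ∀ i, Subgroup (X i)} {g : G} :
    g ∈ lim U X N ↔ ∀ᶠ i in U, ∃ h : g ∈ X i, (⟨g, h⟩ : X i) ∈ N i := Iff.rfl

lemma lim_mono {U : Filter ι} {X : ι → Subgroup G} {M N : ∀ i, Subgroup (X i)}
    (h : ∀ i, M i ≤ N i) : lim U X M ≤ lim U X N := by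
  intro g hg
  rw [mem_lim] at hg ⊢
  filter_upwards [hg] with i h1
  obtain ⟨h1, h1'⟩ := h1
  exact ⟨h1, h i h1'⟩

lemma lim_normal {U : Filter ι} {X : ι → Subgroup G} (hX : ∀ g : G, ∀ᶠ i in U, g ∈ X i)
    {N : ∀ i, Subgroup (X i)} (h : ∀ i, (N i).Normal) : (lim U X N).Normal := by
  refine ⟨fun a ha g => ?_⟩
  rw [mem_lim] at ha ⊢
  filter_upwards [ha, hX g] with i h1 h2
  obtain ⟨h1, h1'⟩ := h1
  exact ⟨(X i).mul_mem ((X i).mul_mem h2 h1) ((X i).inv_mem h2), (h i).conj_mem _ h1' ⟨g, h2⟩⟩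

lemma PF_lim {σ : Set ℕ} {U : Filter ι} {X : ι → Subgroup G} (hf : ∀ g : G, IsOfFinOrder g)
    {A B : ∀ i, Subgroup (X i)} (h : ∀ i, PF σ (A i) (B i)) :
    PF σ (lim U X A) (lim U X B) := by
  intro g hg
  have ho : orderOf g ≠ 0 := (hf g).orderOf_pos.ne'
  obtain ⟨m, hm, hmk⟩ := exists_part_loc σ ho
  refine ⟨m, hm, ?_⟩
  rw [mem_lim] at hg ⊢
  filter_upwards [hg] with i h1
  obtain ⟨h1, h1'⟩ := h1
  obtain ⟨k, hk, hk'⟩ := h i _ h1'
  refine ⟨(X i).pow_mem h1 m, ?_⟩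
  have h2 : (⟨g, h1⟩ : X i) ^ orderOf g = 1 := Subtype.ext (by simp [pow_orderOf_eq_one])
  have h3 := pow_gcd_mem_loc (A i) hk' h2
  obtain ⟨q, hq⟩ := hmk k hk
  have h4 : (⟨g ^ m, (X i).pow_mem h1 m⟩ : X i) =
      ((⟨g, h1⟩ : X i) ^ Nat.gcd k (orderOf g)) ^ q := by
    rw [← pow_mul, ← hq]
    rfl
  rw [h4]
  exact (A i).pow_mem h3 q

lemma Len_lim {p : ℕ} {U : Filter ι} {X : ι → Subgroup G} (hX : ∀ g : G, ∀ᶠ i in U, g ∈ X i)
    (hf : ∀ g : G, IsOfFinOrder g) (c : ℕ) :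
    ∀ N : ∀ i, Subgroup (X i), (∀ i, Len {p} c (N i)) → Len {p} c (lim U X N) := by
  induction c with
  | zero =>
    intro N h
    have h1 : ∀ i, PF {p}ᶜ (N i) (⊤ : Subgroup (X i)) := h
    have h2 := PF_lim (U := U) hf h1
    intro g _
    apply h2
    rw [mem_lim]
    filter_upwards [hX g] with i hi
    exact ⟨hi, Subgroup.mem_top _⟩
  | succ c ih =>
    intro N h
    choose A B hA hB hNA hAB h1 h2 h3 using h
    exact ⟨lim U X A, lim U X B, lim_normal hX hA, lim_normal hX hB, lim_mono hNA, lim_mono hAB,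
      PF_lim hf h1, PF_lim hf h2, ih B h3⟩

end

theorem target : S_loc := by
  intro p c G _ hp hLF P hP h
  have hf : ∀ g : G, IsOfFinOrder g := by
    intro g
    have h1 : (Subgroup.zpowers g).FG := by
      rw [Subgroup.zpowers_eq_closure]
      exact ⟨{g}, by simp⟩
    have := hLF _ h1
    exact (finite_zpowers (a := g)).1 (Set.toFinite _)
  have hfg : ∀ X : Subgroup G, Finite X → X.FG := by
    intro X hX
    exact (Group.fg_iff_subgroup_fg X).1 (Group.fg_of_finite)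
  have hsup : ∀ X Y : Subgroup G, X.FG → Y.FG → Finite (X ⊔ Y : Subgroup G) := by
    intro X Y hX hY
    exact hLF _ (hX.sup hY)
  let ι : Type := {X : Subgroup G // Finite X ∧ P ≤ X}
  let X : ι → Subgroup G := fun i => i.1
  haveI : Nonempty ι := ⟨⟨P, hP, le_rfl⟩⟩
  haveI : IsDirected ι (· ≤ ·) := ⟨fun a b =>
    ⟨⟨a.1 ⊔ b.1, hsup _ _ (hfg _ a.2.1) (hfg _ b.2.1), a.2.2.trans le_sup_left⟩,
      (le_sup_left : a.1 ≤ a.1 ⊔ b.1), (le_sup_right : b.1 ≤ a.1 ⊔ b.1)⟩⟩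
  have hX : ∀ g : G, ∀ᶠ i in (atTop : Filter ι), g ∈ X i := by
    intro g
    have h1 : (Subgroup.zpowers g).FG := by
      rw [Subgroup.zpowers_eq_closure]
      exact ⟨{g}, by simp⟩
    have h2 := hsup P _ (hfg P hP) h1
    refine (eventually_ge_atTop (⟨P ⊔ Subgroup.zpowers g, h2, le_sup_left⟩ : ι)).mono ?_
    intro i hi
    have hi' : P ⊔ Subgroup.zpowers g ≤ i.1 := hi
    exact hi' (Subgroup.mem_sup_right (Subgroup.mem_zpowers g))
  have h1 := Len_lim (p := p) (U := (atTop : Filter ι)) (X := X) hX hf c (fun i => ⊥)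
    (fun i => h i.1 i.2.1 i.2.2)
  have h2 : lim (atTop : Filter ι) X (fun i => ⊥) = ⊥ := by
    rw [eq_bot_iff]
    intro g hg
    rw [mem_lim] at hg
    obtain ⟨i, hi, hi'⟩ := hg.exists
    rw [Subgroup.mem_bot] at hi' ⊢
    exact congrArg Subtype.val hi'
  rw [h2] at h1
  exact h1

end Pool.Agent.Helper867_Rae.Jobloc
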