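import Pool.Agent.Helper867_Rae.Base2
import Pool.Agent.Helper867_Rae.Stmts2

set_option autoImplicit false

namespace Pool.Agent.Helper867_Rae.Jobtree

open Pool.Agent.TH62.PL Pool.Agent.Helper867_Rae

lemma countable_closure {G : Type} [Group G] {s : Set G} (hs : s.Countable) :
    Countable (Subgroup.closure s) := by
  have : Countable s := hs.to_subtype
  have : Countable (FreeGroup s) :=
    Function.Surjective.countable (f := (FreeGroup.mk : List (s × Bool) → FreeGroup s))
      (fun x => Quot.exists_rep x)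
  rw [FreeGroup.closure_eq_range]
  exact (Set.countable_range _).to_subtype

lemma fg_of_finite {G : Type} [Group G] (F : Subgroup G) [Finite F] : F.FG := by
  refine (Subgroup.fg_iff F).2 ⟨(F : Set G), Subgroup.closure_eq F, ?_⟩
  exact Set.toFinite _

/-- a 2-power order condition elementwise -/
lemma isPGroup_iff {G : Type} [Group G] (F : Subgroup G) :
    IsPGroup 2 F ↔ ∀ x ∈ F, ∃ k : ℕ, x ^ 2 ^ k = 1 := by
  constructor
  · intro h x hx
    obtain ⟨k, hk⟩ := h ⟨x, hx⟩
    exact ⟨k, by simpa using congrArg Subtype.val hk⟩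
  · rintro h ⟨x, hx⟩
    obtain ⟨k, hk⟩ := h x hx
    exact ⟨k, Subtype.ext (by simpa using hk)⟩

section

variable {G : Type} [Group G]

/-- finite 2-subgroups of `H` -/
def Good (H F : Subgroup G) : Prop := F ≤ H ∧ Finite F ∧ IsPGroup 2 F

lemma splitting (hLF : LF G) {H : Subgroup G} (hno : ∀ F, ¬ UQi 2 H F) (F : Subgroup G)
    (hF : Good H F) : ∃ F0 F1 : Subgroup G, (Good H F0 ∧ F ≤ F0) ∧ (Good H F1 ∧ F ≤ F1) ∧
      ¬ IsPGroup 2 (F0 ⊔ F1 : Subgroup G) := by
  by_contra hc
  push Not at hc
  apply hno F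
  have hne : ({E | Good H E ∧ F ≤ E} : Set (Subgroup G)).Nonempty := ⟨F, hF, le_rfl⟩
  have hdir : DirectedOn (· ≤ ·) ({E | Good H E ∧ F ≤ E} : Set (Subgroup G)) := by
    rintro E1 ⟨h1, h1'⟩ E2 ⟨h2, h2'⟩
    refine ⟨E1 ⊔ E2, ⟨⟨sup_le h1.1 h2.1, ?_, hc E1 E2 ⟨h1, h1'⟩ ⟨h2, h2'⟩⟩, h1'.trans le_sup_left⟩,
      le_sup_left, le_sup_right⟩
    have := h1.2.1
    have := h2.2.1
    exact hLF _ ((fg_of_finite E1).sup (fg_of_finite E2))
  have hmem : ∀ x, x ∈ sSup ({E | Good H E ∧ F ≤ E} : Set (Subgroup G)) ↔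
      ∃ E ∈ ({E | Good H E ∧ F ≤ E} : Set (Subgroup G)), x ∈ E := fun x =>
    Subgroup.mem_sSup_of_directedOn hne hdir
  refine ⟨hF.1, hF.2.1, hF.2.2, sSup {E | Good H E ∧ F ≤ E}, sSup_le fun E hE => hE.1.1, ?_, ?_⟩
  · rw [isPGroup_iff]
    intro x hx
    obtain ⟨E, hE, hxE⟩ := (hmem x).1 hx
    exact (isPGroup_iff E).1 hE.1.2.2 x hxE
  · intro T hTH hT hFT t ht
    rw [hmem]
    have hle : F ⊔ Subgroup.closure {t} ≤ T := by
      refine sup_le hFT ?_
      rw [Subgroup.closure_le]
      simpa using ht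
    refine ⟨F ⊔ Subgroup.closure {t}, ⟨⟨hle.trans hTH, ?_, hT.to_le hle⟩, le_sup_left⟩, ?_⟩
    · have := hF.2.1
      exact hLF _ ((fg_of_finite F).sup ⟨{t}, by simp⟩)
    · exact (le_sup_right : _ ≤ F ⊔ Subgroup.closure {t})
        (Subgroup.subset_closure (Set.mem_singleton t))

end

theorem target : S_tree := by
  classical
  intro G _ hLF K hK H hHK
  by_contra hno
  push Not at hno
  have hsp := fun F : {F : Subgroup G // Good H F} => splitting hLF hno F.1 F.2
  choose f0 f1 h0 h1 h2 using hsp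
  let s : Bool → {F : Subgroup G // Good H F} → {F : Subgroup G // Good H F} := fun b F =>
    if b then ⟨f1 F, (h1 F).1⟩ else ⟨f0 F, (h0 F).1⟩
  have hs : ∀ b F, F.1 ≤ (s b F).1 := by
    intro b F
    cases b
    · exact (h0 F).2
    · exact (h1 F).2
  have hbot : Good H (⊥ : Subgroup G) := ⟨bot_le, inferInstance, IsPGroup.of_bot⟩
  let word : List Bool → {F : Subgroup G // Good H F} := fun l =>
    List.rec ⟨⊥, hbot⟩ (fun b _ F => s b F) l
  have hw : ∀ b l, word (b :: l) = s b (word l) := fun _ _ => rfl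
  let pre : (ℕ → Bool) → ℕ → List Bool := fun β n => Nat.rec [] (fun k l => β k :: l) n
  have hpre : ∀ β n, pre β (n + 1) = β n :: pre β n := fun _ _ => rfl
  have hpre0 : ∀ β, pre β 0 = [] := fun _ => rfl
  -- the countable subgroup
  let H0 : Subgroup G := Subgroup.closure (⋃ l : List Bool, ((word l).1 : Set G))
  have hH0c : Countable H0 := by
    apply countable_closure
    refine Set.countable_iUnion fun l => ?_
    have := (word l).2.2.1
    exact (Set.toFinite ((word l).1 : Set G)).countable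
  have hwH0 : ∀ l, (word l).1 ≤ H0 := by
    intro l x hx
    exact Subgroup.subset_closure (Set.mem_iUnion.2 ⟨l, hx⟩)
  have hH0K : H0 ≤ K := by
    refine le_trans ?_ hHK
    rw [Subgroup.closure_le]
    intro x hx
    obtain ⟨l, hl⟩ := Set.mem_iUnion.1 hx
    exact (word l).2.1 hl
  -- the branches
  have hmono : ∀ β, Monotone (fun n => (word (pre β n)).1) := by
    intro β
    refine monotone_nat_of_le_succ fun n => ?_
    rw [hpre, hw]
    exact hs _ _
  have hS : ∀ β : ℕ → Bool, ∃ S : Sylow 2 H0, ∀ n, ((word (pre β n)).1).subgroupOf H0 ≤ S := by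
    intro β
    have hdir : Directed (· ≤ ·) (fun n => (word (pre β n)).1) := (hmono β).directed_le
    have hP : IsPGroup 2 (⨆ n, (word (pre β n)).1 : Subgroup G) := by
      rw [isPGroup_iff]
      intro x hx
      obtain ⟨n, hn⟩ := (Subgroup.mem_iSup_of_directed hdir).1 hx
      exact (isPGroup_iff _).1 (word (pre β n)).2.2.2 x hn
    have hP' : IsPGroup 2 ((⨆ n, (word (pre β n)).1 : Subgroup G).subgroupOf H0) :=
      hP.comap_subtype
    obtain ⟨S, hS⟩ := hP'.exists_le_sylow
    refine ⟨S, fun n => le_trans ?_ hS⟩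
    exact Subgroup.comap_mono (le_iSup (fun n => (word (pre β n)).1) n)
  choose S hS using hS
  have hinj : Function.Injective S := by
    intro β β' hββ'
    by_contra hne
    obtain ⟨m, hm⟩ := Function.ne_iff.1 hne
    have hex : ∃ m, β m ≠ β' m := ⟨m, hm⟩
    have hn := Nat.find_spec hex
    have hlt : ∀ k < Nat.find hex, β k = β' k := by
      intro k hk
      by_contra hc
      exact Nat.find_min hex hk hc
    generalize Nat.find hex = n at hn hlt
    have hpe : pre β n = pre β' n := by
      have : ∀ k ≤ n, pre β k = pre β' k := by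
        intro k
        induction k with
        | zero => intro _; rfl
        | succ k ih =>
          intro hk
          rw [hpre, hpre, ih (by omega), hlt k (by omega)]
      exact this n le_rfl
    have ha := hS β (n + 1)
    have hb := hS β' (n + 1)
    rw [hpre, hw] at ha hb
    rw [← hpe, ← hββ'] at hb
    have hs0 : (s false (word (pre β n))).1 = f0 (word (pre β n)) := rfl
    have hs1 : (s true (word (pre β n))).1 = f1 (word (pre β n)) := rfl
    have key : (f0 (word (pre β n))).subgroupOf H0 ≤ S β ∧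
        (f1 (word (pre β n))).subgroupOf H0 ≤ S β := by
      cases hc : β n <;> cases hc' : β' n
      · exact absurd (hc.trans hc'.symm) hn
      · rw [hc, hs0] at ha
        rw [hc', hs1] at hb
        exact ⟨ha, hb⟩
      · rw [hc, hs1] at ha
        rw [hc', hs0] at hb
        exact ⟨hb, ha⟩
      · exact absurd (hc.trans hc'.symm) hn
    have hf0 : f0 (word (pre β n)) ≤ H0 := by
      have := hwH0 (false :: pre β n)
      rwa [hw] at this
    have hf1 : f1 (word (pre β n)) ≤ H0 := by
      have := hwH0 (true :: pre β n)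
      rwa [hw] at this
    apply h2 (word (pre β n))
    have hSm : IsPGroup 2 ((S β : Subgroup H0).map H0.subtype) := (S β).2.map _
    refine hSm.to_le (sup_le ?_ ?_)
    · have := Subgroup.map_mono (f := H0.subtype) key.1
      rwa [Subgroup.map_subgroupOf_eq_of_le hf0] at this
    · have := Subgroup.map_mono (f := H0.subtype) key.2
      rwa [Subgroup.map_subgroupOf_eq_of_le hf1] at this
  have hc := Cardinal.mk_le_of_injective hinj
  have hcard : Cardinal.mk (ℕ → Bool) = Cardinal.continuum := by simp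
  rw [hcard] at hc
  exact absurd (hK H0 hH0K hH0c) (not_lt.2 hc)

end Pool.Agent.Helper867_Rae.Jobtree
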