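import Pool.Agent.Helper867_Rae.Base2
import Pool.Agent.Helper867_Rae.Stmts2

set_option autoImplicit false

/-! The structure theorem from the lemmas of section 8. -/

namespace Pool.Agent.Helper867_Rae

open Pool.Agent.TH62.PL

/-- preimage of a characteristic subgroup of the quotient -/
lemma char_comap {G : Type} [Group G] (Q : Subgroup G) [hQn : Q.Normal] (hQ : Q.Characteristic)
    (V : Subgroup (G ⧸ Q)) (hV : V.Characteristic) :
    (V.comap (QuotientGroup.mk' Q)).Characteristic := by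
  rw [Subgroup.characteristic_iff_comap_le]
  intro φ x hx
  have h1 : Q.map φ.toMonoidHom = Q := Subgroup.characteristic_iff_map_eq.1 hQ φ
  let ψ : G ⧸ Q ≃* G ⧸ Q := QuotientGroup.congr Q Q φ h1
  have h2 : V.comap ψ.toMonoidHom = V := Subgroup.characteristic_iff_comap_eq.1 hV ψ
  rw [Subgroup.mem_comap]
  rw [Subgroup.mem_comap, Subgroup.mem_comap] at hx
  rw [← h2, Subgroup.mem_comap]
  exact hx

lemma LF.quotient {G : Type} [Group G] (h : LF G) (Q : Subgroup G) [Q.Normal] : LF (G ⧸ Q) := by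
  intro H hH
  obtain ⟨S, hS⟩ := hH
  classical
  have hex : ∀ x : G ⧸ Q, ∃ y : G, QuotientGroup.mk' Q y = x := QuotientGroup.mk'_surjective Q
  choose r hr using hex
  have h1 : Finite (Subgroup.closure ((S.image r : Finset G) : Set G)) := h _ ⟨_, rfl⟩
  have h2 : H = (Subgroup.closure ((S.image r : Finset G) : Set G)).map (QuotientGroup.mk' Q) := by
    rw [MonoidHom.map_closure, ← hS]
    congr 1
    ext x
    simp only [Finset.coe_image, Set.mem_image, Finset.mem_coe]
    constructor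
    · intro hx
      exact ⟨r x, ⟨x, hx, rfl⟩, hr x⟩
    · rintro ⟨_, ⟨y, hy, rfl⟩, rfl⟩
      rwa [hr y]
  rw [h2]
  exact Finite.of_surjective _
    ((QuotientGroup.mk' Q).subgroupMap_surjective _)

lemma LF.subgroup {G : Type} [Group G] (h : LF G) (N : Subgroup G) : LF N := by
  intro H hH
  have h1 : (H.map N.subtype).FG := by
    classical
    obtain ⟨S, hS⟩ := hH
    exact ⟨S.image N.subtype, by rw [Finset.coe_image, ← MonoidHom.map_closure, hS]⟩
  have h2 := h _ h1
  exact Finite.of_equiv _ (H.equivMapOfInjective N.subtype N.subtype_injective).symm.toEquiv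

lemma LF.orderOf_pos {G : Type} [Group G] (h : LF G) (x : G) : 0 < orderOf x := by
  have h1 : Finite (Subgroup.zpowers x) := by
    apply h
    exact ⟨{x}, by rw [Finset.coe_singleton, Subgroup.zpowers_eq_closure]⟩
  rw [orderOf_pos_iff, ← finite_zpowers]
  exact Set.toFinite _

/-- an extension of a `2`-group by a `2`-group -/
lemma isPGroup_comap {G : Type} [Group G] {p : ℕ} [Fact p.Prime] {Q : Subgroup G} [Q.Normal]
    (hQ : IsPGroup p Q) {T : Subgroup (G ⧸ Q)} (hT : IsPGroup p T) :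
    IsPGroup p (T.comap (QuotientGroup.mk' Q)) := by
  apply isPGroup_of_PF
  have h1 : PF {p} (⊥ : Subgroup (G ⧸ Q)) T := PF_of_isPGroup hT
  have h2 := h1.comap (QuotientGroup.mk' Q)
  rw [MonoidHom.comap_bot, QuotientGroup.ker_mk'] at h2
  exact (PF_of_isPGroup hQ).trans h2

lemma HUQ.quotient {G : Type} [Group G] {p : ℕ} [Fact p.Prime] (h : HUQ p G) (Q : Subgroup G)
    [Q.Normal] (hQ : IsPGroup p Q) : HUQ p (G ⧸ Q) := by
  intro H
  obtain ⟨F, hFH, hFfin, hFp, S, hSH, hSp, hmax⟩ := h (H.comap (QuotientGroup.mk' Q))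
  have hsur := QuotientGroup.mk'_surjective Q
  refine ⟨F.map (QuotientGroup.mk' Q), Subgroup.map_le_iff_le_comap.2 hFH,
    Finite.of_surjective _ ((QuotientGroup.mk' Q).subgroupMap_surjective _), hFp.map _,
    S.map (QuotientGroup.mk' Q), Subgroup.map_le_iff_le_comap.2 hSH, hSp.map _, ?_⟩
  intro T hTH hTp hFT
  have h1 := hmax _ (Subgroup.comap_mono hTH) (isPGroup_comap hQ hTp)
    (Subgroup.map_le_iff_le_comap.1 hFT)
  rw [← Subgroup.map_comap_eq_self_of_surjective hsur T]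
  exact Subgroup.map_mono h1

/-- the largest `p`-subgroup covers every `p`-quotient -/
lemma UQi.cover {G G' : Type} [Group G] [Group G'] {p : ℕ} [hp : Fact p.Prime] (lf : LF G)
    {H F S : Subgroup G} (hFH : F ≤ H) (hFfin : Finite F) (hFp : IsPGroup p F)
    (hmax : ∀ T : Subgroup G, T ≤ H → IsPGroup p T → F ≤ T → T ≤ S)
    (f : G →* G') (hf : IsPGroup p (H.map f)) : ∀ g ∈ H, ∃ s ∈ S, f s = f g := by
  intro g hg
  set Y : Subgroup G := F ⊔ Subgroup.zpowers g with hY
  have hYH : Y ≤ H := sup_le hFH (by rw [Subgroup.zpowers_le]; exact hg)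
  have hYfin : Finite Y := by
    apply lf
    apply Subgroup.FG.sup
    · exact (Group.fg_iff_subgroup_fg F).1 inferInstance
    · exact ⟨{g}, by rw [Finset.coe_singleton, Subgroup.zpowers_eq_closure]⟩
  have hFY : F ≤ Y := le_sup_left
  have h4 : IsPGroup p (F.subgroupOf Y) := hFp.comap_subtype
  obtain ⟨Q, hQ⟩ := h4.exists_le_sylow
  set Q' := (Q : Subgroup Y).map Y.subtype with hQ'
  have hQS : Q' ≤ S := by
    refine hmax _ ?_ (Q.2.map _) ?_
    · rintro _ ⟨x, _, rfl⟩; exact hYH x.2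
    · intro x hx
      exact ⟨⟨x, hFY hx⟩, hQ hx, rfl⟩
  let e : Y →* Y.map f := f.subgroupMap Y
  have he : Function.Surjective e := f.subgroupMap_surjective Y
  have hT : IsPGroup p (Y.map f) := hf.to_le (Subgroup.map_mono hYH)
  have hfin : Finite (Y.map f) := Finite.of_surjective e he
  have h5 : ((Q : Subgroup Y).map e).index ∣ (Q : Subgroup Y).index :=
    Subgroup.index_map_dvd _ he
  have h6 : ((Q : Subgroup Y).map e).index = 1 := by
    by_contra hne
    obtain ⟨n, hn⟩ := (hT.index ((Q : Subgroup Y).map e))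
    have hn0 : n ≠ 0 := by
      rintro rfl
      exact hne (by rw [hn, pow_zero])
    have h7 : p ∣ (Q : Subgroup Y).index := (dvd_pow_self p hn0).trans (hn ▸ h5)
    exact Sylow.not_dvd_index Q h7
  rw [Subgroup.index_eq_one] at h6
  have hgY : g ∈ Y := (le_sup_right : Subgroup.zpowers g ≤ Y) (Subgroup.mem_zpowers g)
  have h8 : e ⟨g, hgY⟩ ∈ (Q : Subgroup Y).map e := by rw [h6]; trivial
  obtain ⟨y, hy, hy'⟩ := h8
  exact ⟨y, hQS ⟨y, hy, rfl⟩, congrArg Subtype.val hy'⟩

/-- a `p`-group and a `p'`-group intersect trivially -/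
lemma inf_eq_bot_of {G : Type} [Group G] {p : ℕ} [Fact p.Prime] {S V : Subgroup G}
    (hS : IsPGroup p S) (hV : PF {p}ᶜ ⊥ V) : S ⊓ V = ⊥ := by
  have h1 : PF {p} (⊥ : Subgroup G) (S ⊓ V) := (PF_of_isPGroup hS).mono le_rfl inf_le_left
  have h2 : PF {p}ᶜ (⊥ : Subgroup G) (S ⊓ V) := hV.mono le_rfl inf_le_right
  exact le_bot_iff.1 (h1.le_of_compl h2)

theorem main_of (hcore : S_core) (hHH : S_HH) (hfix : S_fix) (hEA : S_EA) (hch : S_ch)
    (hfin : S_fin) : S_main := by
  intro G _ c lf hU hlen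
  have h2 : Nat.Prime 2 := Nat.prime_two
  have : Fact (Nat.Prime 2) := ⟨h2⟩
  obtain ⟨⟨Q, hQc, hQp, hQmax⟩, -⟩ := hcore 2 G h2 lf
  have hQn : Q.Normal := inferInstance
  have lf1 : LF (G ⧸ Q) := lf.quotient Q
  have hU1 : HUQ 2 (G ⧸ Q) := hU.quotient Q hQp
  have hsur1 := QuotientGroup.mk'_surjective Q
  have hlen1 : Len {2} c (⊥ : Subgroup (G ⧸ Q)) := by
    have := hlen.map (QuotientGroup.mk' Q) hsur1
    rwa [Subgroup.map_bot] at this
  -- `O_2(G/Q) = 1`
  have hO2 : ∀ N : Subgroup (G ⧸ Q), N.Normal → IsPGroup 2 N → N = ⊥ := by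
    intro N hN hNp
    have h1 := hQmax _ (hN.comap (QuotientGroup.mk' Q)) (isPGroup_comap hQp hNp)
    rw [← Subgroup.map_comap_eq_self_of_surjective hsur1 N, eq_bot_iff]
    refine (Subgroup.map_mono h1).trans ?_
    rintro _ ⟨x, hx, rfl⟩
    exact Subgroup.mem_bot.2 ((QuotientGroup.eq_one_iff x).2 hx)
  obtain ⟨-, ⟨V, hVc, hVp, hVmax⟩⟩ := hcore 2 (G ⧸ Q) h2 lf1
  have hVn : V.Normal := inferInstance
  have hCV : ∀ x : G ⧸ Q, (∀ y ∈ V, x * y = y * x) → x ∈ V :=
    hHH 2 c (G ⧸ Q) h2 lf1 hlen1 V hVn (Or.inl ⟨hVp, hO2, hVmax⟩)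
  have hEAf : ∀ E : Subgroup (G ⧸ Q), (∀ x ∈ E, x * x = 1) → Finite E :=
    hEA (G ⧸ Q) V hVn hVp hCV fun T hT => hfix (G ⧸ Q) lf1 hU1 V T hVn hVp hT
  -- chains of 2-subgroups
  have hchain : ∀ T : Subgroup (G ⧸ Q), IsPGroup 2 T → ∀ H : ℕ → Subgroup (G ⧸ Q), Antitone H →
      (∀ n, H n ≤ T) → ∃ n, ∀ m ≥ n, H m = H n := by
    intro T hT H hH hHT
    have h3 := (hch T (lf1.subgroup T) (hT.to_subgroup ⊤) ?_).2
      (fun n => (H n).subgroupOf T) (fun a b hab => Subgroup.comap_mono (hH hab))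
    · obtain ⟨n, hn⟩ := h3
      refine ⟨n, fun m hm => ?_⟩
      have h4 := hn m hm
      have h5 := congrArg (Subgroup.map T.subtype) h4
      simp only [Subgroup.map_subgroupOf_eq_of_le (hHT _)] at h5
      exact h5
    · intro E hE
      have h4 : Finite (E.map T.subtype) := by
        apply hEAf
        rintro _ ⟨x, hx, rfl⟩
        have := congrArg Subtype.val (hE x hx)
        simpa using this
      exact Finite.of_equiv _ (E.equivMapOfInjective T.subtype T.subtype_injective).symm.toEquiv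
  -- the second quotient
  have lf2 : LF ((G ⧸ Q) ⧸ V) := lf1.quotient V
  have hsur2 := QuotientGroup.mk'_surjective V
  have hlen2 : Len {2} c (⊥ : Subgroup ((G ⧸ Q) ⧸ V)) := by
    have := hlen1.map (QuotientGroup.mk' V) hsur2
    rwa [Subgroup.map_bot] at this
  have hO2' : ∀ N : Subgroup ((G ⧸ Q) ⧸ V), N.Normal → PF {2}ᶜ ⊥ N → N = ⊥ := by
    intro N hN hNp
    have h1 : PF {2}ᶜ ⊥ (N.comap (QuotientGroup.mk' V)) := by
      have h3 := hNp.comap (QuotientGroup.mk' V)
      rw [MonoidHom.comap_bot, QuotientGroup.ker_mk'] at h3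
      exact hVp.trans h3
    have h3 := hVmax _ (hN.comap (QuotientGroup.mk' V)) h1
    rw [← Subgroup.map_comap_eq_self_of_surjective hsur2 N, eq_bot_iff]
    refine (Subgroup.map_mono h3).trans ?_
    rintro _ ⟨x, hx, rfl⟩
    exact Subgroup.mem_bot.2 ((QuotientGroup.eq_one_iff x).2 hx)
  obtain ⟨⟨D, hDc, hDp, hDmax⟩, -⟩ := hcore 2 ((G ⧸ Q) ⧸ V) h2 lf2
  have hDn : D.Normal := inferInstance
  have hCD : ∀ x : (G ⧸ Q) ⧸ V, (∀ y ∈ D, x * y = y * x) → x ∈ D :=
    hHH 2 c _ h2 lf2 hlen2 D hDn (Or.inr ⟨hDp, hO2', hDmax⟩)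
  have hDfin : D.FiniteIndex := by
    refine hfin _ lf2 D hDn hDp hDmax hCD fun E hED hE => ?_
    obtain ⟨F, hFH, hFfin, hFp, S, hSH, hSp, hmax⟩ := hU1 (E.comap (QuotientGroup.mk' V))
    have hcov := UQi.cover lf1 hFH hFfin hFp hmax (QuotientGroup.mk' V)
      ((hDp.to_le hED).to_le (Subgroup.map_comap_le _ _))
    have hSV := inf_eq_bot_of hSp hVp
    have hSfin : Finite S := by
      apply hEAf
      intro x hx
      have h3 : x * x ∈ S ⊓ V := by
        refine ⟨S.mul_mem hx hx, ?_⟩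
        have h4 := hE _ (hSH hx)
        rw [← map_mul] at h4
        exact (QuotientGroup.eq_one_iff _).1 h4
      rw [hSV] at h3
      exact Subgroup.mem_bot.1 h3
    refine Finite.of_surjective (fun s : S => (⟨QuotientGroup.mk' V s, hSH s.2⟩ : E)) ?_
    rintro ⟨e, he⟩
    obtain ⟨g, rfl⟩ := hsur2 e
    obtain ⟨s, hs, hs'⟩ := hcov g he
    exact ⟨⟨s, hs⟩, Subtype.ext hs'⟩
  -- conclusion
  have hBc : (V.comap (QuotientGroup.mk' Q)).Characteristic := char_comap Q hQc V hVc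
  have hCc1 : (D.comap (QuotientGroup.mk' V)).Characteristic := char_comap V hVc D hDc
  have hCc : ((D.comap (QuotientGroup.mk' V)).comap (QuotientGroup.mk' Q)).Characteristic :=
    char_comap Q hQc _ hCc1
  refine ⟨Q, V.comap (QuotientGroup.mk' Q),
    (D.comap (QuotientGroup.mk' V)).comap (QuotientGroup.mk' Q), hQc, hBc, hCc, ?_, ?_, ?_, hQp,
    ?_, ?_, hQmax, ?_⟩
  · intro x hx
    rw [Subgroup.mem_comap]
    have : QuotientGroup.mk' Q x = 1 := (QuotientGroup.eq_one_iff x).2 hx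
    rw [this]; exact V.one_mem
  · apply Subgroup.comap_mono
    intro x hx
    rw [Subgroup.mem_comap]
    have : QuotientGroup.mk' V x = 1 := (QuotientGroup.eq_one_iff x).2 hx
    rw [this]; exact D.one_mem
  · refine ⟨?_⟩
    rw [Subgroup.index_comap_of_surjective _ hsur1, Subgroup.index_comap_of_surjective _ hsur2]
    exact hDfin.index_ne_zero
  · have h3 := hVp.comap (QuotientGroup.mk' Q)
    rwa [MonoidHom.comap_bot, QuotientGroup.ker_mk'] at h3
  · have h3 := ((PF_of_isPGroup hDp).comap (QuotientGroup.mk' V)).comap (QuotientGroup.mk' Q)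
    rwa [MonoidHom.comap_bot, QuotientGroup.ker_mk'] at h3
  · intro H hH hHp
    obtain ⟨n, hn⟩ := hchain ((H 0).map (QuotientGroup.mk' Q)) ((hHp 0).1.map _)
      (fun n => (H n).map (QuotientGroup.mk' Q)) (fun a b hab => Subgroup.map_mono (hH hab))
      (fun n => Subgroup.map_mono (hH (Nat.zero_le n)))
    refine ⟨n, fun m hm => ?_⟩
    have h3 := congrArg (Subgroup.comap (QuotientGroup.mk' Q)) (hn m hm)
    rw [Subgroup.comap_map_eq, Subgroup.comap_map_eq, QuotientGroup.ker_mk',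
      sup_eq_left.2 (hHp m).2, sup_eq_left.2 (hHp n).2] at h3
    exact h3

end Pool.Agent.Helper867_Rae
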