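import Pool.Agent.Helper867_Rae.PC

set_option autoImplicit false

/-! Lemma B0 -/

namespace Pool.Agent.Helper867_Rae

open Pool.Agent.TH62.PL
open scoped Pointwise

section
variable {Y F : Type} [Group Y] [AddCommGroup F] [DistribMulAction Y F]

/-- fixed points of a subgroup -/
def Fx (F : Type) [AddCommGroup F] [DistribMulAction Y F] (S : Subgroup Y) : AddSubgroup F where
  carrier := {v | ∀ a ∈ S, a • v = v}
  zero_mem' := fun a _ => smul_zero a
  add_mem' := fun {v w} hv hw a ha => by rw [smul_add, hv a ha, hw a ha]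
  neg_mem' := fun {v} hv a ha => by rw [smul_neg, hv a ha]

/-- fixed points of an element -/
def fx (F : Type) [AddCommGroup F] [DistribMulAction Y F] (y : Y) : AddSubgroup F where
  carrier := {v | y • v = v}
  zero_mem' := smul_zero y
  add_mem' := fun {v w} hv hw => by
    change y • (v + w) = v + w
    rw [smul_add]; exact congrArg₂ _ hv hw
  neg_mem' := fun {v} hv => by
    change y • (-v) = -v
    rw [smul_neg]; exact congrArg _ hv

lemma mem_Fx {S : Subgroup Y} {v : F} : v ∈ Fx F S ↔ ∀ a ∈ S, a • v = v := Iff.rfl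
lemma mem_fx {y : Y} {v : F} : v ∈ fx F y ↔ y • v = v := Iff.rfl

variable [Finite F]

lemma fx_inv (y : Y) : fx F y⁻¹ = fx F y := by
  ext v
  rw [mem_fx, mem_fx]
  constructor
  · intro h
    conv_lhs => rw [← h]
    rw [smul_inv_smul]
  · intro h
    conv_lhs => rw [← h]
    rw [inv_smul_smul]

lemma index_conj (g y : Y) : (fx F (g * y * g⁻¹)).index = (fx F y).index := by
  have e : fx F (g * y * g⁻¹) = (fx F y).comap
      (DistribMulAction.toAddEquiv F g⁻¹ : F ≃+ F).toAddMonoidHom := by
    ext v
    rw [AddSubgroup.mem_comap, mem_fx, mem_fx]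
    change _ ↔ y • (g⁻¹ • v) = g⁻¹ • v
    rw [mul_smul, mul_smul]
    constructor
    · intro h
      conv_rhs => rw [← h]
      rw [inv_smul_smul]
    · intro h
      rw [h, smul_inv_smul]
  rw [e]
  exact AddSubgroup.index_comap_of_surjective _
    (DistribMulAction.toAddEquiv F g⁻¹ : F ≃+ F).surjective

lemma index_mul (x y : Y) : (fx F (x * y)).index ≤ (fx F x).index * (fx F y).index := by
  have h1 : fx F x ⊓ fx F y ≤ fx F (x * y) := by
    rintro v ⟨h1, h2⟩
    have h1' : x • v = v := h1
    have h2' : y • v = v := h2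
    rw [mem_fx, mul_smul, h2', h1']
  have h2 : (fx F (x * y)).index ≤ (fx F x ⊓ fx F y).index :=
    Nat.le_of_dvd (Nat.pos_of_ne_zero AddSubgroup.index_ne_zero_of_finite)
      (AddSubgroup.index_dvd_of_le h1)
  exact h2.trans AddSubgroup.index_inf_le

lemma card_le_of_fpf {y : Y} (h : fx F y = ⊥) {n : ℕ} (hn : (fx F y).index ≤ n) :
    Nat.card F ≤ n := by
  rw [h, AddSubgroup.index_bot] at hn
  exact hn

lemma index_comm (a x : Y) {n : ℕ} (hn : (fx F x).index ≤ n) :
    (fx F (a * x * a⁻¹ * x⁻¹)).index ≤ n * n := by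
  refine (index_mul _ _).trans ?_
  rw [index_conj, fx_inv]
  gcongr

end

section dich
variable {Y F : Type} [Group Y] [Finite Y] [AddCommGroup F] [Finite F] [DistribMulAction Y F]

/-- the components -/
theorem dichotomy (c : ℕ) (hY : Group.IsSolvable Y)
    (hfaith : ∀ y : Y, (∀ v : F, y • v = v) → y = 1)
    (hirr : ∀ W : AddSubgroup F, (∀ (y : Y), ∀ w ∈ W, y • w ∈ W) → W = ⊥ ∨ W = ⊤)
    (hnt : Nontrivial F)
    (hD : Subgroup.closure {y : Y | (fx F y).index ≤ c} = ⊤)
    (A : Subgroup Y) (hA : A.Normal) (hab : ∀ a ∈ A, ∀ b ∈ A, a * b = b * a) :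
    Nat.card F ≤ c ^ (6 * c) ∨ ∀ a ∈ A, a ≠ 1 → fx F a = ⊥ := by
  classical
  -- a maximal subgroup with fixed points
  obtain ⟨A0, hA0⟩ := Set.Finite.exists_maximalFor (fun B : Subgroup Y => Nat.card B)
    {B : Subgroup Y | B ≤ A ∧ Fx F B ≠ ⊥} (Set.toFinite _) ⟨⊥, bot_le, by
      intro h0
      obtain ⟨v, hv⟩ := exists_ne (0 : F)
      have : v ∈ Fx F (⊥ : Subgroup Y) := fun a ha => by
        rw [Subgroup.mem_bot.1 ha, one_smul]
      rw [h0, AddSubgroup.mem_bot] at this
      exact hv this⟩
  have hmax : ∀ B : Subgroup Y, B ≤ A → Fx F B ≠ ⊥ → Nat.card B ≤ Nat.card A0 := by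
    intro B hB hB'
    by_contra hcon
    exact absurd (hA0.2 ⟨hB, hB'⟩ (le_of_lt (not_le.1 hcon))) hcon
  have hA0A : A0 ≤ A := hA0.1.1
  set W0 : AddSubgroup F := Fx F A0 with hW0
  have hW0ne : W0 ≠ ⊥ := hA0.1.2
  set Om' : Set (AddSubgroup F) := MulAction.orbit Y W0 with hOm
  have hfinOm : Finite Om' := by
    have : Finite (AddSubgroup F) := inferInstance
    infer_instance
  have := Fintype.ofFinite Om'
  -- the conjugate attached to a component
  have hex : ∀ W : Om', ∃ g : Y, g • W0 = (W : AddSubgroup F) := fun W => W.2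
  choose g hg using hex
  have hmemW : ∀ (W : Om') (v : F), v ∈ (W : AddSubgroup F) ↔ (g W)⁻¹ • v ∈ W0 := by
    intro W v
    rw [← hg W, AddSubgroup.mem_smul_pointwise_iff_exists]
    constructor
    · rintro ⟨w, hw, rfl⟩
      rwa [inv_smul_smul]
    · intro h
      exact ⟨_, h, smul_inv_smul _ _⟩
  -- the subgroup `A_W = g A0 g⁻¹`
  set AW : Om' → Subgroup Y := fun W => A0.map (MulAut.conj (g W)).toMonoidHom with hAW
  have hAWA : ∀ W, AW W ≤ A := by
    rintro W _ ⟨x, hx, rfl⟩
    exact hA.conj_mem x (hA0A hx) _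
  have hAWcard : ∀ W, Nat.card (AW W) = Nat.card A0 := fun W =>
    Nat.card_congr (A0.equivMapOfInjective _ (MulAut.conj (g W)).injective).symm.toEquiv
  have hWFx : ∀ W : Om', (W : AddSubgroup F) = Fx F (AW W) := by
    intro W
    ext v
    rw [hmemW, hW0, mem_Fx, mem_Fx]
    constructor
    · rintro h _ ⟨x, hx, rfl⟩
      change (g W * x * (g W)⁻¹) • v = v
      rw [mul_smul, mul_smul, h x hx, smul_inv_smul]
    · intro h x hx
      have h1 : (g W * x * (g W)⁻¹) • v = v := h _ ⟨x, hx, rfl⟩
      rw [mul_smul, mul_smul] at h1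
      conv_rhs => rw [← h1]
      rw [inv_smul_smul]
  have hWA : ∀ (W : Om') (a : Y), a ∈ A → ∀ v ∈ (W : AddSubgroup F),
      a • v ∈ (W : AddSubgroup F) := by
    intro W a ha v hv
    rw [hWFx W, mem_Fx] at hv ⊢
    intro b hb
    rw [← mul_smul, ← hab a ha b (hAWA W hb), mul_smul, hv b hb]
  have hmeet : ∀ W W' : Om', W ≠ W' → ∀ v, v ∈ (W : AddSubgroup F) →
      v ∈ (W' : AddSubgroup F) → v = 0 := by
    intro W W' hne v hv hv'
    by_contra hv0
    apply hne
    have h1 : Fx F (AW W ⊔ AW W') ≠ ⊥ := by
      intro h0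
      have : v ∈ Fx F (AW W ⊔ AW W') := by
        have h2 : AW W ⊔ AW W' ≤ MulAction.stabilizer Y v := by
          apply sup_le
          · intro a ha
            rw [hWFx W] at hv
            exact hv a ha
          · intro a ha
            rw [hWFx W'] at hv'
            exact hv' a ha
        intro a ha
        exact h2 ha
      rw [h0, AddSubgroup.mem_bot] at this
      exact hv0 this
    have h2 := hmax _ (sup_le (hAWA W) (hAWA W')) h1
    have h3 : AW W = AW W ⊔ AW W' :=
      Subgroup.eq_of_le_of_card_ge le_sup_left (by rw [hAWcard]; exact h2)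
    have h4 : AW W' = AW W ⊔ AW W' :=
      Subgroup.eq_of_le_of_card_ge le_sup_right (by rw [hAWcard]; exact h2)
    apply Subtype.ext
    rw [hWFx W, hWFx W', h4, ← h3]
  -- independence
  have hind : ∀ (n : ℕ) (f : Om' → F), (∀ W : Om', f W ∈ (W : AddSubgroup F)) → ∑ W, f W = 0 →
      (Finset.univ.filter fun W => f W ≠ 0).card = n → ∀ W, f W = 0 := by
    intro n
    induction n using Nat.strong_induction_on with
    | _ n ih =>
    intro f hf hsum hcard W1
    by_contra hW1
    -- another nonzero term
    have hex2 : ∃ W2, W2 ≠ W1 ∧ f W2 ≠ 0 := by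
      by_contra hcon
      push Not at hcon
      rw [Finset.sum_eq_single W1 (fun W _ hW => hcon W hW) (fun h => absurd (Finset.mem_univ _) h)]
        at hsum
      exact hW1 hsum
    obtain ⟨W2, hW21, hW2⟩ := hex2
    apply hW2
    apply hmeet W1 W2 hW21.symm _ _ (hf W2)
    rw [hWFx W1, mem_Fx]
    intro a ha
    have haA := hAWA W1 ha
    have h1 := ih ((Finset.univ.filter fun W => a • f W - f W ≠ 0).card) (by
        rw [← hcard]
        apply Finset.card_lt_card
        rw [Finset.ssubset_iff_of_subset]
        · refine ⟨W1, by simpa using hW1, ?_⟩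
          have h2 := hf W1
          rw [hWFx W1] at h2
          simp [h2 a ha]
        · intro W hW
          simp only [Finset.mem_filter, Finset.mem_univ, true_and] at hW ⊢
          intro h0
          apply hW
          rw [h0, smul_zero, sub_zero])
      (fun W => a • f W - f W) (fun W => AddSubgroup.sub_mem _ (hWA W a haA _ (hf W)) (hf W))
      (by rw [Finset.sum_sub_distrib, ← Finset.smul_sum, hsum, smul_zero, sub_zero]) rfl W2
    exact sub_eq_zero.1 h1
  have hind' : ∀ (f : Om' → F), (∀ W : Om', f W ∈ (W : AddSubgroup F)) → ∑ W, f W = 0 →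
      ∀ W, f W = 0 := fun f h1 h2 => hind _ f h1 h2 rfl
  -- the components have the same order
  have hcardW : ∀ W : Om', Nat.card (W : AddSubgroup F) = Nat.card W0 := by
    intro W
    refine Nat.card_congr (Equiv.ofBijective (fun v : (W : AddSubgroup F) =>
      (⟨(g W)⁻¹ • (v : F), (hmemW W v).1 v.2⟩ : W0)) ⟨?_, ?_⟩)
    · intro v w h
      have := congrArg Subtype.val h
      exact Subtype.ext (smul_left_cancel _ this)
    · rintro ⟨v, hv⟩
      exact ⟨⟨g W • v, (hmemW W _).2 (by rwa [inv_smul_smul])⟩, Subtype.ext (inv_smul_smul _ _)⟩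
  -- the sum is everything
  have hsumtop : (⨆ W : Om', (W : AddSubgroup F)) = ⊤ := by
    have hinv : ∀ (y : Y), ∀ w ∈ (⨆ W : Om', (W : AddSubgroup F)),
        y • w ∈ (⨆ W : Om', (W : AddSubgroup F)) := by
      intro y w hw
      have h1 : y • (⨆ W : Om', (W : AddSubgroup F)) ≤ ⨆ W : Om', (W : AddSubgroup F) := by
        rw [AddSubgroup.pointwise_smul_def, AddSubgroup.map_iSup]
        apply iSup_le
        intro W
        have h2 : ((y • W : Om') : AddSubgroup F) ≤ ⨆ W : Om', (W : AddSubgroup F) :=
          le_iSup (fun W : Om' => (W : AddSubgroup F)) (y • W)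
        exact h2
      exact h1 (AddSubgroup.smul_mem_pointwise_smul w y _ hw)
    rcases hirr _ hinv with h | h
    · exfalso
      apply hW0ne
      rw [eq_bot_iff, ← h]
      exact le_iSup (fun W : Om' => (W : AddSubgroup F)) ⟨W0, MulAction.mem_orbit_self _⟩
    · exact h
  -- the order of `F`
  have hcardF : Nat.card F ≤ (Nat.card W0) ^ Nat.card Om' := by
    let φ : (∀ W : Om', (W : AddSubgroup F)) → F := fun f => ∑ W, (f W : F)
    have hφ : Function.Surjective φ := by
      let φ' : (∀ W : Om', (W : AddSubgroup F)) →+ F :=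
        { toFun := φ
          map_zero' := by simp [φ]
          map_add' := fun f h => by simp [φ, Finset.sum_add_distrib] }
      have h1 : φ'.range = ⊤ := by
        rw [eq_top_iff, ← hsumtop]
        apply iSup_le
        intro W v hv
        refine ⟨Pi.single W ⟨v, hv⟩, ?_⟩
        change ∑ W', ((Pi.single W ⟨v, hv⟩ : ∀ W : Om', (W : AddSubgroup F)) W' : F) = v
        rw [Finset.sum_eq_single W]
        · simp
        · intro W' _ hne
          rw [Pi.single_eq_of_ne hne]; rfl
        · intro h; exact absurd (Finset.mem_univ _) h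
      exact AddMonoidHom.range_eq_top.1 h1
    have h2 := Nat.card_le_card_of_surjective φ hφ
    rw [Nat.card_pi] at h2
    simp only [hcardW, Finset.prod_const, Finset.card_univ] at h2
    rwa [← Nat.card_eq_fintype_card] at h2
  -- moving components
  have hmove : ∀ (y : Y) (I : Finset Om'), (∀ W ∈ I, y • W ∉ I) →
      (Nat.card W0) ^ I.card ≤ (fx F y).index := by
    intro y I hI
    let U : (I → W0) → Om' → F := fun f W =>
      if hW : W ∈ I then g W • (f ⟨W, hW⟩ : F) else 0
    let ψ : (I → W0) → F ⧸ (fx F y) := fun f => ((∑ W, U f W : F) : F ⧸ fx F y)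
    have hUW : ∀ (f : I → W0) (W : Om'), U f W ∈ (W : AddSubgroup F) := by
      intro f W
      simp only [U]
      split_ifs with h1
      · rw [hmemW, inv_smul_smul]; exact (f _).2
      · exact AddSubgroup.zero_mem _
    have hψ : Function.Injective ψ := by
      intro f f' hff
      rw [QuotientAddGroup.eq] at hff
      let u : Om' → F := fun W => U f' W - U f W
      have huW : ∀ W : Om', u W ∈ (W : AddSubgroup F) := fun W =>
        AddSubgroup.sub_mem _ (hUW f' W) (hUW f W)
      have hu0 : ∀ W : Om', W ∉ I → u W = 0 := by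
        intro W hW
        simp only [u, U, dif_neg hW, sub_zero]
      have hsumu : -(∑ W, U f W) + ∑ W, U f' W = ∑ W, u W := by
        simp only [u, Finset.sum_sub_distrib]
        abel
      rw [hsumu, mem_fx] at hff
      -- the relation
      have h0 := hind' (fun W => u W - y • u (y⁻¹ • W)) (by
          intro W
          apply AddSubgroup.sub_mem _ (huW W)
          have h3 := huW (y⁻¹ • W)
          have h4 : y • u (y⁻¹ • W) ∈ y • ((y⁻¹ • W : Om') : AddSubgroup F) :=
            AddSubgroup.smul_mem_pointwise_smul _ y _ h3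
          have h5 : y • ((y⁻¹ • W : Om') : AddSubgroup F) = (W : AddSubgroup F) := by
            change y • (y⁻¹ • (W : AddSubgroup F)) = _
            rw [smul_inv_smul]
          rwa [h5] at h4)
        (by
          have e : ∑ W : Om', u (y⁻¹ • W) = ∑ W, u W :=
            Equiv.sum_comp (MulAction.toPerm y⁻¹ : Equiv.Perm Om') u
          rw [Finset.sum_sub_distrib, ← Finset.smul_sum, e, hff, sub_self])
      funext W
      have h1 := h0 W.1
      have h2 : y⁻¹ • W.1 ∉ I := by
        intro h2
        apply hI _ h2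
        rw [smul_inv_smul]; exact W.2
      have h3 : u W.1 = 0 := by
        have h4 : u W.1 - y • u (y⁻¹ • W.1) = 0 := h1
        rwa [hu0 _ h2, smul_zero, sub_zero] at h4
      have h4 : g W.1 • (f' W : F) - g W.1 • (f W : F) = 0 := by
        have h5 : u W.1 = U f' W.1 - U f W.1 := rfl
        rw [h3] at h5
        simp only [U, dif_pos W.2] at h5
        exact h5.symm
      exact Subtype.ext (smul_left_cancel _ (sub_eq_zero.1 h4)).symm
    have h1 := Nat.card_le_card_of_injective ψ hψ
    rw [Nat.card_fun, Nat.card_eq_fintype_card (α := I), Fintype.card_coe] at h1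
    exact h1
  have hW02 : 2 ≤ Nat.card W0 := by
    have : Nontrivial W0 := (AddSubgroup.nontrivial_iff_ne_bot _).2 hW0ne
    exact Finite.one_lt_card
  by_cases hone : Nat.card Om' ≤ 1
  · -- a single component
    right
    have hsub : Subsingleton Om' := Finite.card_le_one_iff_subsingleton.1 hone
    have hW0top : W0 = ⊤ := by
      have hinv : ∀ (y : Y), ∀ w ∈ W0, y • w ∈ W0 := by
        intro y w hw
        have h1 : y • W0 = W0 := by
          have := Subsingleton.elim (y • (⟨W0, MulAction.mem_orbit_self _⟩ : Om'))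
            ⟨W0, MulAction.mem_orbit_self _⟩
          exact congrArg Subtype.val this
        have h2 := AddSubgroup.smul_mem_pointwise_smul w y _ hw
        rwa [h1] at h2
      rcases hirr W0 hinv with h | h
      · exact absurd h hW0ne
      · exact h
    have hA0bot : A0 = ⊥ := by
      rw [eq_bot_iff]
      intro a ha
      rw [Subgroup.mem_bot]
      apply hfaith
      intro v
      have : v ∈ W0 := by rw [hW0top]; trivial
      exact this a ha
    intro a ha ha1
    by_contra hne
    have h1 : Fx F (Subgroup.zpowers a) ≠ ⊥ := by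
      intro h0
      apply hne
      rw [eq_bot_iff, ← h0]
      intro v hv b hb
      have : Subgroup.zpowers a ≤ MulAction.stabilizer Y v := by
        rw [Subgroup.zpowers_le]; exact hv
      exact this hb
    have h2 := hmax (Subgroup.zpowers a) (by rw [Subgroup.zpowers_le]; exact ha) h1
    rw [hA0bot, Subgroup.card_bot] at h2
    have h3 : Subgroup.zpowers a = ⊥ := (Subgroup.card_le_one_iff_eq_bot _).1 h2
    exact ha1 (Subgroup.zpowers_eq_bot.1 h3)
  · -- several components
    left
    have hgt : 1 < Nat.card Om' := by omega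
    have hDconj : ∀ y ∈ {y : Y | (fx F y).index ≤ c}, ∀ g : Y,
        g * y * g⁻¹ ∈ {y : Y | (fx F y).index ≤ c} := by
      intro y hy g
      change (fx F (g * y * g⁻¹)).index ≤ c
      rw [index_conj]; exact hy
    have hbd : ∀ y ∈ {y : Y | (fx F y).index ≤ c}, Set.ncard {W : Om' | y • W ≠ W} ≤ 3 * c := by
      intro y hy
      obtain ⟨I, hI⟩ := Finset.exists_maximalFor (fun I : Finset Om' => I.card)
        (Finset.univ.filter fun I : Finset Om' => ∀ W ∈ I, y • W ∉ I) ⟨∅, by simp⟩
      have hI1 : ∀ W ∈ I, y • W ∉ I := (Finset.mem_filter.1 hI.1).2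
      have hImax : ∀ I' : Finset Om', (∀ W ∈ I', y • W ∉ I') → I'.card ≤ I.card := by
        intro I' hI'
        by_contra hcon
        exact absurd (hI.2 (Finset.mem_filter.2 ⟨Finset.mem_univ _, hI'⟩)
          (le_of_lt (not_le.1 hcon))) hcon
      have h1 : I.card < c := by
        have h2 := (hmove y I hI1).trans hy
        calc I.card < 2 ^ I.card := Nat.lt_two_pow_self
          _ ≤ (Nat.card W0) ^ I.card := Nat.pow_le_pow_left hW02 _
          _ ≤ c := h2
      have h2 : {W : Om' | y • W ≠ W} ⊆
          ((I ∪ (I.image (fun W => y • W) ∪ I.image (fun W => y⁻¹ • W)) : Finset Om') :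
            Set Om') := by
        intro W hW
        by_contra hcon
        simp only [Finset.coe_union, Finset.coe_image, Set.mem_union, Finset.mem_coe,
          Set.mem_image, not_or, not_exists, not_and] at hcon
        obtain ⟨hc1, hc2, hc3⟩ := hcon
        have h3 := hImax (insert W I) ?_
        · rw [Finset.card_insert_of_notMem hc1] at h3
          omega
        · intro W' hW'
          rw [Finset.mem_insert] at hW' ⊢
          rintro (h4 | h4)
          · rcases hW' with h5 | h5
            · rw [h5] at h4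
              exact hW h4
            · exact hc2 W' h5 h4
          · rcases hW' with h5 | h5
            · rw [h5] at h4
              exact hc3 _ h4 (inv_smul_smul _ _)
            · exact hI1 W' h5 h4
      have h3 := Set.ncard_le_ncard h2 (Set.toFinite _)
      rw [Set.ncard_coe_finset] at h3
      have h4 := Finset.card_union_le I (I.image (fun W => y • W) ∪ I.image (fun W => y⁻¹ • W))
      have h5 := Finset.card_union_le (I.image (fun W => y • W)) (I.image (fun W => y⁻¹ • W))
      have h6 : (I.image (fun W => y • W)).card ≤ I.card := Finset.card_image_le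
      have h7 : (I.image (fun W => y⁻¹ • W)).card ≤ I.card := Finset.card_image_le
      omega
    have hC := lemC (3 * c) Y Om' hY inferInstance hgt ⟨_, hD, hDconj, hbd⟩
    -- some element of `D` moves a component
    have hWc : Nat.card W0 ≤ c := by
      have hex3 : ∃ y : Y, (fx F y).index ≤ c ∧ ∃ W : Om', y • W ≠ W := by
        by_contra hcon
        push Not at hcon
        have hall : ∀ (y : Y) (W : Om'), y • W = W := by
          intro y W
          have hy : y ∈ Subgroup.closure {y : Y | (fx F y).index ≤ c} := by rw [hD]; trivial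
          have : Subgroup.closure {y : Y | (fx F y).index ≤ c} ≤ MulAction.stabilizer Y W := by
            rw [Subgroup.closure_le]
            intro x hx
            exact hcon x hx W
          exact this hy
        have : Subsingleton Om' := ⟨fun W W' => by
          obtain ⟨y, hy⟩ := MulAction.exists_smul_eq Y W W'
          rw [← hy, hall]⟩
        have := Finite.card_le_one_iff_subsingleton.2 this
        omega
      obtain ⟨y, hy, W, hW⟩ := hex3
      have h1 := hmove y {W} (by
        intro W' hW'
        rw [Finset.mem_singleton] at hW' ⊢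
        rw [hW']; exact hW)
      rw [Finset.card_singleton, pow_one] at h1
      exact h1.trans hy
    calc Nat.card F ≤ (Nat.card W0) ^ Nat.card Om' := hcardF
      _ ≤ c ^ Nat.card Om' := Nat.pow_le_pow_left hWc _
      _ ≤ c ^ (6 * c) := Nat.pow_le_pow_right (by omega) (by omega)

theorem b0 : S_B0 := by
  intro c
  refine ⟨c ^ (6 * c) + c * c * (c * c), ?_⟩
  intro Y F _ _ _ _ _ hY hfaith hirr hD hnt
  classical
  -- restate the generation hypothesis
  have hD' : Subgroup.closure {y : Y | (fx F y).index ≤ c} = ⊤ := by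
    rw [← hD]
    congr 1
    ext y
    constructor
    · intro h
      exact ⟨fx F y, fun v hv => hv, h⟩
    · rintro ⟨C, hC1, hC2⟩
      refine le_trans (Nat.le_of_dvd (Nat.pos_of_ne_zero AddSubgroup.index_ne_zero_of_finite)
        (AddSubgroup.index_dvd_of_le (fun v hv => hC1 v hv))) hC2
  set D := {y : Y | (fx F y).index ≤ c} with hDdef
  have hntF : Nontrivial F := by
    by_contra hcon
    rw [not_nontrivial_iff_subsingleton] at hcon
    obtain ⟨y, hy⟩ := exists_ne (1 : Y)
    exact hy (hfaith y fun v => Subsingleton.elim _ _)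
  by_contra hbig
  rw [not_le] at hbig
  have hb1 : ¬ Nat.card F ≤ c ^ (6 * c) := by
    intro h; omega
  have hb2 : ¬ Nat.card F ≤ c * c * (c * c) := by
    intro h; omega
  have hc1 : 1 ≤ c := by
    by_contra h0
    have h1 : c = 0 := by omega
    have h2 : D = ∅ := by
      rw [Set.eq_empty_iff_forall_notMem]
      intro y hy
      have h3 : (fx F y).index ≤ c := hy
      have h4 : (fx F y).index ≠ 0 := AddSubgroup.index_ne_zero_of_finite
      omega
    rw [h2, Subgroup.closure_empty] at hD'
    obtain ⟨y, hy⟩ := exists_ne (1 : Y)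
    have : y ∈ (⊥ : Subgroup Y) := by rw [hD']; trivial
    exact hy (Subgroup.mem_bot.1 this)
  have hb3 : ¬ Nat.card F ≤ c * c := by
    intro h
    apply hb2
    calc Nat.card F ≤ c * c := h
      _ = c * c * 1 := (mul_one _).symm
      _ ≤ c * c * (c * c) := by gcongr; nlinarith
  have hb4 : ¬ Nat.card F ≤ c := by
    intro h
    apply hb3
    nlinarith
  -- abelian normal subgroups act fixed-point-freely
  have hfpf : ∀ A : Subgroup Y, A.Normal → (∀ a ∈ A, ∀ b ∈ A, a * b = b * a) →
      ∀ a ∈ A, a ≠ 1 → fx F a = ⊥ := by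
    intro A hA hab
    rcases dichotomy c hY hfaith hirr hntF hD' A hA hab with h | h
    · exact absurd h hb1
    · exact h
  -- centraliser of `D` is the centre
  have hcent : ∀ a : Y, (∀ x ∈ D, a * x = x * a) → ∀ y : Y, a * y = y * a := by
    intro a ha y
    have hy : y ∈ Subgroup.closure D := by rw [hD']; trivial
    have h1 : Subgroup.closure D ≤ Subgroup.centralizer {a} := by
      rw [Subgroup.closure_le]
      intro x hx
      rw [SetLike.mem_coe, Subgroup.mem_centralizer_singleton_iff]
      first | exact ha x hx | exact (ha x hx).symm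
    have h2 := h1 hy
    rw [Subgroup.mem_centralizer_singleton_iff] at h2
    first | exact h2 | exact h2.symm
  have hcomm_of : ∀ a x : Y, a * x * a⁻¹ * x⁻¹ = 1 → a * x = x * a := by
    intro a x h
    have e : a * x = (a * x * a⁻¹ * x⁻¹) * (x * a) := by group
    rw [e, h, one_mul]
  have habc : ∀ A : Subgroup Y, A.Normal → (∀ a ∈ A, ∀ b ∈ A, a * b = b * a) →
      ∀ a ∈ A, ∀ y : Y, a * y = y * a := by
    intro A hA hab a ha
    apply hcent
    intro x hx
    apply hcomm_of
    by_contra hne
    have heA : a * x * a⁻¹ * x⁻¹ ∈ A := by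
      have e : a * x * a⁻¹ * x⁻¹ = a * (x * a⁻¹ * x⁻¹) := by group
      rw [e]
      exact A.mul_mem ha (hA.conj_mem _ (A.inv_mem ha) x)
    exact hb3 (card_le_of_fpf (hfpf A hA hab _ heA hne) (index_comm a x hx))
  set Z := Subgroup.center Y with hZ
  have hZab : ∀ a ∈ Z, ∀ b ∈ Z, a * b = b * a := fun a ha b _ =>
    (Subgroup.mem_center_iff.1 ha b).symm
  have hZfpf := hfpf Z inferInstance hZab
  by_cases hZtop : Z = ⊤
  · -- abelian
    have : ∃ x ∈ D, x ≠ 1 := by
      by_contra hcon
      push Not at hcon
      obtain ⟨y, hy⟩ := exists_ne (1 : Y)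
      have hy' : y ∈ Subgroup.closure D := by rw [hD']; trivial
      have h1 : Subgroup.closure D ≤ ⊥ := by
        rw [Subgroup.closure_le]
        intro x hx
        exact Subgroup.mem_bot.2 (hcon x hx)
      exact hy (Subgroup.mem_bot.1 (h1 hy'))
    obtain ⟨x, hx, hx1⟩ := this
    have hxZ : x ∈ Z := by rw [hZtop]; trivial
    exact hb4 (card_le_of_fpf (hZfpf x hxZ hx1) hx)
  · obtain ⟨r, B, hr, hB, hZB, hZB', hBab, hBpow⟩ := exists_chief hY Z inferInstance hZtop
    -- `B` is not central
    have hex : ∃ b ∈ B, b ∉ Z := by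
      by_contra hcon
      push Not at hcon
      exact hZB' (le_antisymm hZB hcon)
    obtain ⟨b, hb, hbZ⟩ := hex
    have hex2 : ∃ x ∈ D, b * x * b⁻¹ * x⁻¹ ≠ 1 := by
      by_contra hcon
      push Not at hcon
      apply hbZ
      rw [hZ, Subgroup.mem_center_iff]
      intro g
      exact (hcent b (fun x hx => hcomm_of b x (hcon x hx)) g).symm
    obtain ⟨x, hx, hne⟩ := hex2
    set e := b * x * b⁻¹ * x⁻¹ with he
    have heB : e ∈ B := by
      have e' : e = b * (x * b⁻¹ * x⁻¹) := by rw [he]; group
      rw [e']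
      exact B.mul_mem hb (hB.conj_mem _ (B.inv_mem hb) x)
    have hei : (fx F e).index ≤ c * c := index_comm b x hx
    by_cases heZ : e ∈ Z
    · exact hb3 (card_le_of_fpf (hZfpf e heZ hne) hei)
    · -- `e` is not in the centre of `B`
      have hex3 : ∃ b' ∈ B, b' * e * b'⁻¹ * e⁻¹ ≠ 1 := by
        by_contra hcon
        push Not at hcon
        apply heZ
        -- the centre of `B`
        let ZB : Subgroup Y := B ⊓ Subgroup.centralizer (B : Set Y)
        have hZBn : ZB.Normal := by
          have : (Subgroup.centralizer (B : Set Y)).Normal := inferInstance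
          exact Subgroup.normal_inf_normal B _
        have hZBab : ∀ a ∈ ZB, ∀ b ∈ ZB, a * b = b * a := by
          intro a ha b hb
          have := (Subgroup.mem_centralizer_iff.1 ha.2) b hb.1
          exact this.symm
        have heZB : e ∈ ZB := by
          refine ⟨heB, ?_⟩
          apply Subgroup.mem_centralizer_iff.2
          intro b' hb'
          exact hcomm_of b' e (hcon b' hb')
        rw [hZ, Subgroup.mem_center_iff]
        intro g
        exact (habc ZB hZBn hZBab e heZB g).symm
      obtain ⟨b', hb', hne'⟩ := hex3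
      have h1 : b' * e * b'⁻¹ * e⁻¹ ∈ Z := hBab b' hb' e heB
      exact hb2 (card_le_of_fpf (hZfpf _ h1 hne') (index_comm b' e hei))

end dich

end Pool.Agent.Helper867_Rae
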