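import Pool.Agent.Helper867_Rae.PZ1

set_option autoImplicit false

/-! Lemma Z -/

namespace Pool.Agent.Helper867_Rae

open Pool.Agent.TH62.PL
open scoped commutatorElement

/-- Z1 with an action of a group mapping onto `P` -/
theorem z1' (p l c0 : ℕ) [Fact p.Prime] (hB : Bd p l c0)
    (X : Type) [Group X] [Finite X] (hX : Group.IsSolvable X)
    (P : Subgroup X) (hP : UQ p P) (hcard : Nat.card P ≤ p ^ (l + 1))
    (P0 : Type) [Group P0] (f : P0 →* X) (hf : f.range = P)
    (ι : Type) [Finite ι] [MulAction P0 ι] (M : ι → Subgroup X)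
    (hker : ∀ x : P0, f x = 1 → ∀ i : ι, x • i = i)
    (hfix : ∀ i : ι, ∃ x : P0, x • i ≠ i)
    (hM : ∀ (x : P0) (i : ι) (y : X), y ∈ M i ↔ f x * y * (f x)⁻¹ ∈ M (x • i))
    (hcomm : ∀ i j, i ≠ j → ∀ x ∈ M i, ∀ y ∈ M j, x * y = y * x) :
    LM p c0 (⊥ : Subgroup (⨆ i, M i : Subgroup X)) := by
  classical
  have hpre : ∀ x : P, ∃ y : P0, f y = x := fun x => by
    have : (x : X) ∈ f.range := hf ▸ x.2
    exact this
  choose r hr using hpre
  have hinj : ∀ x y : P0, f x = f y → ∀ i : ι, x • i = y • i := by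
    intro x y hxy i
    have h1 : f (y⁻¹ * x) = 1 := by rw [map_mul, map_inv, hxy, inv_mul_cancel]
    have h2 := hker _ h1 i
    rw [mul_smul] at h2
    rw [← h2, smul_inv_smul, h2]
  letI : MulAction P ι :=
    { smul := fun x i => r x • i
      one_smul := fun i => by
        change r 1 • i = i
        exact hker _ (by rw [hr]; rfl) i
      mul_smul := fun x y i => by
        change r (x * y) • i = r x • (r y • i)
        rw [← mul_smul]
        apply hinj
        rw [hr, map_mul, hr, hr]; rfl }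
  have hsm : ∀ (x : P) (i : ι), x • i = r x • i := fun _ _ => rfl
  refine z1 p l c0 hB X hX P hP hcard ι M ?_ ?_ hcomm
  · intro i
    obtain ⟨x, hx⟩ := hfix i
    refine ⟨⟨f x, hf ▸ ⟨x, rfl⟩⟩, ?_⟩
    rw [hsm, hinj _ x (by rw [hr])]
    exact hx
  · intro x i y
    rw [hsm, hM (r x) i y, hr]

section
variable {X : Type} [Group X]

/-- `[N,R]` is normalised by `N` -/
lemma inv_commutator (N R : Subgroup X) : Inv N ⁅N, R⁆ := by
  intro g hg x hx
  have h1 : (⁅N, R⁆ : Subgroup X).map (MulAut.conj g).toMonoidHom ≤ ⁅N, R⁆ := by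
    rw [Subgroup.commutator_def, MonoidHom.map_closure, Subgroup.closure_le]
    rintro _ ⟨_, ⟨a, ha, b, hb, rfl⟩, rfl⟩
    change g * ⁅a, b⁆ * g⁻¹ ∈ Subgroup.closure _
    rw [← Subgroup.commutator_def]
    have e : g * ⁅a, b⁆ * g⁻¹ = ⁅g * a, b⁆ * ⁅g, b⁆⁻¹ := by
      simp only [commutatorElement_def]; group
    rw [e]
    exact Subgroup.mul_mem _ (Subgroup.commutator_mem_commutator (N.mul_mem hg ha) hb)
      (Subgroup.inv_mem _ (Subgroup.commutator_mem_commutator hg hb))
  exact h1 ⟨x, hx, rfl⟩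

/-- the conjugates of `L` under `P` -/
def Om (P L : Subgroup X) : Type :=
  {K : Subgroup X // ∃ x : P, K = L.map (MulAut.conj (x : X)).toMonoidHom}

instance (P L : Subgroup X) [Finite X] : Finite (Om P L) := by
  unfold Om; infer_instance

noncomputable instance (P L : Subgroup X) : DecidableEq (Om P L) := Classical.decEq _

noncomputable instance (P L : Subgroup X) : MulAction P (Om P L) where
  smul x K := ⟨K.1.map (MulAut.conj (x : X)).toMonoidHom, by
    obtain ⟨K, y, rfl⟩ := K
    refine ⟨x * y, ?_⟩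
    ext z
    simp only [Subgroup.mem_map]
    constructor
    · rintro ⟨_, ⟨w, hw, rfl⟩, rfl⟩
      exact ⟨w, hw, by simp [mul_assoc]⟩
    · rintro ⟨w, hw, rfl⟩
      exact ⟨_, ⟨w, hw, rfl⟩, by simp [mul_assoc]⟩⟩
  one_smul K := by
    apply Subtype.ext
    change K.1.map (MulAut.conj ((1 : P) : X)).toMonoidHom = K.1
    ext z
    simp [Subgroup.mem_map]
  mul_smul x y K := by
    apply Subtype.ext
    change K.1.map (MulAut.conj ((x * y : P) : X)).toMonoidHom =
      (K.1.map (MulAut.conj (y : X)).toMonoidHom).map (MulAut.conj (x : X)).toMonoidHom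
    rw [Subgroup.map_map]
    congr 1
    ext z
    simp [mul_assoc]

lemma Om.smul_val {P L : Subgroup X} (x : P) (K : Om P L) :
    (x • K).1 = K.1.map (MulAut.conj (x : X)).toMonoidHom := rfl

lemma Om.mem_smul {P L : Subgroup X} (x : P) (K : Om P L) (y : X) :
    (x : X) * y * (x : X)⁻¹ ∈ (x • K).1 ↔ y ∈ K.1 := by
  rw [Om.smul_val]
  constructor
  · rintro ⟨z, hz, hz'⟩
    have : z = y := by
      have h : (x : X) * z * (x : X)⁻¹ = (x : X) * y * (x : X)⁻¹ := hz'
      exact mul_left_cancel (mul_right_cancel h)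
    exact this ▸ hz
  · intro h
    exact ⟨y, h, rfl⟩

/-- `j`-subsets of the set of conjugates -/
def Js (P L : Subgroup X) (j : ℕ) : Type := {s : Finset (Om P L) // s.card = j}

instance (P L : Subgroup X) (j : ℕ) [Finite X] : Finite (Js P L j) := by
  unfold Js
  have := Fintype.ofFinite (Om P L)
  infer_instance

noncomputable instance (P L : Subgroup X) (j : ℕ) : MulAction P (Js P L j) where
  smul x s := ⟨s.1.image (fun K => x • K), by
    rw [Finset.card_image_of_injective _ (MulAction.injective x)]; exact s.2⟩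
  one_smul s := by
    apply Subtype.ext
    change s.1.image (fun K => (1 : P) • K) = s.1
    simp
  mul_smul x y s := by
    apply Subtype.ext
    change s.1.image (fun K => (x * y) • K) = (s.1.image (fun K => y • K)).image (fun K => x • K)
    rw [Finset.image_image]
    congr 1
    funext K
    simp [mul_smul]

lemma Js.smul_val {P L : Subgroup X} {j : ℕ} (x : P) (s : Js P L j) :
    (x • s).1 = s.1.image (fun K => x • K) := rfl

/-- the intersection of the members of `s` -/
def Ls (N : Subgroup X) {P L : Subgroup X} (s : Finset (Om P L)) : Subgroup X :=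
  N ⊓ ⨅ K ∈ s, K.1

lemma mem_Ls {N : Subgroup X} {P L : Subgroup X} {s : Finset (Om P L)} {y : X} :
    y ∈ Ls N s ↔ y ∈ N ∧ ∀ K ∈ s, y ∈ K.1 := by
  simp only [Ls, Subgroup.mem_inf, Subgroup.mem_iInf]

lemma Ls_anti {N : Subgroup X} {P L : Subgroup X} {s t : Finset (Om P L)} (h : s ⊆ t) :
    Ls N t ≤ Ls N s := by
  intro y hy
  rw [mem_Ls] at hy ⊢
  exact ⟨hy.1, fun K hK => hy.2 K (h hK)⟩

/-- the terms of the series -/
def Bs (N P L : Subgroup X) (j : ℕ) : Subgroup X := ⨆ s : Js P L j, Ls N s.1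

lemma Bs_zero (N P L : Subgroup X) : Bs N P L 0 = N := by
  apply le_antisymm
  · exact iSup_le fun s => inf_le_left
  · refine le_trans ?_ (le_iSup (fun s : Js P L 0 => Ls N s.1) ⟨∅, rfl⟩)
    intro y hy
    rw [mem_Ls]
    exact ⟨hy, fun K hK => absurd hK (Finset.notMem_empty K)⟩

lemma Bs_le (N P L : Subgroup X) (j : ℕ) : Bs N P L j ≤ N := iSup_le fun _ => inf_le_left

lemma Ls_le_Bs {N P L : Subgroup X} {j : ℕ} {s : Finset (Om P L)} (h : j ≤ s.card) :
    Ls N s ≤ Bs N P L j := by
  obtain ⟨t, hts, ht⟩ := Finset.exists_subset_card_eq h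
  exact (Ls_anti hts).trans (le_iSup (fun s : Js P L j => Ls N s.1) ⟨t, ht⟩)

lemma Bs_succ_le (N P L : Subgroup X) (j : ℕ) : Bs N P L (j + 1) ≤ Bs N P L j :=
  iSup_le fun s => Ls_le_Bs (by rw [s.2]; omega)

variable {N P L : Subgroup X}

lemma Ls_conj (hN : N.Normal) {j : ℕ} (x : P) (s : Js P L j) (y : X) :
    y ∈ Ls N s.1 ↔ (x : X) * y * (x : X)⁻¹ ∈ Ls N (x • s).1 := by
  rw [mem_Ls, mem_Ls, Js.smul_val]
  constructor
  · rintro ⟨h1, h2⟩
    refine ⟨hN.conj_mem y h1 x, ?_⟩
    intro K hK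
    obtain ⟨K', hK', rfl⟩ := Finset.mem_image.1 hK
    exact (Om.mem_smul x K' y).2 (h2 K' hK')
  · rintro ⟨h1, h2⟩
    refine ⟨?_, fun K hK => ?_⟩
    · have := hN.conj_mem _ h1 (x : X)⁻¹
      have e : (x : X)⁻¹ * ((x : X) * y * (x : X)⁻¹) * (x : X)⁻¹⁻¹ = y := by group
      rwa [e] at this
    · exact (Om.mem_smul x K y).1 (h2 _ (Finset.mem_image_of_mem _ hK))

lemma Om.inv (hN : N.Normal) (hL : Inv N L) (K : Om P L) : Inv N K.1 := by
  obtain ⟨K, x, rfl⟩ := K
  rintro g hg _ ⟨y, hy, rfl⟩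
  have h1 : (x : X)⁻¹ * g * (x : X) ∈ N := by
    have := hN.conj_mem g hg (x : X)⁻¹
    rwa [inv_inv] at this
  refine ⟨_, hL _ h1 y hy, ?_⟩
  change (x : X) * (((x : X)⁻¹ * g * (x : X)) * y * ((x : X)⁻¹ * g * (x : X))⁻¹) * (x : X)⁻¹ =
    g * ((x : X) * y * (x : X)⁻¹) * g⁻¹
  group

lemma Ls_inv (hN : N.Normal) (hL : Inv N L) (s : Finset (Om P L)) : Inv N (Ls N s) := by
  intro g hg y hy
  rw [mem_Ls] at hy ⊢
  exact ⟨hN.conj_mem y hy.1 g, fun K hK => Om.inv hN hL K g hg y (hy.2 K hK)⟩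

lemma Bs_inv_N (hN : N.Normal) (hL : Inv N L) (j : ℕ) : Inv N (Bs N P L j) := by
  intro g hg y hy
  have h3 : (Bs N P L j).map (MulAut.conj g).toMonoidHom ≤ Bs N P L j := by
    rw [Bs, Subgroup.map_iSup]
    apply iSup_le
    intro s
    refine le_trans ?_ (le_iSup _ s)
    rintro _ ⟨z, hz, rfl⟩
    exact Ls_inv hN hL s.1 g hg z hz
  exact h3 ⟨y, hy, rfl⟩

lemma Bs_inv_P (hN : N.Normal) (j : ℕ) : Inv P (Bs N P L j) := by
  intro g hg y hy
  have h3 : (Bs N P L j).map (MulAut.conj g).toMonoidHom ≤ Bs N P L j := by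
    rw [Bs, Subgroup.map_iSup]
    apply iSup_le
    intro s
    refine le_trans ?_ (le_iSup _ ((⟨g, hg⟩ : P) • s))
    rintro _ ⟨z, hz, rfl⟩
    exact (Ls_conj hN ⟨g, hg⟩ s z).1 hz
  exact h3 ⟨y, hy, rfl⟩

lemma Bs_normal (hN : N.Normal) (hL : Inv N L) (htop : N ⊔ P = ⊤) (j : ℕ) :
    (Bs N P L j).Normal := by
  refine ⟨fun y hy g => ?_⟩
  have hg : g ∈ N ⊔ P := by rw [htop]; trivial
  rw [Subgroup.mem_sup_of_normal_left] at hg
  obtain ⟨a, ha, b, hb, rfl⟩ := hg
  have h1 := Bs_inv_N hN hL j a ha _ (Bs_inv_P (L := L) hN j b hb y hy)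
  have e : a * (b * y * b⁻¹) * a⁻¹ = a * b * y * (a * b)⁻¹ := by group
  rwa [e] at h1

lemma Ls_comm (hN : N.Normal) (hL : Inv N L) {j : ℕ} (s t : Js P L j) (hst : s ≠ t)
    {a b : X} (ha : a ∈ Ls N s.1) (hb : b ∈ Ls N t.1) :
    a * b * a⁻¹ * b⁻¹ ∈ Bs N P L (j + 1) := by
  have h1 : a * b * a⁻¹ * b⁻¹ ∈ Ls N (s.1 ∪ t.1) := by
    have haN : a ∈ N := (mem_Ls.1 ha).1
    have hbN : b ∈ N := (mem_Ls.1 hb).1
    have h2 : a * b * a⁻¹ * b⁻¹ ∈ Ls N s.1 := by
      have e : a * b * a⁻¹ * b⁻¹ = a * (b * a⁻¹ * b⁻¹) := by group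
      rw [e]
      exact Subgroup.mul_mem _ ha (Ls_inv hN hL s.1 b hbN _ (Subgroup.inv_mem _ ha))
    have h3 : a * b * a⁻¹ * b⁻¹ ∈ Ls N t.1 :=
      Subgroup.mul_mem _ (Ls_inv hN hL t.1 a haN b hb) (Subgroup.inv_mem _ hb)
    rw [mem_Ls] at h2 h3 ⊢
    refine ⟨h2.1, fun K hK => ?_⟩
    rcases Finset.mem_union.1 hK with h | h
    · exact h2.2 K h
    · exact h3.2 K h
  refine Ls_le_Bs ?_ h1
  have hlt : s.1 ⊂ s.1 ∪ t.1 := by
    refine Finset.ssubset_iff_subset_ne.2 ⟨Finset.subset_union_left, fun h => ?_⟩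
    have h4 : t.1 ⊆ s.1 := by rw [h]; exact Finset.subset_union_right
    have h5 : t.1 = s.1 := Finset.eq_of_subset_of_card_le h4 (by rw [s.2, t.2])
    exact hst (Subtype.ext h5.symm)
  have := Finset.card_lt_card hlt
  rw [s.2] at this
  exact this

end

/-- the case `X = N P` -/
theorem z_core (p l c0 : ℕ) [hp : Fact p.Prime] (hB : Bd p l c0)
    (X : Type) [Group X] [Finite X] (hX : Group.IsSolvable X)
    (P N R : Subgroup X) (hP : UQ p P) (hcard : Nat.card P ≤ p ^ (l + 1)) (hN : N.Normal)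
    (hRP : R ≤ P) (hR : R ≠ ⊥) (htop : N ⊔ P = ⊤) :
    LM p (p ^ (l + 1) * (c0 + 1)) (⁅N, R⁆ : Subgroup X) := by
  classical
  set L : Subgroup X := ⁅N, R⁆ with hL
  have hLinv : Inv N L := inv_commutator N R
  have := Fintype.ofFinite (Om P L)
  set k := Fintype.card (Om P L) with hk
  let o : Om P L := ⟨L, 1, by ext z; simp [Subgroup.mem_map]⟩
  have hk1 : 1 ≤ k := Fintype.card_pos_iff.2 ⟨o⟩
  have hkP : k ≤ p ^ (l + 1) := by
    refine le_trans ?_ hcard
    rw [hk, ← Nat.card_eq_fintype_card]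
    refine Nat.card_le_card_of_surjective (fun x : P => x • o) ?_
    rintro ⟨K, x, rfl⟩
    exact ⟨x, rfl⟩
  have hnB : ∀ j, (Bs N P L j).Normal := Bs_normal hN hLinv htop
  -- the last term
  have hlast : Bs N P L k ≤ L := by
    apply iSup_le
    intro s
    have hs : s.1 = Finset.univ := by
      rw [← Finset.card_eq_iff_eq_univ]; exact s.2
    intro y hy
    exact (mem_Ls.1 hy).2 o (by rw [hs]; exact Finset.mem_univ _)
  -- the first step
  have hfirst : LM p (c0 + 1) (Bs N P L 1) := by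
    -- a central element
    have hPpg := hP.1
    set RP : Subgroup P := Subgroup.normalClosure ((R.subgroupOf P : Subgroup P) : Set P) with hRP'
    have hRPne : RP ≠ ⊥ := by
      intro h0
      apply hR
      rw [eq_bot_iff]
      intro x hx
      have h1 : (⟨x, hRP hx⟩ : P) ∈ RP := Subgroup.subset_normalClosure hx
      rw [h0, Subgroup.mem_bot] at h1
      rw [Subgroup.mem_bot]
      exact congrArg Subtype.val h1
    obtain ⟨z, hzR, hz1, hzc⟩ := meet_center hPpg RP hRPne
    have hn1 := hnB 1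
    set mk := QuotientGroup.mk' (Bs N P L 1) with hmk'
    have hmk : Function.Surjective mk := QuotientGroup.mk'_surjective _
    have hker : ∀ x, mk x = 1 ↔ x ∈ Bs N P L 1 := fun x => QuotientGroup.eq_one_iff x
    -- `[N, z] ≤ B₁`
    have hNn : (N.map mk).Normal := hN.map mk hmk
    have hRT : RP ≤ (Subgroup.centralizer ((N.map mk : Subgroup (X ⧸ Bs N P L 1)) :
        Set (X ⧸ Bs N P L 1))).comap (mk.comp P.subtype) := by
      apply Subgroup.normalClosure_le_normal
      intro r hr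
      rw [SetLike.mem_coe, Subgroup.mem_comap, Subgroup.mem_centralizer_iff]
      rintro _ ⟨n, hn, rfl⟩
      have h1 : n * (r : X) * n⁻¹ * (r : X)⁻¹ ∈ Bs N P L 1 := by
        refine Ls_le_Bs (N := N) (P := P) (L := L) (s := {o}) (by simp) ?_
        rw [mem_Ls]
        have h2 : n * (r : X) * n⁻¹ * (r : X)⁻¹ ∈ L :=
          Subgroup.commutator_mem_commutator hn (hr : (r : X) ∈ R)
        refine ⟨?_, fun K hK => ?_⟩
        · have e : n * (r : X) * n⁻¹ * (r : X)⁻¹ = n * ((r : X) * n⁻¹ * (r : X)⁻¹) := by group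
          rw [e]
          exact N.mul_mem hn (hN.conj_mem _ (N.inv_mem hn) _)
        · rw [Finset.mem_singleton] at hK
          rw [hK]; exact h2
      rw [← hker, map_mul, map_mul, map_mul, map_inv, map_inv] at h1
      change mk n * mk (r : X) = mk (r : X) * mk n
      have h6 : mk n * mk (r : X) = (mk n * mk (r : X) * (mk n)⁻¹ * (mk (r : X))⁻¹) *
        (mk (r : X) * mk n) := by group
      rw [h6, h1, one_mul]
    have hzcen : ∀ x : X, mk x * mk (z : X) = mk (z : X) * mk x := by
      intro x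
      have hx : x ∈ N ⊔ P := by rw [htop]; trivial
      rw [Subgroup.mem_sup_of_normal_left] at hx
      obtain ⟨a, ha, b, hb, rfl⟩ := hx
      have h1 : mk a * mk (z : X) = mk (z : X) * mk a := by
        have h2 := hRT hzR
        rw [Subgroup.mem_comap, Subgroup.mem_centralizer_iff] at h2
        exact h2 (mk a) ⟨a, ha, rfl⟩
      have h3 : mk b * mk (z : X) = mk (z : X) * mk b := by
        rw [← map_mul, ← map_mul]
        congr 1
        exact congrArg Subtype.val (hzc ⟨b, hb⟩)
      rw [map_mul, mul_assoc, h3, ← mul_assoc, h1, mul_assoc]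
    have hZn : (Subgroup.zpowers (mk (z : X))).Normal := by
      refine ⟨fun n hn g => ?_⟩
      obtain ⟨k, rfl⟩ := Subgroup.mem_zpowers_iff.1 hn
      obtain ⟨x, rfl⟩ := hmk g
      have h5 : mk x * mk (z : X) ^ k * (mk x)⁻¹ = mk (z : X) ^ k := by
        have h4 : Commute (mk x) (mk (z : X) ^ k) := (show Commute (mk x) (mk (z : X)) from
          hzcen x).zpow_right k
        rw [h4.eq, mul_inv_cancel_right]
      rw [h5]; exact hn
    set B' := (Subgroup.zpowers (mk (z : X))).comap mk with hB'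
    have hB'n : B'.Normal := hZn.comap mk
    have hzB' : (z : X) ∈ B' := Subgroup.mem_zpowers _
    have h1 : LM p c0 (⊥ : Subgroup (X ⧸ B')) := by
      refine hB (X ⧸ B') inferInstance (P.map (QuotientGroup.mk' B'))
        (hP.map _ (QuotientGroup.mk'_surjective B')) ?_
      refine card_map_le hP.1 hcard _ z.2 (fun h => hz1 (Subtype.ext h)) ?_
      exact (QuotientGroup.eq_one_iff _).2 hzB'
    have h2 : LM p c0 B' := by
      have := h1.comap (QuotientGroup.mk' B')
      rwa [MonoidHom.comap_bot, QuotientGroup.ker_mk'] at this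
    have h3 : LM p 1 ((Bs N P L 1).subgroupOf B') := by
      refine LM.of_p inferInstance ?_
      rintro ⟨x, hx⟩ _
      obtain ⟨k, hk⟩ := Subgroup.mem_zpowers_iff.1 hx
      obtain ⟨m, hm⟩ := hPpg z
      refine ⟨p ^ m, PN.prime_pow hp.out m, ?_⟩
      rw [Subgroup.mem_subgroupOf]
      change x ^ (p ^ m) ∈ _
      rw [← hker, map_pow, ← hk, ← zpow_natCast, ← zpow_mul, mul_comm, zpow_mul, zpow_natCast,
        ← map_pow]
      have h5 : (z : X) ^ (p ^ m) = 1 := by
        have := congrArg Subtype.val hm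
        simpa using this
      rw [h5, map_one, one_zpow]
    have h4 := LM.ext hB'n h3 h2
    have h5 : Bs N P L 1 ⊓ B' ≤ Bs N P L 1 := inf_le_left
    exact (h4.mono h5).mono_n (by omega)
  -- the steps
  have hstep : ∀ j, 0 < j → j < k → LM p c0 ((Bs N P L (j + 1)).subgroupOf (Bs N P L j)) := by
    intro j hj0 hjk
    have hnj := hnB (j + 1)
    let mk := QuotientGroup.mk' (Bs N P L (j + 1))
    have hmk : Function.Surjective mk := QuotientGroup.mk'_surjective _
    have hker : ∀ x, mk x = 1 ↔ x ∈ Bs N P L (j + 1) := fun x => QuotientGroup.eq_one_iff x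
    have h1 := z1' p l c0 hB (X ⧸ Bs N P L (j + 1)) inferInstance (P.map mk) (hP.map mk hmk)
      ((Nat.card_le_card_of_surjective (mk.subgroupMap P) (mk.subgroupMap_surjective P)).trans
        hcard) P (mk.comp P.subtype) (by rw [MonoidHom.range_comp, Subgroup.range_subtype])
      (Js P L j) (fun s => (Ls N s.1).map mk) ?_ ?_ ?_ ?_
    · -- conclusion
      have h2 : (⨆ s : Js P L j, (Ls N s.1).map mk) = (Bs N P L j).map mk :=
        (Subgroup.map_iSup mk (fun s : Js P L j => Ls N s.1)).symm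
      have h3 := h1.comap (Subgroup.inclusion (le_of_eq h2.symm))
      have h4 := h3.comap (mk.subgroupMap (Bs N P L j))
      refine h4.mono ?_
      intro x hx
      rw [Subgroup.mem_comap, Subgroup.mem_comap, Subgroup.mem_bot] at hx
      rw [Subgroup.mem_subgroupOf, ← hker]
      exact congrArg Subtype.val hx
    · -- the kernel acts trivially
      intro x hx s
      have hxN : (x : X) ∈ N := Bs_le N P L _ ((hker _).1 hx)
      apply Subtype.ext
      rw [Js.smul_val]
      have : ∀ K : Om P L, x • K = K := by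
        intro K
        apply Subtype.ext
        rw [Om.smul_val]
        have h5 := Om.inv hN hLinv K
        apply le_antisymm
        · rintro _ ⟨y, hy, rfl⟩
          exact h5 _ hxN y hy
        · intro y hy
          refine ⟨(x : X)⁻¹ * y * (x : X), ?_, ?_⟩
          · have := h5 _ (N.inv_mem hxN) y hy
            rwa [inv_inv] at this
          · change (x : X) * ((x : X)⁻¹ * y * (x : X)) * (x : X)⁻¹ = y
            group
      simp only [this, Finset.image_id']
    · -- no fixed point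
      intro s
      by_contra hcon
      push Not at hcon
      have hne : s.1.Nonempty := by
        rw [← Finset.card_pos, s.2]; exact hj0
      obtain ⟨K, hK⟩ := hne
      have hall : s.1 = Finset.univ := by
        apply Finset.eq_univ_of_forall
        intro K'
        -- transitivity
        obtain ⟨x, hx⟩ := K.2
        obtain ⟨y, hy⟩ := K'.2
        have h7 : K = x • o := Subtype.ext hx
        have h8 : K' = y • o := Subtype.ext hy
        have h6 : K' = (y * x⁻¹) • K := by
          rw [h7, h8, ← mul_smul, inv_mul_cancel_right]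
        rw [h6]
        have h9 := congrArg Subtype.val (hcon (y * x⁻¹))
        rw [Js.smul_val] at h9
        rw [← h9]
        exact Finset.mem_image_of_mem _ hK
      have h10 : s.1.card = k := by rw [hall]; rfl
      rw [s.2] at h10
      omega
    · -- equivariance
      intro x s y
      induction y using QuotientGroup.induction_on with
      | H y =>
        change mk y ∈ _ ↔ mk x * mk y * (mk x)⁻¹ ∈ _
        rw [← map_mul, ← map_inv, ← map_mul]
        have hBL : ∀ t : Js P L j, ∀ w : X, mk w ∈ (Ls N t.1).map mk ↔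
            w ∈ Ls N t.1 ⊔ Bs N P L (j + 1) := by
          intro t w
          rw [← Subgroup.mem_comap, Subgroup.comap_map_eq]
          rw [QuotientGroup.ker_mk']
        rw [hBL, hBL]
        have hnB' := hnB (j + 1)
        constructor
        · intro h
          obtain ⟨a, ha, b, hb, rfl⟩ := Subgroup.mem_sup_of_normal_right.1 h
          have e : (x : X) * (a * b) * (x : X)⁻¹ =
            ((x : X) * a * (x : X)⁻¹) * ((x : X) * b * (x : X)⁻¹) := by group
          rw [e]
          exact Subgroup.mul_mem _ (Subgroup.mem_sup_left ((Ls_conj hN x s a).1 ha))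
            (Subgroup.mem_sup_right (hnB'.conj_mem b hb x))
        · intro h
          obtain ⟨a, ha, b, hb, hab⟩ := Subgroup.mem_sup_of_normal_right.1 h
          have e : y = ((x : X)⁻¹ * a * (x : X)) * ((x : X)⁻¹ * b * (x : X)) := by
            have : y = (x : X)⁻¹ * ((x : X) * y * (x : X)⁻¹) * (x : X) := by group
            rw [this, ← hab]; group
          rw [e]
          refine Subgroup.mul_mem _ (Subgroup.mem_sup_left ?_) (Subgroup.mem_sup_right ?_)
          · rw [Ls_conj hN x s]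
            have e2 : (x : X) * ((x : X)⁻¹ * a * (x : X)) * (x : X)⁻¹ = a := by group
            rw [e2]; exact ha
          · have := hnB'.conj_mem b hb (x : X)⁻¹
            rwa [inv_inv] at this
    · -- commuting
      rintro s t hst _ ⟨a, ha, rfl⟩ _ ⟨b, hb, rfl⟩
      have h5 := (hker _).2 (Ls_comm hN hLinv s t hst ha hb)
      rw [map_mul, map_mul, map_mul, map_inv, map_inv] at h5
      have h6 : mk a * mk b = (mk a * mk b * (mk a)⁻¹ * (mk b)⁻¹) * (mk b * mk a) := by group
      rw [h6, h5, one_mul]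
  -- combination
  have hall : ∀ j, j + 1 ≤ k → LM p ((c0 + 1) + j * c0) (Bs N P L (j + 1)) := by
    intro j
    induction j with
    | zero => intro _; simpa using hfirst
    | succ j ih =>
      intro hj
      have h1 := ih (by omega)
      have h2 := LM.ext (hnB (j + 1)) (hstep (j + 1) (by omega) (by omega)) h1
      have h3 : Bs N P L (j + 1 + 1) ⊓ Bs N P L (j + 1) ≤ Bs N P L (j + 1 + 1) := inf_le_left
      refine (h2.mono h3).mono_n (le_of_eq ?_)
      ring
  obtain ⟨k', hk'⟩ : ∃ k', k = k' + 1 := ⟨k - 1, by omega⟩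
  have h1 := hall k' (by omega)
  rw [← hk'] at h1
  refine (h1.mono hlast).mono_n ?_
  have h2 : k' ≤ p ^ (l + 1) - 1 := by omega
  have h3 : 1 ≤ p ^ (l + 1) := Nat.one_le_pow _ _ hp.out.pos
  calc (c0 + 1) + k' * c0 ≤ (c0 + 1) + k' * (c0 + 1) := by gcongr; omega
    _ = (k' + 1) * (c0 + 1) := by ring
    _ ≤ p ^ (l + 1) * (c0 + 1) := by gcongr; omega

theorem z : S_Z := by
  intro p l c0 hp hB X _ _ hX P N R hP hcard hN hRP hR
  set Y : Subgroup X := N ⊔ P with hY
  have hNY : N ≤ Y := le_sup_left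
  have hPY : P ≤ Y := le_sup_right
  have h1 : LM p (p ^ (l + 1) * (c0 + 1)) (⁅N.subgroupOf Y, R.subgroupOf Y⁆ : Subgroup Y) := by
    refine z_core p l c0 hB Y inferInstance (P.subgroupOf Y) (N.subgroupOf Y) (R.subgroupOf Y)
      (hP.subgroupOf hPY) ?_ (hN.comap _) ?_ ?_ ?_
    · have : Nat.card (P.subgroupOf Y) = Nat.card P :=
        Nat.card_congr (Subgroup.subgroupOfEquivOfLe hPY).toEquiv
      rw [this]; exact hcard
    · exact Subgroup.comap_mono hRP
    · intro h0
      apply hR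
      rw [eq_bot_iff]
      intro x hx
      have h2 : (⟨x, hPY (hRP hx)⟩ : Y) ∈ R.subgroupOf Y := hx
      rw [h0, Subgroup.mem_bot] at h2
      rw [Subgroup.mem_bot]
      exact congrArg Subtype.val h2
    · rw [← Subgroup.subgroupOf_sup hNY hPY, Subgroup.subgroupOf_self]
  have h2 := h1.comap (Subgroup.inclusion hNY)
  refine h2.mono ?_
  intro x hx
  rw [Subgroup.mem_comap] at hx
  rw [Subgroup.mem_subgroupOf]
  have h3 : ((Subgroup.inclusion hNY x : Y) : X) ∈
      (⁅N.subgroupOf Y, R.subgroupOf Y⁆ : Subgroup Y).map Y.subtype := ⟨_, hx, rfl⟩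
  rw [Subgroup.map_commutator, Subgroup.map_subgroupOf_eq_of_le hNY,
    Subgroup.map_subgroupOf_eq_of_le (hRP.trans hPY)] at h3
  exact h3

end Pool.Agent.Helper867_Rae
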