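import Pool.Agent.Helper867_Rae.Final
import Pool.Agent.Helper867_Rae.Main
import Pool.Agent.Helper867_Rae.Step
import Pool.Agent.Helper867_Rae.PZ
import Pool.Agent.Helper867_Rae.PB0
import Pool.Agent.Helper867_Rae.J_B
import Pool.Agent.Helper867_Rae.J_C2
import Pool.Agent.Helper867_Rae.J_C2a
import Pool.Agent.Helper867_Rae.J_C2c
import Pool.Agent.Helper867_Rae.J_C2w
import Pool.Agent.Helper867_Rae.J_D
import Pool.Agent.Helper867_Rae.J_D1
import Pool.Agent.Helper867_Rae.J_Bm
import Pool.Agent.Helper867_Rae.J_EA
import Pool.Agent.Helper867_Rae.J_F1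
import Pool.Agent.Helper867_Rae.J_F2
import Pool.Agent.Helper867_Rae.J_HH
import Pool.Agent.Helper867_Rae.J_R
import Pool.Agent.Helper867_Rae.J_V
import Pool.Agent.Helper867_Rae.J_ch
import Pool.Agent.Helper867_Rae.J_core
import Pool.Agent.Helper867_Rae.J_fin
import Pool.Agent.Helper867_Rae.J_fix
import Pool.Agent.Helper867_Rae.J_four
import Pool.Agent.Helper867_Rae.J_loc
import Pool.Agent.Helper867_Rae.J_tree
import Pool.Agent.Helper699_Rae.C1
import Pool.Agent.Helper736_Rae.M

/-!
# Assembly of the pieces (finite part and infinite part)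
-/

set_option autoImplicit false

namespace Pool.Agent.Helper867_Rae

/-- The finite theorem `S_F`. -/
theorem finite_part : S_F := by
  have hB : S_B := JobB.target (JobBm.target b0)
  have hC1' : S_C1 := Pool.Agent.Helper699_Rae.c1 z hB
  have hD : S_D := JobD.target JobD1.target
  have hC2c : S_C2c := JobC2c.target (JobC2w.target hD)
  have hC2 : S_C2 := JobC2.target JobC2a.target hC2c hC1' hB
  exact thmF hC2 JobR.target JobV.target Pool.Agent.Helper736_Rae.m

/-- The infinite part `S_main`. -/
theorem infinite_part : S_main :=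
  main_of Jobcore.target JobHH.target Jobfix.target (JobEA.target Jobfour.target)
    (Jobch.target JobF1.target JobF2.target)
    (Jobfin.target (Jobch.target JobF1.target JobF2.target) JobF1.target JobF2.target)

end Pool.Agent.Helper867_Rae
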