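import Pool.Agent.Helper867_Rae.Defs

set_option autoImplicit false

/-! Basic properties of `LM` and `UQ`. -/

namespace Pool.Agent.Helper867_Rae

open Pool.Agent.TH62.PL

section LM
variable {G : Type} [Group G] {p : ℕ}

lemma LM.mono {n : ℕ} {N N' : Subgroup G} (h : LM p n N) (hle : N ≤ N') : LM p n N' := by
  obtain ⟨A, h1, h2, h3⟩ := h
  exact ⟨A, h1, h2.trans hle, h3⟩

lemma LM.mono_n {n m : ℕ} {N : Subgroup G} (h : LM p n N) (hnm : n ≤ m) : LM p m N := by
  obtain ⟨A, h1, h2, h3⟩ := h
  exact ⟨A, h1, h2, h3.mono_n hnm⟩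

lemma LM.of_Len {n : ℕ} {N : Subgroup G} (hN : N.Normal) (h : Len {p} n N) : LM p n N :=
  ⟨N, hN, le_rfl, h⟩

lemma LM.len {n : ℕ} {N : Subgroup G} (hN : N.Normal) (h : LM p n N) : Len {p} n N := by
  obtain ⟨A, h1, h2, h3⟩ := h
  exact h3.mono hN h2

lemma LM_bot_iff {n : ℕ} : LM p n (⊥ : Subgroup G) ↔ Len {p} n (⊥ : Subgroup G) :=
  ⟨fun h => h.len inferInstance, fun h => LM.of_Len inferInstance h⟩

lemma LM.top (n : ℕ) : LM p n (⊤ : Subgroup G) := LM.of_Len inferInstance (Len.top n)

lemma LM.comap {H : Type} [Group H] (f : G →* H) {n : ℕ} {N : Subgroup H} (h : LM p n N) :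
    LM p n (N.comap f) := by
  obtain ⟨A, h1, h2, h3⟩ := h
  exact ⟨A.comap f, h1.comap f, Subgroup.comap_mono h2, h3.comap f⟩

lemma LM.map {H : Type} [Group H] (f : G →* H) (hf : Function.Surjective f) {n : ℕ}
    {N : Subgroup G} (h : LM p n N) : LM p n (N.map f) := by
  obtain ⟨A, h1, h2, h3⟩ := h
  exact ⟨A.map f, h1.map f hf, Subgroup.map_mono h2, h3.map f hf⟩

lemma LM.inf {n : ℕ} {N N' : Subgroup G} (h : LM p n N) (h' : LM p n N') : LM p n (N ⊓ N') := by
  obtain ⟨A, h1, h2, h3⟩ := h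
  obtain ⟨A', h1', h2', h3'⟩ := h'
  exact ⟨A ⊓ A', Subgroup.normal_inf_normal A A', inf_le_inf h2 h2', h3.inf h3'⟩

lemma LM.iInf {ι : Type} [Finite ι] {n : ℕ} {N : ι → Subgroup G} (h : ∀ i, LM p n (N i)) :
    LM p n (⨅ i, N i) := by
  classical
  have := Fintype.ofFinite ι
  have key : ∀ s : Finset ι, LM p n (⨅ i ∈ s, N i) := by
    intro s
    induction s using Finset.induction_on with
    | empty => simpa using LM.top n
    | insert a s _ ih =>
      rw [Finset.iInf_insert]
      exact (h a).inf ih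
  refine (key Finset.univ).mono (le_of_eq ?_)
  simp

lemma LM.normalCore {n : ℕ} {N : Subgroup G} (h : LM p n N) : LM p n N.normalCore := by
  obtain ⟨A, h1, h2, h3⟩ := h
  exact ⟨A, h1, Subgroup.normal_le_normalCore.2 h2, h3⟩

/-- independence of the conjugate -/
lemma LM.conj {n : ℕ} {N N' : Subgroup G} (g : G) (hg : ∀ x, x ∈ N → g⁻¹ * x * g ∈ N')
    (h : LM p n N) : LM p n N' := by
  obtain ⟨A, h1, h2, h3⟩ := h
  refine ⟨A, h1, fun x hx => ?_, h3⟩
  have h4 := hg _ (h2 (h1.conj_mem x hx g))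
  have h5 : g⁻¹ * (g * x * g⁻¹) * g = x := by group
  rwa [h5] at h4

lemma LM.absorb {n : ℕ} {N D : Subgroup G} (hN : N.Normal) (hle : N ≤ D) (h : PF {p}ᶜ N D)
    (hD : LM p n D) : LM p n N := by
  obtain ⟨A, h1, h2, h3⟩ := hD
  have h4 : Len {p} n (A ⊔ N) := h3.mono (Subgroup.sup_normal A N) le_sup_left
  exact ⟨N, hN, le_rfl, h4.absorb le_sup_right (h.mono le_rfl (sup_le h2 hle))⟩

/-- restriction to a smaller subgroup -/
lemma LM.sub {n : ℕ} {N H K : Subgroup G} (hHK : H ≤ K) (h : LM p n (N.subgroupOf K)) :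
    LM p n (N.subgroupOf H) := by
  have := h.comap (Subgroup.inclusion hHK)
  rw [Subgroup.subgroupOf, Subgroup.comap_comap] at this
  exact this

lemma LM.subgroupOf {n : ℕ} {N H : Subgroup G} (h : LM p n N) : LM p n (N.subgroupOf H) :=
  h.comap H.subtype

/-- transport of `LM` along an equality of subgroups -/
lemma LM.congr {n : ℕ} {H K N : Subgroup G} (e : H = K) (h : LM p n (N.subgroupOf H)) :
    LM p n (N.subgroupOf K) := by
  subst e; exact h

end LM

section ext
variable {G : Type} [Group G] {p : ℕ}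

/-- the intersection of all conjugates of a subgroup of a normal subgroup -/
lemma normalCore_map_normal (N : Subgroup G) : N.normalCore.Normal := inferInstance

/-- uniform exponents in finite groups -/
lemma PF_iInf_conj [Finite G] {σ : Set ℕ} {A B : Subgroup G} (h : PF σ A B) :
    PF σ A.normalCore B.normalCore := by
  classical
  intro b hb
  have hb' : ∀ g : G, g * b * g⁻¹ ∈ B := fun g => hb g
  choose m hm hm' using fun g : G => h _ (hb' g)
  have := Fintype.ofFinite G
  refine ⟨∏ g : G, m g, ?_, ?_⟩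
  · refine Finset.prod_induction m (PN σ) (fun a b ha hb => ha.mul hb) (PN.one σ) fun g _ => hm g
  · intro g
    have h1 : g * b ^ (∏ g : G, m g) * g⁻¹ = (g * b * g⁻¹) ^ (∏ g : G, m g) := by
      rw [conj_pow]
    rw [h1, ← Finset.mul_prod_erase Finset.univ m (Finset.mem_univ g), pow_mul]
    exact A.pow_mem (hm' g) _

lemma Len.iInf {ι : Type} [Finite ι] {n : ℕ} {N : ι → Subgroup G}
    (h : ∀ i, Len {p} n (N i)) : Len {p} n (⨅ i, N i) := by
  classical
  have := Fintype.ofFinite ι
  have key : ∀ s : Finset ι, Len {p} n (⨅ i ∈ s, N i) := by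
    intro s
    induction s using Finset.induction_on with
    | empty => simpa using Len.top n
    | insert a s _ ih =>
      rw [Finset.iInf_insert]
      exact (h a).inf ih
  have := key Finset.univ
  simpa using this

lemma Len.core_conj [Finite G] {C : Subgroup G} (hC : C.Normal) {a : ℕ} {B : Subgroup C}
    (h : Len {p} a B) : Len {p} a ((B.map C.subtype).normalCore.subgroupOf C) := by
  have e : (B.map C.subtype).normalCore.subgroupOf C =
      ⨅ g : G, B.comap (MulAut.conjNormal g : MulAut C).toMonoidHom := by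
    ext x
    rw [Subgroup.mem_subgroupOf, Subgroup.mem_iInf]
    constructor
    · intro hx g
      obtain ⟨y, hy, hy'⟩ := hx g
      rw [Subgroup.mem_comap]
      have : (MulAut.conjNormal g : MulAut C) x = y := by
        apply Subtype.ext
        rw [MulAut.conjNormal_apply]
        exact hy'.symm
      change (MulAut.conjNormal g : MulAut C) x ∈ B
      rw [this]; exact hy
    · intro hx g
      exact ⟨(MulAut.conjNormal g : MulAut C) x, hx g, by
        change (((MulAut.conjNormal g : MulAut C) x : C) : G) = _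
        rw [MulAut.conjNormal_apply]⟩
  rw [e]
  exact Len.iInf fun g => h.comap _

/-- a version of `Len` for a normal subgroup `C`, with all terms normal in `G` -/
lemma Len.core_ext [Finite G] {C : Subgroup G} (hC : C.Normal) {a b : ℕ} :
    ∀ {M : Subgroup G}, M ≤ C → M.Normal → Len {p} a (M.subgroupOf C) → ∀ {B : Subgroup G},
      B.Normal → B ≤ C → Len {p} b B → Len {p} (a + b) (M ⊓ B) := by
  induction a with
  | zero =>
    intro M hMC hM h B hB hBC hlen
    rw [Nat.zero_add]
    have h1 : PF {p}ᶜ (M ⊓ B) B := by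
      intro x hx
      obtain ⟨m, hm, hm'⟩ := h ⟨x, hBC hx⟩ trivial
      exact ⟨m, hm, hm', B.pow_mem hx m⟩
    exact hlen.absorb inf_le_right h1
  | succ a ih =>
    rintro M hMC hM ⟨A₀, B₀, hA₀, hB₀, hMA₀, hAB₀, h1, h2, h3⟩ B hB hBC hlen
    -- replace `A₀`, `B₀` by the intersections of the conjugates
    set A := (A₀.map C.subtype).normalCore with hAdef
    set D := (B₀.map C.subtype).normalCore with hDdef
    have hAC : A ≤ C := (Subgroup.normalCore_le _).trans (by
      rintro _ ⟨x, _, rfl⟩; exact x.2)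
    have hDC : D ≤ C := (Subgroup.normalCore_le _).trans (by
      rintro _ ⟨x, _, rfl⟩; exact x.2)
    have hMA : M ≤ A := by
      apply Subgroup.normal_le_normalCore.2
      intro x hx
      exact ⟨⟨x, hMC hx⟩, hMA₀ hx, rfl⟩
    have hAD : A ≤ D := Subgroup.normalCore_mono (Subgroup.map_mono hAB₀)
    have hPA : PF {p}ᶜ M A := by
      have h4 : PF {p}ᶜ M (A₀.map C.subtype) := by
        rintro _ ⟨x, hx, rfl⟩
        obtain ⟨m, hm, hm'⟩ := h1 x hx
        exact ⟨m, hm, hm'⟩
      exact h4.mono le_rfl (Subgroup.normalCore_le _)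
    have hPD : PF {p} A D := by
      have h4 : PF {p} (A₀.map C.subtype) (B₀.map C.subtype) := h2.map C.subtype
      exact PF_iInf_conj h4
    -- the length over `D`
    have hL : Len {p} a (D.subgroupOf C) := Len.core_conj hC h3
    have h5 := ih hDC inferInstance hL hB hBC hlen
    have e : a + 1 + b = (a + b) + 1 := by omega
    rw [e]
    exact ⟨A ⊓ B, D ⊓ B, inferInstance, inferInstance, inf_le_inf_right _ hMA,
      inf_le_inf_right _ hAD, hPA.inf (PF.refl B), hPD.inf (PF.refl B), h5⟩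

/-- (L6) -/
lemma LM.ext [Finite G] {C : Subgroup G} (hC : C.Normal) {a b : ℕ} {M : Subgroup G}
    (h1 : LM p a (M.subgroupOf C)) (h2 : LM p b C) : LM p (a + b) (M ⊓ C) := by
  obtain ⟨A, hA, hAM, hA'⟩ := h1
  obtain ⟨B, hB, hBC, hB'⟩ := h2
  have h3 := Len.core_conj hC hA'
  have h4 : (A.map C.subtype).normalCore ≤ C := (Subgroup.normalCore_le _).trans (by
      rintro _ ⟨x, _, rfl⟩; exact x.2)
  have h5 := Len.core_ext hC h4 inferInstance h3 hB hBC hB'
  refine ⟨_, inferInstance, ?_, h5⟩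
  refine inf_le_inf ?_ hBC
  refine (Subgroup.normalCore_le _).trans ?_
  rintro _ ⟨x, hx, rfl⟩
  exact hAM hx

end ext

end Pool.Agent.Helper867_Rae
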