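import Pool.Agent.TH62.PL.Hall

set_option autoImplicit false

/-!
Definitions for the proof of Rae's theorem on the `p`-length (for all primes `p`) and of the
structure theorem for locally 2-soluble groups with an `S_2`-sparse subgroup of finite index.

`Len {p} n N`, `FL {p} n N`, `PF σ A B`, `Inv K Y` are from `Pool.Agent.TH62.PL.Defs`:
* `PF σ A B`: every `b ∈ B` has a power `b ^ m ∈ A` with `m ≠ 0` all of whose prime divisors lie in `σ`;
* `Len {p} n N`: `G/N` has `p`-length at most `n` (normal series `p', p, p', ..., p'`);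
* `FL {p} n N`: `G/N` is an extension of a `p`-group by a group of `p`-length at most `n`;
* `Inv K Y`: `∀ g ∈ K, ∀ x ∈ Y, g * x * g⁻¹ ∈ Y`.
-/

namespace Pool.Agent.Helper867_Rae

open Pool.Agent.TH62.PL

section
variable {G : Type} [Group G]

/-- `G / core N` has `p`-length at most `n` (`N` any subgroup). -/
def LM (p n : ℕ) (N : Subgroup G) : Prop :=
  ∃ A : Subgroup G, A.Normal ∧ A ≤ N ∧ Len {p} n A

/-- `P` is a `p`-subgroup and there is a largest `p`-subgroup among those containing `P`
(in a finite group: `P` lies in exactly one Sylow `p`-subgroup). -/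
def UQ (p : ℕ) (P : Subgroup G) : Prop :=
  IsPGroup p P ∧ ∃ S : Subgroup G, IsPGroup p S ∧ ∀ T : Subgroup G, IsPGroup p T → P ≤ T → T ≤ S

/-- `|[M/N, y]| ≤ c`: the elements `m ∈ M` with `[y,m] ∈ N` contain a subgroup of index `≤ c`. -/
def Sm (M N : Subgroup G) (y : G) (c : ℕ) : Prop :=
  ∃ C : Subgroup G, C ≤ M ∧ (∀ m ∈ C, y * m * y⁻¹ * m⁻¹ ∈ N) ∧ C.relIndex M ≤ c

end

/-- the bound of Theorem F for `|P| ≤ p ^ l` and soluble groups -/
def Bd (p l c : ℕ) : Prop :=
  ∀ (X : Type) [Group X] [Finite X], Group.IsSolvable X →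
    ∀ P : Subgroup X, UQ p P → Nat.card P ≤ p ^ l → LM p c (⊥ : Subgroup X)

/-- locally finite -/
def LF (G : Type) [Group G] : Prop := ∀ H : Subgroup G, H.FG → Finite H

/-- `F` is a finite `p`-subgroup of `H` and there is a largest one among the `p`-subgroups of `H`
containing `F` -/
def UQi {G : Type} [Group G] (p : ℕ) (H F : Subgroup G) : Prop :=
  F ≤ H ∧ Finite F ∧ IsPGroup p F ∧
    ∃ S : Subgroup G, S ≤ H ∧ IsPGroup p S ∧
      ∀ T : Subgroup G, T ≤ H → IsPGroup p T → F ≤ T → T ≤ S

/-- hereditary form: every subgroup has such an `F` -/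
def HUQ (p : ℕ) (G : Type) [Group G] : Prop := ∀ H : Subgroup G, ∃ F : Subgroup G, UQi p H F

end Pool.Agent.Helper867_Rae
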