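import Pool.Agent.Helper867_Rae.Main
import Pool.Agent.Helper867_Rae.Stmts

set_option autoImplicit false

/-! From the structure theorem and Theorem F to the frozen statement. -/

namespace Pool.Agent.Helper867_Rae

open Pool.Agent.TH62.PL

/-- the subnormal series of the hypothesis gives a bound for the length -/
lemma len_of_subnormal {G : Type} [Group G] {K : Subgroup G} (hK : Finite K) (n : ℕ)
    (S : ℕ → Subgroup G) (h0 : S 0 = ⊥) (hn : S n = K)
    (h : ∀ i < n, S i ≤ S (i + 1) ∧ ((S i).subgroupOf (S (i + 1))).Normal ∧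
      ((∀ x ∈ S (i + 1), ∃ k : ℕ, x ^ (2 ^ k : ℕ) ∈ S i) ∨
        (∀ x ∈ S (i + 1), ∃ m : ℕ, Odd m ∧ x ^ m ∈ S i))) :
    ∃ c, Len {2} c (⊥ : Subgroup K) := by
  have : Fact (Nat.Prime 2) := ⟨Nat.prime_two⟩
  have hle : ∀ i j, i ≤ j → j ≤ n → S i ≤ S j := by
    intro i j hij
    induction hij with
    | refl => intro _; exact le_rfl
    | step _ ih => intro hj; exact (ih (by omega)).trans (h _ (by omega)).1
  have hfin : ∀ i ≤ n, Finite (S i) := by
    intro i hi
    have h1 : S i ≤ K := hn ▸ hle i n hi le_rfl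
    exact Finite.of_injective _ (Subgroup.inclusion_injective h1)
  have key : ∀ i ≤ n, LM 2 i (⊥ : Subgroup (S i)) := by
    intro i
    induction i with
    | zero =>
      intro _
      refine (LM.top 0).mono ?_
      intro x _
      rw [Subgroup.mem_bot]
      apply Subtype.ext
      have : (x : G) ∈ (⊥ : Subgroup G) := h0 ▸ x.2
      exact Subgroup.mem_bot.1 this
    | succ i ih =>
      intro hi
      have h1 := ih (by omega)
      have := hfin (i + 1) hi
      obtain ⟨hle', hnorm, hlay⟩ := h i (by omega)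
      have h2 : LM 2 i ((⊥ : Subgroup (S (i + 1))).subgroupOf ((S i).subgroupOf (S (i + 1)))) := by
        rw [Subgroup.bot_subgroupOf]
        have h3 := h1.comap (Subgroup.subgroupOfEquivOfLe hle').toMonoidHom
        refine h3.mono ?_
        intro x hx
        rw [Subgroup.mem_comap, Subgroup.mem_bot] at hx
        rw [Subgroup.mem_bot]
        exact (Subgroup.subgroupOfEquivOfLe hle').injective (hx.trans (map_one _).symm)
      have h4 : LM 2 1 ((S i).subgroupOf (S (i + 1))) := by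
        rcases hlay with hl | hl
        · apply LM.of_p hnorm
          rintro ⟨x, hx⟩ _
          obtain ⟨k, hk⟩ := hl x hx
          exact ⟨2 ^ k, PN.prime_pow Nat.prime_two k, hk⟩
        · apply LM.of_p' hnorm
          rintro ⟨x, hx⟩ _
          obtain ⟨m, hm, hm'⟩ := hl x hx
          refine ⟨m, PN_compl Nat.prime_two ?_ ?_, hm'⟩
          · rintro rfl; exact (by decide : ¬ Odd 0) hm
          · exact hm.not_two_dvd_nat
      have h5 := LM.ext hnorm h2 h4
      rwa [bot_inf_eq] at h5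
  refine ⟨n, ?_⟩
  have h1 := key n le_rfl
  rw [LM_bot_iff] at h1
  subst hn
  exact h1

lemma odd_of_PN {m : ℕ} (h : PN {2}ᶜ m) : Odd m := by
  rw [← Nat.not_even_iff_odd, even_iff_two_dvd]
  intro h2
  exact h.2 2 Nat.prime_two h2 rfl

theorem final (htree : S_tree) (hloc : S_loc) (hF : S_F) (hmain : S_main) :
    ∀ (G : Type) [Group G],
    (∀ H : Subgroup G, H.FG → Finite H) →
    (∀ K : Subgroup G, K.FG → ∃ n : ℕ, ∃ S : ℕ → Subgroup G, S 0 = ⊥ ∧ S n = K ∧
        ∀ i < n, S i ≤ S (i + 1) ∧ ((S i).subgroupOf (S (i + 1))).Normal ∧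
          ((∀ x ∈ S (i + 1), ∃ k : ℕ, x ^ (2 ^ k : ℕ) ∈ S i) ∨
           (∀ x ∈ S (i + 1), ∃ m : ℕ, Odd m ∧ x ^ m ∈ S i))) →
    (∃ K : Subgroup G, K.FiniteIndex ∧
        ∀ H : Subgroup G, H ≤ K → Countable H →
          Cardinal.mk (Sylow 2 H) < Cardinal.continuum) →
    (∃ A B C : Subgroup G, A.Normal ∧ B.Normal ∧ C.Normal ∧ A ≤ B ∧ B ≤ C ∧
        C.FiniteIndex ∧ IsPGroup 2 A ∧
        (∀ x ∈ B, ∃ m : ℕ, Odd m ∧ x ^ m ∈ A) ∧
        (∀ x ∈ C, ∃ k : ℕ, x ^ (2 ^ k : ℕ) ∈ B)) ∧
    (∀ H : ℕ → Subgroup G, Antitone H →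
        (∀ n, IsPGroup 2 (H n) ∧ sSup {N : Subgroup G | N.Normal ∧ IsPGroup 2 N} ≤ H n) →
        ∃ N : ℕ, ∀ n ≥ N, H n = H N) := by
  intro G _ lf hsol ⟨K, hKfin, hsparse⟩
  have : Fact (Nat.Prime 2) := ⟨Nat.prime_two⟩
  have hUK := htree G lf K hsparse
  obtain ⟨P, hPK, hPfin, hPp, S0, hS0K, hS0p, hmax0⟩ := hUK K le_rfl
  -- the bound
  obtain ⟨l, hl⟩ := hPp.exists_card_eq
  obtain ⟨c, hc⟩ := hF 2 l
  -- the length of `K`
  have hlenK : Len {2} c (⊥ : Subgroup K) := by
    have lfK : LF K := LF.subgroup lf K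
    refine hloc 2 c K Nat.prime_two lfK (P.subgroupOf K) ?_ ?_
    · exact Finite.of_equiv _ (Subgroup.subgroupOfEquivOfLe hPK).symm.toEquiv
    · intro X hXfin hPX
      -- the image of `X` in `G`
      set X' : Subgroup G := X.map K.subtype with hX'
      have hX'fin : Finite X' :=
        Finite.of_equiv _ (X.equivMapOfInjective K.subtype K.subtype_injective).toEquiv
      have hX'fg : X'.FG := (Group.fg_iff_subgroup_fg X').1 inferInstance
      obtain ⟨n, S, hS0, hSn, hS⟩ := hsol X' hX'fg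
      obtain ⟨c', hc'⟩ := len_of_subnormal hX'fin n S hS0 hSn hS
      have hX : ∃ n, Len {2} n (⊥ : Subgroup X) := by
        refine ⟨c', ?_⟩
        have h1 := hc'.comap (X.equivMapOfInjective K.subtype K.subtype_injective).toMonoidHom
        have h2 : (⊥ : Subgroup X').comap
            (X.equivMapOfInjective K.subtype K.subtype_injective).toMonoidHom = ⊥ := by
          rw [MonoidHom.comap_bot]
          exact (MonoidHom.ker_eq_bot_iff _).2
            (X.equivMapOfInjective K.subtype K.subtype_injective).injective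
        rwa [h2] at h1
      refine hc X hX ((P.subgroupOf K).subgroupOf X) ?_ ?_
      · -- uniqueness
        refine ⟨(hPp.comap_subtype).comap_subtype, (S0.subgroupOf K).subgroupOf X,
          (hS0p.comap_subtype).comap_subtype, ?_⟩
        intro T hT hPT
        have h1 : (T.map X.subtype).map K.subtype ≤ S0 := by
          refine hmax0 _ ?_ ((hT.map _).map _) ?_
          · rintro _ ⟨y, _, rfl⟩; exact y.2
          · intro x hx
            have hxX : (⟨x, hPK hx⟩ : K) ∈ X := hPX hx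
            exact ⟨⟨x, hPK hx⟩, ⟨⟨⟨x, hPK hx⟩, hxX⟩, hPT hx, rfl⟩, rfl⟩
        intro x hx
        exact h1 ⟨x, ⟨x, hx, rfl⟩, rfl⟩
      · have h1 : Nat.card ((P.subgroupOf K).subgroupOf X) = Nat.card (P.subgroupOf K) :=
          Nat.card_congr (Subgroup.subgroupOfEquivOfLe hPX).toEquiv
        have h2 : Nat.card (P.subgroupOf K) = Nat.card P :=
          Nat.card_congr (Subgroup.subgroupOfEquivOfLe hPK).toEquiv
        rw [h1, h2, hl]
  -- the normal core
  set N : Subgroup G := K.normalCore with hN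
  have hNK : N ≤ K := Subgroup.normalCore_le K
  have hNn : N.Normal := inferInstance
  have hNfin : N.FiniteIndex := by
    have := hKfin
    infer_instance
  have lfN : LF N := LF.subgroup lf N
  have hUN : HUQ 2 N := by
    intro H
    have hHN : H.map N.subtype ≤ N := by rintro _ ⟨x, _, rfl⟩; exact x.2
    obtain ⟨F, hFH, hFfin, hFp, S, hSH, hSp, hmax⟩ := hUK (H.map N.subtype) (hHN.trans hNK)
    have hFN : F ≤ N := hFH.trans hHN
    have hSN : S ≤ N := hSH.trans hHN
    have hmem : ∀ (x : N), (x : G) ∈ H.map N.subtype → x ∈ H := by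
      rintro x ⟨y, hy, hxy⟩
      have : y = x := Subtype.ext hxy
      exact this ▸ hy
    refine ⟨F.subgroupOf N, fun x hx => hmem x (hFH hx), ?_, hFp.comap_subtype,
      S.subgroupOf N, fun x hx => hmem x (hSH hx), hSp.comap_subtype, ?_⟩
    · exact Finite.of_equiv _ (Subgroup.subgroupOfEquivOfLe hFN).symm.toEquiv
    · intro T hTH hTp hFT
      have h1 := hmax (T.map N.subtype) (Subgroup.map_mono hTH) (hTp.map _) (by
        intro x hx
        exact ⟨⟨x, hFN hx⟩, hFT hx, rfl⟩)
      intro x hx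
      exact h1 ⟨x, hx, rfl⟩
  have hlenN : Len {2} c (⊥ : Subgroup N) := by
    have h1 := hlenK.comap (Subgroup.inclusion hNK)
    have h2 : (⊥ : Subgroup K).comap (Subgroup.inclusion hNK) = ⊥ := by
      rw [MonoidHom.comap_bot]
      exact (MonoidHom.ker_eq_bot_iff _).2 (Subgroup.inclusion_injective hNK)
    rwa [h2] at h1
  obtain ⟨A, B, C, hA, hB, hC, hAB, hBC, hCfin, hAp, hBp, hCp, hAmax, hchain⟩ :=
    hmain N c lfN hUN hlenN
  have hA' : (A.map N.subtype).Normal := ConjAct.normal_of_characteristic_of_normal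
  have hB' : (B.map N.subtype).Normal := ConjAct.normal_of_characteristic_of_normal
  have hC' : (C.map N.subtype).Normal := ConjAct.normal_of_characteristic_of_normal
  refine ⟨⟨A.map N.subtype, B.map N.subtype, C.map N.subtype, hA', hB', hC',
    Subgroup.map_mono hAB, Subgroup.map_mono hBC, ?_, hAp.map _, ?_, ?_⟩, ?_⟩
  · refine ⟨?_⟩
    rw [Subgroup.index_map_subtype]
    exact mul_ne_zero hCfin.index_ne_zero hNfin.index_ne_zero
  · rintro _ ⟨x, hx, rfl⟩
    obtain ⟨m, hm, hm'⟩ := hBp x hx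
    exact ⟨m, odd_of_PN hm, x ^ m, hm', by simp⟩
  · rintro _ ⟨x, hx, rfl⟩
    obtain ⟨m, hm, hm'⟩ := hCp x hx
    obtain ⟨k, rfl⟩ := hm.eq_prime_pow
    exact ⟨k, x ^ (2 ^ k), hm', by simp⟩
  · intro H hH hHp
    have hAO : A.map N.subtype ≤ sSup {N : Subgroup G | N.Normal ∧ IsPGroup 2 N} :=
      le_sSup ⟨hA', hAp.map _⟩
    obtain ⟨n1, hn1⟩ := hchain (fun n => (H n).subgroupOf N)
      (fun a b hab => Subgroup.comap_mono (hH hab)) (fun n => ⟨(hHp n).1.comap_subtype, by
        intro x hx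
        exact (hHp n).2 (hAO ⟨x, hx, rfl⟩)⟩)
    -- the images in the finite quotient
    have hfinq : Finite (G ⧸ N) := Subgroup.finite_quotient_of_finiteIndex
    have hex : ∃ n2, ∀ m ≥ n2, (H m).map (QuotientGroup.mk' N) =
        (H n2).map (QuotientGroup.mk' N) := by
      have hne : (Set.range (fun n => Nat.card ((H n).map (QuotientGroup.mk' N)))).Nonempty :=
        ⟨_, 0, rfl⟩
      obtain ⟨n2, hn2⟩ := Nat.sInf_mem hne
      refine ⟨n2, fun m hm => ?_⟩
      have hle : Nat.card ((H n2).map (QuotientGroup.mk' N)) ≤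
          Nat.card ((H m).map (QuotientGroup.mk' N)) := by
        have h0 : sInf (Set.range (fun n => Nat.card ((H n).map (QuotientGroup.mk' N)))) ≤
          Nat.card ((H m).map (QuotientGroup.mk' N)) := Nat.sInf_le ⟨m, rfl⟩
        exact le_trans (le_of_eq hn2) h0
      exact Subgroup.eq_of_le_of_card_ge (Subgroup.map_mono (hH hm)) hle
    obtain ⟨n2, hn2⟩ := hex
    refine ⟨max n1 n2, fun m hm => ?_⟩
    apply le_antisymm (hH hm)
    intro x hx
    have h1 : (QuotientGroup.mk' N) x ∈ (H m).map (QuotientGroup.mk' N) := by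
      rw [hn2 m (le_trans (le_max_right _ _) hm), ← hn2 (max n1 n2) (le_max_right _ _)]
      exact ⟨x, hx, rfl⟩
    obtain ⟨y, hy, hxy⟩ := h1
    have h2 : y⁻¹ * x ∈ N := QuotientGroup.eq.1 hxy
    have h3 : y⁻¹ * x ∈ H (max n1 n2) :=
      (H (max n1 n2)).mul_mem ((H (max n1 n2)).inv_mem (hH hm hy)) hx
    have h4 : (⟨y⁻¹ * x, h2⟩ : N) ∈ (H m).subgroupOf N := by
      have h5 := hn1 m (le_trans (le_max_left _ _) hm)
      have h6 := hn1 (max n1 n2) (le_max_left _ _)
      have h7 : (H m).subgroupOf N = (H (max n1 n2)).subgroupOf N := h5.trans h6.symm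
      rw [h7]; exact h3
    have h5 : y⁻¹ * x ∈ H m := h4
    have h6 := (H m).mul_mem hy h5
    rwa [mul_inv_cancel_left] at h6

end Pool.Agent.Helper867_Rae
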