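import Pool.Agent.Helper867_Rae.Base2
import Pool.Agent.Helper867_Rae.Stmts2

set_option autoImplicit false

namespace Pool.Agent.Helper867_Rae.JobF1

open Pool.Agent.TH62.PL Pool.Agent.Helper867_Rae

variable {A : Type} [AddCommGroup A]

/-- a decreasing chain: the subgroups `(2 ^ k A)[2]` are eventually constant, hence `2 ^ n A` is
divisible by `2` for some `n` -/
theorem exists_div (hA : ∀ a : A, ∃ k : ℕ, 2 ^ k • a = 0)
    (hfin : Finite {a : A // 2 • a = 0}) :
    ∃ n : ℕ, ∀ a : A, ∃ b : A, 2 ^ n • a = 2 ^ (n + 1) • b := by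
  classical
  let S : ℕ → Set A := fun k => {a : A | 2 • a = 0 ∧ ∃ b : A, a = 2 ^ k • b}
  have hSfin : ∀ k, (S k).Finite := by
    intro k
    refine Set.Finite.subset (s := {a : A | 2 • a = 0}) (@Set.toFinite _ _ hfin) ?_
    intro a ha
    exact ha.1
  have hanti : ∀ k j : ℕ, S (k + j) ⊆ S k := by
    intro k j a ha
    obtain ⟨h1, b, hb⟩ := ha
    refine ⟨h1, 2 ^ j • b, ?_⟩
    rw [hb, pow_add, mul_nsmul']
  obtain ⟨n, hn⟩ : ∃ n : ℕ, ∀ m : ℕ, (S n).ncard ≤ (S m).ncard := by
    have hex : ∃ c : ℕ, ∃ m : ℕ, (S m).ncard = c := ⟨_, 0, rfl⟩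
    obtain ⟨n, hn⟩ := Nat.find_spec hex
    exact ⟨n, fun m => hn ▸ Nat.find_min' hex ⟨m, rfl⟩⟩
  have hst : ∀ j : ℕ, S (n + j) = S n := fun j =>
    Set.eq_of_subset_of_ncard_le (hanti n j) (hn _) (hSfin n)
  have key : ∀ j : ℕ, ∀ c : A, 2 ^ j • (2 ^ n • c) = 0 → ∃ b : A, 2 ^ n • c = 2 ^ (n + 1) • b := by
    intro j
    induction j with
    | zero =>
      intro c hc
      refine ⟨0, ?_⟩
      rw [pow_zero, one_smul] at hc
      rw [hc, smul_zero]
    | succ j ih =>
      intro c hc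
      have hy : 2 ^ j • (2 ^ n • c) ∈ S n := by
        refine ⟨?_, 2 ^ j • c, ?_⟩
        · rw [← mul_nsmul', ← pow_succ']
          exact hc
        · rw [← mul_nsmul', ← mul_nsmul', mul_comm]
      rw [← hst (j + 1)] at hy
      obtain ⟨-, w, hw⟩ := hy
      have h1 : 2 ^ j • (2 ^ n • (c - 2 • w)) = 0 := by
        rw [smul_sub, smul_sub, hw, ← mul_nsmul', ← mul_nsmul',
          show 2 ^ (n + (j + 1)) = 2 ^ j * 2 ^ n * 2 by ring, sub_self]
      obtain ⟨b, hb⟩ := ih _ h1
      refine ⟨b + w, ?_⟩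
      rw [smul_sub, sub_eq_iff_eq_add, ← mul_nsmul', ← pow_succ] at hb
      rw [hb, smul_add]
  refine ⟨n, fun a => ?_⟩
  obtain ⟨k, hk⟩ := hA (2 ^ n • a)
  exact key k a hk

theorem finite_tors (hfin : Finite {a : A // 2 • a = 0}) (m : ℕ) :
    {a : A | 2 ^ m • a = 0}.Finite := by
  induction m with
  | zero =>
    refine Set.Finite.subset (Set.finite_singleton (0 : A)) ?_
    intro a ha
    simpa using ha
  | succ m ih =>
    refine Set.Finite.of_finite_fibers (fun a : A => 2 • a) (Set.Finite.subset ih ?_) ?_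
    · rintro _ ⟨a, ha, rfl⟩
      have ha' : 2 ^ (m + 1) • a = 0 := ha
      rw [pow_succ, mul_nsmul'] at ha'
      exact ha'
    · rintro _ ⟨a, -, rfl⟩
      have h2 : {a : A | 2 • a = 0}.Finite := @Set.toFinite _ _ hfin
      refine Set.Finite.subset (h2.image (fun x => x + a)) ?_
      rintro x ⟨-, hx⟩
      refine ⟨x - a, ?_, by simp⟩
      have hx' : 2 • x = 2 • a := hx
      show 2 • (x - a) = 0
      rw [smul_sub, hx', sub_self]

/-- the prime case -/
theorem prime_case (hA : ∀ a : A, ∃ k : ℕ, 2 ^ k • a = 0) (n : ℕ)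
    (hn : ∀ a : A, ∃ b : A, 2 ^ n • a = 2 ^ (n + 1) • b) (h : A →+ A) (l : ℕ) (hl : l.Prime)
    (h4 : ∀ a, 4 • a = 0 → h a = a) (hh : ∀ a, (h^[l]) (2 ^ n • a) = 2 ^ n • a) (a : A) :
    h (2 ^ n • a) = 2 ^ n • a := by
  have key : ∀ k : ℕ, ∀ c : A, 2 ^ k • (2 ^ n • c) = 0 → h (2 ^ n • c) = 2 ^ n • c := by
    intro k
    induction k with
    | zero =>
      intro c hc
      rw [pow_zero, one_smul] at hc
      rw [hc, map_zero]
    | succ k ih =>
      intro c hc
      have h1 : h (2 ^ n • (2 • c)) = 2 ^ n • (2 • c) := by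
        apply ih
        rw [← mul_nsmul', ← mul_nsmul',
          show 2 ^ k * 2 ^ n * 2 = 2 ^ (k + 1) * 2 ^ n by ring, mul_nsmul']
        exact hc
      by_contra hne
      obtain ⟨b, hb⟩ := hn c
      obtain ⟨y, hy⟩ : ∃ y, y = h (2 ^ n • b) - 2 ^ n • b := ⟨_, rfl⟩
      have hb' : 2 ^ n • c = 2 • (2 ^ n • b) := by
        rw [hb, ← mul_nsmul', ← pow_succ']
      have hy2 : 2 • y = h (2 ^ n • c) - 2 ^ n • c := by
        rw [hy, hb', smul_sub, map_nsmul h 2]
      have hy2' : ¬ 2 ^ 1 • y = 0 := by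
        rw [pow_one, hy2, sub_eq_zero]
        exact hne
      have hy4 : 2 ^ (1 + 1) • y = 0 := by
        rw [pow_succ, pow_one, mul_nsmul', hy2, smul_sub, ← map_nsmul h 2, ← mul_nsmul',
          mul_comm, mul_nsmul', h1, sub_self]
      have hord : addOrderOf y = 2 ^ (1 + 1) := addOrderOf_eq_prime_pow hy2' hy4
      have hfix : h y = y := h4 y (by simpa using hy4)
      have hit : ∀ i : ℕ, (h^[i]) (2 ^ n • b) = 2 ^ n • b + i • y := by
        intro i
        induction i with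
        | zero => simp
        | succ i ih =>
          rw [Function.iterate_succ_apply', ih, map_add, map_nsmul h i, hfix, succ_nsmul]
          have : h (2 ^ n • b) = 2 ^ n • b + y := by rw [hy]; abel
          rw [this]
          abel
      have h3 : l • y = 0 := by
        have e := hit l
        rw [hh b] at e
        exact (add_eq_left.mp e.symm)
      have h5 : 4 ∣ l := by
        have := addOrderOf_dvd_of_nsmul_eq_zero h3
        rw [hord] at this
        exact this
      rcases (Nat.dvd_prime hl).mp h5 with h6 | h6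
      · omega
      · rw [← h6] at hl
        exact absurd hl (by norm_num)
  obtain ⟨k, hk⟩ := hA (2 ^ n • a)
  exact key k a hk

theorem iter_hom (g : A →+ A) (m : ℕ) : ∃ h : A →+ A, ∀ a, h a = (g^[m]) a := by
  induction m with
  | zero => exact ⟨AddMonoidHom.id A, fun a => rfl⟩
  | succ m ih =>
    obtain ⟨h, hh⟩ := ih
    refine ⟨h.comp g, fun a => ?_⟩
    rw [Function.iterate_succ_apply, AddMonoidHom.comp_apply, hh]

theorem fin_case (hA : ∀ a : A, ∃ k : ℕ, 2 ^ k • a = 0) (n : ℕ)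
    (hn : ∀ a : A, ∃ b : A, 2 ^ n • a = 2 ^ (n + 1) • b) (m : ℕ) (hm : 0 < m) :
    ∀ (g : A →+ A), (∀ a, 4 • a = 0 → g a = a) →
    (∀ a, (g^[m]) (2 ^ n • a) = 2 ^ n • a) → ∀ a : A, g (2 ^ n • a) = 2 ^ n • a := by
  induction m using Nat.strong_induction_on with
  | _ m ih =>
    intro g h4 hg
    by_cases h1 : m = 1
    · subst h1
      simpa using hg
    · have hp : (Nat.minFac m).Prime := Nat.minFac_prime h1
      obtain ⟨m', hm'⟩ := Nat.minFac_dvd m
      have hm0 : 0 < m' := by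
        rcases Nat.eq_zero_or_pos m' with h0 | h0
        · rw [h0, mul_zero] at hm'
          omega
        · exact h0
      have hlt : m' < m := by
        have := hp.two_le
        nlinarith
      obtain ⟨h, hh⟩ := iter_hom g m'
      have e4 : ∀ a, 4 • a = 0 → h a = a := by
        intro a ha
        rw [hh]
        exact Function.iterate_fixed (h4 a ha) m'
      have hfun : (h : A → A) = g^[m'] := funext hh
      have e5 : ∀ a, (h^[Nat.minFac m]) (2 ^ n • a) = 2 ^ n • a := by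
        intro a
        rw [hfun, ← Function.iterate_mul, mul_comm, ← hm']
        exact hg a
      have e6 := prime_case hA n hn h _ hp e4 e5
      refine ih m' hlt hm0 g h4 (fun a => ?_)
      rw [← hh]
      exact e6 a

theorem target : S_F1 := by
  intro A _ hA hfin
  obtain ⟨n, hn⟩ := exists_div hA hfin
  have hdiv : ∀ (j : ℕ) (a : A), ∃ b : A, 2 ^ n • a = 2 ^ (n + j) • b := by
    intro j
    induction j with
    | zero => exact fun a => ⟨a, rfl⟩
    | succ j ih =>
      intro a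
      obtain ⟨b, hb⟩ := ih a
      obtain ⟨b', hb'⟩ := hn b
      refine ⟨b', ?_⟩
      rw [hb, show 2 ^ (n + j) = 2 ^ j * 2 ^ n by ring, mul_nsmul', hb', ← mul_nsmul',
        show 2 ^ j * 2 ^ (n + 1) = 2 ^ (n + (j + 1)) by ring]
  refine ⟨n + 2, (finite_tors hfin (n + 2)).to_subtype, ?_⟩
  rintro g ⟨m, hm, hgm⟩ hg a
  have h4 : ∀ a : A, 4 • a = 0 → g.toAddMonoidHom a = a := by
    intro a ha
    apply hg
    rw [show 2 ^ (n + 2) = 2 ^ n * 4 by ring, mul_nsmul', ha, smul_zero]
  have hD := fin_case hA n hn m hm g.toAddMonoidHom h4 (fun a => hgm _)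
  obtain ⟨b, hb⟩ := hdiv n a
  have e1 : g (a - 2 ^ n • b) = a - 2 ^ n • b := by
    apply hg
    rw [show 2 ^ (n + 2) = 4 * 2 ^ n by ring, mul_nsmul', smul_sub, hb, pow_add, mul_nsmul',
      sub_self, smul_zero]
  have e2 : g (2 ^ n • b) = 2 ^ n • b := hD b
  have e3 : a = (a - 2 ^ n • b) + 2 ^ n • b := by abel
  calc g a = g ((a - 2 ^ n • b) + 2 ^ n • b) := by rw [← e3]
    _ = g (a - 2 ^ n • b) + g (2 ^ n • b) := map_add _ _ _
    _ = a := by rw [e1, e2]; abel

end Pool.Agent.Helper867_Rae.JobF1
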