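import Pool.Agent.Helper867_Rae.Base2
import Pool.Agent.Helper867_Rae.Stmts

set_option autoImplicit false

/-! Lemma C -/

namespace Pool.Agent.Helper867_Rae

open Pool.Agent.TH62.PL
open scoped Pointwise

/-- a normal subgroup acting nontrivially, whose commutators act trivially -/
lemma exists_abelian_acting {Y J : Type} [Group Y] [MulAction Y J] (hY : Group.IsSolvable Y)
    (hnt : ∃ (y : Y) (j : J), y • j ≠ j) :
    ∃ A : Subgroup Y, A.Normal ∧ (∃ a ∈ A, ∃ j : J, a • j ≠ j) ∧
      ∀ a ∈ A, ∀ b ∈ A, ∀ j : J, (a * b * a⁻¹ * b⁻¹) • j = j := by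
  classical
  obtain ⟨n, hn⟩ := hY.solvable
  have hex : ∃ n, ∀ y ∈ derivedSeries Y n, ∀ j : J, y • j = j :=
    ⟨n, fun y hy j => by rw [hn, Subgroup.mem_bot] at hy; rw [hy, one_smul]⟩
  have h0 : Nat.find hex ≠ 0 := by
    intro h0
    have := Nat.find_spec hex
    rw [h0] at this
    obtain ⟨y, j, hyj⟩ := hnt
    exact hyj (this y (by simp) j)
  obtain ⟨m, hm⟩ := Nat.exists_eq_succ_of_ne_zero h0
  refine ⟨derivedSeries Y m, inferInstance, ?_, ?_⟩
  · have := Nat.find_min hex (m := m) (by omega)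
    push Not at this
    obtain ⟨a, ha, j, hj⟩ := this
    exact ⟨a, ha, j, hj⟩
  · intro a ha b hb j
    have h1 := Nat.find_spec hex
    rw [hm] at h1
    apply h1
    rw [Nat.succ_eq_add_one, derivedSeries_succ]
    exact Subgroup.commutator_mem_commutator ha hb

theorem lemC : S_C := by
  suffices H : ∀ (n c : ℕ) (Y J : Type) [Group Y] [Finite Y] [Finite J] [MulAction Y J],
      Nat.card J = n → Group.IsSolvable Y → MulAction.IsPretransitive Y J → 1 < Nat.card J →
      (∃ D : Set Y, Subgroup.closure D = ⊤ ∧ (∀ y ∈ D, ∀ g : Y, g * y * g⁻¹ ∈ D) ∧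
        ∀ y ∈ D, Set.ncard {j : J | y • j ≠ j} ≤ c) → Nat.card J ≤ 2 * c by
    intro c Y J _ _ _ _ h1 h2 h3 h4
    exact H _ c Y J rfl h1 h2 h3 h4
  intro n
  induction n using Nat.strong_induction_on with
  | _ n ih =>
  rintro c Y J _ _ _ _ hn hY htr hJ ⟨D, hD1, hD2, hD3⟩
  classical
  -- an element of `D` acting nontrivially
  have hnt : ∃ (y : Y) (j : J), y • j ≠ j := by
    by_contra hcon
    push Not at hcon
    have : Subsingleton J := ⟨fun i j => by
      obtain ⟨g, hg⟩ := htr.exists_smul_eq i j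
      rw [← hg, hcon]⟩
    have : Nat.card J ≤ 1 := Finite.card_le_one_iff_subsingleton.2 this
    omega
  have hxD : ∃ x ∈ D, ∃ j : J, x • j ≠ j := by
    by_contra hcon
    push Not at hcon
    obtain ⟨y, j, hyj⟩ := hnt
    apply hyj
    have hy : y ∈ Subgroup.closure D := by rw [hD1]; trivial
    have : Subgroup.closure D ≤ MulAction.stabilizer Y j := by
      rw [Subgroup.closure_le]
      intro x hx
      exact hcon x hx j
    exact this hy
  obtain ⟨A, hA, ⟨a0, ha0, j0, ha0j⟩, hcomm⟩ := exists_abelian_acting hY hnt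
  have hcomm' : ∀ a ∈ A, ∀ b ∈ A, ∀ j : J, (a * b) • j = (b * a) • j := by
    intro a ha b hb j
    have h1 := hcomm a ha b hb ((b * a) • j)
    rw [← mul_smul] at h1
    rw [← h1]; congr 1; group
  by_cases hAtr : ∀ j : J, ∃ a ∈ A, a • j0 = j
  · -- `A` is transitive
    have hfree : ∀ a ∈ A, (∃ j : J, a • j ≠ j) → ∀ j : J, a • j ≠ j := by
      intro a ha ⟨j1, hj1⟩ j hj
      apply hj1
      obtain ⟨b, hb, rfl⟩ := hAtr j
      obtain ⟨b', hb', rfl⟩ := hAtr j1
      have h2 : b' • j0 = (b' * b⁻¹) • (b • j0) := by rw [smul_smul, inv_mul_cancel_right]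
      rw [h2, ← mul_smul, hcomm' a ha _ (A.mul_mem hb' (A.inv_mem hb)), mul_smul, hj]
    obtain ⟨x, hx, j1, hj1⟩ := hxD
    by_cases hcx : ∀ a ∈ A, ∀ j : J, (a * x * a⁻¹ * x⁻¹) • j = j
    · have hall : ∀ j : J, x • j ≠ j := by
        intro j hj
        apply hj1
        obtain ⟨b, hb, rfl⟩ := hAtr j
        obtain ⟨b', hb', rfl⟩ := hAtr j1
        have h2 : b' • j0 = (b' * b⁻¹) • (b • j0) := by rw [smul_smul, inv_mul_cancel_right]
        have h3 := hcx _ (A.mul_mem hb' (A.inv_mem hb)) ((x * (b' * b⁻¹)) • (b • j0))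
        rw [← mul_smul] at h3
        have h4 : b' * b⁻¹ * x * (b' * b⁻¹)⁻¹ * x⁻¹ * (x * (b' * b⁻¹)) = b' * b⁻¹ * x := by group
        rw [h4] at h3
        rw [h2, ← mul_smul, ← h3, mul_smul, hj]
      have h5 := hD3 x hx
      have h6 : {j : J | x • j ≠ j} = Set.univ := Set.eq_univ_of_forall hall
      rw [h6, Set.ncard_univ] at h5
      omega
    · push Not at hcx
      obtain ⟨a, ha, j2, hj2⟩ := hcx
      have heA : a * x * a⁻¹ * x⁻¹ ∈ A := by
        have e : a * x * a⁻¹ * x⁻¹ = a * (x * a⁻¹ * x⁻¹) := by group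
        rw [e]
        exact A.mul_mem ha (hA.conj_mem _ (A.inv_mem ha) x)
      have hall := hfree _ heA ⟨j2, hj2⟩
      have h5 := hD3 x hx
      have h6 := hD3 _ (hD2 x hx a)
      have h7 : (Set.univ : Set J) ⊆ {j : J | x • j ≠ j} ∪ {j : J | (a * x * a⁻¹) • j ≠ j} := by
        intro j _
        by_contra hcon
        simp only [Set.mem_union, Set.mem_setOf_eq, not_or, not_not] at hcon
        apply hall j
        have h8 : x⁻¹ • j = j := by
          conv_lhs => rw [← hcon.1]
          rw [inv_smul_smul]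
        rw [mul_smul, h8, hcon.2]
      have h8 := Set.ncard_le_ncard h7 (Set.toFinite _)
      rw [Set.ncard_univ] at h8
      have h9 := Set.ncard_union_le {j : J | x • j ≠ j} {j : J | (a * x * a⁻¹) • j ≠ j}
      omega
  · -- `A` is intransitive
    push Not at hAtr
    obtain ⟨j3, hj3⟩ := hAtr
    set B : Set J := MulAction.orbit A j0 with hB
    have hBl : MulAction.IsBlock Y B := MulAction.IsBlock.orbit_of_normal j0
    have hj0B : j0 ∈ B := MulAction.mem_orbit_self j0
    have hBcard : 1 < B.ncard := by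
      rw [Set.one_lt_ncard (Set.toFinite _)]
      exact ⟨j0, hj0B, a0 • j0, ⟨⟨a0, ha0⟩, rfl⟩, fun h => ha0j h.symm⟩
    have hmul := hBl.ncard_block_mul_ncard_orbit_eq ⟨j0, hj0B⟩
    set J' : Set (Set J) := MulAction.orbit Y B with hJ'
    have hJ'card : Nat.card J' = J'.ncard := rfl
    have h1 : 1 < Nat.card J' := by
      rw [hJ'card]
      by_contra hcon
      have h2 : J'.ncard ≤ 1 := by omega
      have h3 : Nat.card J ≤ B.ncard := by
        rw [← hmul]
        calc B.ncard * J'.ncard ≤ B.ncard * 1 := by gcongr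
          _ = B.ncard := mul_one _
      have h4 : B = Set.univ := by
        apply Set.eq_of_subset_of_ncard_le (Set.subset_univ _) _ (Set.toFinite _)
        rw [Set.ncard_univ]; exact h3
      have h5 : j3 ∈ B := by rw [h4]; trivial
      obtain ⟨a, ha⟩ := h5
      exact hj3 a a.2 ha
    have h2 : Nat.card J' < n := by
      rw [← hn, ← hmul, hJ'card]
      have : 0 < J'.ncard := by omega
      nlinarith
    have hdisj : ∀ C ∈ J', ∀ C' ∈ J', ∀ j, j ∈ C → j ∈ C' → C = C' := by
      rintro _ ⟨g, rfl⟩ _ ⟨g', rfl⟩ j hj hj'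
      by_contra hne
      exact Set.disjoint_left.1 (hBl hne) hj hj'
    have h3 := ih (Nat.card J') h2 (c / B.ncard) Y J' rfl hY inferInstance h1
      ⟨D, hD1, hD2, fun y hy => ?_⟩
    · calc Nat.card J = B.ncard * Nat.card J' := by rw [← hmul, hJ'card]
        _ ≤ B.ncard * (2 * (c / B.ncard)) := by gcongr
        _ = 2 * (B.ncard * (c / B.ncard)) := by ring
        _ ≤ 2 * c := by gcongr; exact Nat.mul_div_le c _
    · -- the number of moved blocks
      rw [Nat.le_div_iff_mul_le (by omega)]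
      refine le_trans ?_ (hD3 y hy)
      have hex : ∀ C : J', ∃ g : Y, g • B = (C : Set J) := fun C => C.2
      choose g hg using hex
      have hinj : Function.Injective (fun q : {C : J' | y • C ≠ C} × B =>
          (⟨g q.1.1 • (q.2 : J), by
            intro hfix
            apply q.1.2
            apply Subtype.ext
            have h4 : g q.1.1 • (q.2 : J) ∈ (q.1.1 : Set J) := by
              rw [← hg q.1.1]
              exact Set.smul_mem_smul_set q.2.2
            refine hdisj _ (y • q.1.1).2 _ q.1.1.2 (g q.1.1 • (q.2 : J)) ?_ h4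
            have h5 : y • (g q.1.1 • (q.2 : J)) ∈ y • (q.1.1 : Set J) := Set.smul_mem_smul_set h4
            rw [hfix] at h5
            exact h5⟩ : {j : J | y • j ≠ j})) := by
        rintro ⟨C, b⟩ ⟨C', b'⟩ h
        have h4 : g C.1 • (b : J) = g C'.1 • (b' : J) := congrArg Subtype.val h
        have h5 : g C.1 • (b : J) ∈ (C.1 : Set J) := by
          rw [← hg C.1]; exact Set.smul_mem_smul_set b.2
        have h6 : g C'.1 • (b' : J) ∈ (C'.1 : Set J) := by
          rw [← hg C'.1]; exact Set.smul_mem_smul_set b'.2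
        have h7 : C = C' := by
          apply Subtype.ext
          apply Subtype.ext
          rw [← h4] at h6
          exact hdisj _ C.1.2 _ C'.1.2 _ h5 h6
        subst h7
        have h8 : b = b' := Subtype.ext (smul_left_cancel _ h4)
        rw [h8]
      have h4 := Nat.card_le_card_of_injective _ hinj
      rw [Nat.card_prod] at h4
      exact h4

end Pool.Agent.Helper867_Rae
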