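import Pool.Agent.Helper867_Rae.Base2
import Pool.Agent.Helper867_Rae.Stmts

set_option autoImplicit false

/-! Z1 -/

namespace Pool.Agent.Helper867_Rae

open Pool.Agent.TH62.PL

/-- a finite family of `p`-subgroups that normalise each other generates a `p`-subgroup -/
lemma isPGroup_iSup_inv {p : ℕ} [Fact p.Prime] {X : Type} [Group X] {ι : Type} [Finite ι]
    (Q : ι → Subgroup X) (hQ : ∀ i, IsPGroup p (Q i))
    (hc : ∀ i j, Inv (Q i) (Q j)) : IsPGroup p (⨆ i, Q i : Subgroup X) := by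
  classical
  have := Fintype.ofFinite ι
  have key : ∀ s : Finset ι, IsPGroup p (⨆ i ∈ s, Q i : Subgroup X) ∧
      ∀ j, Inv (Q j) (⨆ i ∈ s, Q i : Subgroup X) := by
    intro s
    induction s using Finset.induction_on with
    | empty =>
      have e : (⨆ i ∈ (∅ : Finset ι), Q i) = ⊥ := by simp
      rw [e]
      exact ⟨IsPGroup.of_bot, fun j => Inv.bot _⟩
    | insert a s _ ih =>
      rw [Finset.iSup_insert]
      refine ⟨?_, fun j => (hc j a).sup (ih.2 j)⟩
      apply IsPGroup.to_sup_of_normal_right' (hQ a) ih.1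
      intro x hx
      rw [Subgroup.mem_normalizer_iff]
      intro y
      exact ⟨fun hy => ih.2 a x hx y hy, fun hy => by
        have := ih.2 a x⁻¹ ((Q a).inv_mem hx) _ hy
        have e : x⁻¹ * (x * y * x⁻¹) * x⁻¹⁻¹ = y := by group
        rwa [e] at this⟩
  have := (key Finset.univ).1
  have e : (⨆ i ∈ (Finset.univ : Finset ι), Q i) = ⨆ i, Q i := by simp
  rwa [e] at this

theorem z1 : S_Z1 := by
  intro p l c0 hp hB X _ _ hX P hP hcard ι _ _ M hfix hM hcomm
  apply LM.of_commuting hcomm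
  intro i
  -- the stabiliser
  set Pi : Subgroup X := (MulAction.stabilizer P i).map P.subtype with hPi
  have hPiP : Pi ≤ P := by rintro _ ⟨x, _, rfl⟩; exact x.2
  have hmemPi : ∀ x : X, x ∈ Pi ↔ ∃ h : x ∈ P, (⟨x, h⟩ : P) • i = i := by
    intro x
    constructor
    · rintro ⟨y, hy, rfl⟩
      exact ⟨y.2, hy⟩
    · rintro ⟨h, hx⟩
      exact ⟨⟨x, h⟩, hx, rfl⟩
  have hcardPi : Nat.card Pi ≤ p ^ l := by
    obtain ⟨n, hn⟩ := hP.1.exists_card_eq
    obtain ⟨m, hm⟩ := (hP.1.to_le hPiP).exists_card_eq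
    have hne : Pi ≠ P := by
      intro he
      obtain ⟨x, hx⟩ := hfix i
      have h1 : (x : X) ∈ Pi := by rw [he]; exact x.2
      obtain ⟨_, h2⟩ := (hmemPi _).1 h1
      exact hx h2
    have hlt : Nat.card Pi < Nat.card P := by
      apply lt_of_le_of_ne (Subgroup.card_le_of_le hPiP)
      intro he
      exact hne (Subgroup.eq_of_le_of_card_ge hPiP he.ge)
    rw [hn, hm] at hlt
    have hmn : m < n := (Nat.pow_lt_pow_iff_right hp.out.one_lt).1 hlt
    rw [hn] at hcard
    have hnl : n ≤ l + 1 := (Nat.pow_le_pow_iff_right hp.out.one_lt).1 hcard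
    rw [hm]
    exact Nat.pow_le_pow_right hp.out.pos (by omega)
  obtain ⟨S, hPS, hmax⟩ := hP.sylow
  -- `P_i` normalises `M_i`
  have hinv : Inv Pi (M i) := by
    intro x hx y hy
    obtain ⟨h, hxi⟩ := (hmemPi x).1 hx
    have := (hM ⟨x, h⟩ i y).1 hy
    rwa [hxi] at this
  -- invariant `p`-subgroups lie in `S`
  have hkey : ∀ Q : Subgroup X, Q ≤ M i → IsPGroup p Q → Inv Pi Q → Q ≤ S := by
    intro Q hQM hQ hQinv
    set R : P → Subgroup X := fun x => Q.map (MulAut.conj (x : X)).toMonoidHom with hR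
    have hRM : ∀ x : P, R x ≤ M (x • i) := by
      rintro x _ ⟨y, hy, rfl⟩
      exact (hM x i y).1 (hQM hy)
    have hRR : ∀ x x' : P, Inv (R x) (R x') := by
      intro x x'
      by_cases h : x • i = x' • i
      · -- the same conjugate
        have h1 : R x = R x' := by
          have h2 : ∀ a b : P, a • i = b • i → R a ≤ R b := by
            rintro a b hab _ ⟨y, hy, rfl⟩
            have h3 : ((b : X)⁻¹ * (a : X)) ∈ Pi := by
              rw [hmemPi]
              refine ⟨P.mul_mem (P.inv_mem b.2) a.2, ?_⟩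
              have h4 : (⟨(b : X)⁻¹ * (a : X), P.mul_mem (P.inv_mem b.2) a.2⟩ : P) = b⁻¹ * a := rfl
              rw [h4, mul_smul, hab, inv_smul_smul]
            refine ⟨((b : X)⁻¹ * (a : X)) * y * ((b : X)⁻¹ * (a : X))⁻¹, hQinv _ h3 y hy, ?_⟩
            change (b : X) * (((b : X)⁻¹ * (a : X)) * y * ((b : X)⁻¹ * (a : X))⁻¹) * (b : X)⁻¹ =
              (a : X) * y * (a : X)⁻¹
            group
          exact le_antisymm (h2 x x' h) (h2 x' x h.symm)
        rw [h1]
        exact Inv.self _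
      · intro g hg y hy
        have h1 := hcomm _ _ h g (hRM x hg) y (hRM x' hy)
        have h2 : g * y * g⁻¹ = y := by rw [h1]; group
        rwa [h2]
    have h1 : IsPGroup p (⨆ x, R x : Subgroup X) :=
      isPGroup_iSup_inv R (fun x => hQ.map _) hRR
    have h2 : Inv P (⨆ x, R x : Subgroup X) := by
      intro g hg y hy
      have h3 : (⨆ x, R x : Subgroup X).map (MulAut.conj g).toMonoidHom ≤ ⨆ x, R x := by
        rw [Subgroup.map_iSup]
        apply iSup_le
        intro x
        refine le_trans ?_ (le_iSup R ((⟨g, hg⟩ : P) * x))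
        rintro _ ⟨_, ⟨z, hz, rfl⟩, rfl⟩
        refine ⟨z, hz, ?_⟩
        change (g * (x : X)) * z * (g * (x : X))⁻¹ = g * ((x : X) * z * (x : X)⁻¹) * g⁻¹
        group
      exact h3 ⟨y, hy, rfl⟩
    have h4 : IsPGroup p (P ⊔ (⨆ x, R x) : Subgroup X) := by
      apply IsPGroup.to_sup_of_normal_right' hP.1 h1
      intro x hx
      rw [Subgroup.mem_normalizer_iff]
      intro y
      exact ⟨fun hy => h2 x hx y hy, fun hy => by
        have := h2 x⁻¹ (P.inv_mem hx) _ hy
        have e : x⁻¹ * (x * y * x⁻¹) * x⁻¹⁻¹ = y := by group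
        rwa [e] at this⟩
    have h5 := hmax _ h4 le_sup_left
    refine le_trans ?_ (le_sup_right.trans h5)
    refine le_trans ?_ (le_iSup R 1)
    intro y hy
    exact ⟨y, hy, by simp⟩
  -- `UQ` for `P_i` in `M_i P_i`
  set Xi : Subgroup X := Pi ⊔ M i with hXi
  have hU : UQ p (Pi.subgroupOf Xi) := by
    refine ⟨(hP.1.to_le hPiP).comap_subtype, (S : Subgroup X).subgroupOf Xi,
      S.2.comap_subtype, fun T hT hPT => ?_⟩
    set T' := T.map Xi.subtype with hT'
    have hT'p : IsPGroup p T' := hT.map _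
    have hPT' : Pi ≤ T' := by
      intro x hx
      exact ⟨⟨x, (le_sup_left : Pi ≤ Xi) hx⟩, hPT hx, rfl⟩
    have hT'X : T' ≤ Xi := by rintro _ ⟨x, _, rfl⟩; exact x.2
    have h1 : T' ⊓ M i ≤ S := by
      apply hkey _ inf_le_right (hT'p.to_le inf_le_left)
      intro x hx y hy
      exact ⟨T'.mul_mem (T'.mul_mem (hPT' hx) hy.1) (T'.inv_mem (hPT' hx)), hinv x hx y hy.2⟩
    have h2 : T' ≤ S := by
      intro t ht
      obtain ⟨a, ha, b, hb, rfl⟩ := (mem_sup_inv hinv).1 (hT'X ht)
      have h3 : b ∈ T' := by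
        have := T'.mul_mem (T'.inv_mem (hPT' ha)) ht
        rwa [inv_mul_cancel_left] at this
      exact (S : Subgroup X).mul_mem (hPS (hPiP ha)) (h1 ⟨h3, hb⟩)
    intro x hx
    exact h2 ⟨x, hx, rfl⟩
  have hcard' : Nat.card (Pi.subgroupOf Xi) ≤ p ^ l := by
    have : Nat.card (Pi.subgroupOf Xi) = Nat.card Pi :=
      Nat.card_congr (Subgroup.subgroupOfEquivOfLe le_sup_left).toEquiv
    rw [this]; exact hcardPi
  have h1 := hB Xi (by infer_instance) _ hU hcard'
  have h2 := h1.comap (Subgroup.inclusion (le_sup_right : M i ≤ Xi))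
  refine h2.mono ?_
  intro x hx
  rw [Subgroup.mem_comap, Subgroup.mem_bot] at hx
  rw [Subgroup.mem_bot]
  exact Subgroup.inclusion_injective _ (hx.trans (map_one _).symm)

end Pool.Agent.Helper867_Rae
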