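import Pool.Agent.Helper867_Rae.Assemble

set_option autoImplicit false

/-! Thompson's conjecture on the `p`-length: from `S_F` to the form with explicit normal series. -/

namespace Pool.Agent.Helper867_Rae

open Pool.Agent.TH62.PL

/-- the explicit normal series `p', p, p', ..., p'` from `M` to the top -/
def Ser {G : Type} [Group G] (M : Subgroup G) (n : ℕ) : Prop :=
  ∃ N : ℕ → Subgroup G, N 0 = M ∧ N (2 * n + 1) = ⊤ ∧
    (∀ i, N i ≤ N (i + 1)) ∧ (∀ i, (N i).Normal) ∧
    (∀ i, i < 2 * n + 1 →
      (Even i → Nat.Coprime ((N i).subgroupOf (N (i + 1))).index 2) ∧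
      (Odd i → ∃ k : ℕ, ((N i).subgroupOf (N (i + 1))).index = 2 ^ k))

lemma PN_two_compl_iff {m : ℕ} (hm : m ≠ 0) : PN {2}ᶜ m ↔ Nat.Coprime m 2 := by
  constructor
  · intro h
    exact (h.coprime' (PN.prime Nat.prime_two rfl))
  · intro h
    refine ⟨hm, fun q hq hqm hq2 => ?_⟩
    have hq2' : q = 2 := hq2
    subst hq2'
    exact (Nat.Prime.coprime_iff_not_dvd Nat.prime_two).1 h.symm hqm

lemma Ser_iff {G : Type} [Group G] [Finite G] {M : Subgroup G} (hM : M.Normal) (n : ℕ) :
    Ser M n ↔ Len {2} n M := by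
  induction n generalizing M with
  | zero =>
    constructor
    · rintro ⟨N, h0, h1, hle, hn, h⟩
      have h2 := (h 0 (by norm_num)).1 (by norm_num)
      have h1' : N (0 + 1) = ⊤ := h1
      rw [h0, h1'] at h2
      show PF {2}ᶜ M ⊤
      rw [PF.iff_relIndex (Inv.of_normal _ hM)]
      exact (PN_two_compl_iff (Subgroup.index_ne_zero_of_finite)).2 h2
    · intro h
      refine ⟨fun i => if i = 0 then M else ⊤, by simp, by simp, ?_, ?_, ?_⟩
      · intro i
        simp
      · intro i
        by_cases hi : i = 0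
        · simpa [hi] using hM
        · simp only [hi, if_false]; infer_instance
      · intro i hi
        have hi0 : i = 0 := by omega
        subst hi0
        refine ⟨fun _ => ?_, fun ho => absurd ho (by decide)⟩
        have h2 : PF {2}ᶜ M ⊤ := h
        rw [PF.iff_relIndex (Inv.of_normal _ hM)] at h2
        exact (PN_two_compl_iff (Subgroup.index_ne_zero_of_finite)).1 h2
  | succ n ih =>
    constructor
    · rintro ⟨N, h0, h1, hle, hn, h⟩
      refine ⟨N 1, N 2, hn 1, hn 2, h0 ▸ hle 0, hle 1, ?_, ?_, ?_⟩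
      · rw [PF.iff_relIndex (Inv.of_normal _ hM)]
        have h2 := (h 0 (by omega)).1 (by norm_num)
        rw [h0] at h2
        exact (PN_two_compl_iff (Subgroup.index_ne_zero_of_finite)).2 h2
      · rw [PF.iff_relIndex (Inv.of_normal _ (hn 1))]
        obtain ⟨k, hk⟩ := (h 1 (by omega)).2 (by norm_num)
        have h3 : (N 1).relIndex (N 2) = 2 ^ k := hk
        rw [h3]
        exact PN.prime_pow Nat.prime_two k
      · rw [← ih (hn 2)]
        refine ⟨fun i => N (i + 2), rfl, ?_, fun i => hle _, fun i => hn _, fun i hi => ?_⟩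
        · have : 2 * n + 1 + 2 = 2 * (n + 1) + 1 := by ring
          show N (2 * n + 1 + 2) = ⊤
          rw [this]; exact h1
        · have h2 := h (i + 2) (by omega)
          refine ⟨fun he => h2.1 ?_, fun ho => h2.2 ?_⟩
          · exact he.add (by norm_num)
          · exact ho.add_even (by norm_num)
    · rintro ⟨A, B, hA, hB, hMA, hAB, hp', hp, hl⟩
      obtain ⟨N, h0, h1, hle, hn, h⟩ := (ih hB).2 hl
      refine ⟨fun i => match i with
        | 0 => M
        | 1 => A
        | j + 2 => N j, rfl, ?_, ?_, ?_, ?_⟩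
      · have : 2 * (n + 1) + 1 = 2 * n + 1 + 2 := by ring
        rw [this]; exact h1
      · intro i
        match i with
        | 0 => exact hMA
        | 1 => show A ≤ N 0
               rw [h0]; exact hAB
        | j + 2 => exact hle j
      · intro i
        match i with
        | 0 => exact hM
        | 1 => exact hA
        | j + 2 => exact hn j
      · intro i hi
        match i with
        | 0 =>
          refine ⟨fun _ => ?_, fun ho => absurd ho (by decide)⟩
          rw [PF.iff_relIndex (Inv.of_normal _ hM)] at hp'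
          exact (PN_two_compl_iff (Subgroup.index_ne_zero_of_finite)).1 hp'
        | 1 =>
          refine ⟨fun he => absurd he (by decide), fun _ => ?_⟩
          rw [PF.iff_relIndex (Inv.of_normal _ hA)] at hp
          show ∃ k : ℕ, (A.subgroupOf (N 0)).index = 2 ^ k
          rw [h0]
          exact hp.eq_prime_pow
        | j + 2 =>
          have h2 := h j (by omega)
          refine ⟨fun he => h2.1 ?_, fun ho => h2.2 ?_⟩
          · rw [Nat.even_add] at he
            exact he.2 (by norm_num)
          · rw [Nat.odd_add] at ho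
            exact ho.2 (by norm_num)

/-- a `p`-subgroup in a unique Sylow `p`-subgroup -/
lemma UQ_of_existsUnique {G : Type} [Group G] {p : ℕ} {A : Subgroup G} (hA : IsPGroup p A)
    (h : ∃! P : Sylow p G, A ≤ (P : Subgroup G)) : UQ p A := by
  obtain ⟨P, hP, hu⟩ := h
  refine ⟨hA, P, P.isPGroup', fun T hT hAT => ?_⟩
  obtain ⟨Q, hQ⟩ := hT.exists_le_sylow
  have := hu Q (hAT.trans hQ)
  rw [← this]
  exact hQ

theorem thompson_two : ∃ f : ℕ → ℕ, ∀ (G : Type) [Group G] [Finite G] (A : Subgroup G),
      (∃ n : ℕ, Ser (⊥ : Subgroup G) n) →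
      IsPGroup 2 A → (∃! P : Sylow 2 G, A ≤ (P : Subgroup G)) →
      Ser (⊥ : Subgroup G) (f (Nat.card A)) := by
  have : Fact (Nat.Prime 2) := ⟨Nat.prime_two⟩
  choose c hc using fun l => finite_part 2 l
  refine ⟨c, ?_⟩
  intro G _ _ A ⟨n, hn⟩ hA hu
  rw [Ser_iff inferInstance]
  exact hc (Nat.card A) G ⟨n, (Ser_iff inferInstance n).1 hn⟩ A (UQ_of_existsUnique hA hu)
    (Nat.lt_two_pow_self).le

end Pool.Agent.Helper867_Rae
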